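import Pool.Agent.Lib.MP_c86656_gt.Chart

/-! Bochner formula for `J`-holomorphic curves in a chart, inside and at a Lagrangian boundary. -/

open Set Filter Topology Manifold MeasureTheory Bundle
open scoped ContDiff ENNReal

namespace Pool.Agent.MP_c86656_gt

noncomputable section

variable {E : Type*} [NormedAddCommGroup E] [NormedSpace ℝ E]

namespace Bochner

lemma dW_comp {H K : Type*} [NormedAddCommGroup H] [NormedSpace ℝ H] [NormedAddCommGroup K]
    [NormedSpace ℝ K] (B : E → H →L[ℝ] K) {w : ℂ → E} {V : ℂ → H} {S : Set ℂ} {z : ℂ}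
    (hS : UniqueDiffWithinAt ℝ S z) (hB : DifferentiableAt ℝ B (w z))
    (hw : DifferentiableWithinAt ℝ w S z) (hV : DifferentiableWithinAt ℝ V S z) (a : ℂ) :
    DifferentiableWithinAt ℝ (fun x => B (w x) (V x)) S z ∧
    fderivWithin ℝ (fun x => B (w x) (V x)) S z a =
      fderiv ℝ B (w z) (fderivWithin ℝ w S z a) (V z) + B (w z) (fderivWithin ℝ V S z a) := by
  have h1 : HasFDerivWithinAt (fun x => B (w x))
      ((fderiv ℝ B (w z)).comp (fderivWithin ℝ w S z)) S z :=
    hB.hasFDerivAt.comp_hasFDerivWithinAt z hw.hasFDerivWithinAt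
  have h2 := h1.clm_apply hV.hasFDerivWithinAt
  refine ⟨h2.differentiableWithinAt, ?_⟩
  rw [h2.fderivWithin hS]
  simp only [add_apply, ContinuousLinearMap.comp_apply, ContinuousLinearMap.flip_apply]
  abel

lemma dW_bilin {F : Type*} [NormedAddCommGroup F] [NormedSpace ℝ F]
    (B : E → E →L[ℝ] E →L[ℝ] F) {w V W : ℂ → E} {S : Set ℂ} {z : ℂ}
    (hS : UniqueDiffWithinAt ℝ S z) (hB : DifferentiableAt ℝ B (w z))
    (hw : DifferentiableWithinAt ℝ w S z) (hV : DifferentiableWithinAt ℝ V S z)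
    (hW : DifferentiableWithinAt ℝ W S z) (a : ℂ) :
    fderivWithin ℝ (fun x => B (w x) (V x) (W x)) S z a =
      fderiv ℝ B (w z) (fderivWithin ℝ w S z a) (V z) (W z)
        + B (w z) (fderivWithin ℝ V S z a) (W z) + B (w z) (V z) (fderivWithin ℝ W S z a) := by
  obtain ⟨h1, h2⟩ := dW_comp B hS hB hw hV a
  rw [fderivWithin_clm_apply hS h1 hW]
  simp only [add_apply, ContinuousLinearMap.comp_apply, ContinuousLinearMap.flip_apply, h2]
  abel

/-- A `J`-holomorphic curve in a chart, with the geometric data of the chart. -/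
structure CData (S : Set ℂ) (U : Set E) (w : ℂ → E) (G Om : E → E →L[ℝ] E →L[ℝ] ℝ)
    (Γ : E → E →L[ℝ] E →L[ℝ] E) : Prop where
  uniq : UniqueDiffOn ℝ S
  clos : S ⊆ closure (interior S)
  openU : IsOpen U
  maps : ∀ z ∈ S, w z ∈ U
  smooth : ContDiffOn ℝ ∞ w S
  smoothG : ContDiffOn ℝ ∞ G U
  smoothOm : ContDiffOn ℝ ∞ Om U
  smoothΓ : ContDiffOn ℝ ∞ Γ U
  symm : ∀ y a b, G y a b = G y b a
  nonneg : ∀ y a, 0 ≤ G y a a
  pos : ∀ y ∈ U, ∀ a, G y a a = 0 → a = 0
  dsymm : ∀ y ∈ U, ∀ a b c, fderiv ℝ G y a b c = fderiv ℝ G y a c b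
  chr : ∀ y ∈ U, ∀ a b c, G y (Γ y a b) c =
    (fderiv ℝ G y a b c + fderiv ℝ G y b a c - fderiv ℝ G y c a b) / 2
  alt : ∀ y a, Om y a a = 0
  closed : ∀ y ∈ U, ∀ a b c, fderiv ℝ Om y a b c + fderiv ℝ Om y b c a + fderiv ℝ Om y c a b = 0
  wirt : ∀ y a b, Om y a b ≤ (G y a a + G y b b) / 2
  cr1 : ∀ z ∈ S, ∀ c, Om (w z) (fderivWithin ℝ w S z 1) c =
    G (w z) (fderivWithin ℝ w S z Complex.I) c
  cr2 : ∀ z ∈ S, ∀ c, Om (w z) (fderivWithin ℝ w S z Complex.I) c =
    - G (w z) (fderivWithin ℝ w S z 1) c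

variable {S : Set ℂ} {U : Set E} {w : ℂ → E} {G Om : E → E →L[ℝ] E →L[ℝ] ℝ}
    {Γ : E → E →L[ℝ] E →L[ℝ] E}

namespace CData

variable (h : CData S U w G Om Γ)

include h

lemma diffG {y : E} (hy : y ∈ U) : DifferentiableAt ℝ G y :=
  (h.smoothG.contDiffAt (h.openU.mem_nhds hy)).differentiableAt (by simp)

lemma diffOm {y : E} (hy : y ∈ U) : DifferentiableAt ℝ Om y :=
  (h.smoothOm.contDiffAt (h.openU.mem_nhds hy)).differentiableAt (by simp)

lemma diffΓ {y : E} (hy : y ∈ U) : DifferentiableAt ℝ Γ y :=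
  (h.smoothΓ.contDiffAt (h.openU.mem_nhds hy)).differentiableAt (by simp)

lemma smooth_d (a : ℂ) : ContDiffOn ℝ ∞ (fun z => fderivWithin ℝ w S z a) S :=
  (h.smooth.fderivWithin h.uniq (by simp)).clm_apply contDiffOn_const

lemma compat {y : E} (hy : y ∈ U) (a b c : E) :
    fderiv ℝ G y a b c = G y (Γ y a b) c + G y b (Γ y a c) := by
  rw [h.symm y b (Γ y a c), h.chr y hy, h.chr y hy, h.dsymm y hy a c b, h.dsymm y hy b a c,
    h.dsymm y hy c a b]
  ring

lemma eq_of_G {y : E} (hy : y ∈ U) {a b : E} (hab : ∀ c, G y a c = G y b c) : a = b := by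
  have : G y (a - b) (a - b) = 0 := by
    rw [map_sub (G y) a b, sub_apply, hab, sub_self]
  exact sub_eq_zero.1 (h.pos y hy _ this)

lemma Γ_symm {y : E} (hy : y ∈ U) (a b : E) : Γ y a b = Γ y b a := by
  refine h.eq_of_G hy fun c => ?_
  rw [h.chr y hy, h.chr y hy, h.dsymm y hy c a b]
  ring

lemma om_skew (y a b : E) : Om y a b = - Om y b a := by
  have := h.alt y (a + b)
  simp only [map_add, add_apply, h.alt] at this
  linarith

lemma dom_skew {y : E} (hy : y ∈ U) (a b c : E) :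
    fderiv ℝ Om y a b c = - fderiv ℝ Om y a c b := by
  have h1 := hasFDerivAt_bilin Om y b c (h.diffOm hy)
  have h2 := (hasFDerivAt_bilin Om y c b (h.diffOm hy)).neg
  have h3 : (fun z => Om z b c) = -fun z => Om z c b := by
    ext z; exact h.om_skew z b c
  rw [h3] at h1
  have := DFunLike.congr_fun (h1.unique h2) a
  simpa using this

end CData

/-- Covariant derivative along `w` in the direction `a`. -/
def cov (S : Set ℂ) (w : ℂ → E) (Γ : E → E →L[ℝ] E →L[ℝ] E) (a : ℂ) (V : ℂ → E) (z : ℂ) : E :=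
  fderivWithin ℝ V S z a + Γ (w z) (fderivWithin ℝ w S z a) (V z)

namespace CData

variable (h : CData S U w G Om Γ)

include h

lemma smooth_cov {V : ℂ → E} (hV : ContDiffOn ℝ ∞ V S) (a : ℂ) :
    ContDiffOn ℝ ∞ (cov S w Γ a V) S := by
  refine ((hV.fderivWithin h.uniq (by simp)).clm_apply contDiffOn_const).add ?_
  exact ((h.smoothΓ.comp h.smooth h.maps).clm_apply (h.smooth_d a)).clm_apply hV

/-- Metric compatibility along `w`. -/
lemma deriv_G {V W : ℂ → E} {z : ℂ} (hz : z ∈ S) (hV : DifferentiableWithinAt ℝ V S z)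
    (hW : DifferentiableWithinAt ℝ W S z) (a : ℂ) :
    fderivWithin ℝ (fun x => G (w x) (V x) (W x)) S z a =
      G (w z) (cov S w Γ a V z) (W z) + G (w z) (V z) (cov S w Γ a W z) := by
  rw [dW_bilin G (h.uniq z hz) (h.diffG (h.maps z hz)) (h.smooth.differentiableOn (by simp) z hz)
    hV hW, h.compat (h.maps z hz), cov, cov, map_add, map_add, add_apply]
  ring

/-- Torsion freeness: `∇_1 ∂_I w = ∇_I ∂_1 w`. -/
lemma torsion {z : ℂ} (hz : z ∈ S) :
    cov S w Γ 1 (fun x => fderivWithin ℝ w S x Complex.I) z =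
      cov S w Γ Complex.I (fun x => fderivWithin ℝ w S x 1) z := by
  have hsymm := (h.smooth z hz).isSymmSndFDerivWithinAt (by simp; norm_cast) h.uniq
    (h.clos hz) hz
  have hd : DifferentiableWithinAt ℝ (fderivWithin ℝ w S) S z :=
    (h.smooth.fderivWithin h.uniq (m := 1) (by norm_cast)).differentiableOn (by simp) z hz
  have h1 : ∀ a b : ℂ, fderivWithin ℝ (fun x => fderivWithin ℝ w S x a) S z b =
      fderivWithin ℝ (fderivWithin ℝ w S) S z b a := by
    intro a b
    rw [fderivWithin_clm_apply (h.uniq z hz) hd (differentiableWithinAt_const a)]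
    simp
  rw [cov, cov, h1, h1, hsymm, h.Γ_symm (h.maps z hz)]

/-- The Wirtinger argument: `J`-curves are harmonic. -/
lemma harmonic {z : ℂ} (hz : z ∈ S) :
    cov S w Γ 1 (fun x => fderivWithin ℝ w S x 1) z +
      cov S w Γ Complex.I (fun x => fderivWithin ℝ w S x Complex.I) z = 0 := by
  have hU := h.maps z hz
  have huniq := h.uniq z hz
  set ξ : ℂ → E := fun x => fderivWithin ℝ w S x 1 with hξ
  set η : ℂ → E := fun x => fderivWithin ℝ w S x Complex.I with hη
  have dξ : DifferentiableWithinAt ℝ ξ S z := (h.smooth_d 1).differentiableOn (by simp) z hz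
  have dη : DifferentiableWithinAt ℝ η S z :=
    (h.smooth_d Complex.I).differentiableOn (by simp) z hz
  have dw : DifferentiableWithinAt ℝ w S z := h.smooth.differentiableOn (by simp) z hz
  have hmix : fderivWithin ℝ η S z 1 = fderivWithin ℝ ξ S z Complex.I := by
    have := h.torsion hz
    simp only [cov] at this
    rw [h.Γ_symm hU] at this
    exact add_right_cancel this
  refine h.eq_of_G hU fun c => ?_
  -- derivative of the two Cauchy-Riemann equations
  have e1 : fderivWithin ℝ (fun x => Om (w x) (ξ x) c) S z Complex.I =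
      fderivWithin ℝ (fun x => G (w x) (η x) c) S z Complex.I := by
    rw [fderivWithin_congr (fun x hx => h.cr1 x hx c) (h.cr1 z hz c)]
  have e2 : fderivWithin ℝ (fun x => Om (w x) (η x) c) S z 1 =
      - fderivWithin ℝ (fun x => G (w x) (ξ x) c) S z 1 := by
    rw [fderivWithin_congr (fun x hx => h.cr2 x hx c) (h.cr2 z hz c),
      fderivWithin_fun_neg huniq]
    rfl
  have dc : DifferentiableWithinAt ℝ (fun _ : ℂ => c) S z := differentiableWithinAt_const c
  rw [dW_bilin Om huniq (h.diffOm hU) dw dξ dc, dW_bilin G huniq (h.diffG hU) dw dη dc] at e1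
  rw [dW_bilin Om huniq (h.diffOm hU) dw dη dc, dW_bilin G huniq (h.diffG hU) dw dξ dc] at e2
  simp only [fderivWithin_fun_const, Pi.zero_apply, zero_apply, map_zero, add_zero] at e1 e2
  -- closedness
  have e3 := h.closed _ hU (η z) (ξ z) c
  -- the derivative of the calibration defect vanishes
  have e4 : fderiv ℝ Om (w z) c (ξ z) (η z) -
      (fderiv ℝ G (w z) c (ξ z) (ξ z) + fderiv ℝ G (w z) c (η z) (η z)) / 2 = 0 := by
    have hm : IsLocalMax
        (fun y => Om y (ξ z) (η z) - (1 / 2) * (G y (ξ z) (ξ z) + G y (η z) (η z))) (w z) := by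
      have h0 : Om (w z) (ξ z) (η z) -
          (1 / 2) * (G (w z) (ξ z) (ξ z) + G (w z) (η z) (η z)) = 0 := by
        have h1 := h.cr1 z hz (η z)
        have h2 := h.cr2 z hz (ξ z)
        have h3 := h.om_skew (w z) (ξ z) (η z)
        have h1' : Om (w z) (ξ z) (η z) = G (w z) (η z) (η z) := h1
        have h2' : Om (w z) (η z) (ξ z) = - G (w z) (ξ z) (ξ z) := h2
        linarith
      refine Filter.Eventually.of_forall fun y => ?_
      show _ ≤ Om (w z) (ξ z) (η z) - (1 / 2) * (G (w z) (ξ z) (ξ z) + G (w z) (η z) (η z))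
      rw [h0]
      have := h.wirt y (ξ z) (η z)
      linarith
    have hd := (hasFDerivAt_bilin Om (w z) (ξ z) (η z) (h.diffOm hU)).sub
      (((hasFDerivAt_bilin G (w z) (ξ z) (ξ z) (h.diffG hU)).add
        (hasFDerivAt_bilin G (w z) (η z) (η z) (h.diffG hU))).const_mul (1 / 2))
    have := hm.hasFDerivAt_eq_zero hd
    have := DFunLike.congr_fun this c
    simp at this
    linarith
  have e5 := h.dom_skew hU (ξ z) c (η z)
  have e6 := h.dom_skew hU c (η z) (ξ z)
  have e7 := h.chr _ hU (ξ z) (ξ z) c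
  have e8 := h.chr _ hU (η z) (η z) c
  simp only [cov, map_add, add_apply, map_zero, zero_apply]
  rw [hmix] at e2
  have e9 : fderiv ℝ Om (w z) (fderivWithin ℝ w S z Complex.I) (ξ z) c =
    fderiv ℝ Om (w z) (η z) (ξ z) c := rfl
  have e10 : fderiv ℝ Om (w z) (fderivWithin ℝ w S z 1) (η z) c =
    fderiv ℝ Om (w z) (ξ z) (η z) c := rfl
  have e11 : fderiv ℝ G (w z) (fderivWithin ℝ w S z 1) (ξ z) c =
    fderiv ℝ G (w z) (ξ z) (ξ z) c := rfl
  have e12 : fderiv ℝ G (w z) (fderivWithin ℝ w S z Complex.I) (η z) c =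
    fderiv ℝ G (w z) (η z) (η z) c := rfl
  have e13 : G (w z) (Γ (w z) (fderivWithin ℝ w S z 1) (ξ z)) c =
    G (w z) (Γ (w z) (ξ z) (ξ z)) c := rfl
  have e14 : G (w z) (Γ (w z) (fderivWithin ℝ w S z Complex.I) (η z)) c =
    G (w z) (Γ (w z) (η z) (η z)) c := rfl
  rw [e9, e12] at e1
  rw [e10, e11] at e2
  rw [e13, e14]
  linarith

end CData

lemma cov_congr {V V' : ℂ → E} (a : ℂ) {z : ℂ} (hz : z ∈ S) (hV : ∀ x ∈ S, V x = V' x) :
    cov S w Γ a V z = cov S w Γ a V' z := by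
  rw [cov, cov, fderivWithin_congr hV (hV z hz), hV z hz]

/-- The curvature tensor of `Γ`. -/
def Rm (Γ : E → E →L[ℝ] E →L[ℝ] E) (y a b c : E) : E :=
  fderiv ℝ Γ y a b c - fderiv ℝ Γ y b a c + Γ y a (Γ y b c) - Γ y b (Γ y a c)

namespace CData

variable (h : CData S U w G Om Γ)

include h

lemma second_symm {V : ℂ → E} (hV : ContDiffOn ℝ ∞ V S) {z : ℂ} (hz : z ∈ S) (a b : ℂ) :
    fderivWithin ℝ (fun x => fderivWithin ℝ V S x a) S z b =
      fderivWithin ℝ (fun x => fderivWithin ℝ V S x b) S z a := by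
  have hsymm := (hV z hz).isSymmSndFDerivWithinAt (by simp; norm_cast) h.uniq (h.clos hz) hz
  have hd : DifferentiableWithinAt ℝ (fderivWithin ℝ V S) S z :=
    (hV.fderivWithin h.uniq (m := 1) (by norm_cast)).differentiableOn (by simp) z hz
  have h1 : ∀ a b : ℂ, fderivWithin ℝ (fun x => fderivWithin ℝ V S x a) S z b =
      fderivWithin ℝ (fderivWithin ℝ V S) S z b a := by
    intro a b
    rw [fderivWithin_clm_apply (h.uniq z hz) hd (differentiableWithinAt_const a)]
    simp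
  rw [h1, h1, hsymm]

lemma cov_cov {V : ℂ → E} (hV : ContDiffOn ℝ ∞ V S) {z : ℂ} (hz : z ∈ S) (a b : ℂ) :
    cov S w Γ a (cov S w Γ b V) z =
      fderivWithin ℝ (fun x => fderivWithin ℝ V S x b) S z a
      + fderiv ℝ Γ (w z) (fderivWithin ℝ w S z a) (fderivWithin ℝ w S z b) (V z)
      + Γ (w z) (fderivWithin ℝ (fun x => fderivWithin ℝ w S x b) S z a) (V z)
      + Γ (w z) (fderivWithin ℝ w S z b) (fderivWithin ℝ V S z a)
      + Γ (w z) (fderivWithin ℝ w S z a) (fderivWithin ℝ V S z b)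
      + Γ (w z) (fderivWithin ℝ w S z a) (Γ (w z) (fderivWithin ℝ w S z b) (V z)) := by
  have hU := h.maps z hz
  have huniq := h.uniq z hz
  have dw : DifferentiableWithinAt ℝ w S z := h.smooth.differentiableOn (by simp) z hz
  have dwb : DifferentiableWithinAt ℝ (fun x => fderivWithin ℝ w S x b) S z :=
    (h.smooth_d b).differentiableOn (by simp) z hz
  have dV : DifferentiableWithinAt ℝ V S z := hV.differentiableOn (by simp) z hz
  have dVb : DifferentiableWithinAt ℝ (fun x => fderivWithin ℝ V S x b) S z :=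
    ((hV.fderivWithin h.uniq (m := ∞) (by simp)).clm_apply contDiffOn_const).differentiableOn
      (by simp) z hz
  have dΓ : DifferentiableWithinAt ℝ (fun x => Γ (w x) (fderivWithin ℝ w S x b) (V x)) S z :=
    (((h.smoothΓ.comp h.smooth h.maps).clm_apply (h.smooth_d b)).clm_apply hV).differentiableOn
      (by simp) z hz
  have h1 : fderivWithin ℝ (cov S w Γ b V) S z a =
      fderivWithin ℝ (fun x => fderivWithin ℝ V S x b) S z a +
      fderivWithin ℝ (fun x => Γ (w x) (fderivWithin ℝ w S x b) (V x)) S z a := by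
    have : cov S w Γ b V = fun x => fderivWithin ℝ V S x b +
      Γ (w x) (fderivWithin ℝ w S x b) (V x) := rfl
    rw [this, fderivWithin_fun_add huniq dVb dΓ, add_apply]
  rw [cov, h1, dW_bilin Γ huniq (h.diffΓ hU) dw dwb dV, cov, map_add]
  abel

lemma commutator {V : ℂ → E} (hV : ContDiffOn ℝ ∞ V S) {z : ℂ} (hz : z ∈ S) :
    cov S w Γ 1 (cov S w Γ Complex.I V) z - cov S w Γ Complex.I (cov S w Γ 1 V) z =
      Rm Γ (w z) (fderivWithin ℝ w S z 1) (fderivWithin ℝ w S z Complex.I) (V z) := by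
  rw [h.cov_cov hV hz, h.cov_cov hV hz, h.second_symm hV hz 1 Complex.I,
    h.second_symm h.smooth hz 1 Complex.I, Rm]
  abel

/-- The energy density. -/
lemma energy_I {z : ℂ} (hz : z ∈ S) : G (w z) (fderivWithin ℝ w S z Complex.I)
    (fderivWithin ℝ w S z Complex.I) = G (w z) (fderivWithin ℝ w S z 1) (fderivWithin ℝ w S z 1) := by
  have h1 := h.cr1 z hz (fderivWithin ℝ w S z Complex.I)
  have h2 := h.cr2 z hz (fderivWithin ℝ w S z 1)
  have h3 := h.om_skew (w z) (fderivWithin ℝ w S z 1) (fderivWithin ℝ w S z Complex.I)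
  linarith

lemma orth {z : ℂ} (hz : z ∈ S) : G (w z) (fderivWithin ℝ w S z Complex.I)
    (fderivWithin ℝ w S z 1) = 0 := by
  rw [← h.cr1 z hz, h.alt]

lemma cauchy (y a b : E) : G y a b ^ 2 ≤ G y a a * G y b b := by
  have key : ∀ t : ℝ, 0 ≤ G y a a * (t * t) + (2 * G y a b) * t + G y b b := by
    intro t
    have := h.nonneg y (t • a + b)
    simp only [map_add, map_smul, add_apply, smul_apply, smul_eq_mul] at this
    rw [h.symm y b a] at this
    nlinarith
  have := discrim_le_zero key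
  rw [discrim] at this
  nlinarith

/-- Interior Bochner inequality, with derivatives within `S`. -/
lemma bochner {K : ℝ} (hK : ∀ y ∈ U, ∀ a b, G y (Rm Γ y a b b) a ≤
      K * (G y a a * G y b b - G y a b ^ 2)) {z : ℂ} (hz : z ∈ S) :
    ∃ q : ℝ, 0 ≤ q ∧
      fderivWithin ℝ (fun x => G (w x) (fderivWithin ℝ w S x 1) (fderivWithin ℝ w S x 1)) S z 1 ^ 2
      + fderivWithin ℝ (fun x => G (w x) (fderivWithin ℝ w S x 1) (fderivWithin ℝ w S x 1)) S z
          Complex.I ^ 2 ≤
        4 * G (w z) (fderivWithin ℝ w S z 1) (fderivWithin ℝ w S z 1) * q ∧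
      2 * q - 2 * K * G (w z) (fderivWithin ℝ w S z 1) (fderivWithin ℝ w S z 1) ^ 2 ≤
        fderivWithin ℝ (fun v => fderivWithin ℝ (fun x => G (w x) (fderivWithin ℝ w S x 1)
          (fderivWithin ℝ w S x 1)) S v 1) S z 1 +
        fderivWithin ℝ (fun v => fderivWithin ℝ (fun x => G (w x) (fderivWithin ℝ w S x 1)
          (fderivWithin ℝ w S x 1)) S v Complex.I) S z Complex.I := by
  set ξ : ℂ → E := fun x => fderivWithin ℝ w S x 1 with hξ
  set η : ℂ → E := fun x => fderivWithin ℝ w S x Complex.I with hη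
  have sξ : ContDiffOn ℝ ∞ ξ S := h.smooth_d 1
  have sη : ContDiffOn ℝ ∞ η S := h.smooth_d Complex.I
  have s1ξ := h.smooth_cov sξ 1
  have sIξ := h.smooth_cov sξ Complex.I
  have sIη := h.smooth_cov sη Complex.I
  have first : ∀ a : ℂ, ∀ x ∈ S, fderivWithin ℝ (fun x => G (w x) (ξ x) (ξ x)) S x a =
      2 * G (w x) (cov S w Γ a ξ x) (ξ x) := by
    intro a x hx
    rw [h.deriv_G hx (sξ.differentiableOn (by simp) x hx) (sξ.differentiableOn (by simp) x hx),
      h.symm _ (ξ x)]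
    ring
  have second : ∀ a : ℂ, fderivWithin ℝ (fun v => fderivWithin ℝ
      (fun x => G (w x) (ξ x) (ξ x)) S v a) S z a =
      2 * (G (w z) (cov S w Γ a (cov S w Γ a ξ) z) (ξ z) +
        G (w z) (cov S w Γ a ξ z) (cov S w Γ a ξ z)) := by
    intro a
    have sa := h.smooth_cov sξ a
    have da := sa.differentiableOn (by simp) z hz
    have dξ := sξ.differentiableOn (by simp) z hz
    rw [fderivWithin_congr (fun x hx => first a x hx) (first a z hz)]
    have dG : DifferentiableWithinAt ℝ (fun x => G (w x) (cov S w Γ a ξ x) (ξ x)) S z :=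
      (((h.smoothG.comp h.smooth h.maps).clm_apply sa).clm_apply sξ).differentiableOn
        (by simp) z hz
    rw [fderivWithin_const_mul (h.uniq z hz) dG, smul_apply, h.deriv_G hz da dξ, smul_eq_mul]
  refine ⟨G (w z) (cov S w Γ 1 ξ z) (cov S w Γ 1 ξ z) +
    G (w z) (cov S w Γ Complex.I ξ z) (cov S w Γ Complex.I ξ z), ?_, ?_, ?_⟩
  · exact add_nonneg (h.nonneg _ _) (h.nonneg _ _)
  · rw [first 1 z hz, first Complex.I z hz]
    have c1 := h.cauchy (w z) (cov S w Γ 1 ξ z) (ξ z)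
    have c2 := h.cauchy (w z) (cov S w Γ Complex.I ξ z) (ξ z)
    have e : G (w z) (fderivWithin ℝ w S z 1) (fderivWithin ℝ w S z 1) =
      G (w z) (ξ z) (ξ z) := rfl
    nlinarith
  · rw [second 1, second Complex.I]
    -- ∇_I ∇_I ξ = - ∇_1 ∇_1 ξ - R(ξ, η) η
    have t1 : cov S w Γ Complex.I (cov S w Γ Complex.I ξ) z =
        cov S w Γ Complex.I (cov S w Γ 1 η) z :=
      cov_congr _ hz fun x hx => (h.torsion hx).symm
    have t2 : cov S w Γ 1 (cov S w Γ Complex.I η) z = - cov S w Γ 1 (cov S w Γ 1 ξ) z := by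
      have heq : ∀ x ∈ S, cov S w Γ Complex.I η x = - cov S w Γ 1 ξ x := fun x hx =>
        eq_neg_of_add_eq_zero_right (h.harmonic hx)
      rw [cov_congr 1 hz heq]
      generalize cov S w Γ 1 ξ = V
      rw [cov, cov, fderivWithin_fun_neg (h.uniq z hz), neg_apply, map_neg, neg_add]
    have t3 := h.commutator sη hz
    rw [t2] at t3
    have t4 : cov S w Γ Complex.I (cov S w Γ Complex.I ξ) z = - cov S w Γ 1 (cov S w Γ 1 ξ) z
        - Rm Γ (w z) (ξ z) (η z) (η z) := by
      rw [t1]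
      have : Rm Γ (w z) (ξ z) (η z) (η z) = Rm Γ (w z) (fderivWithin ℝ w S z 1)
        (fderivWithin ℝ w S z Complex.I) (η z) := rfl
      rw [this, ← t3]
      abel
    rw [t4, map_sub, map_neg, sub_apply, neg_apply]
    have hk := hK (w z) (h.maps z hz) (ξ z) (η z)
    have e1 : G (w z) (η z) (η z) = G (w z) (ξ z) (ξ z) := h.energy_I hz
    have e2 : G (w z) (ξ z) (η z) = 0 := by
      rw [h.symm]; exact h.orth hz
    rw [e1, e2] at hk
    have e : G (w z) (fderivWithin ℝ w S z 1) (fderivWithin ℝ w S z 1) =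
      G (w z) (ξ z) (ξ z) := rfl
    rw [e]
    nlinarith

/-- The boundary identity. -/
lemma boundary {z : ℂ} (hz : z ∈ S) :
    fderivWithin ℝ (fun x => G (w x) (fderivWithin ℝ w S x 1) (fderivWithin ℝ w S x 1)) S z
      Complex.I = - 2 * G (w z) (cov S w Γ 1 (fun x => fderivWithin ℝ w S x 1) z)
        (fderivWithin ℝ w S z Complex.I) := by
  set ξ : ℂ → E := fun x => fderivWithin ℝ w S x 1 with hξ
  set η : ℂ → E := fun x => fderivWithin ℝ w S x Complex.I with hη
  have sξ : ContDiffOn ℝ ∞ ξ S := h.smooth_d 1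
  have sη : ContDiffOn ℝ ∞ η S := h.smooth_d Complex.I
  have dξ := sξ.differentiableOn (by simp) z hz
  have dη := sη.differentiableOn (by simp) z hz
  have e1 := h.deriv_G hz dξ dξ Complex.I
  have e2 := h.deriv_G hz dη dξ 1
  have e3 : fderivWithin ℝ (fun x => G (w x) (η x) (ξ x)) S z 1 = 0 := by
    have : ∀ x ∈ S, G (w x) (η x) (ξ x) = 0 := fun x hx => h.orth hx
    rw [fderivWithin_congr this (this z hz)]
    simp
  rw [e3] at e2
  have e4 := h.torsion hz
  have e5 : cov S w Γ Complex.I ξ z = cov S w Γ 1 η z := e4.symm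
  have e6 : G (w z) (cov S w Γ 1 ξ z) (fderivWithin ℝ w S z Complex.I) =
    G (w z) (η z) (cov S w Γ 1 ξ z) := h.symm _ _ _
  rw [e6]
  rw [e5, h.symm _ (ξ z)] at e1
  have e7 : fderivWithin ℝ (fun x => G (w x) (fderivWithin ℝ w S x 1) (fderivWithin ℝ w S x 1)) S z
      Complex.I = fderivWithin ℝ (fun x => G (w x) (ξ x) (ξ x)) S z Complex.I := rfl
  linarith

end CData

end Bochner

end

end Pool.Agent.MP_c86656_gt
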