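import Pool.Agent.Lib.MP_c86656_gt.Trick

/-! The Cayley transform from the closed half plane to the closed disc minus a point. -/

open Set Filter Topology Manifold MeasureTheory Bundle
open scoped ContDiff ENNReal

namespace Pool.Agent.MP_c86656_gt

set_option linter.unusedSectionVars false

noncomputable section

/-- The Cayley transform with `cay ζ ∞ = ζ`. -/
def cay (ζ z : ℂ) : ℂ := ζ * ((z - Complex.I) / (z + Complex.I))

/-- Its derivative. -/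
def cay' (ζ z : ℂ) : ℂ := ζ * (2 * Complex.I / (z + Complex.I) ^ 2)

lemma add_I_ne {z : ℂ} (hz : z ∈ Hc) : z + Complex.I ≠ 0 := by
  intro h
  have h1 : (z + Complex.I).im = 0 := by rw [h]; simp
  have h2 : 0 ≤ z.im := hz
  simp at h1
  linarith

lemma hasDerivAt_cay (ζ : ℂ) {z : ℂ} (hz : z ∈ Hc) : HasDerivAt (cay ζ) (cay' ζ z) z := by
  have h1 : HasDerivAt (fun z : ℂ => z - Complex.I) 1 z := (hasDerivAt_id z).sub_const _
  have h2 : HasDerivAt (fun z : ℂ => z + Complex.I) 1 z := (hasDerivAt_id z).add_const _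
  have h3 := (h1.div h2 (add_I_ne hz)).const_mul ζ
  have : cay' ζ z = ζ * ((1 * (z + Complex.I) - (z - Complex.I) * 1) / (z + Complex.I) ^ 2) := by
    rw [cay']; congr 2; ring
  rw [this]
  exact h3

lemma normSq_cay {ζ : ℂ} (hζ : ‖ζ‖ = 1) {z : ℂ} (hz : z ∈ Hc) :
    1 - ‖cay ζ z‖ ^ 2 = 4 * z.im / ‖z + Complex.I‖ ^ 2 := by
  have h1 : 0 < ‖z + Complex.I‖ := norm_pos_iff.2 (add_I_ne hz)
  rw [cay, norm_mul, norm_div, hζ, one_mul, div_pow]
  rw [eq_div_iff (by positivity), sub_mul, div_mul_cancel₀ _ (by positivity), one_mul]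
  rw [← Complex.normSq_eq_norm_sq, ← Complex.normSq_eq_norm_sq, Complex.normSq_apply,
    Complex.normSq_apply]
  simp
  ring

lemma cay_mem_closedBall {ζ : ℂ} (hζ : ‖ζ‖ = 1) {z : ℂ} (hz : z ∈ Hc) :
    cay ζ z ∈ Metric.closedBall (0 : ℂ) 1 := by
  have h1 := normSq_cay hζ hz
  have h2 : 0 ≤ 4 * z.im / ‖z + Complex.I‖ ^ 2 := by
    have : 0 ≤ z.im := hz
    positivity
  rw [mem_closedBall_zero_iff]
  nlinarith [norm_nonneg (cay ζ z)]

lemma cay_mem_ball {ζ : ℂ} (hζ : ‖ζ‖ = 1) {z : ℂ} (hz : z ∈ Ho) :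
    cay ζ z ∈ Metric.ball (0 : ℂ) 1 := by
  have h1 := normSq_cay hζ (Ho_subset_Hc hz)
  have h3 : 0 < ‖z + Complex.I‖ := norm_pos_iff.2 (add_I_ne (Ho_subset_Hc hz))
  have h2 : 0 < 4 * z.im / ‖z + Complex.I‖ ^ 2 := by
    have : 0 < z.im := hz
    positivity
  rw [mem_ball_zero_iff]
  nlinarith [norm_nonneg (cay ζ z)]

lemma cay_ne {ζ : ℂ} (hζ : ‖ζ‖ = 1) {z : ℂ} (hz : z ∈ Hc) : cay ζ z ≠ ζ := by
  intro h
  have hζ0 : ζ ≠ 0 := by
    intro h0; rw [h0] at hζ; simp at hζ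
  rw [cay] at h
  have h1 : (z - Complex.I) / (z + Complex.I) = 1 := mul_left_cancel₀ hζ0 (by rw [h, mul_one])
  rw [div_eq_one_iff_eq (add_I_ne hz)] at h1
  have h2 : (2 : ℂ) * Complex.I = 0 := by linear_combination -h1
  simp at h2

/-- The inverse of the Cayley transform. -/
def cayInv (ζ w : ℂ) : ℂ := Complex.I * ((ζ + w) / (ζ - w))

lemma cay_cayInv {ζ w : ℂ} (hζ : ζ ≠ 0) (hw : w ≠ ζ) : cay ζ (cayInv ζ w) = w := by
  have h1 : ζ - w ≠ 0 := sub_ne_zero.2 hw.symm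
  have h2 : cayInv ζ w + Complex.I = 2 * ζ * Complex.I / (ζ - w) := by
    rw [cayInv]; field_simp; ring
  have h3 : cayInv ζ w - Complex.I = 2 * w * Complex.I / (ζ - w) := by
    rw [cayInv]; field_simp; ring
  rw [cay, h2, h3]
  field_simp

lemma cayInv_im {ζ w : ℂ} (hζ : ‖ζ‖ = 1) (hw : w ≠ ζ) :
    (cayInv ζ w).im = (1 - ‖w‖ ^ 2) / ‖ζ - w‖ ^ 2 := by
  have h1 : ζ - w ≠ 0 := sub_ne_zero.2 hw.symm
  have h2 : (ζ + w) / (ζ - w) = (ζ + w) * (starRingEnd ℂ) (ζ - w) / ((‖ζ - w‖ ^ 2 : ℝ) : ℂ) := by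
    have : (ζ - w) * (starRingEnd ℂ) (ζ - w) = ((‖ζ - w‖ ^ 2 : ℝ) : ℂ) := by
      rw [Complex.mul_conj, Complex.normSq_eq_norm_sq]
    rw [← this]
    have h3 : (starRingEnd ℂ) (ζ - w) ≠ 0 := (map_ne_zero _).2 h1
    field_simp
  rw [cayInv, h2, ← mul_div_assoc, Complex.div_ofReal_im]
  congr 1
  have h4 : (Complex.I * ((ζ + w) * (starRingEnd ℂ) (ζ - w))).im =
      Complex.normSq ζ - Complex.normSq w := by
    simp [Complex.normSq_apply]
    ring
  rw [h4, Complex.normSq_eq_norm_sq, Complex.normSq_eq_norm_sq, hζ, one_pow]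

lemma cayInv_mem_Hc {ζ w : ℂ} (hζ : ‖ζ‖ = 1) (hw : w ≠ ζ) (hw1 : w ∈ Metric.closedBall (0 : ℂ) 1) :
    cayInv ζ w ∈ Hc := by
  show 0 ≤ (cayInv ζ w).im
  rw [cayInv_im hζ hw]
  rw [mem_closedBall_zero_iff] at hw1
  apply div_nonneg _ (by positivity)
  nlinarith [norm_nonneg w]

lemma cayInv_mem_Ho {ζ w : ℂ} (hζ : ‖ζ‖ = 1) (hw1 : w ∈ Metric.ball (0 : ℂ) 1) :
    cayInv ζ w ∈ Ho := by
  have hw : w ≠ ζ := by
    rintro rfl
    rw [mem_ball_zero_iff, hζ] at hw1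
    exact lt_irrefl _ hw1
  show 0 < (cayInv ζ w).im
  rw [cayInv_im hζ hw]
  rw [mem_ball_zero_iff] at hw1
  have h1 : 0 < ‖ζ - w‖ := norm_pos_iff.2 (sub_ne_zero.2 hw.symm)
  apply div_pos _ (by positivity)
  nlinarith [norm_nonneg w]

lemma cay_image {ζ : ℂ} (hζ : ‖ζ‖ = 1) : cay ζ '' Ho = Metric.ball (0 : ℂ) 1 := by
  have hζ0 : ζ ≠ 0 := by
    intro h0; rw [h0] at hζ; simp at hζ
  ext w
  constructor
  · rintro ⟨z, hz, rfl⟩
    exact cay_mem_ball hζ hz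
  · intro hw
    refine ⟨cayInv ζ w, cayInv_mem_Ho hζ hw, cay_cayInv hζ0 ?_⟩
    rintro rfl
    rw [mem_ball_zero_iff, hζ] at hw
    exact lt_irrefl _ hw

lemma cay_injOn {ζ : ℂ} (hζ : ζ ≠ 0) : InjOn (cay ζ) Hc := by
  intro z hz w hw h
  rw [cay, cay] at h
  have h1 := mul_left_cancel₀ hζ h
  rw [div_eq_div_iff (add_I_ne hz) (add_I_ne hw)] at h1
  have h2 : (2 * Complex.I) * (z - w) = 0 := by linear_combination h1
  rcases mul_eq_zero.1 h2 with h3 | h3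
  · simp at h3
  · exact sub_eq_zero.1 h3

lemma contDiffOn_cay (ζ : ℂ) : ContDiffOn ℝ ∞ (cay ζ) Hc := by
  have h : ContDiffOn ℂ ∞ (cay ζ) Hc := by
    refine contDiffOn_const.mul (ContDiffOn.div ?_ ?_ fun z hz => add_I_ne hz)
    · exact contDiffOn_id.sub contDiffOn_const
    · exact contDiffOn_id.add contDiffOn_const
  exact h.restrict_scalars ℝ

/-- The boundary values of the Cayley transform. -/
lemma cay_real (s x : ℝ) : cay (Complex.exp (s * Complex.I)) x =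
    Complex.exp (((s + Real.pi + 2 * Real.arctan x : ℝ) : ℂ) * Complex.I) := by
  have h1 : ((s + Real.pi + 2 * Real.arctan x : ℝ) : ℂ) * Complex.I =
      s * Complex.I + (Real.pi * Complex.I + (((2 * Real.arctan x : ℝ) : ℂ) * Complex.I)) := by
    push_cast; ring
  rw [h1, Complex.exp_add, Complex.exp_add, Complex.exp_pi_mul_I, cay]
  congr 1
  have h2 : Complex.exp (((2 * Real.arctan x : ℝ) : ℂ) * Complex.I) =
      ((Real.cos (Real.arctan x) : ℂ) + Real.sin (Real.arctan x) * Complex.I) ^ 2 := by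
    rw [show ((2 * Real.arctan x : ℝ) : ℂ) * Complex.I =
      ((Real.arctan x : ℝ) : ℂ) * Complex.I + ((Real.arctan x : ℝ) : ℂ) * Complex.I by
        push_cast; ring, Complex.exp_add, Complex.exp_mul_I]
    push_cast; ring
  rw [h2, Real.cos_arctan, Real.sin_arctan]
  have h3 : (0 : ℝ) < √(1 + x ^ 2) := Real.sqrt_pos.2 (by positivity)
  have h4 : ((√(1 + x ^ 2) : ℝ) : ℂ) ≠ 0 := by exact_mod_cast h3.ne'
  have h5 : ((√(1 + x ^ 2) : ℝ) : ℂ) ^ 2 = 1 + (x : ℂ) ^ 2 := by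
    rw [← Complex.ofReal_pow, Real.sq_sqrt (by positivity)]
    push_cast; ring
  have h6 : (x : ℂ) + Complex.I ≠ 0 := add_I_ne (by simp [Hc])
  push_cast
  have h7 : ((1 : ℂ) / (√(1 + x ^ 2) : ℝ) + x / (√(1 + x ^ 2) : ℝ) * Complex.I) ^ 2 =
    (1 + x * Complex.I) ^ 2 / (1 + (x : ℂ) ^ 2) := by
    rw [← h5]
    field_simp
  rw [h7]
  have h8 : (1 : ℂ) + (x : ℂ) ^ 2 = (x + Complex.I) * (x - Complex.I) := by
    ring_nf; simp; ring
  have h9 : (x : ℂ) - Complex.I ≠ 0 := by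
    intro h
    have h1 : ((x : ℂ) - Complex.I).im = 0 := by rw [h]; simp
    simp at h1
  have h10 : (1 + (x : ℂ) * Complex.I) = Complex.I * (x - Complex.I) := by
    ring_nf; simp; ring
  rw [h10, h8, mul_pow, Complex.I_sq]
  field_simp

/-- Determinant of a complex multiplication. -/
lemma det_mul_complex (c : ℂ) :
    ((ContinuousLinearMap.toSpanSingleton ℂ c).restrictScalars ℝ).det = ‖c‖ ^ 2 := by
  have h1 := Algebra.norm_complex_eq
  have h2 : Algebra.norm ℝ c = Complex.normSq c := by rw [h1]; rfl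
  rw [Algebra.norm_apply, Complex.normSq_eq_norm_sq] at h2
  rw [← h2, ContinuousLinearMap.det]
  congr 1
  ext z
  simp [mul_comm]

end

end Pool.Agent.MP_c86656_gt
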