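import Pool.Agent.Lib.MP_c86656_gt.Defs

/-! Coordinate facts: smoothness, symmetry, positivity of the metric in a chart, Christoffel
symbols, and the coordinate form of the derivative of a map into `M`. -/

open Set Filter Topology Manifold MeasureTheory Bundle
open scoped ContDiff ENNReal

namespace Pool.Agent.MP_c86656_gt

noncomputable section

variable {E : Type*} [NormedAddCommGroup E] [NormedSpace ℝ E]
  {M : Type*} [MetricSpace M] [ChartedSpace E M]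

lemma hasFDerivAt_bilin (g : E → E →L[ℝ] E →L[ℝ] ℝ) (y b c : E) (h : DifferentiableAt ℝ g y) :
    HasFDerivAt (fun z => g z b c) (((fderiv ℝ g y).flip b).flip c) y := by
  have h0 := h.hasFDerivAt
  have h1 : HasFDerivAt (fun z => g z b) ((fderiv ℝ g y).flip b) y := by
    have := h0.clm_apply (hasFDerivAt_const b y)
    convert! this using 1
    simp
  have := h1.clm_apply (hasFDerivAt_const c y)
  convert! this using 1
  simp

lemma fderiv_symm_of_symm {g : E → E →L[ℝ] E →L[ℝ] ℝ} {y : E} (h : DifferentiableAt ℝ g y)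
    (hs : ∀ z b c, g z b c = g z c b) (a b c : E) : fderiv ℝ g y a b c = fderiv ℝ g y a c b := by
  have h1 := hasFDerivAt_bilin g y b c h
  have h2 := hasFDerivAt_bilin g y c b h
  have h3 : (fun z => g z b c) = fun z => g z c b := by
    ext z; exact hs z b c
  rw [h3] at h1
  have := DFunLike.congr_fun (h1.unique h2) a
  simpa using this

lemma contDiffOn_fderiv_apply {X F : Type*} [NormedAddCommGroup X] [NormedSpace ℝ X]
    [NormedAddCommGroup F] [NormedSpace ℝ F] {g : X → F} {s : Set X} (hs : IsOpen s)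
    (hg : ContDiffOn ℝ ∞ g s) (a : X) : ContDiffOn ℝ ∞ (fun y => fderiv ℝ g y a) s :=
  (hg.fderiv_of_isOpen hs (by simp)).clm_apply contDiffOn_const

section basic

variable [RiemannianBundle (fun x : M => TangentSpace 𝓘(ℝ, E) x)]

/-- The metric at `x` as a bilinear form on the model space. -/
def gAt (x : M) : E →L[ℝ] E →L[ℝ] ℝ := innerSL ℝ (E := TangentSpace 𝓘(ℝ, E) x)

lemma gAt_apply (x : M) (v w : TangentSpace 𝓘(ℝ, E) x) : gAt (E := E) x v w = inner ℝ v w := rfl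

lemma gIn_apply (φ : OpenPartialHomeomorph M E) (y v w : E) :
    gIn φ y v w = gAt (E := E) (φ.symm y) (frame φ y v) (frame φ y w) := rfl

lemma gIn_apply' (φ : OpenPartialHomeomorph M E) (y v w : E) :
    gIn φ y v w = inner ℝ (frame φ y v) (frame φ y w) := rfl

lemma omegaIn_apply (J : EndField E M) (φ : OpenPartialHomeomorph M E) (y v w : E) :
    omegaIn J φ y v w = inner ℝ (J (φ.symm y) (frame φ y v)) (frame φ y w) := rfl

lemma gIn_symm (φ : OpenPartialHomeomorph M E) (y v w : E) : gIn φ y v w = gIn φ y w v := by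
  rw [gIn_apply', gIn_apply', real_inner_comm]

lemma gIn_nonneg (φ : OpenPartialHomeomorph M E) (y v : E) : 0 ≤ gIn φ y v v := by
  rw [gIn_apply']; exact real_inner_self_nonneg

lemma gIn_cauchy (φ : OpenPartialHomeomorph M E) (y v w : E) :
    |gIn φ y v w| ≤ √(gIn φ y v v) * √(gIn φ y w w) := by
  rw [gIn_apply', gIn_apply', gIn_apply', ← norm_eq_sqrt_real_inner, ← norm_eq_sqrt_real_inner]
  exact abs_real_inner_le_norm _ _

end basic

section frames

lemma mdiffAt_chart {φ : OpenPartialHomeomorph M E} (hφ : φ ∈ charts E M) {x : M}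
    (hx : x ∈ φ.source) : MDifferentiableAt 𝓘(ℝ, E) 𝓘(ℝ, E) φ x :=
  ((contMDiffOn_of_mem_maximalAtlas hφ).contMDiffAt (φ.open_source.mem_nhds hx)).mdifferentiableAt
    (by simp)

lemma mdiffAt_chart_symm {φ : OpenPartialHomeomorph M E} (hφ : φ ∈ charts E M) {y : E}
    (hy : y ∈ φ.target) : MDifferentiableAt 𝓘(ℝ, E) 𝓘(ℝ, E) φ.symm y :=
  ((contMDiffOn_symm_of_mem_maximalAtlas hφ).contMDiffAt
    (φ.open_target.mem_nhds hy)).mdifferentiableAt (by simp)

lemma mfderiv_chart_comp_frame {φ : OpenPartialHomeomorph M E} (hφ : φ ∈ charts E M) {y : E}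
    (hy : y ∈ φ.target) :
    (mfderiv 𝓘(ℝ, E) 𝓘(ℝ, E) φ (φ.symm y)).comp (frame φ y) = ContinuousLinearMap.id ℝ _ := by
  have h1 := mfderiv_comp y (mdiffAt_chart hφ (φ.map_target hy)) (mdiffAt_chart_symm hφ hy)
  rw [frame, ← h1]
  have : (φ ∘ φ.symm) =ᶠ[𝓝 y] id := by
    filter_upwards [φ.open_target.mem_nhds hy] with z hz using φ.right_inv hz
  rw [this.mfderiv_eq]
  exact mfderiv_id

lemma frame_injective {φ : OpenPartialHomeomorph M E} (hφ : φ ∈ charts E M) {y : E}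
    (hy : y ∈ φ.target) : Function.Injective (frame φ y) := by
  intro v w hvw
  have h := mfderiv_chart_comp_frame hφ hy
  have h1 : mfderiv 𝓘(ℝ, E) 𝓘(ℝ, E) φ (φ.symm y) (frame φ y v) = v := DFunLike.congr_fun h v
  have h2 : mfderiv 𝓘(ℝ, E) 𝓘(ℝ, E) φ (φ.symm y) (frame φ y w) = w := DFunLike.congr_fun h w
  rw [← h1, ← h2, hvw]

lemma frame_comp_mfderiv_chart {φ : OpenPartialHomeomorph M E} (hφ : φ ∈ charts E M) {y : E}
    (hy : y ∈ φ.target) (v : TangentSpace 𝓘(ℝ, E) (φ.symm y)) :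
    ∃ w : E, frame φ y w = v := by
  have h1 : MDifferentiableAt 𝓘(ℝ, E) 𝓘(ℝ, E) φ.symm (φ (φ.symm y)) := by
    rw [φ.right_inv hy]; exact mdiffAt_chart_symm hφ hy
  have h2 := mfderiv_comp (φ.symm y) h1 (mdiffAt_chart hφ (φ.map_target hy))
  have : (φ.symm ∘ φ) =ᶠ[𝓝 (φ.symm y)] id := by
    filter_upwards [φ.open_source.mem_nhds (φ.map_target hy)] with z hz using φ.left_inv hz
  rw [this.mfderiv_eq, mfderiv_id] at h2
  refine ⟨mfderiv 𝓘(ℝ, E) 𝓘(ℝ, E) φ (φ.symm y) v, ?_⟩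
  have h3 := DFunLike.congr_fun h2 v
  simp only [ContinuousLinearMap.comp_apply] at h3
  have h4 : ∀ z (_ : z = y) (w : E), (mfderiv 𝓘(ℝ, E) 𝓘(ℝ, E) φ.symm z : E →L[ℝ] E) w
      = (mfderiv 𝓘(ℝ, E) 𝓘(ℝ, E) φ.symm y : E →L[ℝ] E) w := by
    rintro z rfl w; rfl
  have h5 := h4 _ (φ.right_inv hy) (mfderiv 𝓘(ℝ, E) 𝓘(ℝ, E) φ (φ.symm y) v)
  exact h5.symm.trans h3.symm

lemma contMDiffOn_frame [IsManifold 𝓘(ℝ, E) ∞ M] {φ : OpenPartialHomeomorph M E}
    (hφ : φ ∈ charts E M) (v : E) :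
    ContMDiffOn 𝓘(ℝ, E) 𝓘(ℝ, E).tangent ∞
      (fun y => (⟨φ.symm y, frame φ y v⟩ : TangentBundle 𝓘(ℝ, E) M)) φ.target := by
  have h1 := (contMDiffOn_symm_of_mem_maximalAtlas hφ).contMDiffOn_tangentMapWithin
    (m := ∞) (by simp) φ.open_target.uniqueMDiffOn
  have h2 : ContMDiff 𝓘(ℝ, E) 𝓘(ℝ, E).tangent ∞
      (fun y : E => (⟨y, v⟩ : TangentBundle 𝓘(ℝ, E) E)) := by
    exact contMDiff_vectorSpace_iff_contDiff.2 contDiff_const
  have h3 := h1.comp h2.contMDiffOn (s := φ.target) (fun y hy => hy)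
  refine h3.congr fun y hy => ?_
  simp only [Function.comp, tangentMapWithin, frame]
  rw [mfderivWithin_of_isOpen φ.open_target hy]

end frames

section metric

variable [FiniteDimensional ℝ E] [IsManifold 𝓘(ℝ, E) ∞ M]
  [RiemannianBundle (fun x : M => TangentSpace 𝓘(ℝ, E) x)]
  [IsContMDiffRiemannianBundle 𝓘(ℝ, E) ∞ E (fun x : M => TangentSpace 𝓘(ℝ, E) x)]

set_option backward.isDefEq.respectTransparency false in
omit [FiniteDimensional ℝ E] in
lemma contDiffOn_gIn_apply {φ : OpenPartialHomeomorph M E} (hφ : φ ∈ charts E M) (v w : E) :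
    ContDiffOn ℝ ∞ (fun y => gIn φ y v w) φ.target := by
  have := ContMDiffOn.inner_bundle (E := fun x : M => TangentSpace 𝓘(ℝ, E) x)
    (contMDiffOn_frame hφ v) (contMDiffOn_frame hφ w)
  exact contMDiffOn_iff_contDiffOn.1 this

lemma contDiffOn_gIn {φ : OpenPartialHomeomorph M E} (hφ : φ ∈ charts E M) :
    ContDiffOn ℝ ∞ (gIn φ) φ.target := by
  rw [contDiffOn_clm_apply]
  intro v
  rw [contDiffOn_clm_apply]
  intro w
  exact contDiffOn_gIn_apply hφ v w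

omit [FiniteDimensional ℝ E] [IsManifold 𝓘(ℝ, E) ∞ M]
  [IsContMDiffRiemannianBundle 𝓘(ℝ, E) ∞ E (fun x : M => TangentSpace 𝓘(ℝ, E) x)] in
lemma gIn_pos {φ : OpenPartialHomeomorph M E} (hφ : φ ∈ charts E M) {y : E} (hy : y ∈ φ.target)
    {v : E} (hv : v ≠ 0) : 0 < gIn φ y v v := by
  rw [gIn_apply']
  refine real_inner_self_pos.2 fun h => hv ?_
  exact frame_injective hφ hy (h.trans (map_zero (frame φ y)).symm)

omit [FiniteDimensional ℝ E] [IsManifold 𝓘(ℝ, E) ∞ M]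
  [IsContMDiffRiemannianBundle 𝓘(ℝ, E) ∞ E (fun x : M => TangentSpace 𝓘(ℝ, E) x)] in
lemma gIn_eq_zero {φ : OpenPartialHomeomorph M E} (hφ : φ ∈ charts E M) {y : E}
    (hy : y ∈ φ.target) {v : E} (hv : gIn φ y v v = 0) : v = 0 := by
  by_contra h
  exact (gIn_pos hφ hy h).ne' hv

omit [IsManifold 𝓘(ℝ, E) ∞ M]
  [IsContMDiffRiemannianBundle 𝓘(ℝ, E) ∞ E (fun x : M => TangentSpace 𝓘(ℝ, E) x)] in
lemma gIn_invertible {φ : OpenPartialHomeomorph M E} (hφ : φ ∈ charts E M) {y : E}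
    (hy : y ∈ φ.target) : (gIn φ y).IsInvertible := by
  have hinj : Function.Injective (gIn φ y : E →ₗ[ℝ] (E →L[ℝ] ℝ)) := by
    rw [← LinearMap.ker_eq_bot, LinearMap.ker_eq_bot']
    intro v hv
    refine gIn_eq_zero hφ hy ?_
    have := DFunLike.congr_fun hv v
    simpa using this
  have hdim : Module.finrank ℝ E = Module.finrank ℝ (E →L[ℝ] ℝ) := by
    have := (LinearMap.toContinuousLinearMap (𝕜 := ℝ) (E := E) (F' := ℝ)).finrank_eq
    rw [← this, Module.finrank_linearMap]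
    simp
  let e := (LinearEquiv.ofInjectiveOfFinrankEq _ hinj hdim).toContinuousLinearEquiv
  exact ⟨e, by ext v w; rfl⟩

omit [IsManifold 𝓘(ℝ, E) ∞ M]
  [IsContMDiffRiemannianBundle 𝓘(ℝ, E) ∞ E (fun x : M => TangentSpace 𝓘(ℝ, E) x)] in
/-- Every covector is represented by a vector. -/
lemma gIn_inverse_apply {φ : OpenPartialHomeomorph M E} (hφ : φ ∈ charts E M) {y : E}
    (hy : y ∈ φ.target) (l : E →L[ℝ] ℝ) (c : E) : gIn φ y ((gIn φ y).inverse l) c = l c := by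
  have := (gIn_invertible hφ hy).self_comp_inverse
  have h := DFunLike.congr_fun this l
  simp only [ContinuousLinearMap.comp_apply, ContinuousLinearMap.id_apply] at h
  rw [h]

omit [IsManifold 𝓘(ℝ, E) ∞ M]
  [IsContMDiffRiemannianBundle 𝓘(ℝ, E) ∞ E (fun x : M => TangentSpace 𝓘(ℝ, E) x)] in
lemma gIn_christoffel {φ : OpenPartialHomeomorph M E} (hφ : φ ∈ charts E M) {y : E}
    (hy : y ∈ φ.target) (a b c : E) : gIn φ y (christoffel φ y a b) c =
      (fderiv ℝ (gIn φ) y a b c + fderiv ℝ (gIn φ) y b a c - fderiv ℝ (gIn φ) y c a b) / 2 := by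
  rw [christoffel, gIn_inverse_apply hφ hy]
  simp [chr1]
  ring

lemma differentiableAt_gIn {φ : OpenPartialHomeomorph M E} (hφ : φ ∈ charts E M) {y : E}
    (hy : y ∈ φ.target) : DifferentiableAt ℝ (gIn φ) y :=
  ((contDiffOn_gIn hφ).contDiffAt (φ.open_target.mem_nhds hy)).differentiableAt (by simp)

lemma fderiv_gIn_symm {φ : OpenPartialHomeomorph M E} (hφ : φ ∈ charts E M) {y : E}
    (hy : y ∈ φ.target) (a b c : E) : fderiv ℝ (gIn φ) y a b c = fderiv ℝ (gIn φ) y a c b :=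
  fderiv_symm_of_symm (differentiableAt_gIn hφ hy) (gIn_symm φ) a b c

omit [IsManifold 𝓘(ℝ, E) ∞ M]
  [IsContMDiffRiemannianBundle 𝓘(ℝ, E) ∞ E (fun x : M => TangentSpace 𝓘(ℝ, E) x)]
  [FiniteDimensional ℝ E] in
lemma chr1_apply (φ : OpenPartialHomeomorph M E) (y a b c : E) : chr1 φ y a b c =
      (fderiv ℝ (gIn φ) y a b c + fderiv ℝ (gIn φ) y b a c - fderiv ℝ (gIn φ) y c a b) / 2 := by
  simp [chr1]
  ring

/-- The Christoffel symbols as a bilinear map. -/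
def gamL (φ : OpenPartialHomeomorph M E) (y : E) : E →L[ℝ] E →L[ℝ] E :=
  LinearMap.toContinuousLinearMap
    ((LinearMap.toContinuousLinearMap : (E →ₗ[ℝ] E) ≃ₗ[ℝ] (E →L[ℝ] E)).toLinearMap.comp
      (LinearMap.mk₂ ℝ (christoffel φ y)
        (fun a a' b => by
          rw [christoffel, christoffel, christoffel, ← map_add]
          congr 1; ext c; simp only [chr1_apply, add_apply, map_add]; ring)
        (fun k a b => by
          rw [christoffel, christoffel, ← map_smul]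
          congr 1; ext c
          simp only [chr1_apply, smul_apply, map_smul, smul_eq_mul]; ring)
        (fun a b b' => by
          rw [christoffel, christoffel, christoffel, ← map_add]
          congr 1; ext c; simp only [chr1_apply, add_apply, map_add]; ring)
        (fun k a b => by
          rw [christoffel, christoffel, ← map_smul]
          congr 1; ext c
          simp only [chr1_apply, smul_apply, map_smul, smul_eq_mul]; ring)))

omit [IsManifold 𝓘(ℝ, E) ∞ M]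
  [IsContMDiffRiemannianBundle 𝓘(ℝ, E) ∞ E (fun x : M => TangentSpace 𝓘(ℝ, E) x)] in
lemma gamL_apply (φ : OpenPartialHomeomorph M E) (y a b : E) :
    gamL φ y a b = christoffel φ y a b := rfl

lemma contDiffOn_gamL {φ : OpenPartialHomeomorph M E} (hφ : φ ∈ charts E M) :
    ContDiffOn ℝ ∞ (gamL φ) φ.target := by
  have hinv : ContDiffOn ℝ ∞ (fun y => (gIn φ y).inverse) φ.target := by
    intro y hy
    exact ((gIn_invertible hφ hy).contDiffAt_map_inverse).comp_contDiffWithinAt y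
      (contDiffOn_gIn hφ y hy)
  rw [contDiffOn_clm_apply]
  intro a
  rw [contDiffOn_clm_apply]
  intro b
  simp only [gamL_apply, christoffel]
  refine hinv.clm_apply ?_
  rw [contDiffOn_clm_apply]
  intro c
  simp only [chr1_apply]
  have h : ∀ a b c : E, ContDiffOn ℝ ∞ (fun y => fderiv ℝ (gIn φ) y a b c) φ.target :=
    fun a b c => ((contDiffOn_fderiv_apply φ.open_target (contDiffOn_gIn hφ) a).clm_apply
      contDiffOn_const).clm_apply contDiffOn_const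
  exact (((h a b c).add (h b a c)).sub (h c a b)).div_const 2

end metric

section maps

variable {X : Type*} [NormedAddCommGroup X] [NormedSpace ℝ X]

lemma mdiffWithinAt_chart_comp {u : X → M} {S : Set X} {z : X}
    (hu : MDifferentiableWithinAt 𝓘(ℝ, X) 𝓘(ℝ, E) u S z)
    {φ : OpenPartialHomeomorph M E} (hφ : φ ∈ charts E M) (hz' : u z ∈ φ.source) :
    DifferentiableWithinAt ℝ (φ ∘ u) S z :=
  ((mdiffAt_chart hφ hz').comp_mdifferentiableWithinAt z hu).differentiableWithinAt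

lemma mfderivWithin_eq_frame {u : X → M} {S : Set X} {z : X}
    (hu : MDifferentiableWithinAt 𝓘(ℝ, X) 𝓘(ℝ, E) u S z) (hS : UniqueDiffWithinAt ℝ S z)
    (hz : z ∈ S) {φ : OpenPartialHomeomorph M E} (hφ : φ ∈ charts E M) (hz' : u z ∈ φ.source)
    (a : X) : (mfderivWithin 𝓘(ℝ, X) 𝓘(ℝ, E) u S z a : E) =
      (frame φ (φ (u z)) (fderivWithin ℝ (φ ∘ u) S z a) : E) := by
  have hw := mdiffWithinAt_chart_comp hu hφ hz'
  have h1 := mfderiv_comp_mfderivWithin z (mdiffAt_chart_symm hφ (φ.map_source hz'))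
    (hw.mdifferentiableWithinAt) hS.uniqueMDiffWithinAt
  have hev : (φ.symm ∘ (φ ∘ u)) =ᶠ[𝓝[S] z] u := by
    have : u ⁻¹' φ.source ∈ 𝓝[S] z :=
      hu.continuousWithinAt.preimage_mem_nhdsWithin (φ.open_source.mem_nhds hz')
    filter_upwards [this] with w hw' using φ.left_inv hw'
  have h2 := hev.mfderivWithin_eq (I := 𝓘(ℝ, X)) (I' := 𝓘(ℝ, E)) (hev.eq_of_nhdsWithin hz)
  have h3 : (mfderivWithin 𝓘(ℝ, X) 𝓘(ℝ, E) (φ.symm ∘ (φ ∘ u)) S z : X →L[ℝ] E) a =
    (mfderivWithin 𝓘(ℝ, X) 𝓘(ℝ, E) u S z : X →L[ℝ] E) a := by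
    have h4 : ∀ (f g : X → M) (_ : mfderivWithin 𝓘(ℝ, X) 𝓘(ℝ, E) f S z =
      mfderivWithin 𝓘(ℝ, X) 𝓘(ℝ, E) g S z), (mfderivWithin 𝓘(ℝ, X) 𝓘(ℝ, E) f S z : X →L[ℝ] E) a =
      (mfderivWithin 𝓘(ℝ, X) 𝓘(ℝ, E) g S z : X →L[ℝ] E) a := by
      intro f g h
      exact DFunLike.congr_fun h a
    exact h4 _ _ h2
  rw [h1, mfderivWithin_eq_fderivWithin] at h3
  exact h3.symm

variable [RiemannianBundle (fun x : M => TangentSpace 𝓘(ℝ, E) x)]

lemma inner_mfderivWithin {u : X → M} {S : Set X} {z : X}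
    (hu : MDifferentiableWithinAt 𝓘(ℝ, X) 𝓘(ℝ, E) u S z) (hS : UniqueDiffWithinAt ℝ S z)
    (hz : z ∈ S) {φ : OpenPartialHomeomorph M E} (hφ : φ ∈ charts E M) (hz' : u z ∈ φ.source)
    (a b : X) : inner ℝ (mfderivWithin 𝓘(ℝ, X) 𝓘(ℝ, E) u S z a)
        (mfderivWithin 𝓘(ℝ, X) 𝓘(ℝ, E) u S z b) =
      gIn φ (φ (u z)) (fderivWithin ℝ (φ ∘ u) S z a) (fderivWithin ℝ (φ ∘ u) S z b) := by
  have h : (gAt (u z) : E →L[ℝ] E →L[ℝ] ℝ) = gAt (φ.symm (φ (u z))) := by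
    rw [φ.left_inv hz']
  have h2 : (gAt (u z) : E →L[ℝ] E →L[ℝ] ℝ) (mfderivWithin 𝓘(ℝ, X) 𝓘(ℝ, E) u S z a)
      (mfderivWithin 𝓘(ℝ, X) 𝓘(ℝ, E) u S z b) = gAt (E := E) (φ.symm (φ (u z)))
        (frame φ (φ (u z)) (fderivWithin ℝ (φ ∘ u) S z a))
        (frame φ (φ (u z)) (fderivWithin ℝ (φ ∘ u) S z b)) := by
    rw [h, ← mfderivWithin_eq_frame hu hS hz hφ hz' a, ← mfderivWithin_eq_frame hu hS hz hφ hz' b]
  exact h2

/-- The form `ω` at `x` as a bilinear form on the model space. -/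
def omegaAt (J : EndField E M) (x : M) : E →L[ℝ] E →L[ℝ] ℝ :=
  (innerSL ℝ (E := TangentSpace 𝓘(ℝ, E) x)).comp (J x)

lemma inner_J_mfderivWithin (J : EndField E M) {u : X → M} {S : Set X} {z : X}
    (hu : MDifferentiableWithinAt 𝓘(ℝ, X) 𝓘(ℝ, E) u S z) (hS : UniqueDiffWithinAt ℝ S z)
    (hz : z ∈ S) {φ : OpenPartialHomeomorph M E} (hφ : φ ∈ charts E M) (hz' : u z ∈ φ.source)
    (a b : X) : inner ℝ (J (u z) (mfderivWithin 𝓘(ℝ, X) 𝓘(ℝ, E) u S z a))
        (mfderivWithin 𝓘(ℝ, X) 𝓘(ℝ, E) u S z b) =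
      omegaIn J φ (φ (u z)) (fderivWithin ℝ (φ ∘ u) S z a) (fderivWithin ℝ (φ ∘ u) S z b) := by
  have h : omegaAt J (u z) = omegaAt J (φ.symm (φ (u z))) := by
    rw [φ.left_inv hz']
  have h2 : omegaAt J (u z) (mfderivWithin 𝓘(ℝ, X) 𝓘(ℝ, E) u S z a)
      (mfderivWithin 𝓘(ℝ, X) 𝓘(ℝ, E) u S z b) = omegaAt J (φ.symm (φ (u z)))
        (frame φ (φ (u z)) (fderivWithin ℝ (φ ∘ u) S z a))
        (frame φ (φ (u z)) (fderivWithin ℝ (φ ∘ u) S z b)) := by
    rw [h, ← mfderivWithin_eq_frame hu hS hz hφ hz' a, ← mfderivWithin_eq_frame hu hS hz hφ hz' b]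
  exact h2

/-- The Cauchy-Riemann equation in a chart. -/
lemma holo_chart {J : EndField E M} {u : X → M} {S : Set X} {z : X}
    (hu : MDifferentiableWithinAt 𝓘(ℝ, X) 𝓘(ℝ, E) u S z) (hS : UniqueDiffWithinAt ℝ S z)
    (hz : z ∈ S) {φ : OpenPartialHomeomorph M E} (hφ : φ ∈ charts E M) (hz' : u z ∈ φ.source)
    {a b : X} (hab : mfderivWithin 𝓘(ℝ, X) 𝓘(ℝ, E) u S z b =
      J (u z) (mfderivWithin 𝓘(ℝ, X) 𝓘(ℝ, E) u S z a)) (w : E) :
    omegaIn J φ (φ (u z)) (fderivWithin ℝ (φ ∘ u) S z a) w =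
      gIn φ (φ (u z)) (fderivWithin ℝ (φ ∘ u) S z b) w := by
  have h : omegaAt J (u z) = omegaAt J (φ.symm (φ (u z))) := by
    rw [φ.left_inv hz']
  have h' : (gAt (u z) : E →L[ℝ] E →L[ℝ] ℝ) = gAt (φ.symm (φ (u z))) := by
    rw [φ.left_inv hz']
  have h2 : omegaAt J (u z) (mfderivWithin 𝓘(ℝ, X) 𝓘(ℝ, E) u S z a)
      (frame φ (φ (u z)) w : E) = gAt (E := E) (u z) (mfderivWithin 𝓘(ℝ, X) 𝓘(ℝ, E) u S z b)
        (frame φ (φ (u z)) w : E) := by
    change inner ℝ (J (u z) (mfderivWithin 𝓘(ℝ, X) 𝓘(ℝ, E) u S z a))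
      (show TangentSpace 𝓘(ℝ, E) (u z) from (frame φ (φ (u z)) w : E)) =
      inner ℝ (mfderivWithin 𝓘(ℝ, X) 𝓘(ℝ, E) u S z b)
      (show TangentSpace 𝓘(ℝ, E) (u z) from (frame φ (φ (u z)) w : E))
    rw [hab]
  rw [h, h', mfderivWithin_eq_frame hu hS hz hφ hz' a,
    mfderivWithin_eq_frame hu hS hz hφ hz' b] at h2
  exact h2

end maps

end

end Pool.Agent.MP_c86656_gt
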