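import Pool.Agent.Lib.MP_c86656_gt.Bochner

/-! The energy density of a `J`-holomorphic curve in `M`: smoothness, Bochner inequality inside,
and the boundary inequality on an arc mapped into a Lagrangian. -/

open Set Filter Topology Manifold MeasureTheory Bundle
open scoped ContDiff ENNReal

namespace Pool.Agent.MP_c86656_gt

set_option linter.unusedSectionVars false

noncomputable section

variable {E : Type*} [NormedAddCommGroup E] [NormedSpace ℝ E] [FiniteDimensional ℝ E]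
  {M : Type*} [MetricSpace M] [ChartedSpace E M] [IsManifold 𝓘(ℝ, E) ∞ M]
  [RiemannianBundle (fun x : M => TangentSpace 𝓘(ℝ, E) x)]
  [IsContMDiffRiemannianBundle 𝓘(ℝ, E) ∞ E (fun x : M => TangentSpace 𝓘(ℝ, E) x)]

/-- A smooth `J`-holomorphic map on the set `D`. -/
structure HolCurve (J : EndField E M) (D : Set ℂ) (v : ℂ → M) : Prop where
  uniq : UniqueDiffOn ℝ D
  clos : D ⊆ closure (interior D)
  smooth : ContMDiffOn 𝓘(ℝ, ℂ) 𝓘(ℝ, E) ∞ v D
  holo : ∀ z ∈ D, du D v z Complex.I = J (v z) (du D v z 1)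

variable (E) in
/-- The energy density `|dv(1)|²`. -/
def dens (D : Set ℂ) (v : ℂ → M) (z : ℂ) : ℝ :=
  inner ℝ (du (E := E) D v z 1) (du (E := E) D v z 1)

lemma dens_nonneg (D : Set ℂ) (v : ℂ → M) (z : ℂ) : 0 ≤ dens E D v z := real_inner_self_nonneg

lemma omegaIn_alt {J : EndField E M} (hJ : IsCompatible J) (φ : OpenPartialHomeomorph M E)
    (y a : E) : omegaIn J φ y a a = 0 := by
  rw [omegaIn_apply]
  have h1 := hJ.orth (φ.symm y) (J (φ.symm y) (frame φ y a)) (frame φ y a)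
  rw [hJ.sq, inner_neg_left, real_inner_comm] at h1
  linarith

lemma omegaIn_le {J : EndField E M} (hJ : IsCompatible J) (φ : OpenPartialHomeomorph M E)
    (y a b : E) : omegaIn J φ y a b ≤ (gIn φ y a a + gIn φ y b b) / 2 := by
  rw [omegaIn_apply, gIn_apply', gIn_apply']
  have h1 := hJ.orth (φ.symm y) (frame φ y a) (frame φ y a)
  have h2 := real_inner_le_norm (J (φ.symm y) (frame φ y a)) (frame φ y b)
  rw [real_inner_self_eq_norm_sq, real_inner_self_eq_norm_sq] at h1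
  rw [real_inner_self_eq_norm_sq, real_inner_self_eq_norm_sq, ← h1]
  nlinarith [sq_nonneg (‖J (φ.symm y) (frame φ y a)‖ - ‖frame φ y b‖)]

/-- Restriction of a holomorphic curve to a relatively open piece. -/
lemma HolCurve.inter {J : EndField E M} {D : Set ℂ} {v : ℂ → M} (h : HolCurve J D v) {O : Set ℂ}
    (hO : IsOpen O) : HolCurve J (D ∩ O) v where
  uniq := h.uniq.inter hO
  clos := by
    rintro z ⟨hz, hzO⟩
    rw [interior_inter, hO.interior_eq, inter_comm]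
    exact hO.inter_closure ⟨hzO, h.clos hz⟩
  smooth := h.smooth.mono inter_subset_left
  holo := by
    rintro z ⟨hz, hzO⟩
    have : mfderivWithin 𝓘(ℝ, ℂ) 𝓘(ℝ, E) v (D ∩ O) z = mfderivWithin 𝓘(ℝ, ℂ) 𝓘(ℝ, E) v D z :=
      mfderivWithin_inter (hO.mem_nhds hzO)
    have h1 := h.holo z hz
    simp only [du] at h1 ⊢
    rw [this]
    exact h1

/-- The chart data of a `J`-holomorphic curve. -/
lemma HolCurve.cdata {J : EndField E M} (hJ : IsCompatible J) {D : Set ℂ} {v : ℂ → M}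
    (h : HolCurve J D v) {φ : OpenPartialHomeomorph M E} (hφ : φ ∈ charts E M)
    (hm : ∀ z ∈ D, v z ∈ φ.source) :
    Bochner.CData D φ.target (φ ∘ v) (gIn φ) (omegaIn J φ) (gamL φ) where
  uniq := h.uniq
  clos := h.clos
  openU := φ.open_target
  maps := fun z hz => φ.map_source (hm z hz)
  smooth := contMDiffOn_iff_contDiffOn.1 ((contMDiffOn_of_mem_maximalAtlas hφ).comp h.smooth hm)
  smoothG := contDiffOn_gIn hφ
  smoothOm := hJ.smooth φ hφ
  smoothΓ := contDiffOn_gamL hφ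
  symm := gIn_symm φ
  nonneg := gIn_nonneg φ
  pos := fun y hy a => gIn_eq_zero hφ hy
  dsymm := fun y hy => fderiv_gIn_symm hφ hy
  chr := fun y hy => gIn_christoffel hφ hy
  alt := omegaIn_alt hJ φ
  closed := hJ.closed φ hφ
  wirt := omegaIn_le hJ φ
  cr1 := fun z hz c => holo_chart ((h.smooth z hz).mdifferentiableWithinAt (by simp))
    (h.uniq z hz) hz hφ (hm z hz) (h.holo z hz) c
  cr2 := fun z hz c => by
    have h0 : mfderivWithin 𝓘(ℝ, ℂ) 𝓘(ℝ, E) v D z (-1 : ℂ) =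
        J (v z) (mfderivWithin 𝓘(ℝ, ℂ) 𝓘(ℝ, E) v D z Complex.I) := by
      have h1 : mfderivWithin 𝓘(ℝ, ℂ) 𝓘(ℝ, E) v D z Complex.I =
        J (v z) (mfderivWithin 𝓘(ℝ, ℂ) 𝓘(ℝ, E) v D z (1 : ℂ)) := h.holo z hz
      rw [h1, hJ.sq]
      exact map_neg (mfderivWithin 𝓘(ℝ, ℂ) 𝓘(ℝ, E) v D z) (1 : ℂ)
    have := holo_chart ((h.smooth z hz).mdifferentiableWithinAt (by simp))
      (h.uniq z hz) hz hφ (hm z hz) h0 c
    show omegaIn J φ (φ (v z)) _ c = - gIn φ (φ (v z)) _ c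
    rw [this, map_neg, map_neg, neg_apply]

lemma HolCurve.dens_eq {J : EndField E M} {D : Set ℂ} {v : ℂ → M}
    (h : HolCurve J D v) {φ : OpenPartialHomeomorph M E} (hφ : φ ∈ charts E M) {z : ℂ}
    (hz : z ∈ D) (hm : v z ∈ φ.source) :
    dens E D v z = gIn φ (φ (v z)) (fderivWithin ℝ (φ ∘ v) D z 1)
      (fderivWithin ℝ (φ ∘ v) D z 1) :=
  inner_mfderivWithin ((h.smooth z hz).mdifferentiableWithinAt (by simp))
    (h.uniq z hz) hz hφ hm 1 1

/-- Around each point, the curve has values in a chart. -/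
lemma HolCurve.exists_chart {J : EndField E M} {D : Set ℂ} {v : ℂ → M}
    (h : HolCurve J D v) {z : ℂ} (hz : z ∈ D) : ∃ φ ∈ charts E M, ∃ δ : ℝ, 0 < δ ∧
      ∀ x ∈ D ∩ Metric.ball z δ, v x ∈ φ.source := by
  have hc : v ⁻¹' (chartAt E (v z)).source ∈ 𝓝[D] z :=
    (h.smooth.continuousOn z hz).preimage_mem_nhdsWithin (chart_source_mem_nhds E (v z))
  obtain ⟨δ, hδ, hs⟩ := Metric.mem_nhdsWithin_iff.1 hc
  exact ⟨chartAt E (v z), IsManifold.chart_mem_maximalAtlas _, δ, hδ,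
    fun x hx => hs ⟨hx.2, hx.1⟩⟩

lemma dens_inter (D : Set ℂ) (v : ℂ → M) {O : Set ℂ} (hO : IsOpen O) {z : ℂ} (hz : z ∈ O) :
    dens E (D ∩ O) v z = dens E D v z := by
  have : mfderivWithin 𝓘(ℝ, ℂ) 𝓘(ℝ, E) v (D ∩ O) z = mfderivWithin 𝓘(ℝ, ℂ) 𝓘(ℝ, E) v D z :=
    mfderivWithin_inter (hO.mem_nhds hz)
  simp only [dens, du]
  rw [this]

/-- Smoothness of the energy density. -/
lemma HolCurve.contDiffOn_dens {J : EndField E M} (hJ : IsCompatible J) {D : Set ℂ} {v : ℂ → M}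
    (h : HolCurve J D v) : ContDiffOn ℝ ∞ (dens E D v) D := by
  intro z hz
  obtain ⟨φ, hφ, δ, hδ, hs⟩ := h.exists_chart hz
  have h' := h.inter (Metric.isOpen_ball (x := z) (ε := δ))
  have hc := h'.cdata hJ hφ hs
  have h1 : ContDiffOn ℝ ∞ (fun x => gIn φ (φ (v x))
      (fderivWithin ℝ (φ ∘ v) (D ∩ Metric.ball z δ) x 1)
      (fderivWithin ℝ (φ ∘ v) (D ∩ Metric.ball z δ) x 1)) (D ∩ Metric.ball z δ) :=
    ((hc.smoothG.comp hc.smooth hc.maps).clm_apply (hc.smooth_d 1)).clm_apply (hc.smooth_d 1)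
  have hz' : z ∈ D ∩ Metric.ball z δ := ⟨hz, Metric.mem_ball_self hδ⟩
  have h2 : ContDiffWithinAt ℝ ∞ (dens E D v) (D ∩ Metric.ball z δ) z := by
    refine (h1 z hz').congr (fun x hx => ?_) ?_
    · rw [← dens_inter D v Metric.isOpen_ball hx.2, h'.dens_eq hφ hx (hs x hx)]
    · rw [← dens_inter D v Metric.isOpen_ball hz'.2, h'.dens_eq hφ hz' (hs z hz')]
  exact (contDiffWithinAt_inter (Metric.ball_mem_nhds z hδ)).1 h2

/-- Interior Bochner inequality. -/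
lemma HolCurve.bochner {J : EndField E M} (hJ : IsCompatible J) {K : ℝ}
    (hK : SectionalCurvatureLE E M K) {D : Set ℂ} {v : ℂ → M}
    (h : HolCurve J D v) {z : ℂ} (hz : z ∈ interior D) :
    ∃ q : ℝ, 0 ≤ q ∧
      fderiv ℝ (dens E D v) z 1 ^ 2 + fderiv ℝ (dens E D v) z Complex.I ^ 2 ≤
        4 * dens E D v z * q ∧
      2 * q - 2 * K * dens E D v z ^ 2 ≤ fderiv ℝ (fun w => fderiv ℝ (dens E D v) w 1) z 1
          + fderiv ℝ (fun w => fderiv ℝ (dens E D v) w Complex.I) z Complex.I := by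
  obtain ⟨φ, hφ, δ, hδ, hs⟩ := h.exists_chart (interior_subset hz)
  -- pass to an open set
  set O : Set ℂ := interior D ∩ Metric.ball z δ with hO
  have hOo : IsOpen O := isOpen_interior.inter Metric.isOpen_ball
  have hOD : O ⊆ D := inter_subset_left.trans interior_subset
  have hzO : z ∈ O := ⟨hz, Metric.mem_ball_self hδ⟩
  have hDO : D ∩ O = O := inter_eq_right.2 hOD
  have h' : HolCurve J O v := by
    have := h.inter hOo
    rwa [hDO] at this
  have hs' : ∀ x ∈ O, v x ∈ φ.source := fun x hx => hs x ⟨hOD hx, hx.2⟩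
  have hc := h'.cdata hJ hφ hs'
  have hcurv : ∀ y ∈ φ.target, ∀ a b, gIn φ y (Bochner.Rm (gamL φ) y a b b) a ≤
      K * (gIn φ y a a * gIn φ y b b - gIn φ y a b ^ 2) := by
    intro y hy a b
    have h1 : ∀ b c a : E, fderiv ℝ (fun z => christoffel φ z b c) y a =
        fderiv ℝ (gamL φ) y a b c := by
      intro b c a
      have hd : DifferentiableAt ℝ (gamL φ) y :=
        ((contDiffOn_gamL hφ).contDiffAt (φ.open_target.mem_nhds hy)).differentiableAt (by simp)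
      have h2 : HasFDerivAt (fun z => gamL φ z b) ((fderiv ℝ (gamL φ) y).flip b) y := by
        have := hd.hasFDerivAt.clm_apply (hasFDerivAt_const b y)
        convert! this using 1
        simp
      have h3 : HasFDerivAt (fun z => gamL φ z b c) (((fderiv ℝ (gamL φ) y).flip b).flip c) y := by
        have := h2.clm_apply (hasFDerivAt_const c y)
        convert! this using 1
        simp
      have h4 : (fun z => christoffel φ z b c) = fun z => gamL φ z b c := rfl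
      rw [h4, h3.fderiv]
      rfl
    have h5 := hK φ hφ y hy a b
    have h6 : curvature φ y a b b = Bochner.Rm (gamL φ) y a b b := by
      rw [curvature, h1, h1, Bochner.Rm]
      rfl
    rwa [h6] at h5
  obtain ⟨q, hq, hq1, hq2⟩ := hc.bochner hcurv hzO
  have hdens : ∀ x ∈ O, gIn φ ((φ ∘ v) x) (fderivWithin ℝ (φ ∘ v) O x 1)
      (fderivWithin ℝ (φ ∘ v) O x 1) = dens E D v x := by
    intro x hx
    show gIn φ (φ (v x)) _ _ = _
    rw [← h'.dens_eq hφ hx (hs' x hx), ← dens_inter D v hOo hx, hDO]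
  have hd1 : ∀ a : ℂ, ∀ x ∈ O, fderivWithin ℝ (fun x => gIn φ ((φ ∘ v) x)
      (fderivWithin ℝ (φ ∘ v) O x 1) (fderivWithin ℝ (φ ∘ v) O x 1)) O x a =
      fderiv ℝ (dens E D v) x a := by
    intro a x hx
    rw [fderivWithin_congr (fun y hy => hdens y hy) (hdens x hx), fderivWithin_of_isOpen hOo hx]
  have hd2 : ∀ a : ℂ, fderivWithin ℝ (fun x => fderivWithin ℝ (fun x => gIn φ ((φ ∘ v) x)
      (fderivWithin ℝ (φ ∘ v) O x 1) (fderivWithin ℝ (φ ∘ v) O x 1)) O x a) O z a =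
      fderiv ℝ (fun w => fderiv ℝ (dens E D v) w a) z a := by
    intro a
    rw [fderivWithin_congr (fun y hy => hd1 a y hy) (hd1 a z hzO), fderivWithin_of_isOpen hOo hzO]
  have h0 : gIn φ ((φ ∘ v) z) (fderivWithin ℝ (φ ∘ v) O z 1)
      (fderivWithin ℝ (φ ∘ v) O z 1) = dens E D v z := hdens z hzO
  rw [hd1 1 z hzO, hd1 Complex.I z hzO, h0] at hq1
  rw [hd2, hd2, h0] at hq2
  exact ⟨q, hq, hq1, hq2⟩

/-- The closed upper half plane. -/
def Hc : Set ℂ := {z : ℂ | 0 ≤ z.im}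

/-- The boundary inequality on an arc mapped into a Lagrangian `L` with `‖B_L‖ ≤ Λ`. -/
lemma HolCurve.boundary {J : EndField E M} (hJ : IsCompatible J) {L : Set M}
    (hL : IsClosedLagrangian J L) {Λ : ℝ} (hΛ : SecondFormLE E Λ L) {z₀ : ℂ} {ρ : ℝ} {v : ℂ → M}
    (h : HolCurve J (Metric.ball z₀ ρ ∩ Hc) v) {z : ℂ} (hz : z ∈ Metric.ball z₀ ρ)
    (hz0 : z.im = 0) (hb : ∀ x ∈ Metric.ball z₀ ρ, x.im = 0 → v x ∈ L) :
    -(2 * Λ * dens E (Metric.ball z₀ ρ ∩ Hc) v z * √(dens E (Metric.ball z₀ ρ ∩ Hc) v z)) ≤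
      fderivWithin ℝ (dens E (Metric.ball z₀ ρ ∩ Hc) v) (Metric.ball z₀ ρ ∩ Hc) z Complex.I := by
  set D := Metric.ball z₀ ρ ∩ Hc with hD
  have hzD : z ∈ D := ⟨hz, by simp [Hc, hz0]⟩
  obtain ⟨φ, hφ, δ, hδ, hs⟩ := h.exists_chart hzD
  obtain ⟨δ', hδ', hball⟩ : ∃ δ' > 0, Metric.ball z δ' ⊆ Metric.ball z₀ ρ ∩ Metric.ball z δ :=
    Metric.isOpen_iff.1 (Metric.isOpen_ball.inter Metric.isOpen_ball) z
      ⟨hz, Metric.mem_ball_self hδ⟩
  set O := Metric.ball z δ' with hO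
  have hOo : IsOpen O := Metric.isOpen_ball
  have hzO : z ∈ O := Metric.mem_ball_self hδ'
  have h' := h.inter hOo
  have hs' : ∀ x ∈ D ∩ O, v x ∈ φ.source := fun x hx => hs x ⟨hx.1, (hball hx.2).2⟩
  have hc := h'.cdata hJ hφ hs'
  have hzDO : z ∈ D ∩ O := ⟨hzD, hzO⟩
  have hdens : ∀ x ∈ D ∩ O, gIn φ ((φ ∘ v) x) (fderivWithin ℝ (φ ∘ v) (D ∩ O) x 1)
      (fderivWithin ℝ (φ ∘ v) (D ∩ O) x 1) = dens E D v x := by
    intro x hx
    show gIn φ (φ (v x)) _ _ = _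
    rw [← h'.dens_eq hφ hx (hs' x hx), ← dens_inter D v hOo hx.2]
  have e1 : fderivWithin ℝ (dens E D v) D z Complex.I =
      fderivWithin ℝ (fun x => gIn φ ((φ ∘ v) x) (fderivWithin ℝ (φ ∘ v) (D ∩ O) x 1)
      (fderivWithin ℝ (φ ∘ v) (D ∩ O) x 1)) (D ∩ O) z Complex.I := by
    rw [fderivWithin_congr (fun y hy => hdens y hy) (hdens z hzDO),
      fderivWithin_inter (hOo.mem_nhds hzO)]
  rw [e1, hc.boundary hzDO]
  -- the boundary curve in the chart
  have hmem : ∀ t : ℝ, |t| < δ' → z + t ∈ D ∩ O := by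
    intro t ht
    have h1 : z + t ∈ O := by
      simpa [hO, Metric.mem_ball, Complex.dist_eq] using ht
    refine ⟨⟨(hball h1).1, ?_⟩, h1⟩
    simp [Hc, hz0]
  set c : ℝ → E := fun t => (φ ∘ v) (z + t) with hcdef
  have hlin : ∀ t : ℝ, HasDerivAt (fun t : ℝ => z + (t : ℂ)) 1 t := by
    intro t
    exact (Complex.ofRealCLM.hasDerivAt (x := t)).const_add z
  have hIoo : ∀ t : ℝ, t ∈ Ioo (-δ') δ' ↔ |t| < δ' := fun t => by rw [abs_lt]; rfl
  have hderiv : ∀ (V : ℂ → E), DifferentiableOn ℝ V (D ∩ O) → ∀ t : ℝ, |t| < δ' →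
      HasDerivAt (fun t : ℝ => V (z + t)) (fderivWithin ℝ V (D ∩ O) (z + t) 1) t := by
    intro V hV t ht
    have h1 := (hV _ (hmem t ht)).hasFDerivWithinAt
    have h2 : HasDerivWithinAt (fun t : ℝ => z + (t : ℂ)) 1 (Ioo (-δ') δ') t :=
      (hlin t).hasDerivWithinAt
    have h3 := h1.comp_hasDerivWithinAt t h2 (fun s hs => hmem s ((hIoo s).1 hs))
    exact h3.hasDerivAt (Ioo_mem_nhds ((hIoo t).2 ht).1 ((hIoo t).2 ht).2)
  have hc1 : ∀ t : ℝ, |t| < δ' →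
      deriv c t = fderivWithin ℝ (φ ∘ v) (D ∩ O) (z + t) 1 := fun t ht =>
    (hderiv _ (hc.smooth.differentiableOn (by simp)) t ht).deriv
  have h0 : |(0 : ℝ)| < δ' := by simpa using hδ'
  have hc2 : deriv (deriv c) 0 =
      fderivWithin ℝ (fun x => fderivWithin ℝ (φ ∘ v) (D ∩ O) x 1) (D ∩ O) z 1 := by
    have h1 : deriv c =ᶠ[𝓝 0] fun t : ℝ => fderivWithin ℝ (φ ∘ v) (D ∩ O) (z + t) 1 := by
      filter_upwards [Ioo_mem_nhds (neg_lt_zero.2 hδ') hδ'] with t ht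
      exact hc1 t ((hIoo t).1 ht)
    rw [h1.deriv_eq]
    have h2 := (hderiv _ ((hc.smooth_d 1).differentiableOn (by simp)) 0 h0).deriv
    simpa using h2
  have hcs : ContDiffAt ℝ ∞ c 0 := by
    have h1 : ContDiffOn ℝ ∞ c (Ioo (-δ') δ') := by
      refine hc.smooth.comp ?_ (fun s hs => hmem s ((hIoo s).1 hs))
      exact (contDiff_const.add Complex.ofRealCLM.contDiff).contDiffOn
    exact h1.contDiffAt (Ioo_mem_nhds (neg_lt_zero.2 hδ') hδ')
  have hcL : ∀ᶠ t in 𝓝 (0 : ℝ), c t ∈ φ.target ∧ φ.symm (c t) ∈ L := by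
    filter_upwards [Ioo_mem_nhds (neg_lt_zero.2 hδ') hδ'] with t ht
    have h1 := hmem t ((hIoo t).1 ht)
    refine ⟨hc.maps _ h1, ?_⟩
    have h2 : φ.symm (c t) = v (z + t) := φ.left_inv (hs' _ h1)
    rw [h2]
    refine hb _ h1.1.1 ?_
    simp [hz0]
  have hc0 : c 0 = (φ ∘ v) z := by simp [hcdef]
  have hc1' : deriv c 0 = fderivWithin ℝ (φ ∘ v) (D ∩ O) z 1 := by
    simpa using hc1 0 h0
  have hξ : fderivWithin ℝ (φ ∘ v) (D ∩ O) z 1 ∈ tangentIn φ L ((φ ∘ v) z) :=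
    ⟨c, hc0, by
      have h1 := hderiv _ (hc.smooth.differentiableOn (by simp)) 0 h0
      rw [show z + ((0 : ℝ) : ℂ) = z by simp] at h1
      exact h1, hcL⟩
  have hyt : (φ ∘ v) z ∈ φ.target := hc.maps z hzDO
  have hyL : φ.symm ((φ ∘ v) z) ∈ L := by
    have : φ.symm ((φ ∘ v) z) = v z := φ.left_inv (hs' _ hzDO)
    rw [this]; exact hb z hz hz0
  have hn : ∀ v' ∈ tangentIn φ L (c 0),
      gIn φ (c 0) v' (fderivWithin ℝ (φ ∘ v) (D ∩ O) z Complex.I) = 0 := by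
    intro v' hv'
    rw [hc0] at hv' ⊢
    rw [gIn_symm, ← hc.cr1 z hzDO v']
    exact hL.lagrangian φ hφ _ hyt hyL _ hξ _ hv'
  have key := hΛ φ hφ c hcs hcL _ hn
  rw [hc0, hc1', hc2] at key
  have e2 : gIn φ ((φ ∘ v) z) (fderivWithin ℝ (φ ∘ v) (D ∩ O) z Complex.I)
      (fderivWithin ℝ (φ ∘ v) (D ∩ O) z Complex.I) = dens E D v z := by
    rw [hc.energy_I hzDO, hdens z hzDO]
  rw [hdens z hzDO, e2] at key
  have e3 : gIn φ ((φ ∘ v) z) (Bochner.cov (D ∩ O) (φ ∘ v) (gamL φ) 1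
      (fun x => fderivWithin ℝ (φ ∘ v) (D ∩ O) x 1) z)
      (fderivWithin ℝ (φ ∘ v) (D ∩ O) z Complex.I) =
    gIn φ ((φ ∘ v) z) (fderivWithin ℝ (fun x => fderivWithin ℝ (φ ∘ v) (D ∩ O) x 1) (D ∩ O) z 1 +
      christoffel φ ((φ ∘ v) z) (fderivWithin ℝ (φ ∘ v) (D ∩ O) z 1)
        (fderivWithin ℝ (φ ∘ v) (D ∩ O) z 1)) (fderivWithin ℝ (φ ∘ v) (D ∩ O) z Complex.I) := rfl
  rw [e3]
  have := (abs_le.1 key).2
  linarith

end

end Pool.Agent.MP_c86656_gt
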