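import Mathlib

/-!
# MP_c86656_gt: definitions

`M` is a smooth Riemannian manifold in Mathlib's sense: `dist` is the Riemannian distance of the
inner products on the tangent spaces (`IsRiemannianManifold`).  A compatible pair `(ω, J)` with
`g_J = ω(·, J·)` equal to this metric is the same as an orthogonal almost complex structure `J`
whose form `ω(v, w) = ⟪J v, w⟫` is closed.  Tensors are computed in the charts
of the maximal atlas, with the usual coordinate formulas.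
-/

open Set Filter Topology Manifold MeasureTheory Bundle
open scoped ContDiff ENNReal

namespace Pool.Agent.MP_c86656_gt

noncomputable section

variable {E : Type*} [NormedAddCommGroup E] [NormedSpace ℝ E]
  {M : Type*} [MetricSpace M] [ChartedSpace E M]

/-- A field of endomorphisms of the tangent spaces of `M`. -/
abbrev EndField (E M : Type*) [NormedAddCommGroup E] [NormedSpace ℝ E]
    [MetricSpace M] [ChartedSpace E M] :=
  ∀ x : M, TangentSpace 𝓘(ℝ, E) x →L[ℝ] TangentSpace 𝓘(ℝ, E) x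

/-- The charts of the smooth manifold `M`. -/
abbrev charts (E M : Type*) [NormedAddCommGroup E] [NormedSpace ℝ E]
    [MetricSpace M] [ChartedSpace E M] : Set (OpenPartialHomeomorph M E) :=
  IsManifold.maximalAtlas 𝓘(ℝ, E) ∞ M

/-- The coordinate frame of the chart `φ` at the point with coordinates `y`. -/
def frame (φ : OpenPartialHomeomorph M E) (y : E) :
    TangentSpace 𝓘(ℝ, E) y →L[ℝ] TangentSpace 𝓘(ℝ, E) (φ.symm y) :=
  mfderiv 𝓘(ℝ, E) 𝓘(ℝ, E) φ.symm y

/-- Tangent vectors, in the chart `φ`, of the set `L` at the point with coordinates `y`: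
velocities of curves in `L`. -/
def tangentIn (φ : OpenPartialHomeomorph M E) (L : Set M) (y : E) : Set E :=
  {v | ∃ c : ℝ → E, c 0 = y ∧ HasDerivAt c v 0 ∧ ∀ᶠ t in 𝓝 0, c t ∈ φ.target ∧ φ.symm (c t) ∈ L}

/-- `A` and `B` are transverse: at every common point the tangent spaces span. -/
def Transverse (A B : Set M) : Prop :=
  ∀ p ∈ A ∩ B, ∀ φ ∈ charts E M, p ∈ φ.source →
    ∀ z : E, ∃ v ∈ tangentIn φ A (φ p), ∃ w ∈ tangentIn φ B (φ p), v + w = z

/-- The pseudometric axioms, for an extended distance `d` on the collection `S`. -/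
structure IsPseudoDist (S : Set (Set M)) (d : Set M → Set M → ℝ≥0∞) : Prop where
  self : ∀ L ∈ S, d L L = 0
  symm : ∀ L ∈ S, ∀ L' ∈ S, d L L' = d L' L
  triangle : ∀ L ∈ S, ∀ L' ∈ S, ∀ L'' ∈ S, d L L'' ≤ d L L' + d L' L''

variable [RiemannianBundle (fun x : M => TangentSpace 𝓘(ℝ, E) x)]

/-- The metric in the chart `φ`. -/
def gIn (φ : OpenPartialHomeomorph M E) (y : E) : E →L[ℝ] E →L[ℝ] ℝ :=
  (innerSL ℝ (E := TangentSpace 𝓘(ℝ, E) (φ.symm y))).bilinearComp (frame φ y) (frame φ y)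

/-- The form `ω(v, w) = ⟪J v, w⟫` in the chart `φ`. -/
def omegaIn (J : EndField E M) (φ : OpenPartialHomeomorph M E) (y : E) : E →L[ℝ] E →L[ℝ] ℝ :=
  (innerSL ℝ (E := TangentSpace 𝓘(ℝ, E) (φ.symm y))).bilinearComp
    ((J (φ.symm y)).comp (frame φ y)) (frame φ y)

/-- Christoffel symbols of the first kind:
`c ↦ (∂_a g(b, c) + ∂_b g(a, c) - ∂_c g(a, b)) / 2`. -/
def chr1 (φ : OpenPartialHomeomorph M E) (y a b : E) : E →L[ℝ] ℝ :=
  (1 / 2 : ℝ) • (fderiv ℝ (gIn φ) y a b + fderiv ℝ (gIn φ) y b a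
    - ((fderiv ℝ (gIn φ) y).flip a).flip b)

/-- Christoffel symbols `Γ(a, b)`: `g(Γ(a, b), c) = [ab, c]`. -/
def christoffel (φ : OpenPartialHomeomorph M E) (y a b : E) : E :=
  (gIn φ y).inverse (chr1 φ y a b)

/-- The curvature tensor `R(a, b) c` in the chart `φ`. -/
def curvature (φ : OpenPartialHomeomorph M E) (y a b c : E) : E :=
  fderiv ℝ (fun z => christoffel φ z b c) y a - fderiv ℝ (fun z => christoffel φ z a c) y b
    + christoffel φ y a (christoffel φ y b c) - christoffel φ y b (christoffel φ y a c)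

variable (E M) in
/-- All sectional curvatures are at most `K`. -/
def SectionalCurvatureLE (K : ℝ) : Prop :=
  ∀ φ ∈ charts E M, ∀ y ∈ φ.target, ∀ a b : E,
    gIn φ y (curvature φ y a b b) a ≤ K * (gIn φ y a a * gIn φ y b b - gIn φ y a b ^ 2)

/-- `J` is a smooth almost complex structure, orthogonal for the metric, and
`ω = ⟪J ·, ·⟫` is closed. -/
structure IsCompatible (J : EndField E M) : Prop where
  sq : ∀ x v, J x (J x v) = -v
  orth : ∀ x v w, inner ℝ (J x v) (J x w) = inner ℝ v w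
  smooth : ∀ φ ∈ charts E M, ContDiffOn ℝ ∞ (omegaIn J φ) φ.target
  closed : ∀ φ ∈ charts E M, ∀ y ∈ φ.target, ∀ a b c : E,
    fderiv ℝ (omegaIn J φ) y a b c + fderiv ℝ (omegaIn J φ) y b c a
      + fderiv ℝ (omegaIn J φ) y c a b = 0

/-- `L` is a closed connected Lagrangian submanifold: compact, connected, locally
a linear slice of half the dimension, and `ω` vanishes on its tangent vectors. -/
structure IsClosedLagrangian (J : EndField E M) (L : Set M) : Prop where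
  compact : IsCompact L
  connected : IsConnected L
  slice : ∀ x ∈ L, ∃ φ ∈ charts E M, ∃ V : Submodule ℝ E, x ∈ φ.source ∧
    2 * Module.finrank ℝ V = Module.finrank ℝ E ∧ ∀ y ∈ φ.source, y ∈ L ↔ φ y ∈ V
  lagrangian : ∀ φ ∈ charts E M, ∀ y ∈ φ.target, φ.symm y ∈ L →
    ∀ v ∈ tangentIn φ L y, ∀ w ∈ tangentIn φ L y, omegaIn J φ y v w = 0

variable (E) in
/-- `‖B_L‖ ≤ Λ`: for every curve `c` in `L`, the component of the covariant acceleration
`c'' + Γ(c', c')` along a normal vector `n` of `L` is at most `Λ |c'|² |n|`. -/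
def SecondFormLE (Λ : ℝ) (L : Set M) : Prop :=
  ∀ φ ∈ charts E M, ∀ c : ℝ → E, ContDiffAt ℝ ∞ c 0 →
    (∀ᶠ t in 𝓝 0, c t ∈ φ.target ∧ φ.symm (c t) ∈ L) →
    ∀ n : E, (∀ v ∈ tangentIn φ L (c 0), gIn φ (c 0) v n = 0) →
      |gIn φ (c 0) (deriv (deriv c) 0 + christoffel φ (c 0) (deriv c 0) (deriv c 0)) n|
        ≤ Λ * gIn φ (c 0) (deriv c 0) (deriv c 0) * √(gIn φ (c 0) n n)

/-- `ψ` is the time one map of the flow `Φ` of a compactly supported time dependent Hamiltonian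
`H`, with `dist x (Φ t x) < η` for all `x` and `t ∈ [0, 1]` and with Hofer length less than `η`. -/
def IsSmallHamiltonian (J : EndField E M) (η : ℝ) (ψ : M → M) : Prop :=
  ∃ (H : ℝ → M → ℝ) (Φ : ℝ → M → M) (C : Set M),
    ContMDiff (𝓘(ℝ, ℝ).prod 𝓘(ℝ, E)) 𝓘(ℝ, ℝ) ∞ (fun p : ℝ × M => H p.1 p.2) ∧
    IsCompact C ∧ (∀ t, ∀ x ∉ C, H t x = 0) ∧
    (∀ x, Φ 0 x = x ∧ Φ 1 x = ψ x ∧ ContinuousOn (fun t => Φ t x) (Icc 0 1)) ∧
    (∀ x, ∀ t ∈ Icc (0 : ℝ) 1, ∀ φ ∈ charts E M, Φ t x ∈ φ.source →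
      ∃ X : E, HasDerivWithinAt (fun s => φ (Φ s x)) X (Icc 0 1) t ∧
        ∀ w, omegaIn J φ (φ (Φ t x)) X w = fderiv ℝ (fun y => H t (φ.symm y)) (φ (Φ t x)) w) ∧
    (∀ x, ∀ t ∈ Icc (0 : ℝ) 1, dist x (Φ t x) < η) ∧
    ∫ t in (0 : ℝ)..1, ((⨆ x, H t x) - ⨅ x, H t x) < η

/-- The closed unit disc without the punctures `exp (i θ_j)`. -/
def puncturedDisc {N : ℕ} (θ : Fin (N + 1) → ℝ) : Set ℂ :=
  Metric.closedBall 0 1 \ range (fun j => Complex.exp (θ j * Complex.I))

/-- The derivative of `u` within `S` at `z` in the direction `a`. -/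
def du (S : Set ℂ) (u : ℂ → M) (z a : ℂ) : TangentSpace 𝓘(ℝ, E) (u z) :=
  mfderivWithin 𝓘(ℝ, ℂ) 𝓘(ℝ, E) u S z a

/-- `u` is a `J`-holomorphic polygon with `N` boundary arcs: the punctures are `exp (i θ_j)`,
`θ_0 < ⋯ < θ_N = θ_0 + 2π`; the `j`-th arc `(θ_j, θ_{j+1})` is mapped into `Q j`; at each
puncture `u` converges to an intersection point of the two adjacent `Q j`; the energy
`∫ u^* ω` is finite. -/
structure IsPolygon (J : EndField E M) {N : ℕ} (Q : Fin N → Set M) (θ : Fin (N + 1) → ℝ)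
    (u : ℂ → M) : Prop where
  mono : StrictMono θ
  last : θ (Fin.last N) = θ 0 + 2 * Real.pi
  smooth : ContMDiffOn 𝓘(ℝ, ℂ) 𝓘(ℝ, E) ∞ u (puncturedDisc θ)
  holo : ∀ z ∈ puncturedDisc θ,
    du (puncturedDisc θ) u z Complex.I = J (u z) (du (puncturedDisc θ) u z 1)
  arcs : ∀ j : Fin N, ∀ t ∈ Ioo (θ j.castSucc) (θ j.succ), u (Complex.exp (t * Complex.I)) ∈ Q j
  corners : ∀ j : Fin N, ∃ q ∈ Q j ∩ Q (finRotate N j),
    Tendsto u (𝓝[puncturedDisc θ] Complex.exp (θ j.succ * Complex.I)) (𝓝 q)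
  finite : IntegrableOn (fun z => inner ℝ (J (u z) (du (E := E) (puncturedDisc θ) u z 1))
    (du (E := E) (puncturedDisc θ) u z Complex.I)) (Metric.ball 0 1)

/-- The energy `∫ u^* ω` of a polygon. -/
def energy (J : EndField E M) {N : ℕ} (θ : Fin (N + 1) → ℝ) (u : ℂ → M) : ℝ :=
  ∫ z in Metric.ball 0 1, inner ℝ (J (u z) (du (E := E) (puncturedDisc θ) u z 1))
    (du (E := E) (puncturedDisc θ) u z Complex.I)

/-- The pseudometric `d` on `Lstar` is `J`-adapted for the family `F`.  The Lagrangians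
`L, L', G 0, …, G (k-1)` are numbered by `Fin (k + 2)`, `ψ i` is the perturbation of the `i`-th,
and the polygon has its boundary on some of the perturbed Lagrangians, each used for at most
one arc.  It passes through `x` when `x` lies on the image of an arc mapped to `ψ 0 '' L` or
`ψ 1 '' L'`, or is an end of that image (a corner): `x` is in the closure of the image of
the arc. -/
def JAdapted (J : EndField E M) (Lstar F : Set (Set M)) (d : Set M → Set M → ℝ≥0∞) : Prop :=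
  ∀ δ : ℝ, 0 < δ → ∀ L ∈ Lstar, ∀ L' ∈ Lstar, ∃ (k : ℕ) (G : Fin k → Set M),
    (∀ i, G i ∈ F) ∧ ∃ η : ℝ, 0 < η ∧ ∀ ψ : Fin (k + 2) → M → M,
      (∀ i, IsSmallHamiltonian J η (ψ i)) →
      (∀ i j, i ≠ j → Transverse (E := E) (ψ i '' (Fin.cons L (Fin.cons L' G) : Fin (k + 2) → Set M) i)
        (ψ j '' (Fin.cons L (Fin.cons L' G) : Fin (k + 2) → Set M) j)) →
      ∀ x, x ∈ ψ 0 '' L ∪ ψ 1 '' L' →
        ∃ (N : ℕ) (σ : Fin N → Fin (k + 2)) (θ : Fin (N + 1) → ℝ) (u : ℂ → M),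
          Function.Injective σ ∧
          IsPolygon J (fun j => ψ (σ j) '' (Fin.cons L (Fin.cons L' G) : Fin (k + 2) → Set M) (σ j))
            θ u ∧
          (∃ z ∈ puncturedDisc θ, ∃ w ∈ puncturedDisc θ, u z ≠ u w) ∧
          (∃ j : Fin N, (σ j = 0 ∨ σ j = 1) ∧
            x ∈ closure ((fun t : ℝ => u (Complex.exp (t * Complex.I))) ''
              Ioo (θ j.castSucc) (θ j.succ))) ∧
          ENNReal.ofReal (energy J θ u) ≤ d L L' + ENNReal.ofReal δ

end

end Pool.Agent.MP_c86656_gt
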