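import Mathlib

/-! The metric part of the final argument: Hausdorff convergence from an exclusion principle. -/

open Set Filter Topology

namespace Pool.Agent.MP_c86656_gt

variable {M : Type*} [MetricSpace M]

lemma exists_dist_eq {A : Set M} (hA : IsConnected A) {x y : M} {t s : ℝ} (hy : y ∈ A)
    (hyt : dist y x ≤ t) (hts : t ≤ s) (hs : ¬ A ⊆ Metric.ball x s) : ∃ z ∈ A, dist z x = t := by
  obtain ⟨w, hw, hws⟩ := not_subset.1 hs
  have h1 : t ≤ dist w x := by
    rw [Metric.mem_ball, not_lt] at hws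
    exact hts.trans hws
  have h2 : ContinuousOn (fun z => dist z x) A := (continuous_id.dist continuous_const).continuousOn
  obtain ⟨z, hz, hzt⟩ := hA.isPreconnected.intermediate_value hy hw h2 ⟨hyt, h1⟩
  exact ⟨z, hz, hzt⟩

lemma exists_good_radius {B₁ B₂ : Set M} (hB₁ : IsClosed B₁) (hB₂ : IsClosed B₂)
    (hB : DiscreteTopology ↥(B₁ ∩ B₂)) (x : M) : ∃ s : ℝ, 0 < s ∧ ∀ z, 0 < dist z x →
      dist z x < s → ∃ ρ : ℝ, 0 < ρ ∧ ((∀ q ∈ B₁, ρ ≤ dist z q) ∨ (∀ q ∈ B₂, ρ ≤ dist z q)) := by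
  have hout : ∀ z : M, z ∉ B₁ ∩ B₂ →
      ∃ ρ : ℝ, 0 < ρ ∧ ((∀ q ∈ B₁, ρ ≤ dist z q) ∨ (∀ q ∈ B₂, ρ ≤ dist z q)) := by
    have key : ∀ B : Set M, IsClosed B → ∀ z ∉ B, ∃ ρ : ℝ, 0 < ρ ∧ ∀ q ∈ B, ρ ≤ dist z q := by
      intro B hB z hz
      obtain ⟨ρ, hρ, hsub⟩ := Metric.isOpen_iff.1 hB.isOpen_compl z hz
      refine ⟨ρ, hρ, fun q hq => ?_⟩
      by_contra hcon
      push Not at hcon
      exact hsub (show q ∈ Metric.ball z ρ by rwa [Metric.mem_ball, dist_comm]) hq
    intro z hz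
    rw [mem_inter_iff, not_and_or] at hz
    rcases hz with hz | hz
    · obtain ⟨ρ, hρ, h⟩ := key B₁ hB₁ z hz
      exact ⟨ρ, hρ, Or.inl h⟩
    · obtain ⟨ρ, hρ, h⟩ := key B₂ hB₂ z hz
      exact ⟨ρ, hρ, Or.inr h⟩
  by_cases hx : x ∈ B₁ ∩ B₂
  · have h1 : ({⟨x, hx⟩} : Set ↥(B₁ ∩ B₂)) ∈ 𝓝 (⟨x, hx⟩ : ↥(B₁ ∩ B₂)) :=
      (isOpen_discrete _).mem_nhds rfl
    obtain ⟨s, hs, hsub⟩ := Metric.mem_nhds_iff.1 h1
    refine ⟨s, hs, fun z hz hzs => hout z fun hzB => ?_⟩
    have h2 : (⟨z, hzB⟩ : ↥(B₁ ∩ B₂)) ∈ Metric.ball (⟨x, hx⟩ : ↥(B₁ ∩ B₂)) s := hzs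
    have h3 := hsub h2
    rw [mem_singleton_iff, Subtype.mk.injEq] at h3
    rw [h3, dist_self] at hz
    exact lt_irrefl _ hz
  · obtain ⟨s, hs, hsub⟩ := Metric.isOpen_iff.1 (hB₁.inter hB₂).isOpen_compl x hx
    exact ⟨s, hs, fun z _ hzs => hout z (hsub hzs)⟩

lemma exists_compact_cthickening [LocallyCompactSpace M] {K : Set M} (hK : IsCompact K) :
    ∃ κ : ℝ, 0 < κ ∧ IsCompact (Metric.cthickening κ K) := by
  obtain ⟨K', hK', hsub⟩ := exists_compact_superset hK
  obtain ⟨κ, hκ, h⟩ := hK.exists_cthickening_subset_open isOpen_interior hsub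
  exact ⟨κ, hκ, hK'.of_isClosed_subset Metric.isClosed_cthickening (h.trans interior_subset)⟩

lemma mem_cthickening_of_infDist_lt {K : Set M} (hK : K.Nonempty) {x : M} {δ : ℝ}
    (h : Metric.infDist x K < δ) : x ∈ Metric.cthickening δ K := by
  obtain ⟨y, hy, hxy⟩ := (Metric.infDist_lt_iff hK).1 h
  exact Metric.mem_cthickening_of_dist_le x y δ K hy hxy.le

/-- Hausdorff convergence from the exclusion principle `hE`. -/
theorem hausdorff_tendsto [LocallyCompactSpace M]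
    {L : ℕ → Set M} {L₀ B₁ B₂ : Set M} (hL : ∀ n, IsConnected (L n)) (hL₀ : IsConnected L₀)
    (hc : IsCompact L₀) (hB₁ : IsClosed B₁) (hB₂ : IsClosed B₂)
    (hB : DiscreteTopology ↥(B₁ ∩ B₂))
    (hS : ∀ x, ∃ s : ℝ, 0 < s ∧ (∀ n, ¬ L n ⊆ Metric.ball x s) ∧ ¬ L₀ ⊆ Metric.ball x s)
    (hE : ∀ r : ℝ, 0 < r → ∀ᶠ n in atTop,
      (∀ z ∈ L n, (∀ q ∈ L₀, r ≤ dist z q) →
        ¬ ((∀ q ∈ B₁, r ≤ dist z q) ∨ (∀ q ∈ B₂, r ≤ dist z q))) ∧
      (∀ z ∈ L₀, (∀ q ∈ L n, r ≤ dist z q) →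
        ¬ ((∀ q ∈ B₁, r ≤ dist z q) ∨ (∀ q ∈ B₂, r ≤ dist z q)))) :
    Tendsto (fun n => Metric.hausdorffDist (L n) L₀) atTop (𝓝 0) := by
  by_contra hcon
  rw [Metric.tendsto_atTop'] at hcon
  push Not at hcon
  obtain ⟨ε₀, hε₀, hfr⟩ := hcon
  obtain ⟨κ, hκ, hK⟩ := exists_compact_cthickening hc
  set s := min ε₀ κ / 4 with hs
  have hs0 : 0 < s := by positivity
  have hs1 : 4 * s ≤ ε₀ := by rw [hs]; linarith [min_le_left ε₀ κ]
  have hs2 : 4 * s ≤ κ := by rw [hs]; linarith [min_le_right ε₀ κ]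
  -- the alternative
  have halt : ∀ n, ε₀ ≤ Metric.hausdorffDist (L n) L₀ →
      (∃ x ∈ L₀, 3 * s ≤ Metric.infDist x (L n)) ∨
        (∃ y ∈ L n, Metric.infDist y L₀ = 3 * s) := by
    intro n hn
    by_contra hcon
    push Not at hcon
    obtain ⟨hA, hB⟩ := hcon
    obtain ⟨x, hx⟩ := hL₀.nonempty
    obtain ⟨y, hy, hxy⟩ := (Metric.infDist_lt_iff (hL n).nonempty).1 (hA x hx)
    have hyL : Metric.infDist y L₀ < 3 * s := by
      refine (Metric.infDist_le_dist_of_mem hx).trans_lt ?_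
      rwa [dist_comm]
    have hall : ∀ w ∈ L n, Metric.infDist w L₀ ≤ 3 * s := by
      intro w hw
      by_contra hcon
      push Not at hcon
      obtain ⟨z, hz, hz3⟩ := (hL n).isPreconnected.intermediate_value hy hw
        (Metric.continuous_infDist_pt L₀).continuousOn ⟨hyL.le, hcon.le⟩
      exact hB z hz hz3
    have h1 : Metric.hausdorffDist (L n) L₀ ≤ 3 * s :=
      Metric.hausdorffDist_le_of_infDist (by positivity) hall (fun x hx => (hA x hx).le)
    linarith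
  have hfreq : ∃ᶠ n in atTop, ε₀ ≤ Metric.hausdorffDist (L n) L₀ := by
    rw [frequently_atTop]
    intro a
    obtain ⟨n, hn, hn2⟩ := hfr a
    refine ⟨n, hn.le, ?_⟩
    rwa [Real.dist_eq, sub_zero, abs_of_nonneg Metric.hausdorffDist_nonneg] at hn2
  have hfreq2 := hfreq.mono halt
  rw [frequently_or_distrib] at hfreq2
  rcases hfreq2 with hA | hB'
  · -- a point of `L₀` far from `L n`
    obtain ⟨φ, hφ, hφA⟩ := extraction_of_frequently_atTop hA
    choose x hx hxd using hφA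
    obtain ⟨xl, hxl, ψ, hψ, hlim⟩ := hc.tendsto_subseq hx
    obtain ⟨s₁, hs₁, hgood⟩ := exists_good_radius hB₁ hB₂ hB xl
    obtain ⟨s₂, hs₂, -, hnot⟩ := hS xl
    set t := min (min s₁ s₂) s / 2 with ht
    have ht0 : 0 < t := by positivity
    have ht1 : t < s₁ := by
      have : min (min s₁ s₂) s ≤ s₁ := (min_le_left _ _).trans (min_le_left _ _)
      rw [ht]; linarith
    have ht2 : t < s₂ := by
      have : min (min s₁ s₂) s ≤ s₂ := (min_le_left _ _).trans (min_le_right _ _)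
      rw [ht]; linarith
    have ht3 : t < s := by
      have : min (min s₁ s₂) s ≤ s := min_le_right _ _
      rw [ht]; linarith
    obtain ⟨z, hz, hzt⟩ := exists_dist_eq hL₀ hxl (by rw [dist_self]; exact ht0.le) ht2.le hnot
    obtain ⟨ρ, hρ, hρB⟩ := hgood z (by rw [hzt]; exact ht0) (by rw [hzt]; exact ht1)
    have hev := hE (min ρ s) (by positivity)
    have hev2 : ∀ᶠ n in atTop, dist (x (ψ n)) xl < s :=
      (tendsto_iff_dist_tendsto_zero.1 hlim).eventually_lt_const hs0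
    obtain ⟨n, hn1, hn2⟩ := (((hφ.comp hψ).tendsto_atTop.eventually hev).and hev2).exists
    refine hn1.2 z hz (fun q hq => ?_) ?_
    · have h1 : 3 * s ≤ dist (x (ψ n)) q := (hxd (ψ n)).trans (Metric.infDist_le_dist_of_mem hq)
      have h2 : dist (x (ψ n)) q ≤ dist (x (ψ n)) xl + dist xl z + dist z q :=
        dist_triangle4 _ _ _ _
      rw [dist_comm xl z, hzt] at h2
      have h3 : min ρ s ≤ s := min_le_right _ _
      linarith
    · rcases hρB with h | h
      · exact Or.inl fun q hq => (min_le_left _ _).trans (h q hq)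
      · exact Or.inr fun q hq => (min_le_left _ _).trans (h q hq)
  · -- a point of `L n` at distance `3 s` from `L₀`
    obtain ⟨φ, hφ, hφB⟩ := extraction_of_frequently_atTop hB'
    choose y hy hyd using hφB
    have hyK : ∀ n, y n ∈ Metric.cthickening κ L₀ := by
      intro n
      apply mem_cthickening_of_infDist_lt hL₀.nonempty
      rw [hyd n]
      linarith
    obtain ⟨yl, hyl, ψ, hψ, hlim⟩ := hK.tendsto_subseq hyK
    obtain ⟨s₁, hs₁, hgood⟩ := exists_good_radius hB₁ hB₂ hB yl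
    obtain ⟨s₂, hs₂, hnot, -⟩ := hS yl
    set t := min (min s₁ s₂) s / 2 with ht
    have ht0 : 0 < t := by positivity
    have ht1 : t < s₁ := by
      have : min (min s₁ s₂) s ≤ s₁ := (min_le_left _ _).trans (min_le_left _ _)
      rw [ht]; linarith
    have ht2 : t < s₂ := by
      have : min (min s₁ s₂) s ≤ s₂ := (min_le_left _ _).trans (min_le_right _ _)
      rw [ht]; linarith
    have ht3 : t < s := by
      have : min (min s₁ s₂) s ≤ s := min_le_right _ _
      rw [ht]; linarith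
    have hyinf : Metric.infDist yl L₀ = 3 * s := by
      have h1 : Tendsto (fun n => Metric.infDist (y (ψ n)) L₀) atTop
          (𝓝 (Metric.infDist yl L₀)) :=
        ((Metric.continuous_infDist_pt L₀).tendsto yl).comp hlim
      simp only [hyd] at h1
      exact tendsto_nhds_unique h1 tendsto_const_nhds |>.symm ▸ rfl
    have hev1 : ∀ᶠ n in atTop, dist (y (ψ n)) yl < t :=
      (tendsto_iff_dist_tendsto_zero.1 hlim).eventually_lt_const ht0
    have hex : ∀ᶠ n in atTop, ∃ z ∈ L (φ (ψ n)), dist z yl = t :=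
      hev1.mono fun n hn => exists_dist_eq (hL _) (hy (ψ n)) hn.le ht2.le (hnot _)
    obtain ⟨χ, hχ, hχz⟩ := extraction_of_eventually_atTop hex
    choose z hz hzt using hχz
    have hinf : ∀ w, dist w yl = t → 2 * s ≤ Metric.infDist w L₀ ∧ w ∈ Metric.cthickening κ L₀ := by
      intro w hw
      have h1 : Metric.infDist yl L₀ ≤ Metric.infDist w L₀ + dist yl w :=
        Metric.infDist_le_infDist_add_dist
      have h2 : Metric.infDist w L₀ ≤ Metric.infDist yl L₀ + dist w yl :=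
        Metric.infDist_le_infDist_add_dist
      rw [dist_comm, hyinf, hw] at h1
      rw [hyinf, hw] at h2
      refine ⟨by linarith, ?_⟩
      apply mem_cthickening_of_infDist_lt hL₀.nonempty
      linarith
    obtain ⟨zl, hzl, ξ, hξ, hlimz⟩ := hK.tendsto_subseq (fun n => (hinf (z n) (hzt n)).2)
    have hzlt : dist zl yl = t := by
      have h1 : Tendsto (fun n => dist (z (ξ n)) yl) atTop (𝓝 (dist zl yl)) :=
        hlimz.dist tendsto_const_nhds
      simp only [hzt] at h1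
      exact (tendsto_nhds_unique tendsto_const_nhds h1).symm
    obtain ⟨ρ, hρ, hρB⟩ := hgood zl (by rw [hzlt]; exact ht0) (by rw [hzlt]; exact ht1)
    have hev := hE (min (ρ / 2) s) (by positivity)
    have hev2 : ∀ᶠ n in atTop, dist (z (ξ n)) zl < ρ / 2 :=
      (tendsto_iff_dist_tendsto_zero.1 hlimz).eventually_lt_const (by positivity)
    obtain ⟨n, hn1, hn2⟩ := ((((hφ.comp hψ).comp hχ).comp hξ).tendsto_atTop.eventually hev
      |>.and hev2).exists
    refine hn1.1 (z (ξ n)) (hz (ξ n)) (fun q hq => ?_) ?_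
    · have h1 := (hinf _ (hzt (ξ n))).1.trans (Metric.infDist_le_dist_of_mem hq)
      have h3 : min (ρ / 2) s ≤ s := min_le_right _ _
      linarith
    · have h3 : min (ρ / 2) s ≤ ρ / 2 := min_le_left _ _
      rcases hρB with h | h
      · refine Or.inl fun q hq => ?_
        have h4 := dist_triangle zl (z (ξ n)) q
        rw [dist_comm zl (z (ξ n))] at h4
        linarith [h q hq]
      · refine Or.inr fun q hq => ?_
        have h4 := dist_triangle zl (z (ξ n)) q
        rw [dist_comm zl (z (ξ n))] at h4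
        linarith [h q hq]

end Pool.Agent.MP_c86656_gt
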