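import Pool.Agent.Lib.MP_c86656_gt.Quant
import Pool.Agent.Lib.MP_c86656_gt.Topology

/-! The adapted pseudometric is bounded below when a point of `L` is far from the other
Lagrangians; the main theorem, given the three tasks. -/

open Set Filter Topology Manifold MeasureTheory Bundle
open scoped ContDiff ENNReal

namespace Pool.Agent.MP_c86656_gt

set_option linter.unusedSectionVars false

noncomputable section

variable {E : Type*} [NormedAddCommGroup E] [NormedSpace ℝ E] [FiniteDimensional ℝ E]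
  {M : Type*} [MetricSpace M] [ChartedSpace E M] [IsManifold 𝓘(ℝ, E) ∞ M]
  [RiemannianBundle (fun x : M => TangentSpace 𝓘(ℝ, E) x)]
  [IsContMDiffRiemannianBundle 𝓘(ℝ, E) ∞ E (fun x : M => TangentSpace 𝓘(ℝ, E) x)]
  [IsRiemannianManifold 𝓘(ℝ, E) M]

/-- The statement of the perturbation theorem. -/
def HasPerturbations (J : EndField E M) : Prop :=
  ∀ (k : ℕ) (T : Fin k → Set M), (∀ i, IsClosedLagrangian J (T i)) → ∀ (i₀ : Fin k) (η : ℝ),
    0 < η → ∃ ψ : Fin k → M → M, (∀ i, IsSmallHamiltonian J η (ψ i)) ∧ ψ i₀ = id ∧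
      ∀ i j, i ≠ j → Transverse (E := E) (ψ i '' T i) (ψ j '' T j)

lemma IsSmallHamiltonian.mono {J : EndField E M} {η η' : ℝ} (h : η ≤ η') {ψ : M → M}
    (hψ : IsSmallHamiltonian J η ψ) : IsSmallHamiltonian J η' ψ := by
  obtain ⟨H, Φ, C, h1, h2, h3, h4, h5, h6, h7⟩ := hψ
  exact ⟨H, Φ, C, h1, h2, h3, h4, h5, fun x t ht => (h6 x t ht).trans_le h, h7.trans_le h⟩

lemma IsSmallHamiltonian.dist_lt {J : EndField E M} {η : ℝ} {ψ : M → M}
    (hψ : IsSmallHamiltonian J η ψ) (x : M) : dist x (ψ x) < η := by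
  obtain ⟨H, Φ, C, h1, h2, h3, h4, h5, h6, h7⟩ := hψ
  rw [← (h4 x).2.1]
  exact h6 x 1 ⟨zero_le_one, le_rfl⟩

theorem energy_le_dist {J : EndField E M} (hJ : IsCompatible J) {K : ℝ}
    (hK : SectionalCurvatureLE E M K) (Λ : ℝ)
    (hscal : ∃ ε : ℝ, 0 < ε ∧ ∃ C : ℝ, 0 < C ∧ ScalarBound K Λ ε C)
    (hpert : HasPerturbations J) {r : ℝ} (hr : 0 < r) :
    ∃ ε : ℝ, 0 < ε ∧ ∀ (Lstar F : Set (Set M)) (d : Set M → Set M → ℝ≥0∞),
      (∀ L ∈ Lstar, IsClosedLagrangian J L) → F ⊆ Lstar → JAdapted J Lstar F d →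
      ∀ L ∈ Lstar, ∀ L' ∈ Lstar, SecondFormLE E Λ L → ∀ z ∈ L, (∀ q ∈ L', r ≤ dist z q) →
        (∀ G ∈ F, ∀ q ∈ G, r ≤ dist z q) → ENNReal.ofReal ε ≤ d L L' := by
  obtain ⟨ε, hε, hq⟩ := energy_quantization_aux hJ hK Λ hscal (r := r / 4) (by positivity)
  refine ⟨ε, hε, fun Lstar F d hLag hF had L hL L' hL' hΛ z hz hzL' hzF => ?_⟩
  refine ENNReal.le_of_forall_pos_le_add fun δ hδ _ => ?_
  obtain ⟨k, G, hG, η, hη, hmain⟩ := had δ hδ L hL L' hL'
  set T : Fin (k + 2) → Set M := Fin.cons L (Fin.cons L' G) with hT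
  have hT0 : T 0 = L := rfl
  have hT1 : T 1 = L' := rfl
  have hTs : ∀ i : Fin k, T i.succ.succ = G i := fun i => rfl
  have hTLag : ∀ i, IsClosedLagrangian J (T i) := by
    intro i
    refine Fin.cases (hLag L hL) (fun i => ?_) i
    refine Fin.cases (hLag L' hL') (fun i => ?_) i
    exact hLag _ (hF (hG i))
  have hfarT : ∀ i, i ≠ 0 → ∀ q ∈ T i, r ≤ dist z q := by
    intro i
    refine Fin.cases (fun h => absurd rfl h) (fun i _ => ?_) i
    refine Fin.cases hzL' (fun i => ?_) i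
    exact hzF _ (hG i)
  obtain ⟨ψ, hψ, hψ0, htr⟩ := hpert (k + 2) T hTLag 0 (min η (r / 2)) (by positivity)
  have hzmem : z ∈ ψ 0 '' L ∪ ψ 1 '' L' := by
    left
    rw [hψ0]
    exact ⟨z, hz, rfl⟩
  obtain ⟨N, σ, θ, u, hσ, hpoly, hne, ⟨j, hj, hcl⟩, hen⟩ :=
    hmain ψ (fun i => (hψ i).mono (min_le_left _ _)) htr z hzmem
  obtain ⟨_, ⟨t, ht, rfl⟩, htz⟩ := Metric.mem_closure_iff.1 hcl (r / 4) (by positivity)
  rw [dist_comm] at htz
  have hfar : ∀ i : Fin (k + 2), i ≠ 0 → ∀ q ∈ ψ i '' T i, r / 2 ≤ dist z q := by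
    rintro i hi _ ⟨q, hq, rfl⟩
    have h1 := hfarT i hi q hq
    have h2 := (hψ i).dist_lt q
    have h3 := dist_triangle_right z q (ψ i q)
    have h4 : min η (r / 2) ≤ r / 2 := min_le_right _ _
    linarith
  have hfar2 : ∀ i : Fin (k + 2), i ≠ 0 → ∀ q ∈ ψ i '' T i,
      r / 4 ≤ dist (u (Complex.exp (t * Complex.I))) q := by
    intro i hi q hq
    have h1 := hfar i hi q hq
    have h2 := dist_triangle_left z q (u (Complex.exp (t * Complex.I)))
    linarith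
  have hj0 : σ j = 0 := by
    by_contra hcon
    have h1 := hpoly.arcs j t ht
    have h2 := hfar2 (σ j) hcon _ h1
    rw [dist_self] at h2
    linarith
  have hQ : (fun j => ψ (σ j) '' T (σ j)) j = L := by
    show ψ (σ j) '' T (σ j) = L
    rw [hj0, hψ0, image_id, hT0]
  have h1 := hq L (hLag L hL) hΛ N _ θ u hpoly hne j hQ t ht
    (fun i hi q hqi => hfar2 (σ i) (fun h => hi (hσ (h.trans hj0.symm))) q hqi)
  calc ENNReal.ofReal ε ≤ ENNReal.ofReal (energy J θ u) := ENNReal.ofReal_le_ofReal h1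
    _ ≤ d L L' + ENNReal.ofReal δ := hen
    _ = d L L' + δ := by rw [ENNReal.ofReal_coe_nnreal]

theorem main_aux {J : EndField E M} (hJ : IsCompatible J) {K : ℝ}
    (hK : SectionalCurvatureLE E M K) (Λ : ℝ)
    (hscal : ∃ ε : ℝ, 0 < ε ∧ ∃ C : ℝ, 0 < C ∧ ScalarBound K Λ ε C)
    (hpert : HasPerturbations J)
    (hsmall : ∀ x : M, ∃ s : ℝ, 0 < s ∧ ∀ L : Set M, IsClosedLagrangian J L →
      SecondFormLE E Λ L → ¬ L ⊆ Metric.ball x s)
    {Lstar F F' : Set (Set M)} (hLag : ∀ L ∈ Lstar, IsClosedLagrangian J L)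
    (hF : F ⊆ Lstar) (hF' : F' ⊆ Lstar)
    (hdisc : DiscreteTopology ↥(closure (⋃₀ F) ∩ closure (⋃₀ F')))
    {d d' : Set M → Set M → ℝ≥0∞} (hd : IsPseudoDist Lstar d) (hd' : IsPseudoDist Lstar d')
    (had : JAdapted J Lstar F d) (had' : JAdapted J Lstar F' d')
    {L : ℕ → Set M} {L₀ : Set M} (hL : ∀ n, L n ∈ Lstar) (hL₀ : L₀ ∈ Lstar)
    (hΛ : ∀ n, SecondFormLE E Λ (L n)) (hΛ₀ : SecondFormLE E Λ L₀)
    (hlim : Tendsto (fun n => max (d (L n) L₀) (d' (L n) L₀)) atTop (𝓝 0)) :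
    Tendsto (fun n => Metric.hausdorffDist (L n) L₀) atTop (𝓝 0) := by
  have : LocallyCompactSpace M := ChartedSpace.locallyCompactSpace E M
  refine hausdorff_tendsto (fun n => (hLag _ (hL n)).connected) (hLag _ hL₀).connected
    (hLag _ hL₀).compact isClosed_closure isClosed_closure hdisc ?_ ?_
  · intro x
    obtain ⟨s, hs, h⟩ := hsmall x
    exact ⟨s, hs, fun n => h _ (hLag _ (hL n)) (hΛ n), h _ (hLag _ hL₀) hΛ₀⟩
  · intro r hr
    obtain ⟨ε, hε, hmain⟩ := energy_le_dist hJ hK Λ hscal hpert hr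
    have hev := hlim.eventually_lt_const (ENNReal.ofReal_pos.2 hε)
    filter_upwards [hev] with n hn
    have h1 : d (L n) L₀ < ENNReal.ofReal ε := (le_max_left _ _).trans_lt hn
    have h2 : d' (L n) L₀ < ENNReal.ofReal ε := (le_max_right _ _).trans_lt hn
    refine ⟨fun z hz hzL => ?_, fun z hz hzL => ?_⟩
    · rintro (h | h)
      · exact absurd (hmain Lstar F d hLag hF had (L n) (hL n) L₀ hL₀ (hΛ n) z hz hzL
          fun G hG q hq => h q (subset_closure ⟨G, hG, hq⟩)) (not_le.2 h1)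
      · exact absurd (hmain Lstar F' d' hLag hF' had' (L n) (hL n) L₀ hL₀ (hΛ n) z hz hzL
          fun G hG q hq => h q (subset_closure ⟨G, hG, hq⟩)) (not_le.2 h2)
    · rintro (h | h)
      · exact absurd (hmain Lstar F d hLag hF had L₀ hL₀ (L n) (hL n) hΛ₀ z hz hzL
          fun G hG q hq => h q (subset_closure ⟨G, hG, hq⟩))
            (not_le.2 (by rwa [hd.symm L₀ hL₀ (L n) (hL n)]))
      · exact absurd (hmain Lstar F' d' hLag hF' had' L₀ hL₀ (L n) (hL n) hΛ₀ z hz hzL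
          fun G hG q hq => h q (subset_closure ⟨G, hG, hq⟩))
            (not_le.2 (by rwa [hd'.symm L₀ hL₀ (L n) (hL n)]))

end

end Pool.Agent.MP_c86656_gt
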