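import Mathlib

/-!
# MP_c86656_gt, Task A: scalar eps-regularity (pure analysis on the complex plane)
-/

open Set Filter Topology MeasureTheory
open scoped ContDiff ENNReal

namespace Pool.Agent.MP_c86656_gt

namespace Scalar

/-- Second derivative test at a local maximum. -/
theorem second_deriv_nonpos {φ φ' : ℝ → ℝ} {s : ℝ} (h1 : ∀ᶠ t in 𝓝 (0 : ℝ), HasDerivAt φ (φ' t) t)
    (h2 : HasDerivAt φ' s 0) (hmax : IsLocalMax φ 0) : s ≤ 0 := by
  by_contra hs
  push Not at hs
  have hd : deriv φ =ᶠ[𝓝 0] φ' := h1.mono fun t ht => ht.deriv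
  have hdd : deriv (deriv φ) 0 = s := by
    rw [hd.deriv_eq]; exact h2.deriv
  have h0 : deriv φ 0 = 0 := hmax.deriv_eq_zero
  have hmin := isLocalMin_of_deriv_deriv_pos (by rw [hdd]; exact hs) h0
    h1.self_of_nhds.continuousAt
  have hc : φ =ᶠ[𝓝 0] fun _ => φ 0 := by
    filter_upwards [hmax, hmin] with t h3 h4
    exact le_antisymm h3 h4
  have h5 : deriv φ =ᶠ[𝓝 0] fun _ => 0 := by
    have := hc.deriv
    simpa using this
  have h6 : deriv (deriv φ) 0 = 0 := by rw [h5.deriv_eq]; simp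
  linarith

/-- Real parts of polynomials are dense in the continuous functions on a circle. -/
theorem exists_poly_approx (g : ℂ → ℝ) (c : ℂ) (r : ℝ) (hr : 0 < r)
    (hg : ContinuousOn g (Metric.sphere c r)) (δ : ℝ) (hδ : 0 < δ) :
    ∃ P : Polynomial ℂ, ∀ z ∈ Metric.sphere c r, |(P.eval ((z - c) / r)).re - g z| ≤ δ := by
  have : Fact (0 < 2 * Real.pi) := ⟨by positivity⟩
  -- the function on the circle
  let γ : AddCircle (2 * Real.pi) → ℂ := fun θ => c + r * (AddCircle.toCircle θ : ℂ)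
  have hγ : Continuous γ := by
    apply continuous_const.add
    apply continuous_const.mul
    exact continuous_induced_dom.comp AddCircle.continuous_toCircle
  have hγs : ∀ θ, γ θ ∈ Metric.sphere c r := by
    intro θ
    simp only [γ, Metric.mem_sphere, dist_eq_norm, add_sub_cancel_left, norm_mul,
      Circle.norm_coe, mul_one]
    rw [Complex.norm_real, Real.norm_eq_abs, abs_of_pos hr]
  let G : C(AddCircle (2 * Real.pi), ℂ) :=
    ⟨fun θ => (g (γ θ) : ℂ), by
      apply Complex.continuous_ofReal.comp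
      exact hg.comp_continuous hγ hγs⟩
  have hG : G ∈ (Submodule.span ℂ (range <| @fourier (2 * Real.pi))).topologicalClosure := by
    rw [span_fourier_closure_eq_top]; trivial
  rw [← SetLike.mem_coe, Submodule.topologicalClosure_coe, Metric.mem_closure_iff] at hG
  obtain ⟨h, hh, hd⟩ := hG δ hδ
  have key : ∀ h ∈ Submodule.span ℂ (range <| @fourier (2 * Real.pi)), ∀ a : ℂ,
      ∃ P : Polynomial ℂ, ∀ θ, (P.eval (AddCircle.toCircle θ : ℂ)).re = (a * h θ).re := by
    intro h hh
    induction hh using Submodule.span_induction with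
    | mem x hx =>
      obtain ⟨n, rfl⟩ := hx
      intro a
      rcases Int.eq_nat_or_neg n with ⟨m, rfl | rfl⟩
      · refine ⟨Polynomial.C a * Polynomial.X ^ m, fun θ => ?_⟩
        simp only [Polynomial.eval_mul, Polynomial.eval_C, Polynomial.eval_pow, Polynomial.eval_X]
        rw [fourier_apply, natCast_zsmul, AddCircle.toCircle_nsmul]
        simp
      · refine ⟨Polynomial.C (starRingEnd ℂ a) * Polynomial.X ^ m, fun θ => ?_⟩
        simp only [Polynomial.eval_mul, Polynomial.eval_C, Polynomial.eval_pow, Polynomial.eval_X]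
        rw [fourier_neg, fourier_apply, natCast_zsmul, AddCircle.toCircle_nsmul]
        have : (starRingEnd ℂ a * (AddCircle.toCircle θ : ℂ) ^ m) =
          starRingEnd ℂ (a * starRingEnd ℂ ((AddCircle.toCircle θ ^ m : Circle) : ℂ)) := by
          simp
        rw [this, Complex.conj_re]
    | zero =>
      intro a
      exact ⟨0, fun θ => by simp⟩
    | add x y _ _ hx hy =>
      intro a
      obtain ⟨P, hP⟩ := hx a
      obtain ⟨Q, hQ⟩ := hy a
      refine ⟨P + Q, fun θ => ?_⟩
      simp [hP, hQ, mul_add]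
    | smul b x _ hx =>
      intro a
      obtain ⟨P, hP⟩ := hx (a * b)
      refine ⟨P, fun θ => ?_⟩
      rw [hP]
      simp [mul_assoc]
  obtain ⟨P, hP⟩ := key h hh 1
  refine ⟨P, fun z hz => ?_⟩
  -- write z = γ θ
  have hz' : ‖(z - c) / r‖ = 1 := by
    rw [norm_div]
    have : ‖z - c‖ = r := by simpa [dist_eq_norm] using hz
    rw [this]
    simp [abs_of_pos hr, hr.ne']
  obtain ⟨θ, hθ⟩ : ∃ θ : AddCircle (2 * Real.pi), (AddCircle.toCircle θ : ℂ) = (z - c) / r := by
    refine ⟨((Complex.arg ((z - c) / r) : ℝ) : AddCircle (2 * Real.pi)), ?_⟩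
    rw [AddCircle.toCircle_apply_mk, Circle.coe_exp]
    have := Complex.norm_mul_exp_arg_mul_I ((z - c) / r)
    rw [hz', Complex.ofReal_one, one_mul] at this
    have e : 2 * Real.pi / (2 * Real.pi) * Complex.arg ((z - c) / r)
        = Complex.arg ((z - c) / r) := by
      field_simp
    rw [e]
    exact this
  have hzγ : γ θ = z := by
    simp only [γ, hθ]
    have : (r : ℂ) ≠ 0 := by exact_mod_cast hr.ne'
    field_simp
    ring
  have h1 := hP θ
  rw [hθ, one_mul] at h1
  rw [h1]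
  have h2 : dist (G θ) (h θ) < δ := lt_of_le_of_lt (ContinuousMap.dist_apply_le_dist θ) hd
  have h3 : G θ = (g z : ℂ) := by
    show ((g (γ θ) : ℝ) : ℂ) = _
    rw [hzγ]
  rw [h3, dist_comm, dist_eq_norm] at h2
  calc |(h θ).re - g z| = |(h θ - (g z : ℂ)).re| := by simp
    _ ≤ ‖h θ - (g z : ℂ)‖ := Complex.abs_re_le_norm _
    _ ≤ δ := h2.le

/-- The sub mean value inequality from the absence of local maxima of perturbations. -/
theorem sub_mean (F : ℂ → ℝ) (c : ℂ) (r : ℝ) (hr : 0 < r)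
    (hF : ContinuousOn F (Metric.closedBall c r))
    (hmax : ∀ p : ℂ → ℂ, Differentiable ℂ p → ∀ η : ℝ, 0 < η → ∀ z₁ ∈ Metric.ball c r,
      ¬ IsLocalMax (fun z => F z - (p z).re + η * ‖z - c‖ ^ 2 + η * |z.im|) z₁) :
    F c ≤ Real.circleAverage F c r := by
  have hFs : ContinuousOn F (Metric.sphere c r) := hF.mono Metric.sphere_subset_closedBall
  refine le_of_forall_pos_le_add fun δ hδ => ?_
  obtain ⟨P, hP⟩ := exists_poly_approx F c r hr hFs (δ / 2) (half_pos hδ)
  let p : ℂ → ℂ := fun z => P.eval ((z - c) / r)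
  have hp : Differentiable ℂ p := by
    apply P.differentiable.comp
    exact (differentiable_id.sub_const c).div_const _
  have hpre : Continuous fun z => (p z).re := Complex.continuous_re.comp hp.continuous
  have h1 : F c ≤ (p c).re + δ / 2 := by
    refine le_of_forall_pos_le_add fun ζ hζ => ?_
    have hM : 0 < r ^ 2 + (‖c‖ + r) := by positivity
    set M := r ^ 2 + (‖c‖ + r) with hMdef
    have hη : 0 < ζ / M := by positivity
    set η := ζ / M with hηdef
    have hcont : ContinuousOn (fun z => F z - (p z).re + η * ‖z - c‖ ^ 2 + η * |z.im|)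
        (Metric.closedBall c r) := by
      apply ContinuousOn.add
      · apply ContinuousOn.add
        · exact hF.sub hpre.continuousOn
        · fun_prop
      · have : Continuous fun z : ℂ => η * |z.im| :=
          continuous_const.mul (Complex.continuous_im.abs)
        exact this.continuousOn
    obtain ⟨z₁, hz₁, hm⟩ := (isCompact_closedBall c r).exists_isMaxOn
      ⟨c, Metric.mem_closedBall_self hr.le⟩ hcont
    have hs : z₁ ∈ Metric.sphere c r := by
      by_contra hns
      have hb : z₁ ∈ Metric.ball c r := by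
        rw [Metric.mem_ball]
        rw [Metric.mem_closedBall] at hz₁
        exact lt_of_le_of_ne hz₁ (fun h => hns (Metric.mem_sphere.2 h))
      exact hmax p hp η hη z₁ hb (hm.isLocalMax (Metric.closedBall_mem_nhds_of_mem hb))
    have h2 := hm (Metric.mem_closedBall_self hr.le)
    simp only [Set.mem_ofPred_eq, sub_self, norm_zero] at h2
    have h3 := (abs_le.1 (hP z₁ hs)).1
    have h4 : ‖z₁ - c‖ = r := by simpa [dist_eq_norm] using hs
    have h5 : |z₁.im| ≤ ‖c‖ + r := by
      calc |z₁.im| ≤ ‖z₁‖ := Complex.abs_im_le_norm _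
        _ = ‖c + (z₁ - c)‖ := by ring_nf
        _ ≤ ‖c‖ + ‖z₁ - c‖ := norm_add_le _ _
        _ = ‖c‖ + r := by rw [h4]
    have h6 : 0 ≤ η * |c.im| := by positivity
    rw [h4] at h2
    have h7 : η * |z₁.im| ≤ η * (‖c‖ + r) := mul_le_mul_of_nonneg_left h5 hη.le
    have h8 : η * M = ζ := by rw [hηdef]; field_simp
    have h9 : (p z₁).re = (Polynomial.eval ((z₁ - c) / r) P).re := rfl
    have h10 : η * M = η * r ^ 2 + η * (‖c‖ + r) := by rw [hMdef]; ring
    norm_num at h2
    linarith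
  have hcr : CircleIntegrable (fun z => (p z).re) c r := hpre.continuousOn.circleIntegrable hr.le
  have h2 : Real.circleAverage (fun z => (p z).re) c r = (p c).re := by
    have h := hp.diffContOnCl.circleAverage (c := c) (R := r)
    have h' := Complex.reCLM.circleAverage_comp_comm (f := p) (c := c) (R := r)
      (hp.continuous.continuousOn.circleIntegrable hr.le)
    rw [h] at h'
    exact h'
  have hFi : CircleIntegrable F c r := hFs.circleIntegrable hr.le
  have h3 : Real.circleAverage (fun z => (p z).re) c r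
      ≤ Real.circleAverage (fun z => F z + δ / 2) c r := by
    apply Real.circleAverage_mono hcr
    · exact (hFs.add continuousOn_const).circleIntegrable hr.le
    · intro x hx
      rw [abs_of_pos hr] at hx
      have := (abs_le.1 (hP x hx)).2
      show (Polynomial.eval ((x - c) / r) P).re ≤ _
      linarith
  have h4 : Real.circleAverage (fun z => F z + δ / 2) c r = Real.circleAverage F c r + δ / 2 := by
    have := Real.circleAverage_fun_add (f₁ := F) (f₂ := fun _ => δ / 2) (c := c) (R := r) hFi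
      (continuousOn_const.circleIntegrable hr.le)
    rw [this, Real.circleAverage_const]
  linarith

/-- First and second derivatives of a `C²` function along a line. -/
theorem line_deriv {f : ℂ → ℝ} {w : ℂ} (hf : ContDiffAt ℝ 2 f w) (a : ℂ) :
    (∀ᶠ t : ℝ in 𝓝 0, HasDerivAt (fun t : ℝ => f (w + t * a)) (fderiv ℝ f (w + t * a) a) t) ∧
      HasDerivAt (fun t : ℝ => fderiv ℝ f (w + t * a) a)
        (fderiv ℝ (fun v => fderiv ℝ f v a) w a) 0 := by
  have hline : ∀ t : ℝ, HasDerivAt (fun t : ℝ => w + t * a) a t := by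
    intro t
    have h := ((Complex.ofRealCLM.hasDerivAt (x := t)).mul_const a).const_add w
    simpa using h
  have htend : Tendsto (fun t : ℝ => w + t * a) (𝓝 0) (𝓝 w) := by
    have := (hline 0).continuousAt.tendsto
    simpa using this
  constructor
  · have h1 : ∀ᶠ v in 𝓝 w, ContDiffAt ℝ 2 f v := hf.eventually (by simp)
    filter_upwards [htend.eventually h1] with t ht
    exact (ht.differentiableAt (by norm_num)).hasFDerivAt.comp_hasDerivAt t (hline t)
  · have h2 : ContDiffAt ℝ 1 (fderiv ℝ f) w := hf.fderiv_right (by norm_num)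
    have h3 : DifferentiableAt ℝ (fun v => fderiv ℝ f v a) w :=
      (h2.differentiableAt (by norm_num)).clm_apply (differentiableAt_const a)
    have h4 : HasFDerivAt (fun v => fderiv ℝ f v a) (fderiv ℝ (fun v => fderiv ℝ f v a) w)
        (w + ((0 : ℝ) : ℂ) * a) := by
      simpa using h3.hasFDerivAt
    exact h4.comp_hasDerivAt (0 : ℝ) (hline 0)

/-- Derivatives of the real part of an entire function along a line. -/
theorem line_deriv_re {p : ℂ → ℂ} (hp : Differentiable ℂ p) (z a : ℂ) (t : ℝ) :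
    HasDerivAt (fun t : ℝ => (p (z + t * a)).re) ((deriv p (z + t * a) * a).re) t := by
  have hline : HasDerivAt (fun t : ℝ => z + t * a) a t := by
    have h := ((Complex.ofRealCLM.hasDerivAt (x := t)).mul_const a).const_add z
    simpa using h
  have h1 : HasDerivAt (fun t : ℝ => p (z + t * a)) (deriv p (z + t * a) * a) t :=
    ((hp (z + t * a)).hasDerivAt).comp_of_eq t hline rfl
  exact (Complex.reCLM.hasFDerivAt).comp_hasDerivAt t h1

/-- Second derivative of the quadratic term along a line. -/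
theorem line_deriv_sq (z c a : ℂ) (t : ℝ) :
    HasDerivAt (fun t : ℝ => ‖z + t * a - c‖ ^ 2)
      (2 * ((z - c).re * a.re + (z - c).im * a.im) + 2 * t * ‖a‖ ^ 2) t := by
  have h : (fun t : ℝ => ‖z + t * a - c‖ ^ 2) = fun t : ℝ =>
      ‖z - c‖ ^ 2 + 2 * t * ((z - c).re * a.re + (z - c).im * a.im) + t ^ 2 * ‖a‖ ^ 2 := by
    funext t
    rw [Complex.sq_norm, Complex.sq_norm, Complex.sq_norm, Complex.normSq_apply,
      Complex.normSq_apply, Complex.normSq_apply]
    simp
    ring
  rw [h]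
  have h1 : HasDerivAt (fun t : ℝ => ‖z - c‖ ^ 2
      + 2 * t * ((z - c).re * a.re + (z - c).im * a.im) + t ^ 2 * ‖a‖ ^ 2)
      (0 + 2 * 1 * ((z - c).re * a.re + (z - c).im * a.im) + (2 * t ^ (2 - 1) * 1) * ‖a‖ ^ 2) t := by
    apply HasDerivAt.add
    · apply HasDerivAt.add
      · exact hasDerivAt_const _ _
      · exact ((hasDerivAt_id t).const_mul 2).mul_const _
    · exact ((hasDerivAt_id t).pow 2).mul_const _
  convert! h1 using 1
  ring

/-- The Laplacian, as written in `scalar_gradient_bound`. -/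
noncomputable def lap (f : ℂ → ℝ) (z : ℂ) : ℝ :=
  fderiv ℝ (fun w => fderiv ℝ f w 1) z 1 + fderiv ℝ (fun w => fderiv ℝ f w Complex.I) z Complex.I

/-- No local maximum off the real line. -/
theorem no_local_max_off (f : ℂ → ℝ) (c z₁ : ℂ) (p : ℂ → ℂ) (hp : Differentiable ℂ p) (η : ℝ)
    (hη : 0 < η) (h0 : z₁.im ≠ 0) (hC : ContDiffAt ℝ 2 f ⟨z₁.re, |z₁.im|⟩)
    (hL : 0 ≤ lap f ⟨z₁.re, |z₁.im|⟩) :
    ¬ IsLocalMax (fun z : ℂ => f ⟨z.re, |z.im|⟩ - (p z).re + η * ‖z - c‖ ^ 2 + η * |z.im|) z₁ := by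
  intro hmax
  obtain ⟨s, hs, hsim⟩ : ∃ s : ℝ, s ^ 2 = 1 ∧ ∀ᶠ y in 𝓝 z₁.im, |y| = s * y := by
    rcases lt_or_gt_of_ne h0 with h | h
    · refine ⟨-1, by norm_num, ?_⟩
      filter_upwards [gt_mem_nhds h] with y hy
      rw [abs_of_neg hy]; ring
    · refine ⟨1, by norm_num, ?_⟩
      filter_upwards [lt_mem_nhds h] with y hy
      rw [abs_of_pos hy]; ring
  have hs0 : |z₁.im| = s * z₁.im := hsim.self_of_nhds
  set w : ℂ := ⟨z₁.re, |z₁.im|⟩ with hw
  have key : ∀ a : ℂ, fderiv ℝ (fun v => fderiv ℝ f v (⟨a.re, s * a.im⟩ : ℂ)) w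
      (⟨a.re, s * a.im⟩ : ℂ) - (deriv (deriv p) z₁ * a * a).re + 2 * η * ‖a‖ ^ 2 ≤ 0 := by
    intro a
    set a' : ℂ := ⟨a.re, s * a.im⟩ with ha'
    obtain ⟨hf1, hf2⟩ := line_deriv hC a'
    have htend : Tendsto (fun t : ℝ => z₁ + t * a) (𝓝 0) (𝓝 z₁) := by
      have : Continuous fun t : ℝ => z₁ + (t : ℂ) * a := by fun_prop
      have h := this.tendsto (0 : ℝ)
      simpa using h
    have htim : Tendsto (fun t : ℝ => z₁.im + t * a.im) (𝓝 0) (𝓝 z₁.im) := by
      have : Continuous fun t : ℝ => z₁.im + t * a.im := by fun_prop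
      have h := this.tendsto (0 : ℝ)
      simpa using h
    have hmax' : IsLocalMax (fun t : ℝ => f (w + t * a') - (p (z₁ + t * a)).re
        + η * ‖z₁ + t * a - c‖ ^ 2 + η * (s * (z₁.im + t * a.im))) 0 := by
      have h1 := htend.eventually hmax
      filter_upwards [h1, htim.eventually hsim] with t h2 h3
      have e1 : (⟨(z₁ + t * a).re, |(z₁ + t * a).im|⟩ : ℂ) = w + t * a' := by
        apply Complex.ext
        · simp [hw, ha']
        · have : (z₁ + t * a).im = z₁.im + t * a.im := by simp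
          rw [this]
          simp only [hw, ha']
          rw [h3, hs0]
          simp
          ring
      have e2 : |(z₁ + t * a).im| = s * (z₁.im + t * a.im) := by
        have : (z₁ + t * a).im = z₁.im + t * a.im := by simp
        rw [this, h3]
      rw [e1, e2] at h2
      refine h2.trans (le_of_eq ?_)
      rw [← hw]
      simp [hs0]
    have hd1 : ∀ᶠ t : ℝ in 𝓝 0, HasDerivAt (fun t : ℝ => f (w + t * a') - (p (z₁ + t * a)).re
        + η * ‖z₁ + t * a - c‖ ^ 2 + η * (s * (z₁.im + t * a.im)))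
        (fderiv ℝ f (w + t * a') a' - (deriv p (z₁ + t * a) * a).re
          + η * (2 * ((z₁ - c).re * a.re + (z₁ - c).im * a.im) + 2 * t * ‖a‖ ^ 2)
          + η * (s * (1 * a.im))) t := by
      filter_upwards [hf1] with t ht
      apply HasDerivAt.add
      · apply HasDerivAt.add
        · exact ht.sub (line_deriv_re hp z₁ a t)
        · exact (line_deriv_sq z₁ c a t).const_mul η
      · exact ((((hasDerivAt_id t).mul_const a.im).const_add z₁.im).const_mul s).const_mul η
    have hdp : Differentiable ℂ (deriv p) := hp.deriv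
    have hd2 : HasDerivAt (fun t : ℝ => fderiv ℝ f (w + t * a') a' - (deriv p (z₁ + t * a) * a).re
          + η * (2 * ((z₁ - c).re * a.re + (z₁ - c).im * a.im) + 2 * t * ‖a‖ ^ 2)
          + η * (s * (1 * a.im)))
        (fderiv ℝ (fun v => fderiv ℝ f v a') w a' - (deriv (deriv p) z₁ * a * a).re
          + η * (0 + 2 * 1 * ‖a‖ ^ 2) + 0) 0 := by
      apply HasDerivAt.add
      · apply HasDerivAt.add
        · apply hf2.sub
          have h1 := line_deriv_re (p := fun z => deriv p z * a) (hdp.mul_const a) z₁ a 0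
          have h2 : deriv (fun z => deriv p z * a) (z₁ + ((0 : ℝ) : ℂ) * a)
              = deriv (deriv p) z₁ * a := by
            rw [deriv_mul_const (hdp _)]
            simp
          rw [h2] at h1
          exact h1
        · apply HasDerivAt.const_mul
          apply HasDerivAt.add
          · exact hasDerivAt_const _ _
          · exact ((hasDerivAt_id (0 : ℝ)).const_mul 2).mul_const _
      · exact hasDerivAt_const _ _
    have h := second_deriv_nonpos hd1 hd2 hmax'
    linarith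
  have k1 := key 1
  have k2 := key Complex.I
  have e1 : (⟨(1 : ℂ).re, s * (1 : ℂ).im⟩ : ℂ) = 1 := by
    apply Complex.ext <;> simp
  have e2 : (⟨(Complex.I).re, s * (Complex.I).im⟩ : ℂ) = s • Complex.I := by
    apply Complex.ext <;> simp
  rw [e1] at k1
  rw [e2] at k2
  have hfd : DifferentiableAt ℝ (fun v => fderiv ℝ f v Complex.I) w := by
    have h2 : ContDiffAt ℝ 1 (fderiv ℝ f) w := hC.fderiv_right (by norm_num)
    exact (h2.differentiableAt (by norm_num)).clm_apply (differentiableAt_const _)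
  have e3 : fderiv ℝ (fun v => fderiv ℝ f v (s • Complex.I)) w (s • Complex.I)
      = fderiv ℝ (fun v => fderiv ℝ f v Complex.I) w Complex.I := by
    have : (fun v => fderiv ℝ f v (s • Complex.I)) = fun v => s • fderiv ℝ f v Complex.I := by
      funext v; exact (fderiv ℝ f v).map_smul s Complex.I
    rw [this, fderiv_fun_const_smul hfd]
    simp only [smul_apply, map_smul, smul_eq_mul]
    rw [← mul_assoc, ← sq, hs, one_mul]
  rw [e3] at k2
  unfold lap at hL
  have e4 : (deriv (deriv p) z₁ * Complex.I * Complex.I).re = -(deriv (deriv p) z₁ * 1 * 1).re := by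
    rw [mul_assoc, Complex.I_mul_I]; simp
  rw [e4] at k2
  simp only [norm_one, Complex.norm_I, one_pow, mul_one] at k1 k2
  linarith

/-- No local maximum on the real line, if the boundary derivative is nonnegative. -/
theorem no_local_max_on (f : ℂ → ℝ) (c z₁ : ℂ) (p : ℂ → ℂ) (hp : Differentiable ℂ p) (η : ℝ)
    (hη : 0 < η) (h0 : z₁.im = 0) (d : ℝ) (hd : 0 ≤ d)
    (hder : HasDerivWithinAt (fun t : ℝ => f (z₁ + t * Complex.I)) d (Ici 0) 0) :
    ¬ IsLocalMax (fun z : ℂ => f ⟨z.re, |z.im|⟩ - (p z).re + η * ‖z - c‖ ^ 2 + η * |z.im|) z₁ := by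
  intro hmax
  have htend : ∀ a : ℂ, Tendsto (fun t : ℝ => z₁ + t * a) (𝓝 0) (𝓝 z₁) := by
    intro a
    have : Continuous fun t : ℝ => z₁ + (t : ℂ) * a := by fun_prop
    have h := this.tendsto (0 : ℝ)
    simpa using h
  set G := fun z : ℂ => f ⟨z.re, |z.im|⟩ - (p z).re + η * ‖z - c‖ ^ 2 + η * |z.im| with hG
  -- the sum over the two directions
  set S : ℝ → ℝ := fun t => 2 * f (z₁ + t * Complex.I) - (p (z₁ + t * Complex.I)).re
    - (p (z₁ + t * (-Complex.I))).re + η * ‖z₁ + t * Complex.I - c‖ ^ 2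
    + η * ‖z₁ + t * (-Complex.I) - c‖ ^ 2 + 2 * η * t with hS
  have hSle : ∀ᶠ t in 𝓝[≥] (0 : ℝ), S t ≤ S 0 := by
    have h1 := (htend Complex.I).eventually hmax
    have h2 := (htend (-Complex.I)).eventually hmax
    filter_upwards [nhdsWithin_le_nhds h1, nhdsWithin_le_nhds h2, self_mem_nhdsWithin]
      with t h3 h4 h5
    have h5' : 0 ≤ t := h5
    have e1 : (⟨(z₁ + t * Complex.I).re, |(z₁ + t * Complex.I).im|⟩ : ℂ)
        = z₁ + t * Complex.I := by
      apply Complex.ext
      · simp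
      · simp [h0, abs_of_nonneg h5']
    have e2 : (⟨(z₁ + t * (-Complex.I)).re, |(z₁ + t * (-Complex.I)).im|⟩ : ℂ)
        = z₁ + t * Complex.I := by
      apply Complex.ext
      · simp
      · simp [h0, abs_of_nonneg h5']
    have e3 : |(z₁ + t * Complex.I).im| = t := by simp [h0, abs_of_nonneg h5']
    have e4 : |(z₁ + t * (-Complex.I)).im| = t := by simp [h0, abs_of_nonneg h5']
    have e5 : (⟨z₁.re, |z₁.im|⟩ : ℂ) = z₁ := by
      apply Complex.ext
      · rfl
      · simp [h0]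
    simp only [hG] at h3 h4
    rw [e1, e3, e5, h0] at h3
    rw [e2, e4, e5, h0] at h4
    simp only [hS]
    simp only [Complex.ofReal_zero, zero_mul, add_zero, mul_zero, abs_zero] at *
    linarith
  have hSder : HasDerivWithinAt S (2 * d + 2 * η) (Ici 0) 0 := by
    have h1 : HasDerivWithinAt (fun t : ℝ => 2 * f (z₁ + t * Complex.I)) (2 * d) (Ici 0) 0 :=
      hder.const_mul 2
    have h2 := (line_deriv_re hp z₁ Complex.I 0).hasDerivWithinAt (s := Ici 0)
    have h3 := (line_deriv_re hp z₁ (-Complex.I) 0).hasDerivWithinAt (s := Ici 0)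
    have h4 := ((line_deriv_sq z₁ c Complex.I 0).const_mul η).hasDerivWithinAt (s := Ici 0)
    have h5 := ((line_deriv_sq z₁ c (-Complex.I) 0).const_mul η).hasDerivWithinAt (s := Ici 0)
    have h6 := (((hasDerivAt_id (0 : ℝ)).const_mul (2 * η))).hasDerivWithinAt (s := Ici 0)
    have h := ((((h1.sub h2).sub h3).add h4).add h5).add h6
    convert! h using 1
    simp
    ring
  have hpos : 0 < 2 * d + 2 * η := by positivity
  -- a positive right derivative contradicts S t ≤ S 0
  have hslope := hasDerivWithinAt_iff_tendsto_slope.1 hSder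
  have hev : ∀ᶠ t in 𝓝[Ici 0 \ {0}] (0 : ℝ), 0 < slope S 0 t := hslope.eventually (lt_mem_nhds hpos)
  have hIoi : (Ici (0 : ℝ) \ {0}) = Ioi 0 := by
    ext t; simp [lt_iff_le_and_ne, ne_comm]
  rw [hIoi] at hev
  have hle' : ∀ᶠ t in 𝓝[>] (0 : ℝ), S t ≤ S 0 := nhdsWithin_mono 0 Ioi_subset_Ici_self hSle
  obtain ⟨t, ht1, ht2, ht3⟩ := (hev.and (hle'.and self_mem_nhdsWithin)).exists
  have ht3' : (0 : ℝ) < t := ht3
  rw [slope_def_field] at ht1
  have : (S t - S 0) / (t - 0) ≤ 0 := div_nonpos_of_nonpos_of_nonneg (by linarith) (by linarith)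
  linarith

/-- The reflection `(x, y) ↦ (x, |y|)` is continuous. -/
theorem continuous_fold : Continuous fun z : ℂ => (⟨z.re, |z.im|⟩ : ℂ) := by
  have : (fun z : ℂ => (⟨z.re, |z.im|⟩ : ℂ)) = fun z : ℂ => (z.re : ℂ) + (|z.im| : ℝ) * Complex.I := by
    funext z
    apply Complex.ext <;> simp
  rw [this]
  fun_prop

/-- The area mean value inequality from the circle mean value inequality. -/
theorem area_mean (F : ℂ → ℝ) (c : ℂ) (R : ℝ) (hR : 0 < R)
    (hF : ContinuousOn F (Metric.closedBall c R))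
    (hmean : ∀ r ∈ Ioo 0 R, F c ≤ Real.circleAverage F c r) :
    F c * (Real.pi * R ^ 2) ≤ ∫ z in Metric.ball c R, F z := by
  have hpi := Real.pi_pos
  -- continuity of the integrand in polar coordinates
  have hmaps : ∀ q ∈ Icc (0 : ℝ) R ×ˢ Icc (-Real.pi) Real.pi,
      circleMap c q.1 q.2 ∈ Metric.closedBall c R := by
    rintro ⟨r, θ⟩ ⟨h1, h2⟩
    simp only [Metric.mem_closedBall, dist_eq_norm, circleMap_sub_center]
    simp [abs_of_nonneg h1.1, h1.2]
  have hcont : ContinuousOn (fun q : ℝ × ℝ => q.1 • F (circleMap c q.1 q.2))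
      (Icc (0 : ℝ) R ×ˢ Icc (-Real.pi) Real.pi) := by
    apply continuousOn_fst.smul
    apply hF.comp _ hmaps
    have : Continuous fun q : ℝ × ℝ => circleMap c q.1 q.2 := by
      unfold circleMap
      fun_prop
    exact this.continuousOn
  have hint : IntegrableOn (fun q : ℝ × ℝ => q.1 • F (circleMap c q.1 q.2))
      (Ioo (0 : ℝ) R ×ˢ Ioo (-Real.pi) Real.pi) (volume.prod volume) := by
    have h := hcont.integrableOn_compact (μ := (volume : Measure (ℝ × ℝ)))
      (isCompact_Icc.prod isCompact_Icc)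
    exact h.mono_set (prod_mono Ioo_subset_Icc_self Ioo_subset_Icc_self)
  have h1 : ∫ z in Metric.ball c R, F z
      = ∫ q in Ioo (0 : ℝ) R ×ˢ Ioo (-Real.pi) Real.pi, q.1 • F (circleMap c q.1 q.2) := by
    calc ∫ z in Metric.ball c R, F z
        = ∫ z, (Metric.ball c R).indicator F z := by
          rw [integral_indicator measurableSet_ball]
      _ = ∫ w, (Metric.ball c R).indicator F (c + w) := by
          rw [integral_add_left_eq_self (fun z => (Metric.ball c R).indicator F z) c]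
      _ = ∫ q in polarCoord.target,
            q.1 • (Metric.ball c R).indicator F (c + Complex.polarCoord.symm q) := by
          rw [Complex.integral_comp_polarCoord_symm
            (fun w => (Metric.ball c R).indicator F (c + w))]
      _ = ∫ q in polarCoord.target, (Ioo (0 : ℝ) R ×ˢ Ioo (-Real.pi) Real.pi).indicator
            (fun q : ℝ × ℝ => q.1 • F (circleMap c q.1 q.2)) q := by
          apply setIntegral_congr_fun (measurableSet_Ioi.prod measurableSet_Ioo)
          rintro ⟨r, θ⟩ ⟨hr, hθ⟩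
          have hr' : (0 : ℝ) < r := hr
          have e : c + Complex.polarCoord.symm (r, θ) = circleMap c r θ := by
            rw [Complex.polarCoord_symm_apply, circleMap]
            congr 1
            congr 1
            rw [Complex.exp_mul_I, Complex.ofReal_cos, Complex.ofReal_sin]
          simp only [e]
          by_cases hrR : r < R
          · rw [indicator_of_mem, indicator_of_mem]
            · exact ⟨⟨hr', hrR⟩, hθ⟩
            · simp only [Metric.mem_ball, dist_eq_norm, circleMap_sub_center]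
              simpa [abs_of_pos hr'] using hrR
          · rw [indicator_of_notMem, indicator_of_notMem]
            · simp
            · rintro ⟨⟨_, h⟩, _⟩
              exact hrR h
            · simp only [Metric.mem_ball, dist_eq_norm, circleMap_sub_center]
              simpa [abs_of_pos hr'] using hrR
      _ = ∫ q in Ioo (0 : ℝ) R ×ˢ Ioo (-Real.pi) Real.pi, q.1 • F (circleMap c q.1 q.2) := by
          rw [setIntegral_indicator (measurableSet_Ioo.prod measurableSet_Ioo)]
          congr 2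
          apply inter_eq_self_of_subset_right
          exact prod_mono Ioo_subset_Ioi_self subset_rfl
  rw [h1]
  have h2 : ∫ q in Ioo (0 : ℝ) R ×ˢ Ioo (-Real.pi) Real.pi, q.1 • F (circleMap c q.1 q.2)
      = ∫ r in Ioo (0 : ℝ) R, ∫ θ in Ioo (-Real.pi) Real.pi, r • F (circleMap c r θ) := by
    rw [Measure.volume_eq_prod, setIntegral_prod _ hint]
  rw [h2]
  have h3 : ∀ r ∈ Ioo (0 : ℝ) R, ∫ θ in Ioo (-Real.pi) Real.pi, r • F (circleMap c r θ)
      = 2 * Real.pi * r * Real.circleAverage F c r := by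
    intro r hr
    rw [integral_smul, Real.circleAverage_eq_integral_add (-Real.pi),
      intervalIntegral.integral_comp_add_right (fun θ => F (circleMap c r θ)),
      ← integral_Ioc_eq_integral_Ioo, ← intervalIntegral.integral_of_le (by linarith)]
    have e1 : (0 : ℝ) + -Real.pi = -Real.pi := by ring
    have e2 : 2 * Real.pi + -Real.pi = Real.pi := by ring
    rw [e1, e2, smul_eq_mul, smul_eq_mul]
    field_simp
  have h4 : ∫ r in Ioo (0 : ℝ) R, 2 * Real.pi * r * F c
      ≤ ∫ r in Ioo (0 : ℝ) R, ∫ θ in Ioo (-Real.pi) Real.pi, r • F (circleMap c r θ) := by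
    apply setIntegral_mono_on
    · have : ContinuousOn (fun r : ℝ => 2 * Real.pi * r * F c) (Icc 0 R) := by fun_prop
      exact (this.integrableOn_compact isCompact_Icc).mono_set Ioo_subset_Icc_self
    · have := (integrable_prod_iff' (μ := volume.restrict (Ioo (0:ℝ) R))
        (ν := volume.restrict (Ioo (-Real.pi) Real.pi))
        (f := fun q : ℝ × ℝ => q.1 • F (circleMap c q.1 q.2)) (by
          rw [Measure.prod_restrict]
          exact hint.aestronglyMeasurable))
      have hint' : Integrable (fun q : ℝ × ℝ => q.1 • F (circleMap c q.1 q.2))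
          ((volume.restrict (Ioo (0:ℝ) R)).prod (volume.restrict (Ioo (-Real.pi) Real.pi))) := by
        rw [Measure.prod_restrict]
        exact hint
      exact hint'.integral_prod_left
    · exact measurableSet_Ioo
    · intro r hr
      rw [h3 r hr]
      have := hmean r hr
      have hr0 : 0 < r := hr.1
      exact mul_le_mul_of_nonneg_left this (by positivity)
  refine le_trans (le_of_eq ?_) h4
  rw [← integral_Ioc_eq_integral_Ioo, ← intervalIntegral.integral_of_le hR.le]
  have : (fun r : ℝ => 2 * Real.pi * r * F c) = fun r : ℝ => (2 * Real.pi * F c) * r := by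
    funext r; ring
  rw [this, intervalIntegral.integral_const_mul, integral_id]
  ring

/-- The mean value inequality with a Neumann condition. -/
theorem neumann_mean (f : ℂ → ℝ) (c : ℂ) (R : ℝ) (hc : 0 ≤ c.im) (hR : 0 < R)
    (hcont : ContinuousOn f (Metric.closedBall c R ∩ {z : ℂ | 0 ≤ z.im}))
    (hpos : ∀ z ∈ Metric.closedBall c R ∩ {z : ℂ | 0 ≤ z.im}, 0 ≤ f z)
    (hC : ∀ z ∈ Metric.ball c R ∩ {z : ℂ | 0 < z.im}, ContDiffAt ℝ 2 f z ∧ 0 ≤ lap f z)
    (hb : ∀ z ∈ Metric.ball c R ∩ {z : ℂ | z.im = 0}, ∃ d, 0 ≤ d ∧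
      HasDerivWithinAt (fun t : ℝ => f (z + t * Complex.I)) d (Ici 0) 0) :
    f c * (Real.pi * R ^ 2) ≤ 2 * ∫ z in Metric.ball c R ∩ {z : ℂ | 0 < z.im}, f z := by
  set F : ℂ → ℝ := fun z => f ⟨z.re, |z.im|⟩ with hFdef
  -- the fold maps balls to half balls
  have hfold : ∀ z : ℂ, ‖(⟨z.re, |z.im|⟩ : ℂ) - c‖ ≤ ‖z - c‖ := by
    intro z
    rw [← sq_le_sq₀ (norm_nonneg _) (norm_nonneg _), Complex.sq_norm, Complex.sq_norm,
      Complex.normSq_apply, Complex.normSq_apply]
    simp only [Complex.sub_re, Complex.sub_im]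
    have h1 : |z.im| * |z.im| = z.im * z.im := abs_mul_abs_self _
    have h2 : z.im ≤ |z.im| := le_abs_self _
    nlinarith
  have hFcont : ContinuousOn F (Metric.closedBall c R) := by
    apply hcont.comp continuous_fold.continuousOn
    intro z hz
    refine ⟨?_, show (0 : ℝ) ≤ |z.im| from abs_nonneg _⟩
    rw [Metric.mem_closedBall, dist_eq_norm] at hz ⊢
    exact (hfold z).trans hz
  have hFc : F c = f c := by
    simp only [hFdef]
    rw [abs_of_nonneg hc]
  have hmean : ∀ r ∈ Ioo 0 R, F c ≤ Real.circleAverage F c r := by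
    intro r hr
    apply sub_mean F c r hr.1 (hFcont.mono (Metric.closedBall_subset_closedBall hr.2.le))
    intro p hp η hη z₁ hz₁
    have hz₁' : z₁ ∈ Metric.ball c R := Metric.ball_subset_ball hr.2.le hz₁
    rcases eq_or_ne z₁.im 0 with h0 | h0
    · obtain ⟨d, hd, hder⟩ := hb z₁ ⟨hz₁', h0⟩
      exact no_local_max_on f c z₁ p hp η hη h0 d hd hder
    · have hw : (⟨z₁.re, |z₁.im|⟩ : ℂ) ∈ Metric.ball c R ∩ {z : ℂ | 0 < z.im} := by
        refine ⟨?_, abs_pos.2 h0⟩
        rw [Metric.mem_ball, dist_eq_norm] at hz₁' ⊢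
        exact (hfold z₁).trans_lt hz₁'
      exact no_local_max_off f c z₁ p hp η hη h0 (hC _ hw).1 (hC _ hw).2
  have h1 := area_mean F c R hR hFcont hmean
  rw [hFc] at h1
  refine h1.trans ?_
  -- reflection
  have hmeas1 : MeasurableSet {z : ℂ | 0 < z.im} := measurableSet_lt measurable_const Complex.measurable_im
  have hFint : IntegrableOn F (Metric.ball c R) :=
    (hFcont.integrableOn_compact (isCompact_closedBall c R)).mono_set Metric.ball_subset_closedBall
  have hfint : IntegrableOn f (Metric.ball c R ∩ {z : ℂ | 0 < z.im}) := by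
    refine (hFint.mono_set inter_subset_left).congr_fun ?_ (measurableSet_ball.inter hmeas1)
    intro z hz
    have : 0 < z.im := hz.2
    simp only [hFdef]
    rw [abs_of_pos this]
  have h2 : ∫ z in Metric.ball c R, F z = (∫ z in Metric.ball c R ∩ {z : ℂ | 0 < z.im}, F z)
      + ∫ z in Metric.ball c R \ {z : ℂ | 0 < z.im}, F z :=
    (integral_inter_add_sdiff hmeas1 hFint).symm
  have h3 : ∫ z in Metric.ball c R ∩ {z : ℂ | 0 < z.im}, F z
      = ∫ z in Metric.ball c R ∩ {z : ℂ | 0 < z.im}, f z := by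
    apply setIntegral_congr_fun (measurableSet_ball.inter hmeas1)
    intro z hz
    have : 0 < z.im := hz.2
    simp only [hFdef]
    rw [abs_of_pos this]
  have h4 : ∫ z in Metric.ball c R \ {z : ℂ | 0 < z.im}, F z
      ≤ ∫ z in Metric.ball c R ∩ {z : ℂ | 0 < z.im}, f z := by
    set s : Set ℂ := {w | (starRingEnd ℂ) w ∈ Metric.ball c R ∧ 0 ≤ w.im} with hs
    have hpre : (Complex.conjLIE : ℂ → ℂ) ⁻¹' s = Metric.ball c R \ {z : ℂ | 0 < z.im} := by
      ext z
      simp [hs]
    have h5 : ∫ z in Metric.ball c R \ {z : ℂ | 0 < z.im}, F z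
        = ∫ z in (Complex.conjLIE : ℂ → ℂ) ⁻¹' s, f (Complex.conjLIE z) := by
      rw [hpre]
      apply setIntegral_congr_fun (measurableSet_ball.diff hmeas1)
      intro z hz
      have hz2 : z.im ≤ 0 := not_lt.1 hz.2
      simp only [hFdef]
      congr 1
      apply Complex.ext
      · simp
      · simp [abs_of_nonpos hz2]
    have h6 : ∫ z in (Complex.conjLIE : ℂ → ℂ) ⁻¹' s, f (Complex.conjLIE z) = ∫ w in s, f w :=
      (Complex.conjLIE.measurePreserving).setIntegral_preimage_emb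
        Complex.conjLIE.toHomeomorph.measurableEmbedding f s
    rw [h5, h6]
    have hae : s =ᵐ[volume] (s ∩ {z : ℂ | 0 < z.im} : Set ℂ) := by
      have hline : volume {z : ℂ | z.im = 0} = 0 := by
        have := Measure.addHaar_submodule (volume : Measure ℂ) (LinearMap.ker Complex.imLm) (by
          intro h
          have h7 : Complex.I ∈ LinearMap.ker Complex.imLm := by rw [h]; trivial
          simp at h7)
        convert! this using 2
      rw [ae_eq_set]
      constructor
      · apply measure_mono_null _ hline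
        rintro z ⟨hz1, hz2⟩
        have : ¬ 0 < z.im := fun h => hz2 ⟨hz1, h⟩
        exact le_antisymm (not_lt.1 this) hz1.2
      · rw [sdiff_eq_empty.2 inter_subset_left, measure_empty]
    rw [setIntegral_congr_set hae]
    apply setIntegral_mono_set hfint
    · filter_upwards [ae_restrict_mem (measurableSet_ball.inter hmeas1)] with z hz
      have hz2 : (0 : ℝ) < z.im := hz.2
      exact hpos z ⟨Metric.ball_subset_closedBall hz.1, show (0 : ℝ) ≤ z.im from hz2.le⟩
    · apply Filter.Eventually.of_forall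
      rintro z ⟨⟨hz1, hz2⟩, hz3⟩
      refine ⟨?_, hz3⟩
      rw [Metric.mem_ball, dist_eq_norm] at hz1 ⊢
      refine lt_of_le_of_lt ?_ hz1
      have h8 := hfold ((starRingEnd ℂ) z)
      have h9 : (⟨((starRingEnd ℂ) z).re, |((starRingEnd ℂ) z).im|⟩ : ℂ) = z := by
        apply Complex.ext
        · simp
        · simp [abs_of_nonneg hz2]
      rwa [h9] at h8
  rw [h2, h3]
  linarith

/-- Second derivative along a line of a product with a function of the imaginary part. -/
theorem lap_mul (e : ℂ → ℝ) (z : ℂ) (he : ContDiffAt ℝ 2 e z) (k b y₀ : ℝ) :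
    ContDiffAt ℝ 2 (fun w : ℂ => e w * Real.exp (k * (w.im - y₀) + b * (w.im - y₀) ^ 2)) z ∧
    lap (fun w : ℂ => e w * Real.exp (k * (w.im - y₀) + b * (w.im - y₀) ^ 2)) z
      = Real.exp (k * (z.im - y₀) + b * (z.im - y₀) ^ 2) *
        (lap e z + 2 * (k + 2 * b * (z.im - y₀)) * fderiv ℝ e z Complex.I
          + e z * ((k + 2 * b * (z.im - y₀)) ^ 2 + 2 * b)) := by
  set f : ℂ → ℝ := fun w : ℂ => e w * Real.exp (k * (w.im - y₀) + b * (w.im - y₀) ^ 2) with hf
  have hCf : ContDiffAt ℝ 2 f z := by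
    apply he.mul
    apply ContDiffAt.exp
    have h1 : ContDiffAt ℝ 2 (fun w : ℂ => w.im) z := Complex.imCLM.contDiff.contDiffAt
    exact (contDiffAt_const.mul (h1.sub contDiffAt_const)).add
      (contDiffAt_const.mul ((h1.sub contDiffAt_const).pow 2))
  refine ⟨hCf, ?_⟩
  -- the general direction `a`, with `v = a.im`
  have key : ∀ a : ℂ, fderiv ℝ (fun w => fderiv ℝ f w a) z a
      = Real.exp (k * (z.im - y₀) + b * (z.im - y₀) ^ 2) *
        (fderiv ℝ (fun w => fderiv ℝ e w a) z a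
          + 2 * (a.im * (k + 2 * b * (z.im - y₀))) * fderiv ℝ e z a
          + e z * (a.im ^ 2 * (k + 2 * b * (z.im - y₀)) ^ 2 + a.im ^ 2 * (2 * b))) := by
    intro a
    obtain ⟨he1, he2⟩ := line_deriv he a
    obtain ⟨hf1, hf2⟩ := line_deriv hCf a
    have hP : ∀ t : ℝ, HasDerivAt
        (fun t : ℝ => Real.exp (k * (z.im + t * a.im - y₀) + b * (z.im + t * a.im - y₀) ^ 2))
        (Real.exp (k * (z.im + t * a.im - y₀) + b * (z.im + t * a.im - y₀) ^ 2)
          * (a.im * (k + 2 * b * (z.im + t * a.im - y₀)))) t := by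
      intro t
      have h0 : HasDerivAt (fun t : ℝ => z.im + t * a.im - y₀) (1 * a.im) t :=
        (((hasDerivAt_id t).mul_const a.im).const_add z.im).sub_const y₀
      have h1 := ((h0.const_mul k).add ((h0.pow 2).const_mul b)).exp
      convert! h1 using 1
      simp
      ring
    have hline : ∀ t : ℝ, f (z + t * a) = e (z + t * a) *
        Real.exp (k * (z.im + t * a.im - y₀) + b * (z.im + t * a.im - y₀) ^ 2) := by
      intro t
      simp [hf]
    have hE : ∀ᶠ t : ℝ in 𝓝 0, fderiv ℝ f (z + t * a) a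
        = fderiv ℝ e (z + t * a) a *
            Real.exp (k * (z.im + t * a.im - y₀) + b * (z.im + t * a.im - y₀) ^ 2)
          + e (z + t * a) *
            (Real.exp (k * (z.im + t * a.im - y₀) + b * (z.im + t * a.im - y₀) ^ 2)
              * (a.im * (k + 2 * b * (z.im + t * a.im - y₀)))) := by
      filter_upwards [he1, hf1] with t h1 h2
      have h3 := h1.mul (hP t)
      have h4 : (fun t : ℝ => f (z + t * a)) = (fun t : ℝ => e (z + t * a)) *
          (fun t : ℝ => Real.exp (k * (z.im + t * a.im - y₀) + b * (z.im + t * a.im - y₀) ^ 2)) := by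
        funext t
        exact hline t
      rw [h4] at h2
      exact h2.unique h3
    have h0 : HasDerivAt (fun t : ℝ => z.im + t * a.im - y₀) (1 * a.im) 0 :=
      (((hasDerivAt_id (0 : ℝ)).mul_const a.im).const_add z.im).sub_const y₀
    have h5 := (he2.mul (hP 0)).add
      (he1.self_of_nhds.mul ((hP 0).mul (((h0.const_mul (2 * b)).const_add k).const_mul a.im)))
    have h6 := hf2.congr_of_eventuallyEq (f₁ := _) (by
      filter_upwards [hE] with t ht
      exact ht.symm)
    have h7 := h6.unique h5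
    rw [h7]
    simp
    ring
  unfold lap
  rw [key 1, key Complex.I]
  simp
  ring

/-- The radius constant. -/
noncomputable def kap (K Λ : ℝ) : ℝ :=
  4 * (|Λ| + 1) / (16 * |K| + 8 * (4 * (|Λ| + 1)) ^ 2)

theorem kap_pos (K Λ : ℝ) : 0 < kap K Λ := by
  unfold kap
  positivity

/-- The algebra of the interior inequality. -/
theorem alg_interior {q e g A K m k b L : ℝ} (hq : 0 ≤ q) (he : 0 ≤ e) (hA2 : A ^ 2 ≤ 4 * e * q)
    (he4 : e ≤ 4 * m ^ 2) (hg0 : 0 ≤ g) (hg1 : g ≤ 2 * k) (hb : 2 * b = 8 * |K| * m ^ 2 + 4 * k ^ 2)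
    (hL : 2 * q - 2 * K * e ^ 2 ≤ L) : 0 ≤ L + 2 * g * A + e * (g ^ 2 + 2 * b) := by
  have h1 : -(q + e * g ^ 2) ≤ A * g := by
    have h2 : (A * g) ^ 2 ≤ (q + e * g ^ 2) ^ 2 := by
      have h3 : (A * g) ^ 2 ≤ 4 * e * q * g ^ 2 := by
        rw [mul_pow]
        exact mul_le_mul_of_nonneg_right hA2 (sq_nonneg g)
      have h4 : 0 ≤ (q - e * g ^ 2) ^ 2 := sq_nonneg _
      have h5 : (q + e * g ^ 2) ^ 2 = (q - e * g ^ 2) ^ 2 + 4 * e * q * g ^ 2 := by ring
      linarith
    exact (abs_le_of_sq_le_sq' h2 (by positivity)).1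
  have h3 : K * e ≤ |K| * (4 * m ^ 2) := by
    calc K * e ≤ |K| * e := mul_le_mul_of_nonneg_right (le_abs_self K) he
      _ ≤ |K| * (4 * m ^ 2) := mul_le_mul_of_nonneg_left he4 (abs_nonneg K)
  have h4 : g ^ 2 ≤ 4 * k ^ 2 := by
    have : g ^ 2 ≤ (2 * k) ^ 2 := pow_le_pow_left₀ hg0 hg1 2
    linarith
  have h6 : 0 ≤ e * (2 * b - g ^ 2 - 2 * (K * e)) := by
    apply mul_nonneg he
    linarith
  have h7 : e * (2 * b - g ^ 2 - 2 * (K * e)) = e * (2 * b) - e * g ^ 2 - 2 * K * e ^ 2 := by ring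
  have h8 : e * (g ^ 2 + 2 * b) = e * g ^ 2 + e * (2 * b) := by ring
  have h9 : 2 * g * A = 2 * (A * g) := by ring
  rw [h8, h9]
  linarith

/-- The algebra of the constant `kap`. -/
theorem alg_kap {κ K lam : ℝ} (hκ : 0 < κ) (hlam : 0 < lam)
    (h : κ * (16 * |K| + 8 * lam ^ 2) = lam) : lam * κ ≤ 1 / 8 := by
  have h1 : 0 ≤ κ * |K| := mul_nonneg hκ.le (abs_nonneg K)
  have h2 : lam * (8 * (lam * κ)) ≤ lam * 1 := by linarith
  have h3 := le_of_mul_le_mul_left h2 hlam
  linarith

/-- Mean value inequality for `e` on a ball of radius at most `kap / m`, when `e ≤ 4 m ^ 2`. -/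
theorem weighted_mean (K Λ : ℝ) (z₀ : ℂ) (ρ : ℝ) (e : ℂ → ℝ)
    (he0 : ∀ z ∈ Metric.ball z₀ ρ ∩ {z : ℂ | 0 ≤ z.im}, 0 ≤ e z)
    (hcd : ContDiffOn ℝ 2 e (Metric.ball z₀ ρ ∩ {z : ℂ | 0 ≤ z.im}))
    (hin : ∀ z ∈ Metric.ball z₀ ρ ∩ {z : ℂ | 0 < z.im}, ∃ q : ℝ, 0 ≤ q ∧
        fderiv ℝ e z 1 ^ 2 + fderiv ℝ e z Complex.I ^ 2 ≤ 4 * e z * q ∧
        2 * q - 2 * K * e z ^ 2 ≤ fderiv ℝ (fun w => fderiv ℝ e w 1) z 1
          + fderiv ℝ (fun w => fderiv ℝ e w Complex.I) z Complex.I)
    (hbd : ∀ z ∈ Metric.ball z₀ ρ ∩ {z : ℂ | z.im = 0},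
        -(2 * Λ * e z * √(e z)) ≤
          fderivWithin ℝ e (Metric.ball z₀ ρ ∩ {z : ℂ | 0 ≤ z.im}) z Complex.I)
    (c : ℂ) (R m : ℝ) (hc : 0 ≤ c.im) (hR : 0 < R) (hm : 0 < m) (hRm : R * m ≤ kap K Λ)
    (hsub : Metric.closedBall c R ⊆ Metric.ball z₀ ρ)
    (hle : ∀ z ∈ Metric.closedBall c R ∩ {z : ℂ | 0 ≤ z.im}, e z ≤ 4 * m ^ 2) :
    e c * R ^ 2 ≤ 2 * ∫ z in Metric.ball c R ∩ {z : ℂ | 0 < z.im}, e z := by
  -- constants
  set lam : ℝ := 4 * (|Λ| + 1) with hlam
  have hlam_pos : 0 < lam := by positivity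
  set k : ℝ := lam * m with hk
  have hk_pos : 0 < k := by positivity
  set b : ℝ := (4 * |K| + 2 * lam ^ 2) * m ^ 2 with hb
  have hb_pos : 0 < b := by positivity
  set y₀ : ℝ := max 0 (c.im - R) with hy₀
  have hkap : kap K Λ * (16 * |K| + 8 * lam ^ 2) = lam := by
    unfold kap
    rw [← hlam]
    have : 0 < 16 * |K| + 8 * lam ^ 2 := by positivity
    field_simp
  have h4bR : 4 * b * R ≤ k := by
    have h1 : 4 * b * R = (16 * |K| + 8 * lam ^ 2) * m * (R * m) := by rw [hb]; ring
    rw [h1, hk]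
    have h2 : (16 * |K| + 8 * lam ^ 2) * m * (R * m)
        ≤ (16 * |K| + 8 * lam ^ 2) * m * kap K Λ := by
      apply mul_le_mul_of_nonneg_left hRm
      positivity
    refine h2.trans (le_of_eq ?_)
    calc (16 * |K| + 8 * lam ^ 2) * m * kap K Λ
        = (kap K Λ * (16 * |K| + 8 * lam ^ 2)) * m := by ring
      _ = lam * m := by rw [hkap]
  have hkR : k * R ≤ 1 / 8 := by
    have h1 : k * R = lam * (R * m) := by rw [hk]; ring
    have h2 : lam * (R * m) ≤ lam * kap K Λ := mul_le_mul_of_nonneg_left hRm hlam_pos.le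
    rw [h1]
    exact h2.trans (alg_kap (kap_pos K Λ) hlam_pos hkap)
  -- the range of `y`
  have hyrange : ∀ z ∈ Metric.closedBall c R ∩ {z : ℂ | 0 ≤ z.im},
      0 ≤ z.im - y₀ ∧ z.im - y₀ ≤ 2 * R := by
    rintro z ⟨hz1, hz2⟩
    have hz2' : (0 : ℝ) ≤ z.im := hz2
    rw [Metric.mem_closedBall, dist_eq_norm] at hz1
    have h1 : |z.im - c.im| ≤ R := by
      have := Complex.abs_im_le_norm (z - c)
      rw [Complex.sub_im] at this
      exact this.trans hz1
    obtain ⟨h2, h3⟩ := abs_le.1 h1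
    constructor
    · have : y₀ ≤ z.im := max_le hz2' (by linarith)
      linarith
    · have : c.im - R ≤ y₀ := le_max_right _ _
      linarith
  have hg' : ∀ z ∈ Metric.closedBall c R ∩ {z : ℂ | 0 ≤ z.im},
      0 ≤ k + 2 * b * (z.im - y₀) ∧ k + 2 * b * (z.im - y₀) ≤ 2 * k := by
    intro z hz
    obtain ⟨h1, h2⟩ := hyrange z hz
    constructor
    · positivity
    · have h3 : 2 * b * (z.im - y₀) ≤ 2 * b * (2 * R) := by gcongr
      linarith
  have hpsi1 : ∀ z ∈ Metric.closedBall c R ∩ {z : ℂ | 0 ≤ z.im},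
      1 ≤ Real.exp (k * (z.im - y₀) + b * (z.im - y₀) ^ 2) := by
    intro z hz
    obtain ⟨h1, h2⟩ := hyrange z hz
    apply Real.one_le_exp
    positivity
  have hpsi2 : ∀ z ∈ Metric.closedBall c R ∩ {z : ℂ | 0 ≤ z.im},
      Real.exp (k * (z.im - y₀) + b * (z.im - y₀) ^ 2) ≤ 3 := by
    intro z hz
    obtain ⟨h1, h2⟩ := hyrange z hz
    have h3 : k * (z.im - y₀) + b * (z.im - y₀) ^ 2 ≤ 1 := by
      have h4 : (z.im - y₀) ^ 2 ≤ (2 * R) ^ 2 := by gcongr
      have h5 : k * (z.im - y₀) ≤ k * (2 * R) := by gcongr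
      have h6 : b * (z.im - y₀) ^ 2 ≤ b * (2 * R) ^ 2 := by gcongr
      have h7 : b * (2 * R) ^ 2 = (4 * b * R) * R := by ring
      have h8 : (4 * b * R) * R ≤ k * R := by gcongr
      linarith
    calc Real.exp (k * (z.im - y₀) + b * (z.im - y₀) ^ 2) ≤ Real.exp 1 := Real.exp_le_exp.2 h3
      _ ≤ 3 := by have := Real.exp_one_lt_d9; linarith
  -- open sets
  have hDnhds : ∀ z ∈ Metric.ball z₀ ρ ∩ {z : ℂ | 0 < z.im},
      Metric.ball z₀ ρ ∩ {z : ℂ | 0 ≤ z.im} ∈ 𝓝 z := by
    rintro z ⟨hz1, hz2⟩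
    apply Filter.inter_mem (Metric.isOpen_ball.mem_nhds hz1)
    have : IsOpen {z : ℂ | 0 < z.im} := isOpen_lt continuous_const Complex.continuous_im
    exact Filter.mem_of_superset (this.mem_nhds hz2) (fun w (hw : (0 : ℝ) < w.im) =>
      show (0 : ℝ) ≤ w.im from hw.le)
  set f : ℂ → ℝ := fun w : ℂ => e w * Real.exp (k * (w.im - y₀) + b * (w.im - y₀) ^ 2) with hf
  have hDsub : Metric.closedBall c R ∩ {z : ℂ | 0 ≤ z.im}
      ⊆ Metric.ball z₀ ρ ∩ {z : ℂ | 0 ≤ z.im} := inter_subset_inter_left _ hsub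
  have hpsicont : Continuous fun w : ℂ => Real.exp (k * (w.im - y₀) + b * (w.im - y₀) ^ 2) := by
    fun_prop
  have hfcont : ContinuousOn f (Metric.closedBall c R ∩ {z : ℂ | 0 ≤ z.im}) :=
    (hcd.continuousOn.mono hDsub).mul hpsicont.continuousOn
  have hfpos : ∀ z ∈ Metric.closedBall c R ∩ {z : ℂ | 0 ≤ z.im}, 0 ≤ f z := by
    intro z hz
    exact mul_nonneg (he0 z (hDsub hz)) (Real.exp_pos _).le
  have hmain := neumann_mean f c R hc hR hfcont hfpos ?_ ?_
  · -- conclusion
    have hmeas1 : MeasurableSet {z : ℂ | 0 < z.im} :=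
      measurableSet_lt measurable_const Complex.measurable_im
    have hsub2 : Metric.ball c R ∩ {z : ℂ | 0 < z.im}
        ⊆ Metric.closedBall c R ∩ {z : ℂ | 0 ≤ z.im} := by
      rintro z ⟨hz1, hz2⟩
      have hz2' : (0 : ℝ) < z.im := hz2
      exact ⟨Metric.ball_subset_closedBall hz1, show (0 : ℝ) ≤ z.im from hz2'.le⟩
    have hcompact : IsCompact (Metric.closedBall c R ∩ {z : ℂ | 0 ≤ z.im}) :=
      (isCompact_closedBall c R).inter_right (isClosed_le continuous_const Complex.continuous_im)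
    have hfi : IntegrableOn f (Metric.ball c R ∩ {z : ℂ | 0 < z.im}) :=
      (hfcont.integrableOn_compact hcompact).mono_set hsub2
    have hei : IntegrableOn e (Metric.ball c R ∩ {z : ℂ | 0 < z.im}) :=
      ((hcd.continuousOn.mono hDsub).integrableOn_compact hcompact).mono_set hsub2
    have h1 : ∫ z in Metric.ball c R ∩ {z : ℂ | 0 < z.im}, f z
        ≤ ∫ z in Metric.ball c R ∩ {z : ℂ | 0 < z.im}, 3 * e z := by
      apply setIntegral_mono_on hfi (hei.const_mul 3) (measurableSet_ball.inter hmeas1)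
      intro z hz
      have h2 := hpsi2 z (hsub2 hz)
      have h3 := he0 z (hDsub (hsub2 hz))
      have h4 := mul_le_mul_of_nonneg_left h2 h3
      show e z * _ ≤ 3 * e z
      linarith
    rw [integral_const_mul] at h1
    have hcmem : c ∈ Metric.closedBall c R ∩ {z : ℂ | 0 ≤ z.im} :=
      ⟨Metric.mem_closedBall_self hR.le, hc⟩
    have h4 : e c ≤ f c := by
      have h2 := hpsi1 c hcmem
      have h3 := he0 c (hDsub hcmem)
      have h5 := mul_le_mul_of_nonneg_left h2 h3
      show e c ≤ e c * _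
      linarith
    have h5 : 0 ≤ e c := he0 c (hDsub hcmem)
    have h6 : e c * (3 * R ^ 2) ≤ f c * (Real.pi * R ^ 2) := by
      have := Real.pi_gt_three
      gcongr
    linarith
  · -- interior
    rintro z ⟨hz1, hz2⟩
    have hz2' : (0 : ℝ) < z.im := hz2
    have hzc : z ∈ Metric.closedBall c R ∩ {z : ℂ | 0 ≤ z.im} :=
      ⟨Metric.ball_subset_closedBall hz1, show (0 : ℝ) ≤ z.im from hz2'.le⟩
    have hzD : z ∈ Metric.ball z₀ ρ ∩ {z : ℂ | 0 < z.im} := ⟨hsub hzc.1, hz2⟩
    have hcdz : ContDiffAt ℝ 2 e z := hcd.contDiffAt (hDnhds z hzD)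
    obtain ⟨hA, hB⟩ := lap_mul e z hcdz k b y₀
    refine ⟨hA, ?_⟩
    have hB' : lap f z = _ := hB
    rw [hB']
    apply mul_nonneg (Real.exp_pos _).le
    obtain ⟨q, hq, hq1, hq2⟩ := hin z hzD
    have he : 0 ≤ e z := he0 z (hDsub hzc)
    have he4 : e z ≤ 4 * m ^ 2 := hle z hzc
    obtain ⟨hg0, hg1⟩ := hg' z hzc
    have hlap : 2 * q - 2 * K * e z ^ 2 ≤ lap e z := hq2
    have hA2 : fderiv ℝ e z Complex.I ^ 2 ≤ 4 * e z * q := by
      have := sq_nonneg (fderiv ℝ e z 1)
      linarith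
    have h5 : 2 * b = 8 * |K| * m ^ 2 + 4 * k ^ 2 := by rw [hb, hk]; ring
    exact alg_interior hq he hA2 he4 hg0 hg1 h5 hlap
  · -- boundary
    rintro z ⟨hz1, hz2⟩
    have hz2' : z.im = 0 := hz2
    have hzc : z ∈ Metric.closedBall c R ∩ {z : ℂ | 0 ≤ z.im} :=
      ⟨Metric.ball_subset_closedBall hz1, show (0 : ℝ) ≤ z.im from hz2'.ge⟩
    have hzD : z ∈ Metric.ball z₀ ρ ∩ {z : ℂ | z.im = 0} := ⟨hsub hzc.1, hz2⟩
    have he : 0 ≤ e z := he0 z (hDsub hzc)
    have he4 : e z ≤ 4 * m ^ 2 := hle z hzc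
    have hy : y₀ = 0 := by
      rw [hy₀, max_eq_left_iff]
      rw [Metric.mem_ball, dist_eq_norm] at hz1
      have := Complex.abs_im_le_norm (z - c)
      rw [Complex.sub_im, hz2'] at this
      have h2 := (abs_le.1 (this.trans hz1.le)).1
      linarith
    have hdiff : HasFDerivWithinAt e
        (fderivWithin ℝ e (Metric.ball z₀ ρ ∩ {z : ℂ | 0 ≤ z.im}) z)
        (Metric.ball z₀ ρ ∩ {z : ℂ | 0 ≤ z.im}) z :=
      ((hcd.differentiableOn (by norm_num)) z (hDsub hzc)).hasFDerivWithinAt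
    -- a short segment
    obtain ⟨ε, hε, hball⟩ := Metric.isOpen_ball.mem_nhds_iff.1 (Metric.isOpen_ball.mem_nhds hzD.1)
      |> fun _ => Metric.isOpen_iff.1 (Metric.isOpen_ball (x := z₀) (ε := ρ)) z hzD.1
    have hmaps : MapsTo (fun t : ℝ => z + t * Complex.I) (Ico 0 ε)
        (Metric.ball z₀ ρ ∩ {z : ℂ | 0 ≤ z.im}) := by
      intro t ht
      constructor
      · apply hball
        rw [Metric.mem_ball, dist_eq_norm]
        simpa [abs_of_nonneg ht.1] using ht.2
      · show (0 : ℝ) ≤ (z + t * Complex.I).im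
        simp [hz2', ht.1]
    have hline : HasDerivWithinAt (fun t : ℝ => z + t * Complex.I) Complex.I (Ico 0 ε) 0 := by
      have h := ((Complex.ofRealCLM.hasDerivAt (x := (0 : ℝ))).mul_const Complex.I).const_add z
      simpa using h.hasDerivWithinAt (s := Ico 0 ε)
    have hdE : HasDerivWithinAt (fun t : ℝ => e (z + t * Complex.I))
        (fderivWithin ℝ e (Metric.ball z₀ ρ ∩ {z : ℂ | 0 ≤ z.im}) z Complex.I) (Ico 0 ε) 0 := by
      have hdiff' : HasFDerivWithinAt e
          (fderivWithin ℝ e (Metric.ball z₀ ρ ∩ {z : ℂ | 0 ≤ z.im}) z)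
          (Metric.ball z₀ ρ ∩ {z : ℂ | 0 ≤ z.im}) (z + ((0 : ℝ) : ℂ) * Complex.I) := by
        simpa using hdiff
      exact hdiff'.comp_hasDerivWithinAt (0 : ℝ) hline hmaps
    have hdE' : HasDerivWithinAt (fun t : ℝ => e (z + t * Complex.I))
        (fderivWithin ℝ e (Metric.ball z₀ ρ ∩ {z : ℂ | 0 ≤ z.im}) z Complex.I) (Ici 0) 0 := by
      apply hdE.mono_of_mem_nhdsWithin
      exact Ico_mem_nhdsGE hε
    have hP : HasDerivWithinAt
        (fun t : ℝ => Real.exp (k * (z.im + t - y₀) + b * (z.im + t - y₀) ^ 2))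
        (Real.exp (k * (z.im + 0 - y₀) + b * (z.im + 0 - y₀) ^ 2)
          * (k + 2 * b * (z.im + 0 - y₀))) (Ici 0) 0 := by
      have h0 : HasDerivAt (fun t : ℝ => z.im + t - y₀) 1 0 :=
        ((hasDerivAt_id (0 : ℝ)).const_add z.im).sub_const y₀
      have h1 := ((h0.const_mul k).add ((h0.pow 2).const_mul b)).exp
      convert! h1.hasDerivWithinAt (s := Ici 0) using 1
      simp
      ring
    have hfd := hdE'.mul hP
    have e1 : (fun t : ℝ => f (z + t * Complex.I)) = (fun t : ℝ => e (z + t * Complex.I)) *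
        (fun t : ℝ => Real.exp (k * (z.im + t - y₀) + b * (z.im + t - y₀) ^ 2)) := by
      funext t
      simp [hf]
    rw [← e1] at hfd
    refine ⟨_, ?_, hfd⟩
    have h1 := hbd z hzD
    have h2 : √(e z) ≤ 2 * m := by
      rw [Real.sqrt_le_left (by positivity)]
      linarith
    have h3 : Λ * √(e z) ≤ |Λ| * (2 * m) :=
      mul_le_mul (le_abs_self Λ) h2 (Real.sqrt_nonneg _) (abs_nonneg _)
    have h4 : 2 * Λ * e z * √(e z) ≤ e z * k := by
      have h5 : 2 * (Λ * √(e z)) ≤ k := by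
        rw [hk, hlam]
        have : 0 ≤ |Λ| * m := mul_nonneg (abs_nonneg _) hm.le
        linarith
      have := mul_le_mul_of_nonneg_left h5 he
      linarith
    rw [hz2', hy]
    simp
    linarith

end Scalar

open Scalar in
/-- Task A: scalar eps-regularity. -/
theorem scalar_gradient_bound (K Λ : ℝ) :
    ∃ ε : ℝ, 0 < ε ∧ ∃ C : ℝ, 0 < C ∧ ∀ (z₀ : ℂ) (ρ : ℝ) (e : ℂ → ℝ), 0 ≤ z₀.im → 0 < ρ →
      (∀ z ∈ Metric.ball z₀ ρ ∩ {z : ℂ | 0 ≤ z.im}, 0 ≤ e z) →
      ContDiffOn ℝ 2 e (Metric.ball z₀ ρ ∩ {z : ℂ | 0 ≤ z.im}) →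
      (∀ z ∈ Metric.ball z₀ ρ ∩ {z : ℂ | 0 < z.im}, ∃ q : ℝ, 0 ≤ q ∧
        fderiv ℝ e z 1 ^ 2 + fderiv ℝ e z Complex.I ^ 2 ≤ 4 * e z * q ∧
        2 * q - 2 * K * e z ^ 2 ≤ fderiv ℝ (fun w => fderiv ℝ e w 1) z 1
          + fderiv ℝ (fun w => fderiv ℝ e w Complex.I) z Complex.I) →
      (∀ z ∈ Metric.ball z₀ ρ ∩ {z : ℂ | z.im = 0},
        -(2 * Λ * e z * √(e z)) ≤
          fderivWithin ℝ e (Metric.ball z₀ ρ ∩ {z : ℂ | 0 ≤ z.im}) z Complex.I) →
      IntegrableOn e (Metric.ball z₀ ρ ∩ {z : ℂ | 0 < z.im}) →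
      ∫ z in Metric.ball z₀ ρ ∩ {z : ℂ | 0 < z.im}, e z ≤ ε →
      e z₀ ≤ C / ρ ^ 2 * ∫ z in Metric.ball z₀ ρ ∩ {z : ℂ | 0 < z.im}, e z := by
  have hκ := kap_pos K Λ
  refine ⟨kap K Λ ^ 2 / 4, by positivity, 32, by norm_num, ?_⟩
  intro z₀ ρ e hz₀ hρ he0 hcd hin hbd hint hI
  set I := ∫ z in Metric.ball z₀ ρ ∩ {z : ℂ | 0 < z.im}, e z with hIdef
  have hmeas1 : MeasurableSet {z : ℂ | 0 < z.im} :=
    measurableSet_lt measurable_const Complex.measurable_im
  have hI0 : 0 ≤ I := by
    apply setIntegral_nonneg (measurableSet_ball.inter hmeas1)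
    rintro z ⟨hz1, hz2⟩
    have hz2' : (0 : ℝ) < z.im := hz2
    exact he0 z ⟨hz1, show (0 : ℝ) ≤ z.im from hz2'.le⟩
  -- point picking
  set r : ℝ := ρ / 2 with hr
  have hr0 : 0 < r := by positivity
  have hrρ : r < ρ := by rw [hr]; linarith
  have hsub0 : Metric.closedBall z₀ r ∩ {z : ℂ | 0 ≤ z.im}
      ⊆ Metric.ball z₀ ρ ∩ {z : ℂ | 0 ≤ z.im} :=
    inter_subset_inter_left _ (Metric.closedBall_subset_ball hrρ)
  have hcompact : IsCompact (Metric.closedBall z₀ r ∩ {z : ℂ | 0 ≤ z.im}) :=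
    (isCompact_closedBall z₀ r).inter_right (isClosed_le continuous_const Complex.continuous_im)
  have hcont : ContinuousOn (fun z : ℂ => (r - dist z z₀) ^ 2 * e z)
      (Metric.closedBall z₀ r ∩ {z : ℂ | 0 ≤ z.im}) := by
    apply ContinuousOn.mul
    · fun_prop
    · exact hcd.continuousOn.mono hsub0
  obtain ⟨zs, hzs, hmax⟩ := hcompact.exists_isMaxOn
    ⟨z₀, Metric.mem_closedBall_self hr0.le, hz₀⟩ hcont
  have hmax' : ∀ z ∈ Metric.closedBall z₀ r ∩ {z : ℂ | 0 ≤ z.im},
      (r - dist z z₀) ^ 2 * e z ≤ (r - dist zs z₀) ^ 2 * e zs := fun z hz => hmax hz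
  have hzs_im : (0 : ℝ) ≤ zs.im := hzs.2
  have h0 := hmax' z₀ ⟨Metric.mem_closedBall_self hr0.le, hz₀⟩
  rw [dist_self, sub_zero] at h0
  have hes : 0 ≤ e zs := he0 zs (hsub0 hzs)
  have hdist : dist zs z₀ ≤ r := hzs.1
  have goal_of : r ^ 2 * e z₀ ≤ 8 * I → e z₀ ≤ 32 / ρ ^ 2 * I := by
    intro h
    have : r ^ 2 = ρ ^ 2 / 4 := by rw [hr]; ring
    rw [this] at h
    rw [div_mul_eq_mul_div, le_div_iff₀ (by positivity)]
    linarith
  apply goal_of
  refine h0.trans ?_
  -- trivial case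
  rcases eq_or_lt_of_le hes with h1 | h1
  · rw [← h1]
    simp only [mul_zero]
    positivity
  set τ : ℝ := (r - dist zs z₀) / 2 with hτ
  have hτ0 : 0 ≤ τ := by rw [hτ]; linarith
  rcases eq_or_lt_of_le hτ0 with h2 | h2
  · have : r - dist zs z₀ = 0 := by rw [hτ] at h2; linarith
    rw [this]
    simp only [ne_eq, OfNat.ofNat_ne_zero, not_false_eq_true, zero_pow, zero_mul]
    positivity
  set m : ℝ := √(e zs) with hm
  have hm0 : 0 < m := Real.sqrt_pos.2 h1
  have hm2 : m ^ 2 = e zs := Real.sq_sqrt hes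
  have hball : ∀ z ∈ Metric.closedBall zs τ, dist z z₀ ≤ r - τ := by
    intro z hz
    have h3 := dist_triangle z zs z₀
    have h4 : dist z zs ≤ τ := hz
    rw [hτ] at h4 ⊢
    linarith
  have hle : ∀ z ∈ Metric.closedBall zs τ ∩ {z : ℂ | 0 ≤ z.im}, e z ≤ 4 * m ^ 2 := by
    rintro z ⟨hz1, hz2⟩
    have h3 := hball z hz1
    have hz : z ∈ Metric.closedBall z₀ r ∩ {z : ℂ | 0 ≤ z.im} :=
      ⟨Metric.mem_closedBall.2 (by linarith), hz2⟩
    have h4 := hmax' z hz
    have h5 : r - dist zs z₀ = 2 * τ := by rw [hτ]; ring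
    rw [h5, ← hm2] at h4
    have h6 : 0 ≤ e z := he0 z (hsub0 hz)
    have h7 : τ ^ 2 ≤ (r - dist z z₀) ^ 2 := pow_le_pow_left₀ hτ0 (by linarith) 2
    have h8 : τ ^ 2 * e z ≤ τ ^ 2 * (4 * m ^ 2) := by
      have := mul_le_mul_of_nonneg_right h7 h6
      linarith
    exact le_of_mul_le_mul_left h8 (by positivity)
  -- the mean value inequality on balls of radius at most `τ` and `kap / m`
  have key : ∀ R : ℝ, 0 < R → R ≤ τ → R * m ≤ kap K Λ → m ^ 2 * R ^ 2 ≤ 2 * I := by
    intro R hR hRτ hRm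
    have hsub : Metric.closedBall zs R ⊆ Metric.ball z₀ ρ := by
      intro z hz
      have h3 := hball z (Metric.closedBall_subset_closedBall hRτ hz)
      rw [Metric.mem_ball]
      linarith
    have h3 := weighted_mean K Λ z₀ ρ e he0 hcd hin hbd zs R m hzs_im hR hm0 hRm hsub
      (fun z hz => hle z ⟨Metric.closedBall_subset_closedBall hRτ hz.1, hz.2⟩)
    rw [← hm2] at h3
    refine h3.trans ?_
    have h4 : ∫ z in Metric.ball zs R ∩ {z : ℂ | 0 < z.im}, e z ≤ I := by
      apply setIntegral_mono_set hint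
      · filter_upwards [ae_restrict_mem (measurableSet_ball.inter hmeas1)] with z hz
        have hz2 : (0 : ℝ) < z.im := hz.2
        exact he0 z ⟨hz.1, show (0 : ℝ) ≤ z.im from hz2.le⟩
      · apply Filter.Eventually.of_forall
        rintro z ⟨hz1, hz2⟩
        exact ⟨hsub (Metric.ball_subset_closedBall hz1), hz2⟩
    linarith
  rcases le_or_gt (kap K Λ / m) τ with h3 | h3
  · exfalso
    have h4 := key (kap K Λ / m) (by positivity) h3 (by
      rw [div_mul_cancel₀ _ hm0.ne'])
    have h5 : m ^ 2 * (kap K Λ / m) ^ 2 = kap K Λ ^ 2 := by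
      field_simp
    rw [h5] at h4
    have : 0 < kap K Λ ^ 2 := by positivity
    linarith
  · have h4 := key τ h2 le_rfl (by
      rw [lt_div_iff₀ hm0] at h3
      exact h3.le)
    have h5 : r - dist zs z₀ = 2 * τ := by rw [hτ]; ring
    rw [h5, ← hm2]
    linarith

end Pool.Agent.MP_c86656_gt
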