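import Pool.Agent.Lib.MP_c86656_gt.Chart

/-! No small closed Lagrangian with bounded second fundamental form. -/

open Set Filter Topology Manifold MeasureTheory Bundle
open scoped ContDiff ENNReal

namespace Pool.Agent.MP_c86656_gt

noncomputable section

namespace Small

lemma deriv_deriv_nonpos {h : ℝ → ℝ} (hm : IsLocalMax h 0) (hc : ContinuousAt h 0) :
    deriv (deriv h) 0 ≤ 0 := by
  by_contra hcon
  push Not at hcon
  have hd : deriv h 0 = 0 := hm.deriv_eq_zero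
  have hmin : IsLocalMin h 0 := isLocalMin_of_deriv_deriv_pos hcon hd hc
  have heq : h =ᶠ[𝓝 0] fun _ => h 0 := by
    filter_upwards [hm, hmin] with t h1 h2 using le_antisymm h1 h2
  have : deriv (deriv h) 0 = 0 := by
    rw [heq.deriv.deriv_eq]
    simp
  linarith

section curve

variable {E : Type*} [NormedAddCommGroup E] [NormedSpace ℝ E]

omit [NormedSpace ℝ E] in
lemma exists_bound {F : Type*} [NormedAddCommGroup F] {S : Set E} (hS : IsCompact S) {f : E → F}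
    (hf : ContinuousOn f S) : ∃ C : ℝ, 0 ≤ C ∧ ∀ y ∈ S, ‖f y‖ ≤ C := by
  obtain ⟨C, hC⟩ := hS.exists_bound_of_continuousOn hf
  exact ⟨|C|, abs_nonneg C, fun y hy => (hC y hy).trans (le_abs_self C)⟩

lemma hasDerivAt_quad {G : E →L[ℝ] E →L[ℝ] ℝ} (hs : ∀ a b, G a b = G b a) {c : ℝ → E} {y₀ v : E}
    {t : ℝ} (hc : HasDerivAt c v t) :
    HasDerivAt (fun t => G (c t - y₀) (c t - y₀)) (2 * G (c t - y₀) v) t := by
  have h1 : HasDerivAt (fun t => c t - y₀) v t := hc.sub_const y₀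
  have h2 : HasDerivAt (fun t => G (c t - y₀)) (G v) t := G.hasFDerivAt.comp_hasDerivAt t h1
  have h3 := h2.clm_apply h1
  convert! h3 using 1
  rw [hs v]
  ring

lemma deriv_deriv_quad {G : E →L[ℝ] E →L[ℝ] ℝ} (hs : ∀ a b, G a b = G b a) {c : ℝ → E} {y₀ : E}
    (hc : ContDiffAt ℝ 2 c 0) :
    deriv (deriv fun t => G (c t - y₀) (c t - y₀)) 0 =
      2 * (G (deriv c 0) (deriv c 0) + G (c 0 - y₀) (deriv (deriv c) 0)) := by
  have hev : ∀ᶠ t in 𝓝 (0 : ℝ), HasDerivAt c (deriv c t) t := by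
    filter_upwards [hc.eventually (by simp)] with t ht
    exact (ht.differentiableAt (by simp)).hasDerivAt
  have h1 : deriv (fun t => G (c t - y₀) (c t - y₀)) =ᶠ[𝓝 0] fun t => 2 * G (c t - y₀) (deriv c t) := by
    filter_upwards [hev] with t ht using (hasDerivAt_quad hs ht).deriv
  rw [h1.deriv_eq]
  have h2 : HasDerivAt (deriv c) (deriv (deriv c) 0) 0 := by
    have : ContDiffAt ℝ 1 (deriv c) 0 := by
      have h3 : ContDiffAt ℝ 1 (fderiv ℝ c) 0 := hc.fderiv_right (by norm_num)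
      have h4 : deriv c = fun t => fderiv ℝ c t 1 := by
        ext t; exact fderiv_apply_one_eq_deriv.symm
      rw [h4]
      exact h3.clm_apply contDiffAt_const
    exact (this.differentiableAt (by simp)).hasDerivAt
  have h3 : HasDerivAt (fun t => c t - y₀) (deriv c 0) 0 := hev.self_of_nhds.sub_const y₀
  have h4 : HasDerivAt (fun t => G (c t - y₀)) (G (deriv c 0)) 0 :=
    G.hasFDerivAt.comp_hasDerivAt (0 : ℝ) h3
  have h5 := (h4.clm_apply h2).const_mul 2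
  rw [h5.deriv]

end curve

section geometry

variable {E : Type*} [NormedAddCommGroup E] [NormedSpace ℝ E]
  {M : Type*} [MetricSpace M] [ChartedSpace E M]

/-- Through a point of a Lagrangian of positive dimension there is a smooth curve with nonzero
velocity. -/
lemma exists_curve {φ ψ : OpenPartialHomeomorph M E} (hφ : φ ∈ charts E M) (hψ : ψ ∈ charts E M)
    {p : M} (hpφ : p ∈ φ.source) (hpψ : p ∈ ψ.source) {L : Set M} {V : Submodule ℝ E}
    (hV : ∀ y ∈ ψ.source, y ∈ L ↔ ψ y ∈ V) (hpL : p ∈ L) {w : E} (hw : w ∈ V) (hw0 : w ≠ 0) :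
    ∃ c : ℝ → E, ContDiffAt ℝ ∞ c 0 ∧ c 0 = φ p ∧ deriv c 0 ≠ 0 ∧
      ∀ᶠ t in 𝓝 0, c t ∈ φ.target ∧ φ.symm (c t) ∈ L := by
  set l : ℝ → E := fun t => ψ p + t • w with hl
  have hlc : Continuous l := by fun_prop
  have hl0 : l 0 = ψ p := by simp [hl]
  set c : ℝ → E := fun t => φ (ψ.symm (l t)) with hc
  -- the transition maps
  have htr : ∀ {φ ψ : OpenPartialHomeomorph M E}, φ ∈ charts E M → ψ ∈ charts E M →
      ∀ {p : M}, p ∈ φ.source → p ∈ ψ.source → ContDiffAt ℝ ∞ (fun y => φ (ψ.symm y)) (ψ p) := by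
    intro φ ψ hφ hψ p hpφ hpψ
    have h1 : ContMDiffAt 𝓘(ℝ, E) 𝓘(ℝ, E) ∞ ψ.symm (ψ p) :=
      (contMDiffOn_symm_of_mem_maximalAtlas hψ).contMDiffAt
        (ψ.open_target.mem_nhds (ψ.map_source hpψ))
    have h2 : ContMDiffAt 𝓘(ℝ, E) 𝓘(ℝ, E) ∞ φ (ψ.symm (ψ p)) := by
      rw [ψ.left_inv hpψ]
      exact (contMDiffOn_of_mem_maximalAtlas hφ).contMDiffAt (φ.open_source.mem_nhds hpφ)
    exact contMDiffAt_iff_contDiffAt.1 (h2.comp (ψ p) h1)
  have hT := htr hφ hψ hpφ hpψ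
  have hT' := htr hψ hφ hpψ hpφ
  have hev : ∀ᶠ t in 𝓝 (0 : ℝ), l t ∈ ψ.target ∧ ψ.symm (l t) ∈ φ.source := by
    have hl1 : ∀ᶠ y in 𝓝 (ψ p), y ∈ ψ.target ∧ ψ.symm y ∈ φ.source := by
      have h1 : ∀ᶠ y in 𝓝 (ψ p), y ∈ ψ.target := ψ.open_target.mem_nhds (ψ.map_source hpψ)
      have h2 : ∀ᶠ y in 𝓝 (ψ p), ψ.symm y ∈ φ.source := by
        refine (ψ.continuousAt_symm (ψ.map_source hpψ)).eventually_mem ?_
        rw [ψ.left_inv hpψ]
        exact φ.open_source.mem_nhds hpφ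
      exact h1.and h2
    rw [← hl0] at hl1
    exact hlc.continuousAt.eventually hl1
  have hcs : ContDiffAt ℝ ∞ c 0 := by
    have h1 : ContDiffAt ℝ ∞ (fun y => φ (ψ.symm y)) (l 0) := by rw [hl0]; exact hT
    have h2 : ContDiffAt ℝ ∞ l 0 := by
      simp only [hl]
      fun_prop
    exact h1.comp (0 : ℝ) h2
  have hc0 : c 0 = φ p := by simp only [hc, hl0, ψ.left_inv hpψ]
  refine ⟨c, hcs, hc0, ?_, ?_⟩
  · intro h0
    have h1 : HasDerivAt c 0 0 := by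
      rw [← h0]
      exact (hcs.differentiableAt (by simp)).hasDerivAt
    have h2 : HasFDerivAt (fun y => ψ (φ.symm y)) (fderiv ℝ (fun y => ψ (φ.symm y)) (φ p)) (c 0) := by
      rw [hc0]
      exact (hT'.differentiableAt (by simp)).hasFDerivAt
    have h3 := h2.comp_hasDerivAt (0 : ℝ) h1
    rw [map_zero] at h3
    have h4 : (fun y => ψ (φ.symm y)) ∘ c =ᶠ[𝓝 0] l := by
      filter_upwards [hev] with t ht
      simp only [Function.comp, hc]
      rw [φ.left_inv ht.2, ψ.right_inv ht.1]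
    have h5 : HasDerivAt l w 0 := by
      simp only [hl]
      have := ((hasDerivAt_id (0 : ℝ)).smul_const w).const_add (ψ p)
      simpa using this
    exact hw0 (h5.unique (h3.congr_of_eventuallyEq h4.symm))
  · filter_upwards [hev] with t ht
    refine ⟨φ.map_source ht.2, ?_⟩
    simp only [hc]
    rw [φ.left_inv ht.2]
    refine (hV _ (ψ.map_target ht.1)).2 ?_
    rw [ψ.right_inv ht.1]
    exact V.add_mem ((hV p hpψ).1 hpL) (V.smul_mem t hw)

end geometry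

end Small

variable {E : Type*} [NormedAddCommGroup E] [NormedSpace ℝ E] [FiniteDimensional ℝ E]
  {M : Type*} [MetricSpace M] [ChartedSpace E M] [IsManifold 𝓘(ℝ, E) ∞ M]
  [RiemannianBundle (fun x : M => TangentSpace 𝓘(ℝ, E) x)]
  [IsContMDiffRiemannianBundle 𝓘(ℝ, E) ∞ E (fun x : M => TangentSpace 𝓘(ℝ, E) x)]

omit [FiniteDimensional ℝ E] [IsContMDiffRiemannianBundle 𝓘(ℝ, E) ∞ E
  (fun x : M => TangentSpace 𝓘(ℝ, E) x)] [IsManifold 𝓘(ℝ, E) ∞ M] in
lemma Small.norm_le_of_gIn {G : E →L[ℝ] E →L[ℝ] ℝ} {m A r : ℝ} (hm : 0 < m) {n : E}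
    (hn : m * ‖n‖ ^ 2 ≤ G n n) (hG : G n n ≤ A * r * ‖n‖) (hA : 0 ≤ A) (hr : 0 ≤ r) :
    √(G n n) ≤ A * r / √m := by
  have h0 : ‖n‖ ≤ A * r / m := by
    rcases (norm_nonneg n).eq_or_lt with h | h
    · rw [← h]; positivity
    · rw [le_div_iff₀ hm]
      have : m * ‖n‖ ^ 2 ≤ A * r * ‖n‖ := hn.trans hG
      nlinarith
  have h1 : G n n ≤ (A * r / √m) ^ 2 := by
    rw [div_pow, Real.sq_sqrt hm.le]
    calc G n n ≤ A * r * ‖n‖ := hG
      _ ≤ A * r * (A * r / m) := by gcongr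
      _ = (A * r) ^ 2 / m := by ring
  exact Real.sqrt_le_iff.2 ⟨by positivity, h1⟩

/-- Task S (file Small.lean): no small closed Lagrangian with bounded second fundamental form. -/
theorem not_subset_ball (hdim : 0 < Module.finrank ℝ E) (J : EndField E M) (Λ : ℝ) (x : M) :
    ∃ s : ℝ, 0 < s ∧ ∀ L : Set M, IsClosedLagrangian J L → SecondFormLE E Λ L →
      ¬ L ⊆ Metric.ball x s := by
  set φ : OpenPartialHomeomorph M E := chartAt E x with hφdef
  have hφ : φ ∈ charts E M := IsManifold.chart_mem_maximalAtlas x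
  have hxs : x ∈ φ.source := mem_chart_source E x
  set y₀ : E := φ x with hy₀
  have hy₀t : y₀ ∈ φ.target := φ.map_source hxs
  obtain ⟨R, hR, hRt⟩ : ∃ R : ℝ, 0 < R ∧ Metric.closedBall y₀ R ⊆ φ.target :=
    Metric.nhds_basis_closedBall.mem_iff.1 (φ.open_target.mem_nhds hy₀t)
  have hcomp : IsCompact (Metric.closedBall y₀ R) := isCompact_closedBall y₀ R
  -- lower bound of the metric
  obtain ⟨m, hm, hmle⟩ : ∃ m : ℝ, 0 < m ∧ ∀ y ∈ Metric.closedBall y₀ R, ∀ v : E,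
      m * ‖v‖ ^ 2 ≤ gIn φ y v v := by
    have hS : IsCompact (Metric.closedBall y₀ R ×ˢ Metric.sphere (0 : E) 1) :=
      hcomp.prod (isCompact_sphere 0 1)
    have : Nontrivial E := Module.finrank_pos_iff.1 hdim
    obtain ⟨u₀, hu₀⟩ : (Metric.sphere (0 : E) 1).Nonempty :=
      NormedSpace.sphere_nonempty.2 zero_le_one
    have hne : (Metric.closedBall y₀ R ×ˢ Metric.sphere (0 : E) 1).Nonempty :=
      ⟨(y₀, u₀), Metric.mem_closedBall_self hR.le, hu₀⟩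
    have hcont : ContinuousOn (fun q : E × E => gIn φ q.1 q.2 q.2)
        (Metric.closedBall y₀ R ×ˢ Metric.sphere (0 : E) 1) := by
      have h1 : ContinuousOn (fun q : E × E => gIn φ q.1)
          (Metric.closedBall y₀ R ×ˢ Metric.sphere (0 : E) 1) :=
        ((contDiffOn_gIn hφ).continuousOn.mono hRt).comp continuousOn_fst (fun q hq => hq.1)
      exact (h1.clm_apply continuousOn_snd).clm_apply continuousOn_snd
    obtain ⟨q, hq, hqm⟩ := hS.exists_isMinOn hne hcont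
    refine ⟨gIn φ q.1 q.2 q.2, gIn_pos hφ (hRt hq.1) ?_, ?_⟩
    · have := hq.2
      intro h0
      rw [h0] at this
      simp at this
    · intro y hy v
      by_cases hv : v = 0
      · simp [hv]
      · have hv' : 0 < ‖v‖ := norm_pos_iff.2 hv
        have h1 := hqm (a := (y, ‖v‖⁻¹ • v)) ⟨hy, by
          simp [norm_smul, hv'.ne']⟩
        simp only [map_smul, smul_apply, smul_eq_mul, mem_ofPred_eq] at h1
        have h2 := mul_le_mul_of_nonneg_right h1 (sq_nonneg ‖v‖)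
        have h3 : ‖v‖⁻¹ * (‖v‖⁻¹ * gIn φ y v v) * ‖v‖ ^ 2 = gIn φ y v v := by
          field_simp
        rw [h3] at h2
        exact h2
  obtain ⟨Cg, hCg0, hCg⟩ := Small.exists_bound (F := E →L[ℝ] E →L[ℝ] ℝ) hcomp
    ((contDiffOn_gIn hφ).continuousOn.mono hRt)
  obtain ⟨CΓ, hCΓ0, hCΓ⟩ := Small.exists_bound (F := E →L[ℝ] E →L[ℝ] E) hcomp
    ((contDiffOn_gamL hφ).continuousOn.mono hRt)
  set G : E →L[ℝ] E →L[ℝ] ℝ := gIn φ y₀ with hG
  set A : ℝ := ‖G‖ with hA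
  have hA0 : 0 ≤ A := ContinuousLinearMap.opNorm_nonneg G
  set K : ℝ := |Λ| * Cg * (A / √m) + A * CΓ + 1 with hK
  have hK0 : 0 < K := by positivity
  obtain ⟨r, hr, hrR, hrK⟩ : ∃ r : ℝ, 0 < r ∧ r ≤ R ∧ r * K < m := by
    refine ⟨min R (m / K / 2), by positivity, min_le_left _ _, ?_⟩
    calc min R (m / K / 2) * K ≤ m / K / 2 * K := by gcongr; exact min_le_right _ _
      _ = m / 2 := by field_simp
      _ < m := by linarith
  have hnb : ∀ᶠ p in 𝓝 x, p ∈ φ.source ∧ φ p ∈ Metric.ball y₀ r := by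
    have h1 : ∀ᶠ p in 𝓝 x, p ∈ φ.source := φ.open_source.mem_nhds hxs
    have h2 : ∀ᶠ p in 𝓝 x, φ p ∈ Metric.ball y₀ r :=
      (φ.continuousAt hxs).eventually_mem (Metric.ball_mem_nhds _ hr)
    exact h1.and h2
  obtain ⟨s, hs, hsb⟩ := Metric.eventually_nhds_iff_ball.1 hnb
  refine ⟨s, hs, fun L hL hB hsub => ?_⟩
  -- the maximum
  have hfc : ContinuousOn (fun p => G (φ p - y₀) (φ p - y₀)) L := by
    have h1 : ContinuousOn (fun p => φ p - y₀) L :=
      (φ.continuousOn.mono fun p hp => (hsb p (hsub hp)).1).sub continuousOn_const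
    exact (continuousOn_const.clm_apply h1).clm_apply h1
  obtain ⟨p, hpL, hpmax⟩ := hL.compact.exists_isMaxOn hL.connected.nonempty hfc
  have hpφ : p ∈ φ.source := (hsb p (hsub hpL)).1
  have hpr : ‖φ p - y₀‖ < r := by
    have := (hsb p (hsub hpL)).2
    rwa [Metric.mem_ball, dist_eq_norm] at this
  obtain ⟨ψ, hψ, V, hpψ, hdV, hV⟩ := hL.slice p hpL
  obtain ⟨w, hwV, hw0⟩ : ∃ w ∈ V, w ≠ 0 := by
    refine (Submodule.ne_bot_iff V).1 ?_
    rintro rfl
    simp only [finrank_bot] at hdV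
    omega
  obtain ⟨c, hcs, hc0, hcd, hcL⟩ := Small.exists_curve hφ hψ hpφ hpψ hV hpL hwV hw0
  set y : E := φ p with hy
  have hyR : y ∈ Metric.closedBall y₀ R := by
    rw [Metric.mem_closedBall, dist_eq_norm]; linarith
  have hyt : y ∈ φ.target := hRt hyR
  have hGs : ∀ a b, G a b = G b a := gIn_symm φ y₀
  have hlm : ∀ c : ℝ → E, c 0 = y → (∀ᶠ t in 𝓝 0, c t ∈ φ.target ∧ φ.symm (c t) ∈ L) →
      IsLocalMax (fun t => G (c t - y₀) (c t - y₀)) 0 := by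
    intro c hc0 hcL
    filter_upwards [hcL] with t ht
    have := hpmax ht.2
    simp only [mem_ofPred_eq, φ.right_inv ht.1] at this
    rw [hc0]
    exact this
  have h2nd := Small.deriv_deriv_nonpos (hlm c hc0 hcL)
    ((Small.hasDerivAt_quad hGs (hcs.differentiableAt (by simp)).hasDerivAt).continuousAt)
  rw [Small.deriv_deriv_quad hGs (hcs.of_le (by norm_cast))] at h2nd
  set v : E := deriv c 0 with hv
  set a : E := deriv (deriv c) 0 with ha
  rw [hc0] at h2nd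
  -- the normal vector
  set n : E := (gIn φ y).inverse (G (y - y₀)) with hn
  have hgn : ∀ z, gIn φ y n z = G (y - y₀) z := fun z => gIn_inverse_apply hφ hyt _ z
  have hnormal : ∀ z ∈ tangentIn φ L y, gIn φ y z n = 0 := by
    rintro z ⟨d, hd0, hdz, hdL⟩
    rw [gIn_symm, hgn]
    have h1 := (hlm d hd0 hdL).hasDerivAt_eq_zero (Small.hasDerivAt_quad hGs hdz)
    rw [hd0] at h1
    linarith
  have hSF := hB φ hφ c hcs hcL n (by rw [hc0]; exact hnormal)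
  rw [hc0] at hSF
  have hpos : 0 < ‖v‖ := norm_pos_iff.2 hcd
  have hgnn : gIn φ y n n ≤ A * ‖y - y₀‖ * ‖n‖ := by
    rw [hgn]
    exact (le_abs_self _).trans (G.le_opNorm₂ _ _)
  have hsq : √(gIn φ y n n) ≤ A * ‖y - y₀‖ / √m :=
    Small.norm_le_of_gIn hm (hmle y hyR n) hgnn hA0 (norm_nonneg _)
  have hGv : m * ‖v‖ ^ 2 ≤ G v v := hmle y₀ (Metric.mem_closedBall_self hR.le) v
  have hgv : gIn φ y v v ≤ Cg * ‖v‖ ^ 2 := by
    calc gIn φ y v v ≤ ‖gIn φ y v v‖ := le_abs_self _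
      _ ≤ ‖gIn φ y‖ * ‖v‖ * ‖v‖ := (gIn φ y).le_opNorm₂ _ _
      _ ≤ Cg * ‖v‖ * ‖v‖ := by gcongr; exact hCg y hyR
      _ = Cg * ‖v‖ ^ 2 := by ring
  have hgv0 : 0 ≤ gIn φ y v v := gIn_nonneg φ y v
  have hΓ : ‖christoffel φ y v v‖ ≤ CΓ * ‖v‖ ^ 2 := by
    rw [← gamL_apply]
    calc ‖gamL φ y v v‖ ≤ ‖gamL φ y‖ * ‖v‖ * ‖v‖ := (gamL φ y).le_opNorm₂ _ _
      _ ≤ CΓ * ‖v‖ * ‖v‖ := by gcongr; exact hCΓ y hyR
      _ = CΓ * ‖v‖ ^ 2 := by ring
  have hΓ2 : |G (y - y₀) (christoffel φ y v v)| ≤ A * r * (CΓ * ‖v‖ ^ 2) := by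
    calc |G (y - y₀) (christoffel φ y v v)| ≤ ‖G‖ * ‖y - y₀‖ * ‖christoffel φ y v v‖ :=
          G.le_opNorm₂ _ _
      _ ≤ A * r * (CΓ * ‖v‖ ^ 2) := by gcongr
  have hSF1 : |gIn φ y (a + christoffel φ y v v) n| ≤ |Λ| * (Cg * ‖v‖ ^ 2) * (A * r / √m) := by
    calc |gIn φ y (a + christoffel φ y v v) n| ≤ Λ * gIn φ y v v * √(gIn φ y n n) := hSF
      _ ≤ |Λ| * gIn φ y v v * √(gIn φ y n n) := by gcongr; exact le_abs_self _
      _ ≤ |Λ| * (Cg * ‖v‖ ^ 2) * (A * ‖y - y₀‖ / √m) := by gcongr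
      _ ≤ |Λ| * (Cg * ‖v‖ ^ 2) * (A * r / √m) := by gcongr
  have hexp : gIn φ y (a + christoffel φ y v v) n =
      G (y - y₀) a + G (y - y₀) (christoffel φ y v v) := by
    rw [gIn_symm, hgn, map_add]
  rw [hexp] at hSF1
  have h1 : m * ‖v‖ ^ 2 ≤ |Λ| * (Cg * ‖v‖ ^ 2) * (A * r / √m) + A * r * (CΓ * ‖v‖ ^ 2) := by
    have e1 := neg_abs_le (G (y - y₀) a + G (y - y₀) (christoffel φ y v v))
    have e2 := le_abs_self (G (y - y₀) (christoffel φ y v v))
    linarith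
  have h2 : |Λ| * (Cg * ‖v‖ ^ 2) * (A * r / √m) + A * r * (CΓ * ‖v‖ ^ 2) =
      r * (K - 1) * ‖v‖ ^ 2 := by
    rw [hK]; ring
  rw [h2] at h1
  have h3 : r * (K - 1) * ‖v‖ ^ 2 < m * ‖v‖ ^ 2 := by
    have : r * (K - 1) < m := by nlinarith
    gcongr
  linarith

end

end Pool.Agent.MP_c86656_gt
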