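import Pool.Agent.Lib.MP_c86656_gt.Exclusion
import Pool.Agent.Lib.MP_c86656_gt.Scalar
import Pool.Agent.Lib.MP_c86656_gt.Small

/-! The main theorem, given the perturbation theorem. -/

open Set Filter Topology Manifold MeasureTheory Bundle
open scoped ContDiff ENNReal

namespace Pool.Agent.MP_c86656_gt

noncomputable section

variable {E : Type*} [NormedAddCommGroup E] [NormedSpace ℝ E] [FiniteDimensional ℝ E]
  {M : Type*} [MetricSpace M] [ChartedSpace E M] [IsManifold 𝓘(ℝ, E) ∞ M]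
  [RiemannianBundle (fun x : M => TangentSpace 𝓘(ℝ, E) x)]
  [IsContMDiffRiemannianBundle 𝓘(ℝ, E) ∞ E (fun x : M => TangentSpace 𝓘(ℝ, E) x)]
  [IsRiemannianManifold 𝓘(ℝ, E) M]

lemma exists_scalarBound (K Λ : ℝ) : ∃ ε : ℝ, 0 < ε ∧ ∃ C : ℝ, 0 < C ∧ ScalarBound K Λ ε C :=
  scalar_gradient_bound K Λ

theorem energy_quantization {J : EndField E M} (hJ : IsCompatible J) {K : ℝ}
    (hK : SectionalCurvatureLE E M K) (Λ : ℝ) {r : ℝ} (hr : 0 < r) :
    ∃ ε : ℝ, 0 < ε ∧ ∀ L : Set M, IsClosedLagrangian J L → SecondFormLE E Λ L →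
      ∀ (N : ℕ) (Q : Fin N → Set M) (θ : Fin (N + 1) → ℝ) (u : ℂ → M), IsPolygon J Q θ u →
        (∃ z ∈ puncturedDisc θ, ∃ w ∈ puncturedDisc θ, u z ≠ u w) →
        ∀ j : Fin N, Q j = L → ∀ t ∈ Ioo (θ j.castSucc) (θ j.succ),
          (∀ i, i ≠ j → ∀ q ∈ Q i, r ≤ dist (u (Complex.exp (t * Complex.I))) q) →
            ε ≤ energy J θ u :=
  energy_quantization_aux hJ hK Λ (exists_scalarBound K Λ) hr

theorem main_of_perturbations (hdim : 0 < Module.finrank ℝ E)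
    {J : EndField E M} (hJ : IsCompatible J) {K : ℝ}
    (hK : SectionalCurvatureLE E M K) (Λ : ℝ)
    (hpert : HasPerturbations J)
    {Lstar F F' : Set (Set M)} (hLag : ∀ L ∈ Lstar, IsClosedLagrangian J L)
    (hF : F ⊆ Lstar) (hF' : F' ⊆ Lstar)
    (hdisc : DiscreteTopology ↥(closure (⋃₀ F) ∩ closure (⋃₀ F')))
    {d d' : Set M → Set M → ℝ≥0∞} (hd : IsPseudoDist Lstar d) (hd' : IsPseudoDist Lstar d')
    (had : JAdapted J Lstar F d) (had' : JAdapted J Lstar F' d')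
    {L : ℕ → Set M} {L₀ : Set M} (hL : ∀ n, L n ∈ Lstar) (hL₀ : L₀ ∈ Lstar)
    (hΛ : ∀ n, SecondFormLE E Λ (L n)) (hΛ₀ : SecondFormLE E Λ L₀)
    (hlim : Tendsto (fun n => max (d (L n) L₀) (d' (L n) L₀)) atTop (𝓝 0)) :
    Tendsto (fun n => Metric.hausdorffDist (L n) L₀) atTop (𝓝 0) :=
  main_aux hJ hK Λ (exists_scalarBound K Λ) hpert (fun x => not_subset_ball hdim J Λ x) hLag hF hF'
    hdisc hd hd' had had' hL hL₀ hΛ hΛ₀ hlim

end

end Pool.Agent.MP_c86656_gt
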