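import Pool.Agent.Lib.MP_c86656_gt.Curve

/-! Length of images of paths under a `J`-holomorphic curve. -/

open Set Filter Topology Manifold MeasureTheory Bundle
open scoped ContDiff ENNReal

namespace Pool.Agent.MP_c86656_gt

set_option linter.unusedSectionVars false

noncomputable section

variable {E : Type*} [NormedAddCommGroup E] [NormedSpace ℝ E] [FiniteDimensional ℝ E]
  {M : Type*} [MetricSpace M] [ChartedSpace E M] [IsManifold 𝓘(ℝ, E) ∞ M]
  [RiemannianBundle (fun x : M => TangentSpace 𝓘(ℝ, E) x)]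
  [IsContMDiffRiemannianBundle 𝓘(ℝ, E) ∞ E (fun x : M => TangentSpace 𝓘(ℝ, E) x)]

lemma inner_J_self {J : EndField E M} (hJ : IsCompatible J) (x : M)
    (a : TangentSpace 𝓘(ℝ, E) x) : inner ℝ (J x a) a = 0 := by
  have h1 := hJ.orth x (J x a) a
  rw [hJ.sq, inner_neg_left, real_inner_comm] at h1
  linarith

lemma HolCurve.norm_du {J : EndField E M} (hJ : IsCompatible J) {D : Set ℂ} {v : ℂ → M}
    (h : HolCurve J D v) {z : ℂ} (hz : z ∈ D) (a : ℂ) :
    ‖du (E := E) D v z a‖ = ‖a‖ * √(dens E D v z) := by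
  have h1 : du (E := E) D v z a = a.re • du D v z 1 + a.im • J (v z) (du D v z 1) := by
    rw [← h.holo z hz]
    have : a = a.re • (1 : ℂ) + a.im • Complex.I := by
      apply Complex.ext <;> simp
    conv_lhs => rw [this]
    simp only [du]
    exact (map_add _ _ _).trans (congrArg₂ _ (map_smul _ _ _) (map_smul _ _ _))
  have h2 : ‖du (E := E) D v z a‖ ^ 2 = ‖a‖ ^ 2 * dens E D v z := by
    rw [← real_inner_self_eq_norm_sq, h1]
    simp only [inner_add_left, inner_add_right, inner_smul_left, inner_smul_right,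
      RCLike.conj_to_real, hJ.orth, inner_J_self hJ, real_inner_comm (J (v z) _)]
    rw [← Complex.normSq_eq_norm_sq, Complex.normSq_apply]
    simp only [dens]
    ring
  have h3 : ‖du (E := E) D v z a‖ ^ 2 = (‖a‖ * √(dens E D v z)) ^ 2 := by
    rw [h2, mul_pow, Real.sq_sqrt (dens_nonneg _ _ _)]
  exact (pow_left_inj₀ (norm_nonneg _) (by positivity) two_ne_zero).1 h3

variable [IsRiemannianManifold 𝓘(ℝ, E) M]

lemma HolCurve.edist_le {J : EndField E M} (hJ : IsCompatible J) {D : Set ℂ} {v : ℂ → M}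
    (h : HolCurve J D v) {γ : ℝ → ℂ} (hγ : ContDiff ℝ 1 γ) {α β : ℝ} (hαβ : α ≤ β)
    (hm : ∀ t ∈ Icc α β, γ t ∈ D) :
    edist (v (γ α)) (v (γ β)) ≤
      ∫⁻ t in Icc α β, ENNReal.ofReal (‖deriv γ t‖ * √(dens E D v (γ t))) := by
  rcases hαβ.eq_or_lt with rfl | hlt
  · simp
  have hsm : ContMDiffOn 𝓘(ℝ, ℝ) 𝓘(ℝ, E) 1 (v ∘ γ) (Icc α β) :=
    (h.smooth.of_le (by simp)).comp hγ.contMDiff.contMDiffOn hm
  rw [IsRiemannianManifold.out (I := 𝓘(ℝ, E)) (v (γ α)) (v (γ β))]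
  refine (riemannianEDist_le_pathELength hsm rfl rfl hαβ).trans ?_
  rw [pathELength_eq_lintegral_mfderivWithin_Icc]
  refine setLIntegral_mono' measurableSet_Icc fun t ht => ?_
  have hu : UniqueMDiffWithinAt 𝓘(ℝ, ℝ) (Icc α β) t :=
    (uniqueDiffOn_Icc hlt t ht).uniqueMDiffWithinAt
  have h1 := mfderivWithin_comp t (((h.smooth _ (hm t ht)).mdifferentiableWithinAt (by simp)))
    ((hγ.contMDiff.mdifferentiableAt (by simp) (x := t)).mdifferentiableWithinAt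
      (s := Icc α β)) (fun s hs => hm s hs) hu
  have h2 : (mfderivWithin 𝓘(ℝ, ℝ) 𝓘(ℝ, ℂ) γ (Icc α β) t : ℝ →L[ℝ] ℂ) (1 : ℝ) = deriv γ t := by
    rw [mfderivWithin_eq_fderivWithin]
    have := (hγ.differentiable (by simp) t).hasFDerivAt.hasFDerivWithinAt (s := Icc α β)
    rw [this.fderivWithin (uniqueDiffOn_Icc hlt t ht)]
    exact fderiv_apply_one_eq_deriv
  have h3 : mfderivWithin 𝓘(ℝ, ℝ) 𝓘(ℝ, E) (v ∘ γ) (Icc α β) t (1 : ℝ) =
      du D v (γ t) (deriv γ t) := by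
    rw [h1, ← h2]
    rfl
  have h4 : ‖mfderivWithin 𝓘(ℝ, ℝ) 𝓘(ℝ, E) (v ∘ γ) (Icc α β) t (1 : ℝ)‖ₑ =
      ‖du (E := E) D v (γ t) (deriv γ t)‖ₑ := congrArg (fun w : TangentSpace 𝓘(ℝ, E) (v (γ t)) => ‖w‖ₑ) h3
  refine le_of_eq ?_
  refine h4.trans ?_
  rw [← ofReal_norm, h.norm_du hJ (hm t ht)]

end

end Pool.Agent.MP_c86656_gt
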