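import Pool.Agent.Lib.MP_c86656_gt.TrLocTrans

/-! Task G: small Hamiltonian perturbations making finitely many closed Lagrangians pairwise
transverse, one of them unperturbed. -/

open Set Filter Topology Manifold Bundle MeasureTheory
open scoped ContDiff NNReal

namespace Pool.Agent.MP_c86656_gt

namespace Tr

set_option linter.unusedSectionVars false

universe u v

variable {E : Type u} [NormedAddCommGroup E] [NormedSpace ℝ E] [FiniteDimensional ℝ E]
  {M : Type v} [MetricSpace M] [ChartedSpace E M] [IsManifold 𝓘(ℝ, E) ∞ M]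

section Ae

variable {P : Type*} [NormedAddCommGroup P] [NormedSpace ℝ P] [FiniteDimensional ℝ P]

theorem ae_transverse [MeasurableSpace P] [BorelSpace P] (μ : Measure P) [μ.IsAddHaarMeasure]
    {G : P → M → M}
    (hG : ContMDiff (𝓘(ℝ, P).prod 𝓘(ℝ, E)) 𝓘(ℝ, E) 1 (fun p : P × M => G p.1 p.2))
    {κ : M → M} (hκ : ContMDiff 𝓘(ℝ, E) 𝓘(ℝ, E) 1 κ) {L T : Set M} (hL : Slice E L)
    (hT : Slice E T) (hLc : IsCompact L) (hTc : IsCompact T) {U : Set P}
    (hU : ∀ a ∈ U, ∀ x ∈ L, SpansAt E G a x) :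
    ∀ᵐ a ∂μ, a ∈ U → Transverse (E := E) (G a '' L) (κ '' T) := by
  haveI : CompactSpace L := isCompact_iff_compactSpace.mp hLc
  haveI : CompactSpace T := isCompact_iff_compactSpace.mp hTc
  let S : Set (P × L × T) := {p | p.1 ∈ U ∧ G p.1 (p.2.1 : M) = κ (p.2.2 : M)}
  have hloc : ∀ p : P × L × T, ∃ N ∈ 𝓝 (p.1, (p.2.1 : M), (p.2.2 : M)), p ∈ S →
      ∀ᵐ a ∂μ, ∀ x ∈ L, ∀ q ∈ T, (a, x, q) ∈ N → G a x = κ q →
        TransvAt E (G a '' L) (κ '' T) (κ q) := by
    intro p
    by_cases hp : p ∈ S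
    · obtain ⟨N, hN, h⟩ := local_transverse μ hG hκ hL hT p.2.1.2 p.2.2.2 hp.2
        (hU p.1 hp.1 _ p.2.1.2)
      exact ⟨N, hN, fun _ => h⟩
    · exact ⟨univ, univ_mem, fun h => absurd h hp⟩
  choose N hN hN' using hloc
  have hcov : ∀ p ∈ S, {p' : P × L × T | (p'.1, (p'.2.1 : M), (p'.2.2 : M)) ∈ N p} ∈ 𝓝[S] p := by
    intro p _
    have hc : Continuous (fun p' : P × L × T => (p'.1, (p'.2.1 : M), (p'.2.2 : M))) := by fun_prop
    exact mem_nhdsWithin_of_mem_nhds (hc.continuousAt.preimage_mem_nhds (hN p))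
  obtain ⟨t, htS, htc, ht⟩ := TopologicalSpace.countable_cover_nhdsWithin hcov
  have hae : ∀ᵐ a ∂μ, ∀ p ∈ t, ∀ x ∈ L, ∀ q ∈ T, (a, x, q) ∈ N p → G a x = κ q →
      TransvAt E (G a '' L) (κ '' T) (κ q) := by
    rw [ae_ball_iff htc]
    intro p hp
    exact hN' p (htS hp)
  filter_upwards [hae] with a ha haU
  rintro p ⟨⟨x, hx, hxp⟩, ⟨q, hq, hqp⟩⟩
  have hmem : ((a, (⟨x, hx⟩ : L), (⟨q, hq⟩ : T)) : P × L × T) ∈ S := ⟨haU, by
    show G a x = κ q
    rw [hxp, hqp]⟩
  have h1 := ht hmem
  rw [mem_iUnion₂] at h1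
  obtain ⟨p', hp', hmem'⟩ := h1
  have := ha p' hp' x hx q hq hmem' (by rw [hxp, hqp])
  rw [hqp] at this
  exact this

theorem exists_nhds_spans {G : P → M → M}
    (hG : ContMDiff (𝓘(ℝ, P).prod 𝓘(ℝ, E)) 𝓘(ℝ, E) 1 (fun p : P × M => G p.1 p.2))
    {L : Set M} (hLc : IsCompact L) (h : ∀ x ∈ L, SpansAt E G 0 x) :
    ∃ U ∈ 𝓝 (0 : P), ∀ a ∈ U, ∀ x ∈ L, SpansAt E G a x := by
  have h1 : ∀ᶠ a in 𝓝 (0 : P), ∀ x ∈ L, SpansAt E G a x := by
    refine hLc.eventually_forall_of_forall_eventually (fun x hx => ?_)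
    exact spans_eventually hG (h x hx)
  exact ⟨_, h1, fun a ha => ha⟩

end Ae

theorem transverse_symm {A B : Set M} (h : Transverse (E := E) A B) : Transverse (E := E) B A := by
  intro p hp φ hφ hs z
  obtain ⟨v, hv, w, hw, hvw⟩ := h p ⟨hp.2, hp.1⟩ φ hφ hs z
  exact ⟨w, hw, v, hv, by rw [add_comm]; exact hvw⟩

variable [RiemannianBundle (fun x : M => TangentSpace 𝓘(ℝ, E) x)]

/-- A family which spans all directions along a compact set. -/
theorem exists_global_fam {J : EndField E M} (hJ : IsCompatible J) {K : Set M}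
    (hK : IsCompact K) : ∃ (P : Type u) (_ : NormedAddCommGroup P) (_ : NormedSpace ℝ P)
      (_ : FiniteDimensional ℝ P) (G : P → M → M), Fam J G ∧ ∀ x ∈ K, SpansAt E G 0 x := by
  refine hK.induction_on (p := fun S => ∃ (P : Type u) (_ : NormedAddCommGroup P)
      (_ : NormedSpace ℝ P) (_ : FiniteDimensional ℝ P) (G : P → M → M),
      Fam J G ∧ ∀ x ∈ S, SpansAt E G 0 x) ?_ ?_ ?_ ?_
  · exact ⟨E, inferInstance, inferInstance, inferInstance, fun _ x => x, fam_unit J, by simp⟩
  · rintro s t hst ⟨P, i1, i2, i3, G, hG, h⟩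
    exact ⟨P, i1, i2, i3, G, hG, fun x hx => h x (hst hx)⟩
  · rintro s t ⟨P, i1, i2, i3, G, hG, h⟩ ⟨P', i1', i2', i3', G', hG', h'⟩
    refine ⟨P × P', inferInstance, inferInstance, inferInstance,
      fun (a : P × P') x => G' a.2 (G a.1 x), hG.comp hG', ?_⟩
    rintro x (hx | hx)
    · exact spansAt_comp_left hG hG' (h x hx)
    · exact spansAt_comp_right hG hG' (h' x hx)
  · intro x _
    set φ := chartAt E x with hφdef
    have hφ : φ ∈ charts E M := IsManifold.chart_mem_maximalAtlas _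
    have hx : x ∈ φ.source := mem_chart_source E x
    obtain ⟨r, hr, hball⟩ := Metric.nhds_basis_closedBall.mem_iff.mp
      (φ.open_target.mem_nhds (φ.map_source hx))
    let b : ContDiffBump (φ x) := ⟨r / 2, r, by linarith, by linarith⟩
    have hloc : Loc J φ b := ⟨hJ, hφ, b.contDiff, b.hasCompactSupport, by
      rw [b.tsupport_eq]; exact hball⟩
    obtain ⟨G, hG, hs⟩ := hloc.exists_fam
    refine ⟨φ.source ∩ φ ⁻¹' Metric.ball (φ x) (r / 2), ?_, E →L[ℝ] ℝ, inferInstance,
      inferInstance, inferInstance, G, hG, ?_⟩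
    · refine mem_nhdsWithin_of_mem_nhds ?_
      refine inter_mem (φ.open_source.mem_nhds hx) ?_
      exact (φ.continuousAt hx).preimage_mem_nhds (Metric.ball_mem_nhds _ (by linarith))
    · rintro y ⟨hy1, hy2⟩
      refine hs y hy1 ?_
      filter_upwards [Metric.isOpen_ball.mem_nhds hy2] with z hz
      exact b.one_of_mem_closedBall (Metric.ball_subset_closedBall hz)

theorem perturb_one {J : EndField E M} (hJ : IsCompatible J) {k : ℕ} {η : ℝ} (hη : 0 < η)
    {L : Set M} (hL : Slice E L) (hLc : IsCompact L) (T : Fin k → Set M)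
    (hT : ∀ i, Slice E (T i)) (hTc : ∀ i, IsCompact (T i)) (ψ : Fin k → M → M)
    (hψ : ∀ i, ContMDiff 𝓘(ℝ, E) 𝓘(ℝ, E) 1 (ψ i)) :
    ∃ g : M → M, IsSmallHamiltonian J η g ∧ ContMDiff 𝓘(ℝ, E) 𝓘(ℝ, E) 1 g ∧
      ∀ j, Transverse (E := E) (g '' L) (ψ j '' T j) := by
  obtain ⟨P, i1, i2, i3, G, hG, hs⟩ := exists_global_fam hJ hLc
  letI : MeasurableSpace P := borel P
  haveI : BorelSpace P := ⟨rfl⟩
  let μ : Measure P := Measure.addHaar
  obtain ⟨U, hU, hUs⟩ := exists_nhds_spans hG.smooth hLc hs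
  have hae : ∀ᵐ a ∂μ, ∀ j, a ∈ U → Transverse (E := E) (G a '' L) (ψ j '' T j) := by
    rw [ae_all_iff]
    intro j
    exact ae_transverse μ hG.smooth (hψ j) hL (hT j) hLc (hTc j) hUs
  have hdense := Measure.dense_of_ae hae
  obtain ⟨a, ha1, ha2, ha3⟩ := hdense.inter_nhds_nonempty
    (inter_mem hU (hG.small (η / 3) (by linarith)))
  refine ⟨G a, ?_, ?_, fun j => ha1 j ha2⟩
  · have := SmallH.isSmall (by linarith) (show SmallH J (η / 3) (G a) from ha3)
    rwa [show 3 * (η / 3) = η by ring] at this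
  · exact hG.smooth.comp (contMDiff_const.prodMk contMDiff_id)

end Tr

universe u v

variable {E : Type u} [NormedAddCommGroup E] [NormedSpace ℝ E] [FiniteDimensional ℝ E]
  {M : Type v} [MetricSpace M] [ChartedSpace E M] [IsManifold 𝓘(ℝ, E) ∞ M]
  [RiemannianBundle (fun x : M => TangentSpace 𝓘(ℝ, E) x)]
  [IsContMDiffRiemannianBundle 𝓘(ℝ, E) ∞ E (fun x : M => TangentSpace 𝓘(ℝ, E) x)]
  [IsRiemannianManifold 𝓘(ℝ, E) M]

open Tr in
/-- Task G (file Transversality.lean): small Hamiltonian perturbations making finitely many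
closed Lagrangians pairwise transverse, one of them (`i₀`) unperturbed. -/
theorem exists_perturbation {J : EndField E M} (hJ : IsCompatible J) {k : ℕ}
    (T : Fin k → Set M) (hT : ∀ i, IsClosedLagrangian J (T i)) (i₀ : Fin k) {η : ℝ} (hη : 0 < η) :
    ∃ ψ : Fin k → M → M, (∀ i, IsSmallHamiltonian J η (ψ i)) ∧ ψ i₀ = id ∧
      ∀ i j, i ≠ j → Transverse (E := E) (ψ i '' T i) (ψ j '' T j) := by
  have hid : IsSmallHamiltonian J η (id : M → M) := by
    obtain ⟨a, ha⟩ := ((fam_unit (P := ℝ) J).small (η / 3) (by linarith)).exists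
    have := SmallH.isSmall (by linarith) ha
    rwa [show 3 * (η / 3) = η by ring] at this
  have key : ∀ s : Finset (Fin k), ∃ ψ : Fin k → M → M, (∀ i, IsSmallHamiltonian J η (ψ i)) ∧
      (∀ i, ContMDiff 𝓘(ℝ, E) 𝓘(ℝ, E) 1 (ψ i)) ∧ ψ i₀ = id ∧
      ∀ i, (i = i₀ ∨ i ∈ s) → ∀ j, (j = i₀ ∨ j ∈ s) → i ≠ j →
        Transverse (E := E) (ψ i '' T i) (ψ j '' T j) := by
    intro s
    induction s using Finset.induction_on with
    | empty =>
      refine ⟨fun _ => id, fun _ => hid, fun _ => contMDiff_id, rfl, ?_⟩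
      intro i hi j hj hij
      simp at hi hj
      exact absurd (hi.trans hj.symm) hij
    | insert a s _ ih =>
      obtain ⟨ψ, h1, h2, h3, h4⟩ := ih
      by_cases hai : a = i₀
      · refine ⟨ψ, h1, h2, h3, fun i hi j hj hij => h4 i ?_ j ?_ hij⟩
        · rcases hi with hi | hi
          · exact Or.inl hi
          · rcases Finset.mem_insert.mp hi with hi | hi
            · exact Or.inl (hi.trans hai)
            · exact Or.inr hi
        · rcases hj with hj | hj
          · exact Or.inl hj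
          · rcases Finset.mem_insert.mp hj with hj | hj
            · exact Or.inl (hj.trans hai)
            · exact Or.inr hj
      · obtain ⟨g, hg1, hg2, hg3⟩ := perturb_one hJ hη (hT a).slice (hT a).compact T
          (fun i => (hT i).slice) (fun i => (hT i).compact) ψ h2
        refine ⟨Function.update ψ a g, ?_, ?_, ?_, ?_⟩
        · intro i
          by_cases hi : i = a
          · subst hi; rw [Function.update_self]; exact hg1
          · rw [Function.update_of_ne hi]; exact h1 i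
        · intro i
          by_cases hi : i = a
          · subst hi; rw [Function.update_self]; exact hg2
          · rw [Function.update_of_ne hi]; exact h2 i
        · rw [Function.update_of_ne (Ne.symm hai)]; exact h3
        · intro i hi j hj hij
          have hmem : ∀ l, (l = i₀ ∨ l ∈ insert a s) → l ≠ a → (l = i₀ ∨ l ∈ s) := by
            intro l hl hla
            rcases hl with hl | hl
            · exact Or.inl hl
            · rcases Finset.mem_insert.mp hl with hl | hl
              · exact absurd hl hla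
              · exact Or.inr hl
          by_cases hia : i = a
          · have hja : j ≠ a := fun h => hij (hia.trans h.symm)
            rw [hia, Function.update_self, Function.update_of_ne hja]
            exact hg3 j
          · by_cases hja : j = a
            · rw [hja, Function.update_self, Function.update_of_ne hia]
              exact transverse_symm (hg3 i)
            · rw [Function.update_of_ne hia, Function.update_of_ne hja]
              exact h4 i (hmem i hi hia) j (hmem j hj hja) hij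
  obtain ⟨ψ, h1, _, h3, h4⟩ := key Finset.univ
  exact ⟨ψ, h1, h3, fun i j hij => h4 i (Or.inr (Finset.mem_univ i)) j
    (Or.inr (Finset.mem_univ j)) hij⟩

end Pool.Agent.MP_c86656_gt
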