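import Pool.Agent.Lib.MP_c86656_gt.Final
import Pool.Agent.Lib.MP_c86656_gt.Transversality

/-! The main theorem. -/

open Set Filter Topology Manifold MeasureTheory Bundle
open scoped ContDiff ENNReal

namespace Pool.Agent.MP_c86656_gt

noncomputable section

variable {E : Type*} [NormedAddCommGroup E] [NormedSpace ℝ E] [FiniteDimensional ℝ E]
  {M : Type*} [MetricSpace M] [ChartedSpace E M] [IsManifold 𝓘(ℝ, E) ∞ M]
  [RiemannianBundle (fun x : M => TangentSpace 𝓘(ℝ, E) x)]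
  [IsContMDiffRiemannianBundle 𝓘(ℝ, E) ∞ E (fun x : M => TangentSpace 𝓘(ℝ, E) x)]
  [IsRiemannianManifold 𝓘(ℝ, E) M]

theorem hasPerturbations {J : EndField E M} (hJ : IsCompatible J) : HasPerturbations J :=
  fun _ T hT i₀ _ hη => exists_perturbation hJ T hT i₀ hη

/-- Hausdorff convergence of Lagrangians for adapted metrics. -/
theorem hausdorff_convergence (hdim : 0 < Module.finrank ℝ E)
    {J : EndField E M} (hJ : IsCompatible J) {K : ℝ}
    (hK : SectionalCurvatureLE E M K) (Λ : ℝ)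
    {Lstar F F' : Set (Set M)} (hLag : ∀ L ∈ Lstar, IsClosedLagrangian J L)
    (hF : F ⊆ Lstar) (hF' : F' ⊆ Lstar)
    (hdisc : DiscreteTopology ↥(closure (⋃₀ F) ∩ closure (⋃₀ F')))
    {d d' : Set M → Set M → ℝ≥0∞} (hd : IsPseudoDist Lstar d) (hd' : IsPseudoDist Lstar d')
    (had : JAdapted J Lstar F d) (had' : JAdapted J Lstar F' d')
    {L : ℕ → Set M} {L₀ : Set M} (hL : ∀ n, L n ∈ Lstar) (hL₀ : L₀ ∈ Lstar)
    (hΛ : ∀ n, SecondFormLE E Λ (L n)) (hΛ₀ : SecondFormLE E Λ L₀)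
    (hlim : Tendsto (fun n => max (d (L n) L₀) (d' (L n) L₀)) atTop (𝓝 0)) :
    Tendsto (fun n => Metric.hausdorffDist (L n) L₀) atTop (𝓝 0) :=
  main_of_perturbations hdim hJ hK Λ (hasPerturbations hJ) hLag hF hF' hdisc hd hd' had had'
    hL hL₀ hΛ hΛ₀ hlim

end

end Pool.Agent.MP_c86656_gt
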