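import Mathlib

/-! Polar coordinates: lower bound of an area integral by integrals over half circles. -/

open Set Filter Topology MeasureTheory
open scoped ENNReal

namespace Pool.Agent.MP_c86656_gt

noncomputable section

lemma polar_lower (f : ℂ → ℝ≥0∞) (hf : Measurable f) (b : ℂ) {a c : ℝ} (ha : 0 ≤ a) :
    ∫⁻ R in Ioo a c, ∫⁻ θ in Ioo 0 Real.pi,
      ENNReal.ofReal R * f (b + R * (Real.cos θ + Real.sin θ * Complex.I)) ≤ ∫⁻ z, f z := by
  have h1 : ∫⁻ z, f z = ∫⁻ z, f (b + z) := (lintegral_add_left_eq_self f b).symm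
  have hsub : Ioo a c ×ˢ Ioo 0 Real.pi ⊆ Complex.polarCoord.target := by
    rintro ⟨R, θ⟩ ⟨hR, hθ⟩
    rw [Complex.polarCoord_target]
    exact ⟨lt_of_le_of_lt ha hR.1, by have := Real.pi_pos; exact lt_trans (by linarith) hθ.1, hθ.2⟩
  have hmeas : Measurable (fun p : ℝ × ℝ => ENNReal.ofReal p.1 *
      f (b + p.1 * (Real.cos p.2 + Real.sin p.2 * Complex.I))) := by
    refine (ENNReal.measurable_ofReal.comp measurable_fst).mul (hf.comp ?_)
    have : Continuous (fun p : ℝ × ℝ => b + (p.1 : ℂ) * (Real.cos p.2 + Real.sin p.2 * Complex.I)) := by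
      fun_prop
    exact this.measurable
  rw [h1, ← Complex.lintegral_comp_polarCoord_symm (fun z => f (b + z))]
  calc _ = ∫⁻ p in Ioo a c ×ˢ Ioo 0 Real.pi, ENNReal.ofReal p.1 *
        f (b + p.1 * (Real.cos p.2 + Real.sin p.2 * Complex.I)) := by
        rw [Measure.volume_eq_prod, ← Measure.prod_restrict, lintegral_prod _ hmeas.aemeasurable]
    _ = ∫⁻ p in Ioo a c ×ˢ Ioo 0 Real.pi, ENNReal.ofReal p.1 •
        f (b + Complex.polarCoord.symm p) := by
        refine lintegral_congr fun p => ?_
        rw [Complex.polarCoord_symm_apply, smul_eq_mul]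
    _ ≤ _ := lintegral_mono_set hsub

lemma lintegral_inv {a c k : ℝ} (ha : 0 < a) (hac : a ≤ c) (hk : 0 ≤ k) :
    ∫⁻ R in Ioo a c, ENNReal.ofReal (k / R) = ENNReal.ofReal (k * Real.log (c / a)) := by
  have hint : IntervalIntegrable (fun R : ℝ => k / R) volume a c := by
    apply ContinuousOn.intervalIntegrable
    rw [uIcc_of_le hac]
    exact continuousOn_const.div continuousOn_id fun x hx => (lt_of_lt_of_le ha hx.1).ne'
  have h2 : ∫ R in a..c, k / R = k * Real.log (c / a) := by
    simp only [div_eq_mul_inv k]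
    rw [intervalIntegral.integral_const_mul, integral_inv_of_pos ha (ha.trans_le hac)]
  rw [restrict_Ioo_eq_restrict_Ioc, ← h2, intervalIntegral.integral_of_le hac,
    ofReal_integral_eq_lintegral_ofReal]
  · exact hint.1
  · filter_upwards [ae_restrict_mem measurableSet_Ioc] with x hx
    exact div_nonneg hk (ha.le.trans hx.1.le)

lemma lintegral_inv_sub {x₀ t b k : ℝ} (h1 : x₀ ≤ t) (h2 : t < b) (hk : 0 ≤ k) :
    ∫⁻ s in Icc x₀ t, ENNReal.ofReal (k / (b - s)) =
      ENNReal.ofReal (k * Real.log ((b - x₀) / (b - t))) := by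
  have hint : IntervalIntegrable (fun s : ℝ => k / (b - s)) volume x₀ t := by
    apply ContinuousOn.intervalIntegrable
    rw [uIcc_of_le h1]
    exact continuousOn_const.div (continuousOn_const.sub continuousOn_id)
      fun x hx => by
        have := hx.2
        exact (sub_pos.2 (lt_of_le_of_lt this h2)).ne'
  have h3 : ∫ s in x₀..t, k / (b - s) = k * Real.log ((b - x₀) / (b - t)) := by
    have := intervalIntegral.integral_comp_sub_left (fun s : ℝ => k / s) b (a := x₀) (b := t)
    rw [this]
    simp only [div_eq_mul_inv k]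
    rw [intervalIntegral.integral_const_mul, integral_inv_of_pos (by linarith) (by linarith)]
  rw [← restrict_Ioc_eq_restrict_Icc, ← h3, intervalIntegral.integral_of_le h1,
    ofReal_integral_eq_lintegral_ofReal]
  · exact hint.1
  · filter_upwards [ae_restrict_mem measurableSet_Ioc] with x hx
    exact div_nonneg hk (by linarith [hx.2])

end

end Pool.Agent.MP_c86656_gt
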