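import Pool.Agent.Lib.MP_c86656_gt.Transfer

/-! Energy quantization for polygons. -/

open Set Filter Topology Manifold MeasureTheory Bundle
open scoped ContDiff ENNReal

namespace Pool.Agent.MP_c86656_gt

set_option linter.unusedSectionVars false

noncomputable section

lemma exists_arc {N : ℕ} {θ : Fin (N + 1) → ℝ} {α : ℝ} (h0 : θ 0 ≤ α)
    (h1 : α < θ (Fin.last N)) : ∃ i : Fin N, θ i.castSucc ≤ α ∧ α < θ i.succ := by
  classical
  let s : Finset (Fin (N + 1)) := Finset.univ.filter (fun k => θ k ≤ α)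
  have hs : s.Nonempty := ⟨0, by simp [s, h0]⟩
  obtain ⟨k, hk, hmax⟩ := s.exists_max_image id hs
  have hk1 : θ k ≤ α := by simpa [s] using hk
  have hkl : k ≠ Fin.last N := by
    rintro rfl
    linarith
  obtain ⟨i, rfl⟩ := Fin.exists_castSucc_eq.2 hkl
  refine ⟨i, hk1, ?_⟩
  by_contra hcon
  have h2 : i.succ ∈ s := by simp [s]; linarith
  have h3 := hmax _ h2
  simp only [id] at h3
  exact absurd h3 (not_le.2 Fin.castSucc_lt_succ)

lemma exp_eq_exp {α β : ℝ} (h : Complex.exp (α * Complex.I) = Complex.exp (β * Complex.I)) :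
    ∃ n : ℤ, α = β + n * (2 * Real.pi) := by
  rw [Complex.exp_eq_exp_iff_exists_int] at h
  obtain ⟨n, hn⟩ := h
  refine ⟨n, ?_⟩
  have h1 : ((α : ℂ)) * Complex.I = ((β + n * (2 * Real.pi) : ℝ) : ℂ) * Complex.I := by
    rw [hn]; push_cast; ring
  exact_mod_cast mul_right_cancel₀ Complex.I_ne_zero h1

lemma exp_add_two_pi (α : ℝ) : Complex.exp ((α + 2 * Real.pi : ℝ) * Complex.I) =
    Complex.exp (α * Complex.I) := by
  push_cast
  rw [add_mul, Complex.exp_add, Complex.exp_two_pi_mul_I, mul_one]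

section Angles

variable {N : ℕ} {θ : Fin (N + 1) → ℝ}

lemma arc_not_puncture (hmono : StrictMono θ) (hlast : θ (Fin.last N) = θ 0 + 2 * Real.pi)
    (j : Fin N) {α : ℝ} (hα : α ∈ Ioo (θ j.castSucc) (θ j.succ)) :
    Complex.exp (α * Complex.I) ∉ range (fun k => Complex.exp (θ k * Complex.I)) := by
  rintro ⟨k, hk⟩
  obtain ⟨n, hn⟩ := exp_eq_exp hk
  have h1 : θ 0 ≤ θ k := hmono.monotone (Fin.zero_le k)
  have h2 : θ k ≤ θ 0 + 2 * Real.pi := hlast ▸ hmono.monotone (Fin.le_last k)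
  have h3 : θ 0 ≤ θ j.castSucc := hmono.monotone (Fin.zero_le _)
  have h4 : θ j.succ ≤ θ 0 + 2 * Real.pi := hlast ▸ hmono.monotone (Fin.le_last _)
  have hpi := Real.pi_pos
  have h5 : (n : ℝ) < 1 := by
    by_contra hcon
    push Not at hcon
    have : 1 * (2 * Real.pi) ≤ n * (2 * Real.pi) := by gcongr
    linarith [hα.1, hα.2]
  have h6 : (-1 : ℝ) < n := by
    by_contra hcon
    push Not at hcon
    have : n * (2 * Real.pi) ≤ (-1) * (2 * Real.pi) := by gcongr
    linarith [hα.1, hα.2]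
  have h7 : n = 0 := by
    have h8 : n < 1 := by exact_mod_cast h5
    have h9 : -1 < n := by exact_mod_cast h6
    omega
  rw [h7] at hn
  simp only [Int.cast_zero, zero_mul, add_zero] at hn
  rw [← hn] at hα
  have h8 : j.castSucc < k := hmono.lt_iff_lt.1 hα.1
  have h9 : k < j.succ := hmono.lt_iff_lt.1 hα.2
  rw [Fin.lt_def] at h8 h9
  simp at h8 h9
  omega

lemma other_arc (hmono : StrictMono θ) (hlast : θ (Fin.last N) = θ 0 + 2 * Real.pi)
    (j : Fin N) {α : ℝ} (hα : α ∈ Ioo (θ j.succ) (θ j.castSucc + 2 * Real.pi))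
    (hp : Complex.exp (α * Complex.I) ∉ range (fun k => Complex.exp (θ k * Complex.I))) :
    ∃ i, i ≠ j ∧ ∃ β ∈ Ioo (θ i.castSucc) (θ i.succ),
      Complex.exp (α * Complex.I) = Complex.exp (β * Complex.I) := by
  rcases lt_or_ge α (θ (Fin.last N)) with hlt | hge
  · obtain ⟨i, hi1, hi2⟩ := exists_arc ((hmono.monotone (Fin.zero_le _)).trans hα.1.le) hlt
    refine ⟨i, ?_, α, ⟨lt_of_le_of_ne hi1 fun h => hp ⟨i.castSucc, by simp only [h]⟩, hi2⟩, rfl⟩
    rintro rfl
    exact absurd hi2 (not_lt.2 hα.1.le)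
  · have h1 : θ 0 ≤ α - 2 * Real.pi := by linarith
    have h2 : α - 2 * Real.pi < θ j.castSucc := by linarith [hα.2]
    obtain ⟨i, hi1, hi2⟩ := exists_arc h1 (h2.trans_le (hmono.monotone (Fin.le_last _)))
    have h3 : Complex.exp (α * Complex.I) =
        Complex.exp ((α - 2 * Real.pi : ℝ) * Complex.I) := by
      rw [← exp_add_two_pi (α - 2 * Real.pi), sub_add_cancel]
    refine ⟨i, ?_, α - 2 * Real.pi, ⟨lt_of_le_of_ne hi1 fun h => hp ⟨i.castSucc, ?_⟩, hi2⟩, h3⟩
    · rintro rfl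
      linarith
    · rw [h3]; simp only [h]

lemma arc_lt (hmono : StrictMono θ) (hlast : θ (Fin.last N) = θ 0 + 2 * Real.pi)
    (j : Fin N) (hN : N ≠ 1) : θ j.succ < θ j.castSucc + 2 * Real.pi := by
  have hj := j.isLt
  have h3 : θ 0 ≤ θ j.castSucc := hmono.monotone (Fin.zero_le _)
  have h4 : θ j.succ ≤ θ 0 + 2 * Real.pi := hlast ▸ hmono.monotone (Fin.le_last _)
  rcases Nat.eq_zero_or_pos j.val with h0 | h0
  · have h5 : j.succ < Fin.last N := by
      rw [Fin.lt_def]; simp; omega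
    have h6 := hmono h5
    linarith
  · have h5 : (0 : Fin (N + 1)) < j.castSucc := by
      rw [Fin.lt_def]; simp; omega
    have h6 := hmono h5
    linarith

end Angles

lemma finRotate_ne {N : ℕ} (hN : N ≠ 1) (j : Fin N) : finRotate N j ≠ j := by
  obtain _ | _ | n := N
  · exact j.elim0
  · exact absurd rfl hN
  · intro h
    rw [finRotate_apply] at h
    have h1 := congrArg Fin.val h
    rw [Fin.val_add] at h1
    have h2 := j.isLt
    simp at h1
    by_cases h3 : j.val + 1 = n + 2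
    · rw [h3, Nat.mod_self] at h1; omega
    · rw [Nat.mod_eq_of_lt (by omega)] at h1; omega

variable {E : Type*} [NormedAddCommGroup E] [NormedSpace ℝ E] [FiniteDimensional ℝ E]
  {M : Type*} [MetricSpace M] [ChartedSpace E M] [IsManifold 𝓘(ℝ, E) ∞ M]
  [RiemannianBundle (fun x : M => TangentSpace 𝓘(ℝ, E) x)]
  [IsContMDiffRiemannianBundle 𝓘(ℝ, E) ∞ E (fun x : M => TangentSpace 𝓘(ℝ, E) x)]
  [IsRiemannianManifold 𝓘(ℝ, E) M]

/-- A curve on the closed half plane with boundary on one Lagrangian and small energy is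
constant. -/
lemma HolCurve.constant {J : EndField E M} (hJ : IsCompatible J) {K : ℝ}
    (hK : SectionalCurvatureLE E M K) {L : Set M}
    (hL : IsClosedLagrangian J L) {Λ : ℝ} (hΛ : SecondFormLE E Λ L) {ε C : ℝ} (hC : 0 < C)
    (hsc : ScalarBound K Λ ε C) {v : ℂ → M} (h : HolCurve J Hc v)
    (hint : IntegrableOn (dens E Hc v) Ho) (hE : ∫ z in Ho, dens E Hc v z ≤ ε)
    (hb : ∀ x : ℂ, x.im = 0 → v x ∈ L) {z w : ℂ} (hz : z ∈ Hc) (hw : w ∈ Hc) : v z = v w := by
  have hzero : ∀ x ∈ Hc, dens E Hc v x = 0 := by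
    intro x hx
    refine le_antisymm ?_ (dens_nonneg _ _ _)
    have h1 : ∀ ρ : ℝ, 0 < ρ → dens E Hc v x ≤ C / ρ ^ 2 * ∫ z in Ho, dens E Hc v z :=
      fun ρ hρ => h.grad hJ hK hL hΛ hC hsc subset_rfl hint hE hx hρ inter_subset_right
        (fun y _ hy => hb y hy)
    have h2 : Tendsto (fun ρ : ℝ => C / ρ ^ 2 * ∫ z in Ho, dens E Hc v z) atTop
        (𝓝 (0 * ∫ z in Ho, dens E Hc v z)) := by
      refine Tendsto.mul_const _ ?_
      exact tendsto_const_nhds.div_atTop (tendsto_pow_atTop two_ne_zero)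
    rw [zero_mul] at h2
    exact ge_of_tendsto h2 ((eventually_gt_atTop 0).mono h1)
  have hγ : ContDiff ℝ 1 (fun t : ℝ => z + (t : ℂ) * (w - z)) :=
    contDiff_const.add (Complex.ofRealCLM.contDiff.mul contDiff_const)
  have hm : ∀ t ∈ Icc (0 : ℝ) 1, z + (t : ℂ) * (w - z) ∈ Hc := by
    intro t ht
    have h1 : 0 ≤ z.im := hz
    have h2 : 0 ≤ w.im := hw
    show 0 ≤ (z + (t : ℂ) * (w - z)).im
    simp only [Complex.add_im, Complex.mul_im, Complex.ofReal_re, Complex.ofReal_im,
      Complex.sub_im, zero_mul, add_zero]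
    nlinarith [ht.1, ht.2, mul_nonneg (sub_nonneg.2 ht.2) h1, mul_nonneg ht.1 h2]
  have h1 := h.edist_le hJ hγ zero_le_one hm
  have h2 : ∫⁻ t in Icc (0 : ℝ) 1, ENNReal.ofReal (‖deriv (fun t : ℝ => z + (t : ℂ) * (w - z)) t‖ *
      √(dens E Hc v (z + (t : ℂ) * (w - z)))) = 0 := by
    rw [setLIntegral_congr_fun (g := fun _ => 0) measurableSet_Icc]
    · simp
    · intro t ht
      simp only
      rw [hzero _ (hm t ht)]
      simp
  rw [h2] at h1
  have h3 := edist_eq_zero.1 (le_antisymm h1 zero_le)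
  simpa using h3

/-- Energy quantization (given the scalar gradient bound). -/
theorem energy_quantization_aux {J : EndField E M} (hJ : IsCompatible J) {K : ℝ}
    (hK : SectionalCurvatureLE E M K) (Λ : ℝ)
    (hscal : ∃ ε : ℝ, 0 < ε ∧ ∃ C : ℝ, 0 < C ∧ ScalarBound K Λ ε C) {r : ℝ} (hr : 0 < r) :
    ∃ ε : ℝ, 0 < ε ∧ ∀ L : Set M, IsClosedLagrangian J L → SecondFormLE E Λ L →
      ∀ (N : ℕ) (Q : Fin N → Set M) (θ : Fin (N + 1) → ℝ) (u : ℂ → M), IsPolygon J Q θ u →
        (∃ z ∈ puncturedDisc θ, ∃ w ∈ puncturedDisc θ, u z ≠ u w) →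
        ∀ j : Fin N, Q j = L → ∀ t ∈ Ioo (θ j.castSucc) (θ j.succ),
          (∀ i, i ≠ j → ∀ q ∈ Q i, r ≤ dist (u (Complex.exp (t * Complex.I))) q) →
            ε ≤ energy J θ u := by
  obtain ⟨ε₀, hε₀, C, hC, hsc⟩ := hscal
  have hpi := Real.pi_pos
  refine ⟨min (min ε₀ 1) (r ^ 6 / (64 * Real.pi ^ 2 * C)), by positivity, ?_⟩
  intro L hL hΛ N Q θ u hu hne j hQ t ht hfar
  by_contra hlt
  push Not at hlt
  have hE1 : energy J θ u ≤ ε₀ := hlt.le.trans ((min_le_left _ _).trans (min_le_left _ _))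
  have hE2 : energy J θ u ≤ 1 := hlt.le.trans ((min_le_left _ _).trans (min_le_right _ _))
  have hE3 : energy J θ u < r ^ 6 / (64 * Real.pi ^ 2 * C) := hlt.trans_le (min_le_right _ _)
  set ζ := Complex.exp (θ j.castSucc * Complex.I) with hζdef
  have hζ : ‖ζ‖ = 1 := Complex.norm_exp_ofReal_mul_I _
  have hζ0 : ζ ≠ 0 := Complex.exp_ne_zero _
  set P : Set ℂ := {z : ℂ | z.im = 0 ∧ cay ζ z ∈
      range (fun j => Complex.exp (θ j * Complex.I))} with hP
  obtain ⟨hfin, hmap, hcurve, hint, hen⟩ := hu.transfer (E := E) hJ j.castSucc hP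
  rw [← hζdef] at hmap hcurve hint hen
  set v := u ∘ cay ζ with hv
  have hE0 : 0 ≤ energy J θ u := by
    rw [← hen]
    exact HalfPlane.energy_nonneg _ _
  -- real points
  have hA : ∀ x : ℝ, cay ζ x =
      Complex.exp (((θ j.castSucc + Real.pi + 2 * Real.arctan x : ℝ) : ℂ) * Complex.I) :=
    fun x => cay_real (θ j.castSucc) x
  by_cases hN : N = 1
  · -- constant case
    subst hN
    have hj : j = 0 := Subsingleton.elim _ _
    subst hj
    have hlast : θ (Fin.succ 0) = θ 0 + 2 * Real.pi := hu.last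
    have harc : ∀ x : ℝ, θ 0 + Real.pi + 2 * Real.arctan x ∈ Ioo (θ (Fin.castSucc 0))
        (θ (Fin.succ 0)) := by
      intro x
      have h1 := Real.neg_pi_div_two_lt_arctan x
      have h2 := Real.arctan_lt_pi_div_two x
      rw [hlast]
      simp only [Fin.castSucc_zero]
      constructor <;> linarith
    have hPe : P = ∅ := by
      rw [eq_empty_iff_forall_notMem]
      rintro z ⟨hz1, hz2⟩
      have hz3 : z = (z.re : ℂ) := by apply Complex.ext <;> simp [hz1]
      rw [hz3, hA] at hz2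
      exact arc_not_puncture hu.mono hu.last 0 (harc z.re) hz2
    rw [hPe, sdiff_empty] at hmap hcurve hint hen
    have hconst : ∀ z ∈ Hc, ∀ w ∈ Hc, v z = v w := fun z hz w hw =>
      hcurve.constant hJ hK hL hΛ hC hsc hint (hen.trans_le hE1) (fun x hx => by
        have hx3 : x = (x.re : ℂ) := by apply Complex.ext <;> simp [hx]
        rw [hx3, hv]
        show u (cay ζ x.re) ∈ L
        rw [hA, ← hQ]
        exact hu.arcs 0 _ (harc x.re)) hz hw
    obtain ⟨z, hz, w, hw, hzw⟩ := hne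
    have hback : ∀ z ∈ puncturedDisc θ, cayInv ζ z ∈ Hc ∧ v (cayInv ζ z) = u z := by
      intro z hz
      have h1 : z ≠ ζ := by
        rintro rfl
        exact hz.2 ⟨0, rfl⟩
      refine ⟨cayInv_mem_Hc hζ h1 hz.1, ?_⟩
      rw [hv]
      show u (cay ζ (cayInv ζ z)) = u z
      rw [cay_cayInv hζ0 h1]
    apply hzw
    rw [← (hback z hz).2, ← (hback w hw).2]
    exact hconst _ (hback z hz).1 _ (hback w hw).1
  · -- the general case
    set β := (θ j.succ - θ j.castSucc - Real.pi) / 2 with hβ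
    have hjj : θ j.castSucc < θ j.succ := hu.mono Fin.castSucc_lt_succ
    have hjj2 := arc_lt hu.mono hu.last j hN
    have hβ1 : -(Real.pi / 2) < β := by rw [hβ]; linarith
    have hβ2 : β < Real.pi / 2 := by rw [hβ]; linarith
    set b := Real.tan β with hb
    have hab : Real.arctan b = β := Real.arctan_tan hβ1 hβ2
    have hlt_iff : ∀ x : ℝ, x < b ↔ θ j.castSucc + Real.pi + 2 * Real.arctan x < θ j.succ := by
      intro x
      rw [← Real.arctan_strictMono.lt_iff_lt, hab, hβ]
      constructor <;> intro h <;> linarith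
    have hgt_iff : ∀ x : ℝ, b < x ↔ θ j.succ < θ j.castSucc + Real.pi + 2 * Real.arctan x := by
      intro x
      rw [← Real.arctan_strictMono.lt_iff_lt, hab, hβ]
      constructor <;> intro h <;> linarith
    have hrange : ∀ x : ℝ, θ j.castSucc < θ j.castSucc + Real.pi + 2 * Real.arctan x ∧
        θ j.castSucc + Real.pi + 2 * Real.arctan x < θ j.castSucc + 2 * Real.pi := by
      intro x
      have h1 := Real.neg_pi_div_two_lt_arctan x
      have h2 := Real.arctan_lt_pi_div_two x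
      constructor <;> linarith
    -- the point
    set x₀ := Real.tan ((t - θ j.castSucc - Real.pi) / 2) with hx₀
    have hax₀ : Real.arctan x₀ = (t - θ j.castSucc - Real.pi) / 2 :=
      Real.arctan_tan (by linarith [ht.1]) (by linarith [ht.2])
    have hx₀b : x₀ < b := by
      rw [hlt_iff, hax₀]
      linarith [ht.2]
    have hvx₀ : v x₀ = u (Complex.exp (t * Complex.I)) := by
      rw [hv]
      show u (cay ζ x₀) = _
      rw [hA, hax₀]
      congr 4
      ring_nf
    have hHP : HalfPlane J K Λ ε₀ C L (Hc \ P) P v b := by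
      refine ⟨hJ, hK, hL, hΛ, hC, hsc, hfin, fun p hp => hp.1, rfl, hcurve, hint,
        hen.trans_le hE1, fun s hs => ?_⟩
      have h1 := (hlt_iff s).1 hs
      have h2 : θ j.castSucc + Real.pi + 2 * Real.arctan s ∈ Ioo (θ j.castSucc) (θ j.succ) :=
        ⟨(hrange s).1, h1⟩
      constructor
      · rintro ⟨-, h3⟩
        rw [hA] at h3
        exact arc_not_puncture hu.mono hu.last j h2 h3
      · rw [hv]
        show u (cay ζ s) ∈ L
        rw [hA, ← hQ]
        exact hu.arcs j _ h2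
    obtain ⟨q, hq, hqt⟩ := hu.corners j
    have hcorner : Tendsto v (𝓝[Hc \ P] (b : ℂ)) (𝓝 q) := by
      refine hqt.comp ?_
      rw [tendsto_nhdsWithin_iff]
      constructor
      · have h1 : cay ζ b = Complex.exp (θ j.succ * Complex.I) := by
          rw [hA, hab, hβ]
          congr 3
          ring
        rw [← h1]
        exact (hasDerivAt_cay ζ (by simp [Hc])).continuousAt.mono_left nhdsWithin_le_nhds
      · exact eventually_nhdsWithin_of_forall fun z hz => hmap z hz
    have hbound := hHP.energy_bound (r := r) hx₀b hr (fun s hs hsP => by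
        rw [hvx₀]
        have h1 := (hgt_iff s).1 hs
        have h2 : Complex.exp (((θ j.castSucc + Real.pi + 2 * Real.arctan s : ℝ) : ℂ) *
            Complex.I) ∉ range (fun k => Complex.exp (θ k * Complex.I)) := by
          rw [← hA]
          intro h3
          exact hsP ⟨by simp, h3⟩
        obtain ⟨i, hij, α, hα, hexp⟩ := other_arc hu.mono hu.last j ⟨h1, (hrange s).2⟩ h2
        have h4 : v s = u (Complex.exp (α * Complex.I)) := by
          rw [hv]
          show u (cay ζ s) = _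
          rw [hA, hexp]
        rw [h4]
        exact hfar i hij _ (hu.arcs i α hα)) hcorner
      (by rw [hvx₀]; exact hfar _ (finRotate_ne hN j) q hq.2)
    rw [hen] at hbound
    have h1 : energy J θ u ^ 3 ≤ energy J θ u := by
      have : energy J θ u ^ 2 ≤ 1 := by nlinarith
      nlinarith
    have h2 : 64 * Real.pi ^ 2 * C * energy J θ u ^ 3 ≤ 64 * Real.pi ^ 2 * C * energy J θ u := by
      gcongr
    have h3 : 64 * Real.pi ^ 2 * C * energy J θ u < r ^ 6 := by
      rw [lt_div_iff₀ (by positivity)] at hE3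
      linarith
    linarith

end

end Pool.Agent.MP_c86656_gt
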