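import Pool.Agent.Lib.MP_c86656_gt.Defs

/-! Coordinate facts: transition maps, the form `omegaIn`. -/

open Set Filter Topology Manifold Bundle
open scoped ContDiff

namespace Pool.Agent.MP_c86656_gt.Tr

set_option linter.unusedSectionVars false

variable {E : Type*} [NormedAddCommGroup E] [NormedSpace ℝ E] [FiniteDimensional ℝ E]
  {M : Type*} [MetricSpace M] [ChartedSpace E M] [IsManifold 𝓘(ℝ, E) ∞ M]

section Transition

theorem contMDiffAt_chart {φ : OpenPartialHomeomorph M E} (hφ : φ ∈ charts E M) {p : M}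
    (hp : p ∈ φ.source) : ContMDiffAt 𝓘(ℝ, E) 𝓘(ℝ, E) ∞ φ p :=
  contMDiffAt_of_mem_maximalAtlas hφ hp

theorem contMDiffAt_symm {φ : OpenPartialHomeomorph M E} (hφ : φ ∈ charts E M) {y : E}
    (hy : y ∈ φ.target) : ContMDiffAt 𝓘(ℝ, E) 𝓘(ℝ, E) ∞ φ.symm y :=
  (contMDiffOn_symm_of_mem_maximalAtlas hφ).contMDiffAt (φ.open_target.mem_nhds hy)

/-- The transition map is smooth. -/
theorem contDiffAt_trans {φ φ' : OpenPartialHomeomorph M E} (hφ : φ ∈ charts E M)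
    (hφ' : φ' ∈ charts E M) {y : E} (hy : y ∈ φ.target) (hy' : φ.symm y ∈ φ'.source) :
    ContDiffAt ℝ ∞ (fun z => φ' (φ.symm z)) y := by
  rw [← contMDiffAt_iff_contDiffAt]
  exact (contMDiffAt_chart hφ' hy').comp y (contMDiffAt_symm hφ hy)

theorem hasFDerivAt_trans {φ φ' : OpenPartialHomeomorph M E} (hφ : φ ∈ charts E M)
    (hφ' : φ' ∈ charts E M) {p : M} (hp : p ∈ φ.source) (hp' : p ∈ φ'.source) :
    HasFDerivAt (fun z => φ' (φ.symm z)) (fderiv ℝ (fun z => φ' (φ.symm z)) (φ p)) (φ p) :=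
  ((contDiffAt_trans hφ hφ' (φ.map_source hp)
    (by rw [φ.left_inv hp]; exact hp')).differentiableAt (by simp)).hasFDerivAt

/-- Transition derivatives are inverse to each other. -/
theorem fderiv_trans_comp {φ φ' : OpenPartialHomeomorph M E} (hφ : φ ∈ charts E M)
    (hφ' : φ' ∈ charts E M) {p : M} (hp : p ∈ φ.source) (hp' : p ∈ φ'.source) (v : E) :
    fderiv ℝ (fun z => φ (φ'.symm z)) (φ' p) (fderiv ℝ (fun z => φ' (φ.symm z)) (φ p) v) = v := by
  have h1 := hasFDerivAt_trans hφ hφ' hp hp'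
  have h2 := hasFDerivAt_trans hφ' hφ hp' hp
  have h3 : φ' (φ.symm (φ p)) = φ' p := by rw [φ.left_inv hp]
  have h4 : HasFDerivAt (fun z => φ (φ'.symm (φ' (φ.symm z))))
      ((fderiv ℝ (fun z => φ (φ'.symm z)) (φ' p)).comp
        (fderiv ℝ (fun z => φ' (φ.symm z)) (φ p))) (φ p) := by
    refine HasFDerivAt.comp (g := fun z => φ (φ'.symm z)) (φ p) ?_ h1
    rw [h3]; exact h2
  have h5 : (fun z => φ (φ'.symm (φ' (φ.symm z)))) =ᶠ[𝓝 (φ p)] id := by
    have hc : ContinuousAt φ.symm (φ p) := φ.continuousAt_symm (φ.map_source hp)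
    have hs : ∀ᶠ z in 𝓝 (φ p), φ.symm z ∈ φ'.source := by
      refine hc.eventually ?_
      rw [φ.left_inv hp]
      exact φ'.open_source.mem_nhds hp'
    filter_upwards [hs, φ.open_target.mem_nhds (φ.map_source hp)] with z hz hz'
    rw [φ'.left_inv hz, φ.right_inv hz']; rfl
  have h6 := h4.unique ((hasFDerivAt_id (𝕜 := ℝ) (φ p)).congr_of_eventuallyEq h5)
  have := congrArg (fun A => A v) h6
  simpa using this

theorem tangentIn_trans {φ φ' : OpenPartialHomeomorph M E} (hφ : φ ∈ charts E M)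
    (hφ' : φ' ∈ charts E M) {p : M} (hp : p ∈ φ.source) (hp' : p ∈ φ'.source) {L : Set M} {v : E}
    (hv : v ∈ tangentIn φ L (φ p)) :
    fderiv ℝ (fun z => φ' (φ.symm z)) (φ p) v ∈ tangentIn φ' L (φ' p) := by
  obtain ⟨c, hc0, hcd, hce⟩ := hv
  refine ⟨fun t => φ' (φ.symm (c t)), by simp only [hc0, φ.left_inv hp], ?_, ?_⟩
  · have h1 := hasFDerivAt_trans hφ hφ' hp hp'
    rw [← hc0] at h1 ⊢
    exact h1.comp_hasDerivAt (0 : ℝ) hcd
  · have h1 : ContinuousAt (fun t => φ.symm (c t)) 0 := by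
      refine ContinuousAt.comp (g := φ.symm) ?_ hcd.continuousAt
      rw [hc0]; exact φ.continuousAt_symm (φ.map_source hp)
    have h2 : ∀ᶠ t in 𝓝 (0 : ℝ), φ.symm (c t) ∈ φ'.source := by
      refine h1.eventually ?_
      simp only [hc0, φ.left_inv hp]
      exact φ'.open_source.mem_nhds hp'
    filter_upwards [h2, hce] with t ht ht'
    refine ⟨φ'.map_source ht, ?_⟩
    rw [φ'.left_inv ht]
    exact ht'.2

end Transition

variable [RiemannianBundle (fun x : M => TangentSpace 𝓘(ℝ, E) x)]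

section Omega

theorem omegaIn_apply (J : EndField E M) (φ : OpenPartialHomeomorph M E) (y a b : E) :
    omegaIn J φ y a b = inner ℝ (J (φ.symm y) (frame φ y a)) (frame φ y b) := rfl

/-- The frame at `p`, with values in `T_p M`. -/
noncomputable def frameAt (φ : OpenPartialHomeomorph M E) (p : M) (a : E) :
    TangentSpace 𝓘(ℝ, E) p :=
  (mfderiv 𝓘(ℝ, E) 𝓘(ℝ, E) φ.symm (φ p) a : E)

theorem omegaIn_eq (J : EndField E M) (φ : OpenPartialHomeomorph M E) {p : M}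
    (hp : p ∈ φ.source) (a b : E) :
    omegaIn J φ (φ p) a b = inner ℝ (J p (frameAt φ p a)) (frameAt φ p b) := by
  rw [omegaIn_apply]
  have key : ∀ (q : M) (_ : q = p) (u v : E),
      inner ℝ (J q (u : TangentSpace 𝓘(ℝ, E) q)) (v : TangentSpace 𝓘(ℝ, E) q)
        = inner ℝ (J p (u : TangentSpace 𝓘(ℝ, E) p)) (v : TangentSpace 𝓘(ℝ, E) p) := by
    rintro q rfl u v; rfl
  exact key _ (φ.left_inv hp) _ _

/-- The derivative of `φ.symm` at `φ p`, as a map `E → E`. -/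
noncomputable def dsymm (φ : OpenPartialHomeomorph M E) (p : M) : E →L[ℝ] E :=
  mfderiv 𝓘(ℝ, E) 𝓘(ℝ, E) φ.symm (φ p)

theorem hasMFDerivAt_symm {φ : OpenPartialHomeomorph M E} (hφ : φ ∈ charts E M) {p : M}
    (hp : p ∈ φ.source) : HasMFDerivAt 𝓘(ℝ, E) 𝓘(ℝ, E) φ.symm (φ p)
      (dsymm φ p : E →L[ℝ] E) :=
  ((contMDiffAt_symm hφ (φ.map_source hp)).mdifferentiableAt (by simp)).hasMFDerivAt

/-- Change of charts for the frame. -/
theorem dsymm_trans {φ φ' : OpenPartialHomeomorph M E} (hφ : φ ∈ charts E M)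
    (hφ' : φ' ∈ charts E M) {p : M} (hp : p ∈ φ.source) (hp' : p ∈ φ'.source) (v : E) :
    dsymm φ' p (fderiv ℝ (fun z => φ' (φ.symm z)) (φ p) v) = dsymm φ p v := by
  have h1 := hasMFDerivAt_symm hφ' hp'
  have h2 : HasMFDerivAt 𝓘(ℝ, E) 𝓘(ℝ, E) (fun z => φ' (φ.symm z)) (φ p)
      (fderiv ℝ (fun z => φ' (φ.symm z)) (φ p) : E →L[ℝ] E) := (hasFDerivAt_trans hφ hφ' hp hp').hasMFDerivAt
  have h3 : (fun z => φ' (φ.symm z)) (φ p) = φ' p := by simp only [φ.left_inv hp]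
  have h1' : HasMFDerivAt 𝓘(ℝ, E) 𝓘(ℝ, E) φ'.symm ((fun z => φ' (φ.symm z)) (φ p))
      (dsymm φ' p : E →L[ℝ] E) := by rw [h3]; exact h1
  have h4 := h1'.comp (φ p) h2
  have h5 : φ.symm =ᶠ[𝓝 (φ p)] (φ'.symm ∘ fun z => φ' (φ.symm z)) := by
    have hc : ContinuousAt φ.symm (φ p) := φ.continuousAt_symm (φ.map_source hp)
    have hs : ∀ᶠ z in 𝓝 (φ p), φ.symm z ∈ φ'.source := by
      refine hc.eventually ?_
      rw [φ.left_inv hp]
      exact φ'.open_source.mem_nhds hp'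
    filter_upwards [hs] with z hz
    simp only [Function.comp, φ'.left_inv hz]
  have h6 := h4.congr_of_eventuallyEq h5
  have h7 := hasMFDerivAt_unique (hasMFDerivAt_symm hφ hp) h6
  exact (congrArg (fun A : E →L[ℝ] E => A v) h7).symm

theorem frameAt_trans {φ φ' : OpenPartialHomeomorph M E} (hφ : φ ∈ charts E M)
    (hφ' : φ' ∈ charts E M) {p : M} (hp : p ∈ φ.source) (hp' : p ∈ φ'.source) (v : E) :
    frameAt φ' p (fderiv ℝ (fun z => φ' (φ.symm z)) (φ p) v) = frameAt φ p v :=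
  dsymm_trans hφ hφ' hp hp' v

/-- Tensoriality of `omegaIn`. -/
theorem omegaIn_trans (J : EndField E M) {φ φ' : OpenPartialHomeomorph M E}
    (hφ : φ ∈ charts E M) (hφ' : φ' ∈ charts E M) {p : M} (hp : p ∈ φ.source)
    (hp' : p ∈ φ'.source) (a b : E) :
    omegaIn J φ' (φ' p) (fderiv ℝ (fun z => φ' (φ.symm z)) (φ p) a)
      (fderiv ℝ (fun z => φ' (φ.symm z)) (φ p) b) = omegaIn J φ (φ p) a b := by
  rw [omegaIn_eq J φ' hp', omegaIn_eq J φ hp, frameAt_trans hφ hφ' hp hp',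
    frameAt_trans hφ hφ' hp hp']

theorem frameAt_bijective {φ : OpenPartialHomeomorph M E} (hφ : φ ∈ charts E M) {p : M}
    (hp : p ∈ φ.source) : Function.Bijective (dsymm φ p) := by
  have h1 := hasMFDerivAt_symm hφ hp
  have h2 : HasMFDerivAt 𝓘(ℝ, E) 𝓘(ℝ, E) φ p (mfderiv 𝓘(ℝ, E) 𝓘(ℝ, E) φ p) :=
    ((contMDiffAt_chart hφ hp).mdifferentiableAt (by simp)).hasMFDerivAt
  let D : E →L[ℝ] E := mfderiv 𝓘(ℝ, E) 𝓘(ℝ, E) φ p
  have h2' : HasMFDerivAt 𝓘(ℝ, E) 𝓘(ℝ, E) φ (φ.symm (φ p)) D := by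
    rw [φ.left_inv hp]; exact h2
  have h3 := h2'.comp (φ p) h1
  have h4 : (φ ∘ φ.symm) =ᶠ[𝓝 (φ p)] id := by
    filter_upwards [φ.open_target.mem_nhds (φ.map_source hp)] with z hz
    exact φ.right_inv hz
  have h5 := hasMFDerivAt_unique h3 ((hasMFDerivAt_id (φ p)).congr_of_eventuallyEq h4)
  have h6 : ∀ v, D (dsymm φ p v) = v := fun v => congrArg (fun A : E →L[ℝ] E => A v) h5
  have hinj : Function.Injective (dsymm φ p) := fun a b hab => by rw [← h6 a, hab, h6 b]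
  exact ⟨hinj, (LinearMap.injective_iff_surjective (f := (dsymm φ p : E →ₗ[ℝ] E))).mp hinj⟩

/-- Nondegeneracy. -/
theorem omegaIn_nondeg {J : EndField E M} (hsq : ∀ x v, J x (J x v) = -v)
    {φ : OpenPartialHomeomorph M E} (hφ : φ ∈ charts E M) {p : M}
    (hp : p ∈ φ.source) {a : E} (ha : ∀ b, omegaIn J φ (φ p) a b = 0) : a = 0 := by
  obtain ⟨b, hb⟩ := (frameAt_bijective hφ hp).2 (J p (frameAt φ p a))
  have h1 := ha b
  rw [omegaIn_eq J φ hp] at h1
  have h2 : frameAt φ p b = J p (frameAt φ p a) := hb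
  rw [h2, inner_self_eq_zero] at h1
  have h3 := hsq p (frameAt φ p a)
  rw [h1, map_zero] at h3
  have h4 : frameAt φ p a = 0 := by
    rw [← neg_eq_zero]; exact h3.symm
  have h5 : dsymm φ p a = dsymm φ p 0 := by rw [map_zero]; exact h4
  exact (frameAt_bijective hφ hp).1 h5

/-- `omegaIn` as an isomorphism. -/
theorem omegaIn_equiv {J : EndField E M} (hsq : ∀ x v, J x (J x v) = -v)
    {φ : OpenPartialHomeomorph M E} (hφ : φ ∈ charts E M) {y : E}
    (hy : y ∈ φ.target) : ∃ e : E ≃L[ℝ] (E →L[ℝ] ℝ), (e : E →L[ℝ] (E →L[ℝ] ℝ)) = omegaIn J φ y := by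
  have hinj : Function.Injective (omegaIn J φ y : E →ₗ[ℝ] (E →L[ℝ] ℝ)) := by
    rw [← LinearMap.ker_eq_bot, LinearMap.ker_eq_bot']
    intro a ha
    have h1 := omegaIn_nondeg hsq hφ (φ.map_target hy) (a := a) (fun b => by
      rw [φ.right_inv hy]
      exact congrArg (fun A : E →L[ℝ] ℝ => A b) ha)
    exact h1
  have hfin : Module.finrank ℝ E = Module.finrank ℝ (E →L[ℝ] ℝ) := by
    have h1 : Module.finrank ℝ (E →L[ℝ] ℝ) = Module.finrank ℝ (E →ₗ[ℝ] ℝ) :=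
      (LinearMap.toContinuousLinearMap (𝕜 := ℝ) (E := E) (F' := ℝ)).symm.finrank_eq
    rw [h1]
    exact (Subspace.dual_finrank_eq).symm
  refine ⟨(LinearEquiv.ofInjectiveOfFinrankEq _ hinj hfin).toContinuousLinearEquiv, ?_⟩
  ext a b
  rfl

end Omega

end Pool.Agent.MP_c86656_gt.Tr
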