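import Pool.Agent.Lib.MP_c86656_gt.TrParam
import Pool.Agent.Lib.MP_c86656_gt.TrChart

/-! Hamiltonian flows supported in one chart, with parameters in the dual space. -/

open Set Filter Topology Manifold Bundle
open scoped ContDiff NNReal

namespace Pool.Agent.MP_c86656_gt.Tr

set_option linter.unusedSectionVars false

variable {E : Type*} [NormedAddCommGroup E] [NormedSpace ℝ E] [FiniteDimensional ℝ E]
  {M : Type*} [MetricSpace M] [ChartedSpace E M] [IsManifold 𝓘(ℝ, E) ∞ M]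
  [RiemannianBundle (fun x : M => TangentSpace 𝓘(ℝ, E) x)]

/-- The differential of `y ↦ χ y * α y`, as a linear function of `α`. -/
noncomputable def dh (χ : E → ℝ) (y : E) : (E →L[ℝ] ℝ) →L[ℝ] (E →L[ℝ] ℝ) :=
  ((ContinuousLinearMap.id ℝ (E →L[ℝ] ℝ)).flip y).smulRight (fderiv ℝ χ y)
    + χ y • ContinuousLinearMap.id ℝ (E →L[ℝ] ℝ)

theorem dh_apply (χ : E → ℝ) (y : E) (α : E →L[ℝ] ℝ) :
    dh χ y α = α y • fderiv ℝ χ y + χ y • α := by
  simp [dh]

theorem hasFDerivAt_h {χ : E → ℝ} (hχ : ContDiff ℝ ∞ χ) (α : E →L[ℝ] ℝ) (y : E) :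
    HasFDerivAt (fun z => χ z * α z) (dh χ y α) y := by
  have h1 : HasFDerivAt χ (fderiv ℝ χ y) y := (hχ.differentiable (by simp)).differentiableAt.hasFDerivAt
  have h2 := h1.mul α.hasFDerivAt
  rw [dh_apply, add_comm]
  exact h2

theorem dh_contDiff {χ : E → ℝ} (hχ : ContDiff ℝ ∞ χ) : ContDiff ℝ ∞ (dh χ) := by
  unfold dh
  have h1 : ContDiff ℝ ∞ (fderiv ℝ χ) := hχ.fderiv_right (by simp)
  have h2 : ContDiff ℝ ∞ (fun y : E => (ContinuousLinearMap.id ℝ (E →L[ℝ] ℝ)).flip y) := by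
    fun_prop
  exact (h2.smulRight h1).add (hχ.smul contDiff_const)

structure Loc (J : EndField E M) (φ : OpenPartialHomeomorph M E) (χ : E → ℝ) : Prop where
  comp : IsCompatible J
  chart : φ ∈ charts E M
  smooth : ContDiff ℝ ∞ χ
  compact : HasCompactSupport χ
  subset : tsupport χ ⊆ φ.target

/-- The Hamiltonian vector field of `χ * α`. -/
noncomputable def BB (J : EndField E M) (φ : OpenPartialHomeomorph M E) (χ : E → ℝ) (y : E) :
    (E →L[ℝ] ℝ) →L[ℝ] E :=
  (omegaIn J φ y).inverse.comp (dh χ y)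

variable {J : EndField E M} {φ : OpenPartialHomeomorph M E} {χ : E → ℝ}

theorem dh_zero {y : E} (hy : y ∉ tsupport χ) : dh χ y = 0 := by
  have h1 : fderiv ℝ χ y = 0 := by
    have := (support_fderiv_subset ℝ (f := χ)).trans subset_rfl
    by_contra h
    exact hy (this h)
  have h2 : χ y = 0 := image_eq_zero_of_notMem_tsupport hy
  ext α; simp [dh_apply, h1, h2]

theorem BB_zero {y : E} (hy : y ∉ tsupport χ) : BB J φ χ y = 0 := by
  rw [BB, dh_zero hy, ContinuousLinearMap.comp_zero]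

theorem Loc.omega_BB (h : Loc J φ χ) {y : E} (hy : y ∈ φ.target) (α : E →L[ℝ] ℝ) :
    omegaIn J φ y (BB J φ χ y α) = dh χ y α := by
  obtain ⟨e, he⟩ := omegaIn_equiv h.comp.sq h.chart hy
  rw [BB, ← he]
  simp

theorem Loc.BB_one (h : Loc J φ χ) {y : E} (hy : y ∈ φ.target) (h1 : ∀ᶠ z in 𝓝 y, χ z = 1) :
    Function.Surjective (BB J φ χ y) := by
  obtain ⟨e, he⟩ := omegaIn_equiv h.comp.sq h.chart hy
  intro v
  refine ⟨e v, ?_⟩
  have h2 : fderiv ℝ χ y = 0 := by
    have : χ =ᶠ[𝓝 y] fun _ => 1 := h1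
    rw [this.fderiv_eq]; simp
  have h3 : χ y = 1 := h1.self_of_nhds
  rw [BB, ← he]
  simp [dh_apply, h2, h3]

theorem Loc.BB_contDiff (h : Loc J φ χ) : ContDiff ℝ ∞ (BB J φ χ) := by
  rw [contDiff_iff_contDiffAt]
  intro y
  by_cases hy : y ∈ φ.target
  · obtain ⟨e, he⟩ := omegaIn_equiv h.comp.sq h.chart hy
    have h1 : ContDiffAt ℝ ∞ (omegaIn J φ) y :=
      (h.comp.smooth φ h.chart).contDiffAt (φ.open_target.mem_nhds hy)
    have h2 : ContDiffAt ℝ ∞ ContinuousLinearMap.inverse (omegaIn J φ y) := by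
      rw [← he]; exact contDiffAt_map_inverse e
    exact (h2.comp y h1).clm_comp (dh_contDiff h.smooth).contDiffAt
  · have hy' : y ∈ (tsupport χ)ᶜ := fun hh => hy (h.subset hh)
    have h1 : BB J φ χ =ᶠ[𝓝 y] fun _ => 0 := by
      filter_upwards [(isClosed_tsupport χ).isOpen_compl.mem_nhds hy'] with z hz
      exact BB_zero hz
    exact contDiffAt_const.congr_of_eventuallyEq h1

end Pool.Agent.MP_c86656_gt.Tr
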