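import Pool.Agent.Lib.MP_c86656_gt.TrSmall
import Pool.Agent.Lib.MP_c86656_gt.TrLocal

/-! Finite dimensional families of small Hamiltonian isotopies. -/

open Set Filter Topology Manifold Bundle
open scoped ContDiff NNReal

namespace Pool.Agent.MP_c86656_gt.Tr

set_option linter.unusedSectionVars false

universe u v

variable {E : Type u} [NormedAddCommGroup E] [NormedSpace ℝ E] [FiniteDimensional ℝ E]
  {M : Type v} [MetricSpace M] [ChartedSpace E M] [IsManifold 𝓘(ℝ, E) ∞ M]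

section Spans

variable {P : Type*} [NormedAddCommGroup P] [NormedSpace ℝ P]

/-- The derivative in the parameter is onto, in every chart. -/
def SpansAt (E : Type u) [NormedAddCommGroup E] [NormedSpace ℝ E] [ChartedSpace E M]
    (G : P → M → M) (a : P) (x : M) : Prop :=
  ∀ φ ∈ charts E M, G a x ∈ φ.source →
    Function.Surjective (fderiv ℝ (fun a' => φ (G a' x)) a)

theorem contDiffAt_param {G : P → M → M}
    (hG : ContMDiff (𝓘(ℝ, P).prod 𝓘(ℝ, E)) 𝓘(ℝ, E) 1 (fun p : P × M => G p.1 p.2))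
    {φ : OpenPartialHomeomorph M E} (hφ : φ ∈ charts E M) {a : P} {x : M}
    (hx : G a x ∈ φ.source) : ContDiffAt ℝ 1 (fun a' => φ (G a' x)) a := by
  rw [← contMDiffAt_iff_contDiffAt]
  have h1 : ContMDiffAt 𝓘(ℝ, P) 𝓘(ℝ, E) 1 (fun a' => G a' x) a :=
    ContMDiffAt.comp (g := fun p : P × M => G p.1 p.2) a hG.contMDiffAt
      (contMDiffAt_id.prodMk contMDiffAt_const)
  exact ((contMDiffAt_chart hφ hx).of_le (WithTop.coe_le_coe.mpr le_top)).comp a h1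

theorem spansAt_of_chart {G : P → M → M}
    (hG : ContMDiff (𝓘(ℝ, P).prod 𝓘(ℝ, E)) 𝓘(ℝ, E) 1 (fun p : P × M => G p.1 p.2))
    {φ : OpenPartialHomeomorph M E} (hφ : φ ∈ charts E M) {a : P} {x : M}
    (hx : G a x ∈ φ.source) (hs : Function.Surjective (fderiv ℝ (fun a' => φ (G a' x)) a)) :
    SpansAt E G a x := by
  intro φ' hφ' hx' z
  obtain ⟨b, hb⟩ := hs (fderiv ℝ (fun y => φ (φ'.symm y)) (φ' (G a x)) z)
  refine ⟨b, ?_⟩
  have h1 := (contDiffAt_param hG hφ hx).differentiableAt (by norm_num)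
  have h2 := hasFDerivAt_trans hφ hφ' hx hx'
  have h3 : HasFDerivAt (fun a' => φ' (φ.symm (φ (G a' x)))) _ a :=
    HasFDerivAt.comp (g := fun y => φ' (φ.symm y)) a h2 h1.hasFDerivAt
  have h4 : (fun a' => φ' (G a' x)) =ᶠ[𝓝 a] fun a' => φ' (φ.symm (φ (G a' x))) := by
    have hc : ContinuousAt (fun a' => G a' x) a :=
      (hG.continuous.comp (continuous_id.prodMk continuous_const)).continuousAt
    filter_upwards [hc.eventually (φ.open_source.mem_nhds hx)] with a' ha'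
    rw [φ.left_inv ha']
  rw [(h3.congr_of_eventuallyEq h4).fderiv]
  show fderiv ℝ (fun y => φ' (φ.symm y)) (φ (G a x)) (fderiv ℝ (fun a' => φ (G a' x)) a b) = z
  rw [hb, fderiv_trans_comp hφ' hφ hx' hx]

end Spans

variable [RiemannianBundle (fun x : M => TangentSpace 𝓘(ℝ, E) x)]

section Fam

variable {P P₁ P₂ : Type*} [NormedAddCommGroup P] [NormedSpace ℝ P]
  [NormedAddCommGroup P₁] [NormedSpace ℝ P₁] [NormedAddCommGroup P₂] [NormedSpace ℝ P₂]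

/-- A `C^1` family of small Hamiltonian diffeomorphisms. -/
structure Fam (J : EndField E M) (G : P → M → M) : Prop where
  smooth : ContMDiff (𝓘(ℝ, P).prod 𝓘(ℝ, E)) 𝓘(ℝ, E) 1 (fun p : P × M => G p.1 p.2)
  zero : ∀ x, G 0 x = x
  small : ∀ η : ℝ, 0 < η → ∀ᶠ a in 𝓝 (0 : P), SmallH J η (G a)

theorem Fam.comp {J : EndField E M} {G₁ : P₁ → M → M} {G₂ : P₂ → M → M} (h₁ : Fam J G₁)
    (h₂ : Fam J G₂) : Fam J (fun (a : P₁ × P₂) x => G₂ a.2 (G₁ a.1 x)) := by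
  refine ⟨?_, fun x => by simp [h₁.zero, h₂.zero], ?_⟩
  · have e1 : ContMDiff (𝓘(ℝ, P₁ × P₂).prod 𝓘(ℝ, E)) 𝓘(ℝ, P₁) 1
        (fun p : (P₁ × P₂) × M => p.1.1) :=
      (contDiff_fst (𝕜 := ℝ) (E := P₁) (F := P₂)).contMDiff.comp contMDiff_fst
    have e2 : ContMDiff (𝓘(ℝ, P₁ × P₂).prod 𝓘(ℝ, E)) 𝓘(ℝ, P₂) 1
        (fun p : (P₁ × P₂) × M => p.1.2) :=
      (contDiff_snd (𝕜 := ℝ) (E := P₁) (F := P₂)).contMDiff.comp contMDiff_fst
    have e3 : ContMDiff (𝓘(ℝ, P₁ × P₂).prod 𝓘(ℝ, E)) 𝓘(ℝ, E) 1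
        (fun p : (P₁ × P₂) × M => G₁ p.1.1 p.2) := h₁.smooth.comp (e1.prodMk contMDiff_snd)
    exact h₂.smooth.comp (e2.prodMk e3)
  · intro η hη
    obtain ⟨c, hc, hcomp⟩ := SmallH.comp (E := E) (M := M)
    have hη' : 0 < η / (2 * c) := by positivity
    have e1 : ∀ᶠ a : P₁ × P₂ in 𝓝 0, SmallH J (η / (2 * c)) (G₁ a.1) :=
      ((continuous_fst (X := P₁) (Y := P₂)).tendsto 0).eventually (h₁.small _ hη')
    have e2 : ∀ᶠ a : P₁ × P₂ in 𝓝 0, SmallH J (η / (2 * c)) (G₂ a.2) :=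
      ((continuous_snd (X := P₁) (Y := P₂)).tendsto 0).eventually (h₂.small _ hη')
    filter_upwards [e1, e2] with a ha1 ha2
    have := hcomp J _ hη'.le _ _ ha1 ha2
    have h3 : 2 * c * (η / (2 * c)) = η := by field_simp
    rwa [h3] at this

theorem spansAt_comp_left {J : EndField E M} {G₁ : P₁ → M → M} {G₂ : P₂ → M → M}
    (h₁ : Fam J G₁) (h₂ : Fam J G₂) {x : M} (h : SpansAt E G₁ 0 x) :
    SpansAt E (fun (a : P₁ × P₂) x => G₂ a.2 (G₁ a.1 x)) 0 x := by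
  intro φ hφ hx z
  have hx1 : G₁ 0 x ∈ φ.source := by simpa [h₂.zero] using hx
  obtain ⟨b, hb⟩ := h φ hφ hx1 z
  refine ⟨(b, 0), ?_⟩
  have h3 := (contDiffAt_param (G := fun (a : P₁ × P₂) x => G₂ a.2 (G₁ a.1 x))
    (h₁.comp h₂).smooth hφ hx).differentiableAt (by norm_num)
  have h4 : HasFDerivAt (fun a : P₁ => (a, (0 : P₂))) (ContinuousLinearMap.inl ℝ P₁ P₂) 0 :=
    hasFDerivAt_prodMk_left (0 : P₁) (0 : P₂)
  have h5 := HasFDerivAt.comp (g := fun a : P₁ × P₂ => φ (G₂ a.2 (G₁ a.1 x))) (0 : P₁)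
    h3.hasFDerivAt h4
  have h6 : ((fun a : P₁ × P₂ => φ (G₂ a.2 (G₁ a.1 x))) ∘ fun a : P₁ => (a, (0 : P₂)))
      = fun a => φ (G₁ a x) := by funext a; simp [h₂.zero]
  rw [h6] at h5
  rw [h5.fderiv] at hb
  exact hb

theorem spansAt_comp_right {J : EndField E M} {G₁ : P₁ → M → M} {G₂ : P₂ → M → M}
    (h₁ : Fam J G₁) (h₂ : Fam J G₂) {x : M} (h : SpansAt E G₂ 0 x) :
    SpansAt E (fun (a : P₁ × P₂) x => G₂ a.2 (G₁ a.1 x)) 0 x := by
  intro φ hφ hx z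
  have hx1 : G₂ 0 x ∈ φ.source := by simpa [h₁.zero] using hx
  obtain ⟨b, hb⟩ := h φ hφ hx1 z
  refine ⟨(0, b), ?_⟩
  have h3 := (contDiffAt_param (G := fun (a : P₁ × P₂) x => G₂ a.2 (G₁ a.1 x))
    (h₁.comp h₂).smooth hφ hx).differentiableAt (by norm_num)
  have h4 : HasFDerivAt (fun a : P₂ => ((0 : P₁), a)) (ContinuousLinearMap.inr ℝ P₁ P₂) 0 :=
    hasFDerivAt_prodMk_right (0 : P₁) (0 : P₂)
  have h5 := HasFDerivAt.comp (g := fun a : P₁ × P₂ => φ (G₂ a.2 (G₁ a.1 x))) (0 : P₂)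
    h3.hasFDerivAt h4
  have h6 : ((fun a : P₁ × P₂ => φ (G₂ a.2 (G₁ a.1 x))) ∘ fun a : P₂ => ((0 : P₁), a))
      = fun a => φ (G₂ a x) := by funext a; simp [h₁.zero]
  rw [h6] at h5
  rw [h5.fderiv] at hb
  exact hb

/-- The constant family is small. -/
theorem fam_unit (J : EndField E M) : Fam J (fun (_ : P) (x : M) => x) := by
  refine ⟨contMDiff_snd, fun x => rfl, fun η hη => Eventually.of_forall fun a => ?_⟩
  refine ⟨fun _ _ => 0, fun _ x => x, ∅, contMDiff_const, isCompact_empty, by simp,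
    fun x => ⟨rfl, rfl, continuousOn_const⟩, ?_, fun x t ht => by simp [hη.le],
    fun t x => by simp [hη.le]⟩
  intro x t _ φ _ _
  refine ⟨0, hasDerivWithinAt_const _ _ _, fun w => ?_⟩
  simp

end Fam

end Pool.Agent.MP_c86656_gt.Tr
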