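import Pool.Agent.Lib.MP_c86656_gt.TrFam

/-! The family of Hamiltonian diffeomorphisms supported in one chart. -/

open Set Filter Topology Manifold Bundle
open scoped ContDiff NNReal

namespace Pool.Agent.MP_c86656_gt.Tr

set_option linter.unusedSectionVars false

universe u v

variable {E : Type u} [NormedAddCommGroup E] [NormedSpace ℝ E] [FiniteDimensional ℝ E]
  {M : Type v} [MetricSpace M] [ChartedSpace E M] [IsManifold 𝓘(ℝ, E) ∞ M]
  [RiemannianBundle (fun x : M => TangentSpace 𝓘(ℝ, E) x)]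
  {J : EndField E M} {φ : OpenPartialHomeomorph M E} {χ : E → ℝ}

open Classical in
/-- The Hamiltonian. -/
noncomputable def HH (φ : OpenPartialHomeomorph M E) (χ : E → ℝ) (α : E →L[ℝ] ℝ) (x : M) : ℝ :=
  if x ∈ φ.source then χ (φ x) * cut α (φ x) else 0

theorem Loc.isCompact_C (h : Loc J φ χ) : IsCompact (φ.symm '' tsupport χ) :=
  IsCompact.image_of_continuousOn h.compact (φ.continuousOn_symm.mono h.subset)

theorem Loc.C_subset (h : Loc J φ χ) : φ.symm '' tsupport χ ⊆ φ.source := by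
  rintro _ ⟨y, hy, rfl⟩
  exact φ.map_target (h.subset hy)

theorem not_mem_C {x : M} (hx : x ∉ φ.symm '' tsupport χ) (hs : x ∈ φ.source) :
    φ x ∉ tsupport χ := fun hh => hx ⟨φ x, hh, φ.left_inv hs⟩

theorem HH_zero {x : M} (hx : x ∉ φ.symm '' tsupport χ) (α : E →L[ℝ] ℝ) : HH φ χ α x = 0 := by
  unfold HH
  split_ifs with hs
  · rw [image_eq_zero_of_notMem_tsupport (not_mem_C hx hs), zero_mul]
  · rfl

theorem Loc.HH_smooth (h : Loc J φ χ) (α : E →L[ℝ] ℝ) :
    ContMDiff 𝓘(ℝ, E) 𝓘(ℝ, ℝ) ∞ (HH φ χ α) := by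
  intro x
  by_cases hx : x ∈ φ.source
  · have h1 : ContDiff ℝ ∞ (fun y => χ y * cut α y) := h.smooth.mul (cut α).contDiff
    have h2 : ContMDiffAt 𝓘(ℝ, E) 𝓘(ℝ, ℝ) ∞ (fun x => χ (φ x) * cut α (φ x)) x :=
      ContMDiffAt.comp (g := fun y => χ y * cut α y) x h1.contMDiff.contMDiffAt
        (contMDiffAt_chart h.chart hx)
    refine h2.congr_of_eventuallyEq ?_
    filter_upwards [φ.open_source.mem_nhds hx] with z hz
    simp [HH, hz]
  · have hx' : x ∈ (φ.symm '' tsupport χ)ᶜ := fun hh => hx (h.C_subset hh)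
    have h2 : ContMDiffAt 𝓘(ℝ, E) 𝓘(ℝ, ℝ) ∞ (fun _ : M => (0 : ℝ)) x := contMDiffAt_const
    refine h2.congr_of_eventuallyEq ?_
    filter_upwards [h.isCompact_C.isClosed.isOpen_compl.mem_nhds hx'] with z hz
    exact HH_zero hz α

theorem Loc.exists_fam (h : Loc J φ χ) : ∃ G : (E →L[ℝ] ℝ) → M → M, Fam J G ∧
    ∀ x ∈ φ.source, (∀ᶠ y in 𝓝 (φ x), χ y = 1) → SpansAt E G 0 x := by
  classical
  obtain ⟨F, F0, Fd, Fout, Fin, F1, Fa, Fz, C, hC, FC⟩ :=
    exists_F (K := tsupport χ) h.BB_contDiff h.compact (fun y hy => BB_zero (J := J) (φ := φ) hy)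
  have hcl : IsOpen ((φ.symm '' tsupport χ)ᶜ) := h.isCompact_C.isClosed.isOpen_compl
  let Φ : ℝ → (E →L[ℝ] ℝ) → M → M := fun t α x =>
    if x ∈ φ.source then φ.symm (F t α (φ x)) else x
  have hΦs : ∀ t α x, x ∈ φ.source → Φ t α x = φ.symm (F t α (φ x)) := fun t α x hx => by
    simp [Φ, hx]
  have hΦn : ∀ t α x, x ∉ φ.source → Φ t α x = x := fun t α x hx => by simp [Φ, hx]
  have hΦC : ∀ α x, x ∉ φ.symm '' tsupport χ → ∀ t ∈ Ioo (-1 : ℝ) 2, Φ t α x = x := by
    intro α x hx t ht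
    by_cases hs : x ∈ φ.source
    · rw [hΦs t α x hs, Fout α _ (not_mem_C hx hs) t ht, φ.left_inv hs]
    · exact hΦn t α x hs
  have hFt : ∀ α x, x ∈ φ.source → ∀ t ∈ Ioo (-1 : ℝ) 2, F t α (φ x) ∈ φ.target := by
    intro α x hx t ht
    by_cases hs : φ x ∈ tsupport χ
    · exact h.subset (Fin α _ hs t ht)
    · rw [Fout α _ hs t ht]; exact φ.map_source hx
  have h01 : ∀ t ∈ Icc (0 : ℝ) 1, t ∈ Ioo (-1 : ℝ) 2 :=
    fun t ht => ⟨by linarith [ht.1], by linarith [ht.2]⟩
  have h1m : (1 : ℝ) ∈ Ioo (-1 : ℝ) 2 := by constructor <;> norm_num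
  have hsmooth : ContMDiff (𝓘(ℝ, E →L[ℝ] ℝ).prod 𝓘(ℝ, E)) 𝓘(ℝ, E) 1
      (fun p : (E →L[ℝ] ℝ) × M => Φ 1 p.1 p.2) := by
    rintro ⟨α, x⟩
    by_cases hx : x ∈ φ.source
    · have e1 : ContMDiffAt (𝓘(ℝ, E →L[ℝ] ℝ).prod 𝓘(ℝ, E)) 𝓘(ℝ, E) 1
          (fun p : (E →L[ℝ] ℝ) × M => φ p.2) (α, x) :=
        ((contMDiffAt_chart h.chart hx).of_le (WithTop.coe_le_coe.mpr le_top)).comp (α, x)
          contMDiffAt_snd
      have e2 : ContMDiffAt (𝓘(ℝ, E →L[ℝ] ℝ).prod 𝓘(ℝ, E)) 𝓘(ℝ, (E →L[ℝ] ℝ) × E) 1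
          (fun p : (E →L[ℝ] ℝ) × M => (p.1, φ p.2)) (α, x) := contMDiffAt_fst.prodMk_space e1
      have e3 : ContMDiffAt (𝓘(ℝ, E →L[ℝ] ℝ).prod 𝓘(ℝ, E)) 𝓘(ℝ, E) 1
          (fun p : (E →L[ℝ] ℝ) × M => F 1 p.1 (φ p.2)) (α, x) :=
        ContMDiffAt.comp (g := fun p : (E →L[ℝ] ℝ) × E => F 1 p.1 p.2) (α, x)
          F1.contMDiff.contMDiffAt e2
      have e4 : ContMDiffAt (𝓘(ℝ, E →L[ℝ] ℝ).prod 𝓘(ℝ, E)) 𝓘(ℝ, E) 1
          (fun p : (E →L[ℝ] ℝ) × M => φ.symm (F 1 p.1 (φ p.2))) (α, x) :=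
        ContMDiffAt.comp (g := φ.symm) (α, x)
          ((contMDiffAt_symm h.chart (hFt α x hx 1 h1m)).of_le (WithTop.coe_le_coe.mpr le_top)) e3
      refine e4.congr_of_eventuallyEq ?_
      have : ∀ᶠ p : (E →L[ℝ] ℝ) × M in 𝓝 (α, x), p.2 ∈ φ.source :=
        (continuous_snd.tendsto (α, x)).eventually (φ.open_source.mem_nhds hx)
      filter_upwards [this] with p hp
      exact hΦs 1 p.1 p.2 hp
    · have hx' : x ∈ (φ.symm '' tsupport χ)ᶜ := fun hh => hx (h.C_subset hh)
      have e4 : ContMDiffAt (𝓘(ℝ, E →L[ℝ] ℝ).prod 𝓘(ℝ, E)) 𝓘(ℝ, E) 1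
          (fun p : (E →L[ℝ] ℝ) × M => p.2) (α, x) := contMDiffAt_snd
      refine e4.congr_of_eventuallyEq ?_
      have : ∀ᶠ p : (E →L[ℝ] ℝ) × M in 𝓝 (α, x), p.2 ∈ (φ.symm '' tsupport χ)ᶜ :=
        (continuous_snd.tendsto (α, x)).eventually (hcl.mem_nhds hx')
      filter_upwards [this] with p hp
      exact hΦC p.1 p.2 hp 1 h1m
  refine ⟨fun α x => Φ 1 α x, ⟨hsmooth, ?_, ?_⟩, ?_⟩
  · intro x
    by_cases hs : x ∈ φ.source
    · show Φ 1 0 x = x
      rw [hΦs 1 0 x hs, Fz _ 1 h1m, φ.left_inv hs]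
    · exact hΦn 1 0 x hs
  · intro η hη
    -- displacement
    have hunif : ∃ δ > 0, ∀ y ∈ tsupport χ, ∀ z ∈ tsupport χ, dist y z < δ →
        dist (φ.symm y) (φ.symm z) < η := by
      have := h.compact.isCompact.uniformContinuousOn_of_continuous
        (φ.continuousOn_symm.mono h.subset)
      rw [Metric.uniformContinuousOn_iff] at this
      exact this η hη
    obtain ⟨δ, hδ, hδ'⟩ := hunif
    obtain ⟨Cχ, hCχ⟩ := h.compact.exists_bound_of_continuous h.smooth.continuous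
    obtain ⟨R, hR⟩ := h.compact.isCompact.exists_bound_of_continuousOn (f := fun y : E => y)
      continuousOn_id
    have hnorm : Tendsto (fun α : E →L[ℝ] ℝ => ‖α‖) (𝓝 0) (𝓝 0) := tendsto_norm_zero
    have ha : ∀ᶠ α : E →L[ℝ] ℝ in 𝓝 0, C * ‖α‖ < δ := by
      have : Tendsto (fun α : E →L[ℝ] ℝ => C * ‖α‖) (𝓝 0) (𝓝 (C * 0)) := hnorm.const_mul C
      rw [mul_zero] at this
      exact this.eventually (Iio_mem_nhds hδ)
    have hb : ∀ᶠ α : E →L[ℝ] ℝ in 𝓝 0, Cχ * (‖α‖ * R) < η := by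
      have : Tendsto (fun α : E →L[ℝ] ℝ => Cχ * (‖α‖ * R)) (𝓝 0) (𝓝 (Cχ * (0 * R))) :=
        (hnorm.mul_const R).const_mul Cχ
      rw [zero_mul, mul_zero] at this
      exact this.eventually (Iio_mem_nhds hη)
    filter_upwards [ha, hb] with α hα1 hα2
    refine ⟨fun _ x => HH φ χ α x, fun t x => Φ t α x, φ.symm '' tsupport χ,
      (h.HH_smooth α).comp contMDiff_snd, h.isCompact_C, fun _ x hx => HH_zero hx α, ?_, ?_, ?_, ?_⟩
    · intro x
      refine ⟨?_, rfl, ?_⟩
      · by_cases hs : x ∈ φ.source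
        · show Φ 0 α x = x
          rw [hΦs 0 α x hs, F0, φ.left_inv hs]
        · exact hΦn 0 α x hs
      · by_cases hs : x ∈ φ.source
        · have e1 : ContinuousOn (fun t => φ.symm (F t α (φ x))) (Icc (0 : ℝ) 1) :=
            φ.continuousOn_symm.comp
              (fun t ht => (Fd α (φ x) t (h01 t ht)).continuousAt.continuousWithinAt)
              (fun t ht => hFt α x hs t (h01 t ht))
          refine e1.congr (fun t _ => hΦs t α x hs)
        · exact (continuousOn_const (c := x)).congr (fun t _ => hΦn t α x hs)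
    · intro x t ht φ' hφ' hsrc
      beta_reduce at hsrc ⊢
      have ht' := h01 t ht
      by_cases hs : x ∈ φ.source
      · set y := F t α (φ x) with hy
        have hyt : y ∈ φ.target := hFt α x hs t ht'
        set p := φ.symm y with hp
        have hΦp : Φ t α x = p := hΦs t α x hs
        have hps : p ∈ φ.source := φ.map_target hyt
        have hpy : φ p = y := φ.right_inv hyt
        rw [hΦp] at hsrc ⊢
        have hd := Fd α (φ x) t ht'
        have hτ := hasFDerivAt_trans h.chart hφ' hps hsrc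
        set Dτ := fderiv ℝ (fun z => φ' (φ.symm z)) (φ p) with hDτ
        refine ⟨Dτ (BB J φ χ y (cut α)), ?_, fun w => ?_⟩
        · have e1 : HasDerivAt (fun s => φ' (φ.symm (F s α (φ x)))) (Dτ (BB J φ χ y (cut α))) t := by
            refine HasFDerivAt.comp_hasDerivAt (l := fun z => φ' (φ.symm z)) t ?_ hd
            rw [← hy, ← hpy]; exact hτ
          refine e1.hasDerivWithinAt.congr (fun s _ => ?_) ?_
          · rw [hΦs s α x hs]
          · rw [hΦs t α x hs]
        · set w' := fderiv ℝ (fun z => φ (φ'.symm z)) (φ' p) w with hw'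
          have hww : Dτ w' = w := fderiv_trans_comp hφ' h.chart hsrc hps w
          have e1 : omegaIn J φ' (φ' p) (Dτ (BB J φ χ y (cut α))) w
              = dh χ y (cut α) w' := by
            rw [← hww, omegaIn_trans J h.chart hφ' hps hsrc, hpy, h.omega_BB hyt]
          rw [e1]
          have e2 : (fun z => HH φ χ α (φ'.symm z)) =ᶠ[𝓝 (φ' p)]
              fun z => χ (φ (φ'.symm z)) * cut α (φ (φ'.symm z)) := by
            have hc : ContinuousAt φ'.symm (φ' p) := φ'.continuousAt_symm (φ'.map_source hsrc)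
            have : ∀ᶠ z in 𝓝 (φ' p), φ'.symm z ∈ φ.source := by
              refine hc.eventually ?_
              rw [φ'.left_inv hsrc]; exact φ.open_source.mem_nhds hps
            filter_upwards [this] with z hz
            simp [HH, hz]
          rw [e2.fderiv_eq]
          have e3 : HasFDerivAt (fun z => χ (φ (φ'.symm z)) * cut α (φ (φ'.symm z)))
              ((dh χ y (cut α)).comp (fderiv ℝ (fun z => φ (φ'.symm z)) (φ' p))) (φ' p) := by
            have e4 : HasFDerivAt (fun z => χ z * cut α z) (dh χ y (cut α))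
                (φ (φ'.symm (φ' p))) := by
              rw [φ'.left_inv hsrc, hpy]; exact hasFDerivAt_h h.smooth _ _
            exact HasFDerivAt.comp (g := fun z => χ z * cut α z) (φ' p) e4
              (hasFDerivAt_trans hφ' h.chart hsrc hps)
          rw [e3.fderiv]
          rfl
      · have hxC : x ∈ (φ.symm '' tsupport χ)ᶜ := fun hh => hs (h.C_subset hh)
        have hΦx : Φ t α x = x := hΦn t α x hs
        rw [hΦx] at hsrc ⊢
        refine ⟨0, ?_, fun w => ?_⟩
        · refine (hasDerivWithinAt_const t (Icc (0 : ℝ) 1) (φ' x)).congr (fun s _ => ?_) ?_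
          · rw [hΦn s α x hs]
          · rw [hΦn t α x hs]
        · have e2 : (fun z => HH φ χ α (φ'.symm z)) =ᶠ[𝓝 (φ' x)] fun _ => 0 := by
            have hc : ContinuousAt φ'.symm (φ' x) := φ'.continuousAt_symm (φ'.map_source hsrc)
            have : ∀ᶠ z in 𝓝 (φ' x), φ'.symm z ∈ (φ.symm '' tsupport χ)ᶜ := by
              refine hc.eventually ?_
              rw [φ'.left_inv hsrc]; exact hcl.mem_nhds hxC
            filter_upwards [this] with z hz
            exact HH_zero hz α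
          rw [e2.fderiv_eq]
          simp
    · intro x t ht
      have ht' := h01 t ht
      by_cases hx : x ∈ φ.symm '' tsupport χ
      · have hs := h.C_subset hx
        have hφx : φ x ∈ tsupport χ := by
          obtain ⟨y, hy, rfl⟩ := hx
          rw [φ.right_inv (h.subset hy)]; exact hy
        show dist x (Φ t α x) ≤ η
        rw [hΦs t α x hs]
        have e1 := hδ' (φ x) hφx (F t α (φ x)) (Fin α _ hφx t ht') (by
          rw [dist_comm, dist_eq_norm]
          exact (FC α (φ x) t ht).trans_lt hα1)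
        rw [φ.left_inv hs] at e1
        exact e1.le
      · show dist x (Φ t α x) ≤ η
        rw [hΦC α x hx t ht', dist_self]; exact hη.le
    · intro t x
      beta_reduce
      by_cases hx : x ∈ φ.symm '' tsupport χ
      · have hs := h.C_subset hx
        have hφx : φ x ∈ tsupport χ := by
          obtain ⟨y, hy, rfl⟩ := hx
          rw [φ.right_inv (h.subset hy)]; exact hy
        have e1 : HH φ χ α x = χ (φ x) * cut α (φ x) := by simp [HH, hs]
        rw [e1, abs_mul]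
        refine le_trans ?_ hα2.le
        have e2 : |χ (φ x)| ≤ Cχ := hCχ _
        have e3 : |cut α (φ x)| ≤ ‖α‖ * R :=
          ((cut α).le_opNorm _).trans
            (mul_le_mul (cut_norm_le α) (hR _ hφx) (norm_nonneg _) (norm_nonneg _))
        exact mul_le_mul e2 e3 (abs_nonneg _) ((abs_nonneg _).trans e2)
      · rw [HH_zero hx, abs_zero]; exact hη.le
  · intro x hx hχ1
    have hxx : Φ 1 0 x = x := by rw [hΦs 1 0 x hx, Fz _ 1 h1m, φ.left_inv hx]
    refine spansAt_of_chart hsmooth h.chart (by simp only [hxx]; exact hx) ?_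
    have e1 : (fun a' => φ (Φ 1 a' x)) = fun a' => F 1 a' (φ x) := by
      funext a'
      rw [hΦs 1 a' x hx, φ.right_inv (hFt a' x hx 1 h1m)]
    rw [e1, (Fa (φ x)).fderiv]
    exact h.BB_one (φ.map_source hx) hχ1

end Pool.Agent.MP_c86656_gt.Tr
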