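import Mathlib

/-! Flows of compactly supported vector fields on a finite dimensional space: existence and
`C^1` dependence on the initial value. -/

open Set Filter Topology Metric
open scoped NNReal ContDiff

namespace Pool.Agent.MP_c86656_gt.Tr

set_option linter.unusedSectionVars false

section Existence

variable {W : Type*} [NormedAddCommGroup W] [NormedSpace ℝ W] [CompleteSpace W]

/-- Existence of solutions on `(-1, 2)` for bounded Lipschitz fields. -/
theorem exists_sol {Y : W → W} {K : ℝ≥0} (hK : LipschitzWith K Y) {C : ℝ≥0}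
    (hC : ∀ w, ‖Y w‖ ≤ C) (w : W) :
    ∃ γ : ℝ → W, γ 0 = w ∧ ∀ t ∈ Ioo (-1 : ℝ) 2, HasDerivAt γ (Y (γ t)) t := by
  have h0 : (0 : ℝ) ∈ Icc (-1 : ℝ) 2 := by constructor <;> norm_num
  have hpl : IsPicardLindelof (fun _ : ℝ => Y) (tmin := -1) (tmax := 2) ⟨0, h0⟩ w (2 * C) 0 C K := by
    apply IsPicardLindelof.of_time_independent
    · intro x _; exact hC x
    · exact hK.lipschitzOnWith
    · simp
      nlinarith [C.2]
  obtain ⟨α, h1, h2⟩ := hpl.exists_eq_forall_mem_Icc_hasDerivWithinAt₀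
  refine ⟨α, h1, fun t ht => ?_⟩
  exact (h2 t (Ioo_subset_Icc_self ht)).hasDerivAt (Icc_mem_nhds ht.1 ht.2)

theorem exists_flow {Y : W → W} {K : ℝ≥0} (hK : LipschitzWith K Y) {C : ℝ≥0}
    (hC : ∀ w, ‖Y w‖ ≤ C) :
    ∃ Φ : ℝ → W → W, (∀ w, Φ 0 w = w) ∧
      ∀ w, ∀ t ∈ Ioo (-1 : ℝ) 2, HasDerivAt (fun s => Φ s w) (Y (Φ t w)) t := by
  choose γ h1 h2 using fun w => exists_sol hK hC w
  exact ⟨fun t w => γ w t, h1, h2⟩

theorem sol_unique {Y : W → W} {K : ℝ≥0} (hK : LipschitzWith K Y) {γ γ' : ℝ → W}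
    (h : ∀ t ∈ Ioo (-1 : ℝ) 2, HasDerivAt γ (Y (γ t)) t)
    (h' : ∀ t ∈ Ioo (-1 : ℝ) 2, HasDerivAt γ' (Y (γ' t)) t) {t₀ : ℝ} (ht₀ : t₀ ∈ Ioo (-1 : ℝ) 2)
    (he : γ t₀ = γ' t₀) : EqOn γ γ' (Ioo (-1 : ℝ) 2) :=
  ODE_solution_unique_of_mem_Ioo (v := fun _ => Y) (s := fun _ => univ) (K := K)
    (fun t _ => hK.lipschitzOnWith) ht₀ (fun t ht => ⟨h t ht, trivial⟩)
    (fun t ht => ⟨h' t ht, trivial⟩) he

/-- A solution passing through a zero of the field is constant. -/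
theorem sol_const {Y : W → W} {K : ℝ≥0} (hK : LipschitzWith K Y) {γ : ℝ → W}
    (h : ∀ t ∈ Ioo (-1 : ℝ) 2, HasDerivAt γ (Y (γ t)) t) {t₀ : ℝ} (ht₀ : t₀ ∈ Ioo (-1 : ℝ) 2)
    (he : Y (γ t₀) = 0) : ∀ t ∈ Ioo (-1 : ℝ) 2, γ t = γ t₀ := by
  refine sol_unique hK h (γ' := fun _ => γ t₀) (fun t _ => ?_) ht₀ rfl
  simpa [he] using hasDerivAt_const t (γ t₀)

end Existence

section C1

variable {W : Type*} [NormedAddCommGroup W] [NormedSpace ℝ W] [FiniteDimensional ℝ W]

theorem lip_of_support {V : Type*} [NormedAddCommGroup V] [NormedSpace ℝ V] {Y : W → V}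
    (hY : ContDiff ℝ 1 Y) (hc : HasCompactSupport Y) : ∃ K : ℝ≥0, LipschitzWith K Y :=
  hY.lipschitzWith_of_hasCompactSupport hc (by simp)

theorem bdd_of_support {V : Type*} [NormedAddCommGroup V] [NormedSpace ℝ V] {Y : W → V}
    (hY : ContDiff ℝ 1 Y) (hc : HasCompactSupport Y) : ∃ C : ℝ≥0, ∀ w, ‖Y w‖ ≤ C := by
  obtain ⟨C, hC⟩ := hc.exists_bound_of_continuous hY.continuous
  exact ⟨⟨max C 0, le_max_right _ _⟩, fun w => (hC w).trans (le_max_left _ _)⟩

/-- Second order Taylor bound. -/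
theorem taylor_bound {Y : W → W} (hY : ContDiff ℝ 2 Y) (hc : HasCompactSupport Y) :
    ∃ K2 : ℝ≥0, ∀ x h : W, ‖Y (x + h) - Y x - fderiv ℝ Y x h‖ ≤ K2 * ‖h‖ ^ 2 := by
  have h1 : ContDiff ℝ 1 (fderiv ℝ Y) := hY.fderiv_right (by norm_num)
  obtain ⟨K2, hK2⟩ := lip_of_support h1 (hc.fderiv ℝ)
  refine ⟨K2, fun x h => ?_⟩
  have h2 : ∀ z ∈ segment ℝ x (x + h), ‖fderiv ℝ Y z - fderiv ℝ Y x‖ ≤ K2 * ‖h‖ := by
    intro z hz
    refine (hK2.norm_sub_le z x).trans ?_
    gcongr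
    have := norm_sub_le_of_mem_segment hz
    simpa using this
  have h3 := Convex.norm_image_sub_le_of_norm_fderiv_le' (𝕜 := ℝ) (f := Y)
    (fun z _ => (hY.differentiable (by norm_num)).differentiableAt) h2
    (convex_segment x (x + h)) (left_mem_segment ℝ x (x + h)) (right_mem_segment ℝ x (x + h))
  simp only [add_sub_cancel_left] at h3
  calc _ ≤ K2 * ‖h‖ * ‖h‖ := h3
    _ = _ := by ring

/-- Comparison of a solution with an approximate solution on `[0,1]`. -/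
theorem compare {Y : W → W} {K : ℝ≥0} (hK : LipschitzWith K Y) {γ g g' : ℝ → W}
    (h : ∀ t ∈ Ioo (-1 : ℝ) 2, HasDerivAt γ (Y (γ t)) t)
    (hg : ∀ t ∈ Icc (0 : ℝ) 1, HasDerivAt g (g' t) t) (h0 : γ 0 = g 0) {ε : ℝ}
    (hε : ∀ t ∈ Icc (0 : ℝ) 1, ‖g' t - Y (g t)‖ ≤ ε) :
    ∀ t ∈ Icc (0 : ℝ) 1, ‖γ t - g t‖ ≤ gronwallBound 0 K ε t := by
  intro t ht
  have h1 := dist_le_of_approx_trajectories_ODE (v := fun _ => Y) (K := K) (f := γ) (g := g)
    (f' := fun t => Y (γ t)) (g' := g') (a := 0) (b := 1) (εf := 0) (εg := ε) (δ := 0)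
    (fun _ => hK)
    (fun t ht => (h t ⟨by linarith [ht.1], by linarith [ht.2]⟩).continuousAt.continuousWithinAt)
    (fun t ht => (h t ⟨by linarith [ht.1], by linarith [ht.2]⟩).hasDerivWithinAt)
    (fun t _ => by simp)
    (fun t ht => (hg t ht).continuousAt.continuousWithinAt)
    (fun t ht => (hg t (Ico_subset_Icc_self ht)).hasDerivWithinAt)
    (fun t ht => by rw [dist_eq_norm]; exact hε t (Ico_subset_Icc_self ht))
    (by simp [h0]) t ht
  simpa [dist_eq_norm] using h1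

theorem gronwallBound_mul (K ε c t : ℝ) : gronwallBound 0 K (ε * c) t = gronwallBound 0 K ε t * c := by
  by_cases hK : K = 0
  · subst hK; simp [gronwallBound_K0]; ring
  · rw [gronwallBound_of_K_ne_0 hK, gronwallBound_of_K_ne_0 hK]; simp; ring

/-- Differentiability of the time `t` map, from an approximate linearization. -/
theorem hasFDerivAt_of_quadratic {F : W → W} {A : W →L[ℝ] W} {w : W} {C : ℝ}
    (h : ∀ v : W, ‖F (w + v) - (F w + A v)‖ ≤ C * ‖v‖ ^ 2) : HasFDerivAt F A w := by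
  rw [hasFDerivAt_iff_isLittleO_nhds_zero]
  have h1 : (fun v : W => F (w + v) - F w - A v) =O[𝓝 0] fun v => ‖v‖ ^ 2 := by
    refine Asymptotics.IsBigO.of_bound C (Eventually.of_forall fun v => ?_)
    have := h v
    rw [← sub_sub] at this
    simpa using this
  refine h1.trans_isLittleO ?_
  exact Asymptotics.isLittleO_norm_pow_id one_lt_two

/-- If `Y w = 0` and `DY(w)² = 0` the time one map has derivative `1 + DY(w)` at `w`. -/
theorem flow_hasFDerivAt_of_zero {Y : W → W} (hY : ContDiff ℝ 2 Y) (hc : HasCompactSupport Y)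
    {Φ : ℝ → W → W} (h0 : ∀ w, Φ 0 w = w)
    (hΦ : ∀ w, ∀ t ∈ Ioo (-1 : ℝ) 2, HasDerivAt (fun s => Φ s w) (Y (Φ t w)) t)
    {w : W} (hw : Y w = 0) (hA : ∀ v, fderiv ℝ Y w (fderiv ℝ Y w v) = 0) :
    HasFDerivAt (Φ 1) (ContinuousLinearMap.id ℝ W + fderiv ℝ Y w) w := by
  obtain ⟨K, hK⟩ := lip_of_support (hY.of_le (by norm_num)) hc
  obtain ⟨K2, hK2⟩ := taylor_bound hY hc
  set A := fderiv ℝ Y w with hAdef
  have hfix : Φ 1 w = w := by
    have := sol_const hK (hΦ w) (t₀ := 0) (by constructor <;> norm_num) (by rw [h0]; exact hw)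
      1 (by constructor <;> norm_num)
    rw [this, h0]
  refine hasFDerivAt_of_quadratic (C := gronwallBound 0 K (K2 * (1 + ‖A‖) ^ 2) 1) fun v => ?_
  have h1 := compare hK (hΦ (w + v)) (g := fun t => w + v + t • A v) (g' := fun _ => A v)
    (fun t _ => by
      have := ((hasDerivAt_id t).smul_const (A v)).const_add (w + v)
      simpa using this)
    (by simp [h0]) (ε := K2 * (1 + ‖A‖) ^ 2 * ‖v‖ ^ 2) (fun t ht => by
      have h2 := hK2 w (v + t • A v)
      rw [← add_assoc, hw, sub_zero, map_add, map_smul, hA, smul_zero, add_zero] at h2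
      rw [norm_sub_rev]
      refine h2.trans ?_
      rw [mul_assoc, ← mul_pow]
      gcongr
      calc ‖v + t • A v‖ ≤ ‖v‖ + ‖t • A v‖ := norm_add_le _ _
        _ ≤ ‖v‖ + 1 * (‖A‖ * ‖v‖) := by
          rw [norm_smul]
          gcongr
          · rw [Real.norm_eq_abs, abs_le]; constructor <;> linarith [ht.1, ht.2]
          · exact A.le_opNorm v
        _ = (1 + ‖A‖) * ‖v‖ := by ring) 1 (by constructor <;> norm_num)
  rw [gronwallBound_mul] at h1
  simpa [hfix, add_assoc] using h1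

/-- `C^1` dependence of the time one map on the initial value. -/
theorem flow_contDiff {Y : W → W} (hY : ContDiff ℝ 2 Y) (hc : HasCompactSupport Y)
    {Φ : ℝ → W → W} (h0 : ∀ w, Φ 0 w = w)
    (hΦ : ∀ w, ∀ t ∈ Ioo (-1 : ℝ) 2, HasDerivAt (fun s => Φ s w) (Y (Φ t w)) t) :
    ContDiff ℝ 1 (Φ 1) := by
  obtain ⟨K, hK⟩ := lip_of_support (hY.of_le (by norm_num)) hc
  obtain ⟨K2, hK2⟩ := taylor_bound hY hc
  have hD1 : ContDiff ℝ 1 (fderiv ℝ Y) := hY.fderiv_right (by norm_num)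
  have hDb : ∀ x, ‖fderiv ℝ Y x‖ ≤ K := fun x => norm_fderiv_le_of_lipschitz ℝ hK
  -- the cut off
  let R : ℝ := ‖ContinuousLinearMap.id ℝ W‖ * Real.exp K + 1
  have hR : 0 < R := by positivity
  let b : ContDiffBump (0 : W →L[ℝ] W) := ⟨R, R + 1, hR, by linarith⟩
  let ρ : (W →L[ℝ] W) → (W →L[ℝ] W) := fun v => b v • v
  have hρ1 : ContDiff ℝ 1 ρ := b.contDiff.smul contDiff_id
  have hρc : HasCompactSupport ρ := b.hasCompactSupport.smul_right
  have hρle : ∀ v, ‖ρ v‖ ≤ ‖v‖ := fun v => by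
    simp only [ρ, norm_smul, Real.norm_eq_abs, abs_of_nonneg b.nonneg]
    exact mul_le_of_le_one_left (norm_nonneg _) b.le_one
  have hρid : ∀ v, ‖v‖ ≤ R → ρ v = v := fun v hv => by
    simp only [ρ]
    rw [b.one_of_mem_closedBall (by simpa [b] using hv), one_smul]
  -- the augmented field
  let Z : W × (W →L[ℝ] W) → W →L[ℝ] W := fun p => (fderiv ℝ Y p.1).comp (ρ p.2)
  have hZ1 : ContDiff ℝ 1 Z :=
    (hD1.comp contDiff_fst).clm_comp (hρ1.comp contDiff_snd)
  have hZc : HasCompactSupport Z := by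
    refine HasCompactSupport.intro ((hc.fderiv ℝ).prod hρc) (fun p hp => ?_)
    rw [mem_prod, not_and_or] at hp
    rcases hp with hp | hp
    · simp [Z, image_eq_zero_of_notMem_tsupport hp]
    · simp [Z, image_eq_zero_of_notMem_tsupport hp]
  obtain ⟨KZ, hKZ⟩ := lip_of_support hZ1 hZc
  obtain ⟨CZ, hCZ⟩ := bdd_of_support hZ1 hZc
  obtain ⟨CY, hCY⟩ := bdd_of_support (hY.of_le (by norm_num)) hc
  let Y2 : W × (W →L[ℝ] W) → W × (W →L[ℝ] W) := fun p => (Y p.1, Z p)
  have hY2 : LipschitzWith (max (K * 1) KZ) Y2 := (hK.comp LipschitzWith.prod_fst).prodMk hKZ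
  have hY2b : ∀ p, ‖Y2 p‖ ≤ (max CY CZ : ℝ≥0) := fun p => by
    rw [Prod.norm_mk]
    push_cast
    exact max_le_max (hCY _) (hCZ _)
  obtain ⟨Ψ, hΨ0, hΨ⟩ := exists_flow hY2 hY2b
  -- first component
  have hΨ1 : ∀ w v, ∀ t ∈ Ioo (-1 : ℝ) 2, (Ψ t (w, v)).1 = Φ t w := by
    intro w v
    refine sol_unique hK (fun t ht => ?_) (hΦ w) (t₀ := 0) (by constructor <;> norm_num) ?_
    · exact (ContinuousLinearMap.fst ℝ W (W →L[ℝ] W)).hasFDerivAt.comp_hasDerivAt t
        (hΨ (w, v) t ht)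
    · simp [hΨ0, h0]
  have h01 : ∀ t ∈ Icc (0 : ℝ) 1, t ∈ Ioo (-1 : ℝ) 2 :=
    fun t ht => ⟨by linarith [ht.1], by linarith [ht.2]⟩
  let V : W → ℝ → W →L[ℝ] W := fun w t => (Ψ t (w, ContinuousLinearMap.id ℝ W)).2
  have hV0 : ∀ w, V w 0 = ContinuousLinearMap.id ℝ W := fun w => by simp [V, hΨ0]
  have hV : ∀ w, ∀ t ∈ Icc (0 : ℝ) 1,
      HasDerivAt (V w) ((fderiv ℝ Y (Φ t w)).comp (ρ (V w t))) t := fun w t ht => by
    have := (ContinuousLinearMap.snd ℝ W (W →L[ℝ] W)).hasFDerivAt.comp_hasDerivAt t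
      (hΨ (w, ContinuousLinearMap.id ℝ W) t (h01 t ht))
    have h2 : (Y2 (Ψ t (w, ContinuousLinearMap.id ℝ W))).2
        = (fderiv ℝ Y (Φ t w)).comp (ρ (V w t)) := by
      simp only [Y2, Z, V, hΨ1 w _ t (h01 t ht)]
    rw [← h2]
    exact this
  have hVle : ∀ w, ∀ t ∈ Icc (0 : ℝ) 1, ‖V w t‖ ≤ R - 1 := by
    intro w t ht
    have h1 := norm_le_gronwallBound_of_norm_deriv_right_le (f := V w) (a := 0) (b := 1)
      (δ := ‖ContinuousLinearMap.id ℝ W‖) (K := K) (ε := 0)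
      (fun t ht => (hV w t ht).continuousAt.continuousWithinAt)
      (fun t ht => (hV w t (Ico_subset_Icc_self ht)).hasDerivWithinAt)
      (by rw [hV0]) (fun t ht => by
        rw [add_zero]
        refine (ContinuousLinearMap.opNorm_comp_le _ _).trans ?_
        exact mul_le_mul (hDb _) (hρle _) (norm_nonneg _) K.2) t ht
    rw [gronwallBound_ε0, sub_zero] at h1
    refine h1.trans ?_
    simp only [R, add_sub_cancel_right]
    gcongr
    have := mul_le_mul_of_nonneg_left ht.2 K.2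
    simpa using this
  have hV' : ∀ w, ∀ t ∈ Icc (0 : ℝ) 1,
      HasDerivAt (V w) ((fderiv ℝ Y (Φ t w)).comp (V w t)) t := fun w t ht => by
    have := hV w t ht
    rwa [hρid _ (by linarith [hVle w t ht])] at this
  -- differentiability
  have hdiff : ∀ w, HasFDerivAt (Φ 1) (V w 1) w := by
    intro w
    refine hasFDerivAt_of_quadratic (C := gronwallBound 0 K (K2 * R ^ 2) 1) fun v => ?_
    have h1 := compare hK (hΦ (w + v)) (g := fun t => Φ t w + V w t v)
      (g' := fun t => Y (Φ t w) + fderiv ℝ Y (Φ t w) (V w t v))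
      (fun t ht => by
        have h2 := (hΦ w t (h01 t ht)).fun_add ((hV' w t ht).clm_apply (hasDerivAt_const t v))
        simpa using h2)
      (by simp [h0, hV0]) (ε := K2 * R ^ 2 * ‖v‖ ^ 2) (fun t ht => by
        have h2 := hK2 (Φ t w) (V w t v)
        rw [← norm_neg]
        have h3 : -(Y (Φ t w) + fderiv ℝ Y (Φ t w) (V w t v) - Y (Φ t w + V w t v))
            = Y (Φ t w + V w t v) - Y (Φ t w) - fderiv ℝ Y (Φ t w) (V w t v) := by abel
        rw [h3]
        refine h2.trans ?_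
        rw [mul_assoc, ← mul_pow]
        gcongr
        refine ((V w t).le_opNorm v).trans ?_
        gcongr
        linarith [hVle w t ht]) 1 (by constructor <;> norm_num)
    rw [gronwallBound_mul] at h1
    exact h1
  -- continuity of the derivative
  have hcont : Continuous fun w => V w 1 := by
    have hL : LipschitzWith (Real.toNNReal (Real.exp ((max (K * 1) KZ : ℝ≥0) : ℝ)))
        fun w => V w 1 := by
      refine LipschitzWith.of_dist_le_mul fun w w' => ?_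
      have h1 := dist_le_of_trajectories_ODE (v := fun _ => Y2) (K := max (K * 1) KZ)
        (f := fun t => Ψ t (w, ContinuousLinearMap.id ℝ W))
        (g := fun t => Ψ t (w', ContinuousLinearMap.id ℝ W)) (a := 0) (b := 1)
        (δ := dist w w') (fun _ => hY2)
        (fun t ht => (hΨ _ t (h01 t ht)).continuousAt.continuousWithinAt)
        (fun t ht => (hΨ _ t (h01 t (Ico_subset_Icc_self ht))).hasDerivWithinAt)
        (fun t ht => (hΨ _ t (h01 t ht)).continuousAt.continuousWithinAt)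
        (fun t ht => (hΨ _ t (h01 t (Ico_subset_Icc_self ht))).hasDerivWithinAt)
        (by simp [hΨ0, Prod.dist_eq]) 1 (by constructor <;> norm_num)
      have h2 : dist (V w 1) (V w' 1) ≤ dist (Ψ 1 (w, ContinuousLinearMap.id ℝ W))
          (Ψ 1 (w', ContinuousLinearMap.id ℝ W)) := by
        rw [Prod.dist_eq]; exact le_max_right _ _
      refine h2.trans (h1.trans (le_of_eq ?_))
      rw [Real.coe_toNNReal _ (Real.exp_pos _).le, sub_zero, mul_one]
      ring
    exact hL.continuous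
  rw [contDiff_one_iff_fderiv]
  refine ⟨fun w => (hdiff w).differentiableAt, ?_⟩
  have : fderiv ℝ (Φ 1) = fun w => V w 1 := funext fun w => (hdiff w).fderiv
  rw [this]
  exact hcont

end C1

end Pool.Agent.MP_c86656_gt.Tr
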