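import Mathlib

/-! A local parametric transversality theorem, from the equal dimension Sard theorem. -/

open Set Filter Topology Metric MeasureTheory
open scoped NNReal ContDiff

namespace Pool.Agent.MP_c86656_gt.Tr

set_option linter.unusedSectionVars false

variable {P Q E : Type*} [NormedAddCommGroup P] [NormedSpace ℝ P] [FiniteDimensional ℝ P]
  [NormedAddCommGroup Q] [NormedSpace ℝ Q] [FiniteDimensional ℝ Q]
  [NormedAddCommGroup E] [NormedSpace ℝ E] [FiniteDimensional ℝ E]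

theorem surjective_of_det_ne_zero {A : P →L[ℝ] P} (h : A.det ≠ 0) : Function.Surjective A := by
  have h1 : IsUnit (LinearMap.det (A : P →ₗ[ℝ] P)) := isUnit_iff_ne_zero.mpr h
  have h2 := (LinearMap.isUnit_iff_isUnit_det _).mpr h1
  intro y
  obtain ⟨x, hx⟩ := ((Module.End.isUnit_iff _).mp h2).2 y
  exact ⟨x, hx⟩

theorem local_sard [MeasurableSpace P] [BorelSpace P] (μ : Measure P) [μ.IsAddHaarMeasure]
    (hdim : Module.finrank ℝ Q = Module.finrank ℝ E) {Θ : P × Q → E} {z₀ : P × Q}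
    (hΘ : ContDiffAt ℝ 1 Θ z₀) (hs : Function.Surjective (fderiv ℝ Θ z₀)) :
    ∃ N ∈ 𝓝 z₀, ∀ᵐ a ∂μ, ∀ q, (a, q) ∈ N → Θ (a, q) = 0 →
      Function.Surjective (fun r : Q => fderiv ℝ Θ (a, q) (0, r)) := by
  set D : P × Q →L[ℝ] E := fderiv ℝ Θ z₀ with hD
  let K : Submodule ℝ (P × Q) := LinearMap.ker (D : P × Q →ₗ[ℝ] E)
  have hK : Module.finrank ℝ K = Module.finrank ℝ P := by
    have h1 := LinearMap.finrank_range_add_finrank_ker (D : P × Q →ₗ[ℝ] E)
    have h2 : LinearMap.range (D : P × Q →ₗ[ℝ] E) = ⊤ := LinearMap.range_eq_top.mpr hs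
    rw [h2, finrank_top, Module.finrank_prod] at h1
    simp only [K]
    omega
  obtain ⟨pr, hpr⟩ := LinearMap.exists_leftInverse_of_injective K.subtype (Submodule.ker_subtype K)
  let e : K ≃L[ℝ] P := ContinuousLinearEquiv.ofFinrankEq hK
  let π : P × Q →L[ℝ] P := (e : K →L[ℝ] P).comp (LinearMap.toContinuousLinearMap pr)
  let L₀ : P × Q →ₗ[ℝ] E × P := ((D.prod π : P × Q →L[ℝ] E × P) : P × Q →ₗ[ℝ] E × P)
  have hinj : Function.Injective L₀ := by
    rw [← LinearMap.ker_eq_bot, LinearMap.ker_eq_bot']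
    intro v hv
    have hv1 : D v = 0 := congrArg Prod.fst hv
    have hv2 : e (pr v) = 0 := congrArg Prod.snd hv
    have hv3 : pr v = 0 := by simpa using hv2
    have hv4 : pr (K.subtype ⟨v, hv1⟩) = ⟨v, hv1⟩ := by
      have := congrArg (fun f => f ⟨v, hv1⟩) hpr
      simpa using this
    have hv5 : (⟨v, hv1⟩ : K) = 0 := by rw [← hv4]; exact hv3
    exact congrArg Subtype.val hv5
  have hfin : Module.finrank ℝ (P × Q) = Module.finrank ℝ (E × P) := by
    rw [Module.finrank_prod, Module.finrank_prod, hdim, add_comm]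
  let L : (P × Q) ≃L[ℝ] (E × P) :=
    (LinearEquiv.ofInjectiveOfFinrankEq L₀ hinj hfin).toContinuousLinearEquiv
  let Ψ : P × Q → E × P := fun z => (Θ z, π z)
  have hΨ : ContDiffAt ℝ 1 Ψ z₀ := hΘ.prodMk π.contDiff.contDiffAt
  have hL : HasFDerivAt Ψ (L : (P × Q) →L[ℝ] (E × P)) z₀ := by
    have h1 : HasFDerivAt Ψ (D.prod π) z₀ :=
      ((hΘ.differentiableAt (by norm_num)).hasFDerivAt).prodMk π.hasFDerivAt
    exact h1
  let h := hΨ.toOpenPartialHomeomorph Ψ hL (by norm_num)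
  have hcoe : (h : P × Q → E × P) = Ψ := rfl
  have hsrc : z₀ ∈ h.source := hΨ.mem_toOpenPartialHomeomorph_source hL (by norm_num)
  have htgt : Ψ z₀ ∈ h.target := hΨ.image_mem_toOpenPartialHomeomorph_target hL (by norm_num)
  let g : E × P → P × Q := h.symm
  have hg : ContDiffAt ℝ 1 g (Ψ z₀) := by
    refine h.contDiffAt_symm (f₀' := L) htgt ?_ ?_
    · have : h.symm (Ψ z₀) = z₀ := h.left_inv hsrc
      rw [this]; exact hL
    · have : h.symm (Ψ z₀) = z₀ := h.left_inv hsrc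
      rw [this]; exact hΨ
  have hgev := hg.eventually (by norm_num)
  have hΨev := hΨ.eventually (by norm_num)
  refine ⟨{z | z ∈ h.source ∧ ContDiffAt ℝ 1 Ψ z ∧ ContDiffAt ℝ 1 g (Ψ z)},
    Filter.Eventually.and (h.open_source.mem_nhds hsrc)
      (hΨev.and (hΨ.continuousAt.eventually hgev)), ?_⟩
  let f : P → P := fun c => (g (0, c)).1
  let s : Set P := {c | DifferentiableAt ℝ g (0, c) ∧ (fderiv ℝ f c).det = 0}
  have hfd : ∀ c, DifferentiableAt ℝ g (0, c) →
      HasFDerivAt f ((ContinuousLinearMap.fst ℝ P Q).comp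
        ((fderiv ℝ g (0, c)).comp (ContinuousLinearMap.inr ℝ E P))) c := fun c hc => by
    have h1 : HasFDerivAt (fun c : P => ((0 : E), c)) (ContinuousLinearMap.inr ℝ E P) c :=
      hasFDerivAt_prodMk_right (0 : E) c
    exact (ContinuousLinearMap.fst ℝ P Q).hasFDerivAt.comp c (hc.hasFDerivAt.comp c h1)
  have hnull : μ (f '' s) = 0 := by
    refine addHaar_image_eq_zero_of_det_fderivWithin_eq_zero μ (f' := fun c => fderiv ℝ f c)
      (fun c hc => ?_) (fun c hc => hc.2)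
    exact (hfd c hc.1).differentiableAt.hasFDerivAt.hasFDerivWithinAt
  have hae : ∀ᵐ a ∂μ, a ∉ f '' s := measure_eq_zero_iff_ae_notMem.mp hnull
  filter_upwards [hae] with a ha q hq hΘ0
  obtain ⟨hq1, hq2, hq3⟩ := hq
  set z : P × Q := (a, q) with hz
  set c : P := π z with hc
  have hΨz : Ψ z = (0, c) := by simp [Ψ, hΘ0, hc]
  have hgz : g (0, c) = z := by rw [← hΨz]; exact h.left_inv hq1
  rw [hΨz] at hq3
  have hgd : DifferentiableAt ℝ g (0, c) := hq3.differentiableAt (by norm_num)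
  have hΨd : DifferentiableAt ℝ Ψ z := hq2.differentiableAt (by norm_num)
  have hfc : f c = a := by simp [f, hgz, hz]
  have hcs : (fderiv ℝ f c).det ≠ 0 := fun hdet => ha ⟨c, ⟨hgd, hdet⟩, hfc⟩
  have hsurj := surjective_of_det_ne_zero hcs
  have hΘd : DifferentiableAt ℝ Θ z := hΨd.fst
  have hΨf : ∀ v, fderiv ℝ Ψ z v = (fderiv ℝ Θ z v, π v) := fun v => by
    have h1 : HasFDerivAt Ψ ((fderiv ℝ Θ z).prod π) z := hΘd.hasFDerivAt.prodMk π.hasFDerivAt
    rw [h1.fderiv]; rfl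
  -- the derivatives are inverse to each other
  have hAB : ∀ v, fderiv ℝ Ψ z (fderiv ℝ g (0, c) v) = v := by
    have hev : (Ψ ∘ g) =ᶠ[𝓝 (0, c)] id := by
      have : (0, c) ∈ h.target := by rw [← hΨz]; exact h.map_source hq1
      filter_upwards [h.open_target.mem_nhds this] with y hy
      exact h.right_inv hy
    have h1 : HasFDerivAt (Ψ ∘ g) ((fderiv ℝ Ψ z).comp (fderiv ℝ g (0, c))) (0, c) := by
      have h2 : HasFDerivAt Ψ (fderiv ℝ Ψ z) (g (0, c)) := by rw [hgz]; exact hΨd.hasFDerivAt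
      exact h2.comp (0, c) hgd.hasFDerivAt
    have h2 := (hasFDerivAt_id (𝕜 := ℝ) ((0, c) : E × P)).congr_of_eventuallyEq hev
    have h3 := h1.unique h2
    intro v
    have := congrArg (fun A => A v) h3
    simpa using this
  intro y
  obtain ⟨c', hc'⟩ := hsurj (fderiv ℝ g (0, c) (y, 0)).1
  rw [(hfd c hgd).fderiv] at hc'
  refine ⟨(fderiv ℝ g (0, c) (y, 0)).2 - (fderiv ℝ g (0, c) (0, c')).2, ?_⟩
  have h1 : fderiv ℝ Θ z (fderiv ℝ g (0, c) (y, 0)) = y := by
    have := congrArg Prod.fst (hAB (y, 0)); rw [hΨf] at this; exact this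
  have h2 : fderiv ℝ Θ z (fderiv ℝ g (0, c) (0, c')) = 0 := by
    have := congrArg Prod.fst (hAB (0, c')); rw [hΨf] at this; exact this
  have h3 : ((0 : P), (fderiv ℝ g (0, c) (y, 0)).2 - (fderiv ℝ g (0, c) (0, c')).2)
      = fderiv ℝ g (0, c) (y, 0) - fderiv ℝ g (0, c) (0, c') := by
    refine Prod.ext ?_ rfl
    have : (fderiv ℝ g (0, c) (0, c')).1 = (fderiv ℝ g (0, c) (y, 0)).1 := hc'
    simp [this]
  show fderiv ℝ Θ z (0, _) = y
  rw [h3, map_sub, h1, h2, sub_zero]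

end Pool.Agent.MP_c86656_gt.Tr
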