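import Pool.Agent.Lib.MP_c86656_gt.TrFamLocal
import Pool.Agent.Lib.MP_c86656_gt.TrSard

/-! Local parametric transversality in a manifold. -/

open Set Filter Topology Manifold Bundle MeasureTheory
open scoped ContDiff NNReal

namespace Pool.Agent.MP_c86656_gt.Tr

set_option linter.unusedSectionVars false

universe u v

variable {E : Type u} [NormedAddCommGroup E] [NormedSpace ℝ E] [FiniteDimensional ℝ E]
  {M : Type v} [MetricSpace M] [ChartedSpace E M] [IsManifold 𝓘(ℝ, E) ∞ M]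

section Open

variable {P : Type*} [NormedAddCommGroup P] [NormedSpace ℝ P] [FiniteDimensional ℝ P]

theorem surjective_eventually {A₀ : P →L[ℝ] E} (h : Function.Surjective A₀) :
    ∀ᶠ A : P →L[ℝ] E in 𝓝 A₀, Function.Surjective A := by
  obtain ⟨B, hB⟩ := LinearMap.exists_rightInverse_of_surjective (A₀ : P →ₗ[ℝ] E)
    (LinearMap.range_eq_top.mpr h)
  let B' : E →L[ℝ] P := LinearMap.toContinuousLinearMap B
  have h1 : A₀.comp B' = 1 := by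
    ext v
    exact congrArg (fun f : E →ₗ[ℝ] E => f v) hB
  have h2 : Continuous (fun A : P →L[ℝ] E => A.comp B') := by fun_prop
  have h3 : ∀ᶠ A in 𝓝 A₀, IsUnit (A.comp B') := by
    refine h2.continuousAt.eventually ?_
    simp only [h1]
    exact Units.nhds (1 : (E →L[ℝ] E)ˣ)
  filter_upwards [h3] with A hA
  obtain ⟨U, hU⟩ := hA
  intro y
  refine ⟨B' ((U⁻¹ : (E →L[ℝ] E)ˣ).1 y), ?_⟩
  have h4 : (A.comp B') * (U⁻¹ : (E →L[ℝ] E)ˣ).1 = 1 := by rw [← hU]; exact U.mul_inv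
  exact congrArg (fun f : E →L[ℝ] E => f y) h4

theorem contDiffAt_two {G : P → M → M}
    (hG : ContMDiff (𝓘(ℝ, P).prod 𝓘(ℝ, E)) 𝓘(ℝ, E) 1 (fun p : P × M => G p.1 p.2))
    {φ ψ : OpenPartialHomeomorph M E} (hφ : φ ∈ charts E M) (hψ : ψ ∈ charts E M) {a : P} {y : E}
    (hy : y ∈ ψ.target) (hx : G a (ψ.symm y) ∈ φ.source) :
    ContDiffAt ℝ 1 (fun p : P × E => φ (G p.1 (ψ.symm p.2))) (a, y) := by
  rw [← contMDiffAt_iff_contDiffAt]
  have e0 : ContMDiffAt 𝓘(ℝ, P × E) 𝓘(ℝ, P) 1 (fun p : P × E => p.1) (a, y) :=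
    (contDiff_fst (𝕜 := ℝ) (E := P) (F := E)).contMDiff.contMDiffAt
  have e1 : ContMDiffAt 𝓘(ℝ, P × E) 𝓘(ℝ, E) 1 (fun p : P × E => ψ.symm p.2) (a, y) :=
    ContMDiffAt.comp (g := ψ.symm) (a, y)
      ((contMDiffAt_symm hψ hy).of_le (WithTop.coe_le_coe.mpr le_top))
      (contDiff_snd (𝕜 := ℝ) (E := P) (F := E)).contMDiff.contMDiffAt
  have h1 : ContMDiffAt 𝓘(ℝ, P × E) 𝓘(ℝ, E) 1 (fun p : P × E => G p.1 (ψ.symm p.2)) (a, y) :=
    ContMDiffAt.comp (g := fun p : P × M => G p.1 p.2) (a, y) hG.contMDiffAt (e0.prodMk e1)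
  exact ContMDiffAt.comp (g := φ) (a, y)
    ((contMDiffAt_chart hφ hx).of_le (WithTop.coe_le_coe.mpr le_top)) h1

theorem spans_eventually {G : P → M → M}
    (hG : ContMDiff (𝓘(ℝ, P).prod 𝓘(ℝ, E)) 𝓘(ℝ, E) 1 (fun p : P × M => G p.1 p.2))
    {a₀ : P} {x₀ : M} (h : SpansAt E G a₀ x₀) :
    ∀ᶠ p : P × M in 𝓝 (a₀, x₀), SpansAt E G p.1 p.2 := by
  set φ := chartAt E (G a₀ x₀) with hφdef
  set ψ := chartAt E x₀ with hψdef
  have hφ : φ ∈ charts E M := IsManifold.chart_mem_maximalAtlas _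
  have hψ : ψ ∈ charts E M := IsManifold.chart_mem_maximalAtlas _
  have hx₀ : x₀ ∈ ψ.source := mem_chart_source E x₀
  have hG₀ : G a₀ x₀ ∈ φ.source := mem_chart_source E _
  let f : P × E → E := fun p => φ (G p.1 (ψ.symm p.2))
  have hchain : ∀ a x, x ∈ ψ.source → G a x ∈ φ.source → ContDiffAt ℝ 1 f (a, ψ x) ∧
      fderiv ℝ (fun a' => φ (G a' x)) a
        = (fderiv ℝ f (a, ψ x)).comp (ContinuousLinearMap.inl ℝ P E) := by
    intro a x hx hGx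
    have h1 : ContDiffAt ℝ 1 f (a, ψ x) :=
      contDiffAt_two hG hφ hψ (ψ.map_source hx) (by rw [ψ.left_inv hx]; exact hGx)
    refine ⟨h1, ?_⟩
    have h2 : HasFDerivAt (fun a' : P => (a', ψ x)) (ContinuousLinearMap.inl ℝ P E) a :=
      hasFDerivAt_prodMk_left a (ψ x)
    have h3 := HasFDerivAt.comp (g := f) a (h1.differentiableAt (by norm_num)).hasFDerivAt h2
    have h4 : (f ∘ fun a' : P => (a', ψ x)) = fun a' => φ (G a' x) := by
      funext a'; simp only [f, Function.comp, ψ.left_inv hx]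
    rw [h4] at h3
    exact h3.fderiv
  have hcont : ContinuousAt (fun p : P × M => (fderiv ℝ f (p.1, ψ p.2)).comp
      (ContinuousLinearMap.inl ℝ P E)) (a₀, x₀) := by
    have h1 := (hchain a₀ x₀ hx₀ hG₀).1
    have h2 : ContinuousAt (fderiv ℝ f) (a₀, ψ x₀) :=
      (h1.fderiv_right (m := 0) (by norm_num)).continuousAt
    have h3 : ContinuousAt (fun p : P × M => (p.1, ψ p.2)) (a₀, x₀) :=
      continuousAt_fst.prodMk (ContinuousAt.comp (g := ψ) (ψ.continuousAt hx₀) continuousAt_snd)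
    have h4 : ContinuousAt (fun p : P × M => fderiv ℝ f (p.1, ψ p.2)) (a₀, x₀) :=
      ContinuousAt.comp (g := fderiv ℝ f) h2 h3
    exact h4.clm_comp continuousAt_const
  have hsurj : Function.Surjective ((fderiv ℝ f (a₀, ψ x₀)).comp (ContinuousLinearMap.inl ℝ P E)) := by
    rw [← (hchain a₀ x₀ hx₀ hG₀).2]
    exact h φ hφ hG₀
  have hev := hcont.eventually (surjective_eventually hsurj)
  have e1 : ∀ᶠ p : P × M in 𝓝 (a₀, x₀), p.2 ∈ ψ.source :=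
    (continuous_snd.tendsto (a₀, x₀)).eventually (ψ.open_source.mem_nhds hx₀)
  have e2 : ∀ᶠ p : P × M in 𝓝 (a₀, x₀), G p.1 p.2 ∈ φ.source :=
    (hG.continuous.tendsto (a₀, x₀)).eventually (φ.open_source.mem_nhds hG₀)
  filter_upwards [hev, e1, e2] with p hp hp1 hp2
  refine spansAt_of_chart hG hφ hp2 ?_
  rw [(hchain p.1 p.2 hp1 hp2).2]
  exact hp

end Open

/-- Transversality at one point. -/
def TransvAt (E : Type u) [NormedAddCommGroup E] [NormedSpace ℝ E] [ChartedSpace E M]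
    (A B : Set M) (p : M) : Prop :=
  ∀ φ ∈ charts E M, p ∈ φ.source →
    ∀ z : E, ∃ v ∈ tangentIn φ A (φ p), ∃ w ∈ tangentIn φ B (φ p), v + w = z

theorem transvAt_of_chart {A B : Set M} {p : M} {φ : OpenPartialHomeomorph M E}
    (hφ : φ ∈ charts E M) (hp : p ∈ φ.source)
    (h : ∀ z : E, ∃ v ∈ tangentIn φ A (φ p), ∃ w ∈ tangentIn φ B (φ p), v + w = z) :
    TransvAt E A B p := by
  intro φ' hφ' hp' z
  obtain ⟨v, hv, w, hw, hvw⟩ := h (fderiv ℝ (fun y => φ (φ'.symm y)) (φ' p) z)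
  refine ⟨_, tangentIn_trans hφ hφ' hp hp' hv, _, tangentIn_trans hφ hφ' hp hp' hw, ?_⟩
  rw [← map_add, hvw, fderiv_trans_comp hφ' hφ hp' hp]

/-- Locally a linear slice of half the dimension. -/
def Slice (E : Type u) [NormedAddCommGroup E] [NormedSpace ℝ E] [ChartedSpace E M]
    (L : Set M) : Prop :=
  ∀ x ∈ L, ∃ φ ∈ charts E M, ∃ V : Submodule ℝ E, x ∈ φ.source ∧
    2 * Module.finrank ℝ V = Module.finrank ℝ E ∧ ∀ y ∈ φ.source, y ∈ L ↔ φ y ∈ V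

variable {P : Type*} [NormedAddCommGroup P] [NormedSpace ℝ P] [FiniteDimensional ℝ P]

theorem exists_proj (V : Submodule ℝ E) : ∃ pj : E →L[ℝ] V, ∀ v : V, pj v = v := by
  obtain ⟨pr, hpr⟩ := LinearMap.exists_leftInverse_of_injective V.subtype (Submodule.ker_subtype V)
  refine ⟨LinearMap.toContinuousLinearMap pr, fun v => ?_⟩
  exact congrArg (fun f : V →ₗ[ℝ] V => f v) hpr

theorem local_transverse [MeasurableSpace P] [BorelSpace P] (μ : Measure P) [μ.IsAddHaarMeasure]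
    {G : P → M → M}
    (hG : ContMDiff (𝓘(ℝ, P).prod 𝓘(ℝ, E)) 𝓘(ℝ, E) 1 (fun p : P × M => G p.1 p.2))
    {κ : M → M} (hκ : ContMDiff 𝓘(ℝ, E) 𝓘(ℝ, E) 1 κ) {L T : Set M} (hL : Slice E L)
    (hT : Slice E T) {a₀ : P} {x₀ q₀ : M} (hx₀ : x₀ ∈ L) (hq₀ : q₀ ∈ T) (he : G a₀ x₀ = κ q₀)
    (hs : SpansAt E G a₀ x₀) :
    ∃ N ∈ 𝓝 (a₀, x₀, q₀), ∀ᵐ a ∂μ, ∀ x ∈ L, ∀ q ∈ T, (a, x, q) ∈ N → G a x = κ q →
      TransvAt E (G a '' L) (κ '' T) (κ q) := by
  obtain ⟨φ₁, hφ₁, V₁, hx₁, hd₁, hV₁⟩ := hL x₀ hx₀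
  obtain ⟨φ₂, hφ₂, V₂, hq₂, hd₂, hV₂⟩ := hT q₀ hq₀
  set φ₃ := chartAt E (κ q₀) with hφ₃def
  have hφ₃ : φ₃ ∈ charts E M := IsManifold.chart_mem_maximalAtlas _
  have hκ₀ : κ q₀ ∈ φ₃.source := mem_chart_source E _
  let Θ : P × (V₁ × V₂) → E := fun z =>
    φ₃ (G z.1 (φ₁.symm (z.2.1 : E))) - φ₃ (κ (φ₂.symm (z.2.2 : E)))
  have hΘ : ∀ z : P × (V₁ × V₂), (z.2.1 : E) ∈ φ₁.target → (z.2.2 : E) ∈ φ₂.target →
      G z.1 (φ₁.symm (z.2.1 : E)) ∈ φ₃.source → κ (φ₂.symm (z.2.2 : E)) ∈ φ₃.source →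
      ContDiffAt ℝ 1 Θ z := by
    intro z h1 h2 h3 h4
    have e1 : ContDiff ℝ 1 (fun z : P × (V₁ × V₂) => (z.1, (z.2.1 : E))) :=
      contDiff_fst.prodMk (V₁.subtypeL.contDiff.comp (contDiff_fst.comp contDiff_snd))
    have e2 : ContDiffAt ℝ 1 (fun z : P × (V₁ × V₂) => φ₃ (G z.1 (φ₁.symm (z.2.1 : E)))) z :=
      ContDiffAt.comp (g := fun p : P × E => φ₃ (G p.1 (φ₁.symm p.2))) z
        (contDiffAt_two hG hφ₃ hφ₁ h1 h3) e1.contDiffAt
    have e3 : ContDiff ℝ 1 (fun z : P × (V₁ × V₂) => (z.2.2 : E)) :=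
      V₂.subtypeL.contDiff.comp (contDiff_snd.comp contDiff_snd)
    have e4 : ContDiffAt ℝ 1 (fun y : E => φ₃ (κ (φ₂.symm y))) (z.2.2 : E) := by
      rw [← contMDiffAt_iff_contDiffAt]
      refine ContMDiffAt.comp (g := φ₃) (z.2.2 : E)
        ((contMDiffAt_chart hφ₃ h4).of_le (WithTop.coe_le_coe.mpr le_top)) ?_
      exact ContMDiffAt.comp (g := κ) (z.2.2 : E) hκ.contMDiffAt
        ((contMDiffAt_symm hφ₂ h2).of_le (WithTop.coe_le_coe.mpr le_top))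
    have e5 : ContDiffAt ℝ 1 (fun z : P × (V₁ × V₂) => φ₃ (κ (φ₂.symm (z.2.2 : E)))) z :=
      ContDiffAt.comp (g := fun y : E => φ₃ (κ (φ₂.symm y))) z e4 e3.contDiffAt
    exact e2.sub e5
  have hu₀ : φ₁ x₀ ∈ V₁ := (hV₁ x₀ hx₁).mp hx₀
  have hw₀ : φ₂ q₀ ∈ V₂ := (hV₂ q₀ hq₂).mp hq₀
  let z₀ : P × (V₁ × V₂) := (a₀, (⟨φ₁ x₀, hu₀⟩, ⟨φ₂ q₀, hw₀⟩))
  have hz₀ : ContDiffAt ℝ 1 Θ z₀ := by
    refine hΘ z₀ (φ₁.map_source hx₁) (φ₂.map_source hq₂) ?_ ?_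
    · show G a₀ (φ₁.symm (φ₁ x₀)) ∈ φ₃.source
      rw [φ₁.left_inv hx₁, he]; exact hκ₀
    · show κ (φ₂.symm (φ₂ q₀)) ∈ φ₃.source
      rw [φ₂.left_inv hq₂]; exact hκ₀
  have hsurj : Function.Surjective (fderiv ℝ Θ z₀) := by
    intro y
    obtain ⟨b, hb⟩ := hs φ₃ hφ₃ (by rw [he]; exact hκ₀) y
    refine ⟨(b, 0), ?_⟩
    have h2 : HasFDerivAt (fun a : P => (a, z₀.2)) (ContinuousLinearMap.inl ℝ P (V₁ × V₂)) a₀ :=
      hasFDerivAt_prodMk_left a₀ z₀.2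
    have h3 := HasFDerivAt.comp (g := Θ) a₀ (hz₀.differentiableAt (by norm_num)).hasFDerivAt h2
    have h4 : (Θ ∘ fun a : P => (a, z₀.2)) = fun a => φ₃ (G a x₀) - φ₃ (κ q₀) := by
      funext a
      show φ₃ (G a (φ₁.symm (φ₁ x₀))) - φ₃ (κ (φ₂.symm (φ₂ q₀))) = _
      rw [φ₁.left_inv hx₁, φ₂.left_inv hq₂]
    rw [h4] at h3
    have h5 := (contDiffAt_param hG hφ₃ (by rw [he]; exact hκ₀) :
      ContDiffAt ℝ 1 (fun a' => φ₃ (G a' x₀)) a₀).differentiableAt (by norm_num)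
    have h6 := h3.unique (h5.hasFDerivAt.sub_const (φ₃ (κ q₀)))
    have h7 := congrArg (fun f : P →L[ℝ] E => f b) h6
    have h8 : fderiv ℝ Θ z₀ (b, 0) = fderiv ℝ (fun a' => φ₃ (G a' x₀)) a₀ b := h7
    rw [h8, hb]
  have hdim : Module.finrank ℝ (V₁ × V₂) = Module.finrank ℝ E := by
    rw [Module.finrank_prod]; omega
  obtain ⟨N₁, hN₁, hae⟩ := local_sard μ hdim hz₀ hsurj
  obtain ⟨pj₁, hpj₁⟩ := exists_proj V₁
  obtain ⟨pj₂, hpj₂⟩ := exists_proj V₂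
  let ρ : P × M × M → P × (V₁ × V₂) := fun p => (p.1, (pj₁ (φ₁ p.2.1), pj₂ (φ₂ p.2.2)))
  have hρ₀ : ρ (a₀, x₀, q₀) = z₀ :=
    Prod.ext rfl (Prod.ext (hpj₁ ⟨φ₁ x₀, hu₀⟩) (hpj₂ ⟨φ₂ q₀, hw₀⟩))
  have hρc : ContinuousAt ρ (a₀, x₀, q₀) := by
    have c1 : ContinuousAt (fun p : P × M × M => p.2.1) (a₀, x₀, q₀) := by fun_prop
    have c2 : ContinuousAt (fun p : P × M × M => p.2.2) (a₀, x₀, q₀) := by fun_prop
    have c3 : ContinuousAt (fun p : P × M × M => φ₁ p.2.1) (a₀, x₀, q₀) :=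
      ContinuousAt.comp (g := φ₁) (φ₁.continuousAt hx₁) c1
    have c4 : ContinuousAt (fun p : P × M × M => φ₂ p.2.2) (a₀, x₀, q₀) :=
      ContinuousAt.comp (g := φ₂) (φ₂.continuousAt hq₂) c2
    have c5 : ContinuousAt (fun p : P × M × M => pj₁ (φ₁ p.2.1)) (a₀, x₀, q₀) :=
      ContinuousAt.comp (g := pj₁) pj₁.continuous.continuousAt c3
    have c6 : ContinuousAt (fun p : P × M × M => pj₂ (φ₂ p.2.2)) (a₀, x₀, q₀) :=
      ContinuousAt.comp (g := pj₂) pj₂.continuous.continuousAt c4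
    exact continuousAt_fst.prodMk (c5.prodMk c6)
  have n1 : ∀ᶠ p : P × M × M in 𝓝 (a₀, x₀, q₀), p.2.1 ∈ φ₁.source :=
    ((continuous_fst.comp continuous_snd).tendsto (a₀, x₀, q₀)).eventually
      (φ₁.open_source.mem_nhds hx₁)
  have n2 : ∀ᶠ p : P × M × M in 𝓝 (a₀, x₀, q₀), p.2.2 ∈ φ₂.source :=
    ((continuous_snd.comp continuous_snd).tendsto (a₀, x₀, q₀)).eventually
      (φ₂.open_source.mem_nhds hq₂)
  have n3 : ∀ᶠ p : P × M × M in 𝓝 (a₀, x₀, q₀), κ p.2.2 ∈ φ₃.source :=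
    ((hκ.continuous.comp (continuous_snd.comp continuous_snd)).tendsto (a₀, x₀, q₀)).eventually
      (φ₃.open_source.mem_nhds hκ₀)
  have n4 : ∀ᶠ p : P × M × M in 𝓝 (a₀, x₀, q₀), ρ p ∈ N₁ := hρc.eventually (by rw [hρ₀]; exact hN₁)
  refine ⟨{p | p.2.1 ∈ φ₁.source ∧ p.2.2 ∈ φ₂.source ∧ κ p.2.2 ∈ φ₃.source ∧ ρ p ∈ N₁},
    n1.and (n2.and (n3.and n4)), ?_⟩
  filter_upwards [hae] with a ha x hx q hq hN heq
  obtain ⟨m1, m2, m3, m4⟩ := hN
  have m1 : x ∈ φ₁.source := m1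
  have m2 : q ∈ φ₂.source := m2
  have m3 : κ q ∈ φ₃.source := m3
  have hu : φ₁ x ∈ V₁ := (hV₁ x m1).mp hx
  have hw : φ₂ q ∈ V₂ := (hV₂ q m2).mp hq
  have hρz : ρ (a, x, q) = (a, ((⟨φ₁ x, hu⟩ : V₁), (⟨φ₂ q, hw⟩ : V₂))) :=
    Prod.ext rfl (Prod.ext (hpj₁ ⟨φ₁ x, hu⟩) (hpj₂ ⟨φ₂ q, hw⟩))
  rw [hρz] at m4
  set u : V₁ := ⟨φ₁ x, hu⟩ with hudef
  set w : V₂ := ⟨φ₂ q, hw⟩ with hwdef
  have hGx : G a x ∈ φ₃.source := by rw [heq]; exact m3
  have hΘz : Θ (a, (u, w)) = 0 := by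
    show φ₃ (G a (φ₁.symm (φ₁ x))) - φ₃ (κ (φ₂.symm (φ₂ q))) = 0
    rw [φ₁.left_inv m1, φ₂.left_inv m2, heq, sub_self]
  have hsur := ha (u, w) m4 hΘz
  have hdz : DifferentiableAt ℝ Θ (a, (u, w)) := by
    refine (hΘ (a, (u, w)) (φ₁.map_source m1) (φ₂.map_source m2) ?_ ?_).differentiableAt
      (by norm_num)
    · show G a (φ₁.symm (φ₁ x)) ∈ φ₃.source
      rw [φ₁.left_inv m1]; exact hGx
    · show κ (φ₂.symm (φ₂ q)) ∈ φ₃.source
      rw [φ₂.left_inv m2]; exact m3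
  refine transvAt_of_chart hφ₃ m3 fun y => ?_
  obtain ⟨⟨u', w'⟩, huw⟩ := hsur y
  simp only at huw
  refine ⟨fderiv ℝ Θ (a, (u, w)) (0, (u', 0)), ?_, fderiv ℝ Θ (a, (u, w)) (0, (0, w')), ?_, ?_⟩
  · -- curve in `G a '' L`
    have hline : HasDerivAt (fun s : ℝ => ((a, (u + s • u', w)) : P × (V₁ × V₂)))
        ((0 : P), (u', (0 : V₂))) 0 := by
      have l1 : HasDerivAt (fun s : ℝ => u + s • u') u' 0 := by
        simpa using ((hasDerivAt_id (0 : ℝ)).smul_const u').const_add u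
      exact (hasDerivAt_const (0 : ℝ) a).prodMk (l1.prodMk (hasDerivAt_const (0 : ℝ) w))
    have hat : ((a, (u + (0 : ℝ) • u', w)) : P × (V₁ × V₂)) = (a, (u, w)) := by simp
    have hder : HasDerivAt (fun s : ℝ => Θ (a, (u + s • u', w)))
        (fderiv ℝ Θ (a, (u, w)) (0, (u', 0))) 0 := by
      refine HasFDerivAt.comp_hasDerivAt (l := Θ) (0 : ℝ) ?_ hline
      rw [hat]; exact hdz.hasFDerivAt
    refine ⟨fun s => φ₃ (G a (φ₁.symm ((u + s • u' : V₁) : E))), ?_, ?_, ?_⟩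
    · show φ₃ (G a (φ₁.symm ((u + (0 : ℝ) • u' : V₁) : E))) = φ₃ (κ q)
      rw [zero_smul, add_zero]
      show φ₃ (G a (φ₁.symm (φ₁ x))) = φ₃ (κ q)
      rw [φ₁.left_inv m1, heq]
    · have e1 : (fun s : ℝ => φ₃ (G a (φ₁.symm ((u + s • u' : V₁) : E))))
          = fun s => Θ (a, (u + s • u', w)) + φ₃ (κ q) := by
        funext s
        show _ = φ₃ (G a (φ₁.symm ((u + s • u' : V₁) : E))) - φ₃ (κ (φ₂.symm (φ₂ q))) + φ₃ (κ q)
        rw [φ₂.left_inv m2]; abel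
      rw [e1]
      exact hder.add_const _
    · have c1 : ContinuousAt (fun s : ℝ => ((u + s • u' : V₁) : E)) 0 := by fun_prop
      have c1' : ((u + (0 : ℝ) • u' : V₁) : E) = φ₁ x := by simp [hudef]
      have t1 : ∀ᶠ s : ℝ in 𝓝 0, ((u + s • u' : V₁) : E) ∈ φ₁.target := by
        refine c1.eventually ?_
        simp only [c1']; exact φ₁.open_target.mem_nhds (φ₁.map_source m1)
      have c2 : ContinuousAt (fun s : ℝ => φ₁.symm ((u + s • u' : V₁) : E)) 0 := by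
        refine ContinuousAt.comp (g := φ₁.symm) ?_ c1
        rw [c1']; exact φ₁.continuousAt_symm (φ₁.map_source m1)
      have c3 : ContinuousAt (fun s : ℝ => G a (φ₁.symm ((u + s • u' : V₁) : E))) 0 :=
        ContinuousAt.comp (g := G a)
          (hG.continuous.comp (continuous_const.prodMk continuous_id)).continuousAt c2
      have t2 : ∀ᶠ s : ℝ in 𝓝 0, G a (φ₁.symm ((u + s • u' : V₁) : E)) ∈ φ₃.source := by
        refine c3.eventually ?_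
        simp only [zero_smul, add_zero]
        rw [show ((u : V₁) : E) = φ₁ x from rfl, φ₁.left_inv m1]
        exact φ₃.open_source.mem_nhds hGx
      filter_upwards [t1, t2] with s hs1 hs2
      refine ⟨φ₃.map_source hs2, ?_⟩
      rw [φ₃.left_inv hs2]
      refine mem_image_of_mem _ ?_
      rw [hV₁ _ (φ₁.map_target hs1), φ₁.right_inv hs1]
      exact (u + s • u').2
  · -- curve in `κ '' T`
    have hline : HasDerivAt (fun s : ℝ => ((a, (u, w - s • w')) : P × (V₁ × V₂)))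
        ((0 : P), ((0 : V₁), -w')) 0 := by
      have l1 : HasDerivAt (fun s : ℝ => w - s • w') (-w') 0 := by
        simpa using ((hasDerivAt_id (0 : ℝ)).smul_const w').const_sub w
      exact (hasDerivAt_const (0 : ℝ) a).prodMk ((hasDerivAt_const (0 : ℝ) u).prodMk l1)
    have hat : ((a, (u, w - (0 : ℝ) • w')) : P × (V₁ × V₂)) = (a, (u, w)) := by simp
    have hder : HasDerivAt (fun s : ℝ => Θ (a, (u, w - s • w')))
        (fderiv ℝ Θ (a, (u, w)) (0, (0, -w'))) 0 := by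
      refine HasFDerivAt.comp_hasDerivAt (l := Θ) (0 : ℝ) ?_ hline
      rw [hat]; exact hdz.hasFDerivAt
    refine ⟨fun s => φ₃ (κ (φ₂.symm ((w - s • w' : V₂) : E))), ?_, ?_, ?_⟩
    · show φ₃ (κ (φ₂.symm ((w - (0 : ℝ) • w' : V₂) : E))) = φ₃ (κ q)
      rw [zero_smul, sub_zero]
      show φ₃ (κ (φ₂.symm (φ₂ q))) = φ₃ (κ q)
      rw [φ₂.left_inv m2]
    · have e1 : (fun s : ℝ => φ₃ (κ (φ₂.symm ((w - s • w' : V₂) : E))))
          = fun s => φ₃ (G a x) - Θ (a, (u, w - s • w')) := by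
        funext s
        show _ = φ₃ (G a x) - (φ₃ (G a (φ₁.symm (φ₁ x))) - φ₃ (κ (φ₂.symm ((w - s • w' : V₂) : E))))
        rw [φ₁.left_inv m1]; abel
      rw [e1]
      have e2 : fderiv ℝ Θ (a, (u, w)) (0, (0, w'))
          = -(fderiv ℝ Θ (a, (u, w)) (0, (0, -w'))) := by
        rw [← map_neg]; simp
      rw [e2]
      exact hder.const_sub _
    · have c1 : ContinuousAt (fun s : ℝ => ((w - s • w' : V₂) : E)) 0 := by fun_prop
      have c1' : ((w - (0 : ℝ) • w' : V₂) : E) = φ₂ q := by simp [hwdef]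
      have t1 : ∀ᶠ s : ℝ in 𝓝 0, ((w - s • w' : V₂) : E) ∈ φ₂.target := by
        refine c1.eventually ?_
        simp only [c1']; exact φ₂.open_target.mem_nhds (φ₂.map_source m2)
      have c2 : ContinuousAt (fun s : ℝ => φ₂.symm ((w - s • w' : V₂) : E)) 0 := by
        refine ContinuousAt.comp (g := φ₂.symm) ?_ c1
        rw [c1']; exact φ₂.continuousAt_symm (φ₂.map_source m2)
      have c3 : ContinuousAt (fun s : ℝ => κ (φ₂.symm ((w - s • w' : V₂) : E))) 0 :=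
        ContinuousAt.comp (g := κ) hκ.continuous.continuousAt c2
      have t2 : ∀ᶠ s : ℝ in 𝓝 0, κ (φ₂.symm ((w - s • w' : V₂) : E)) ∈ φ₃.source := by
        refine c3.eventually ?_
        simp only [zero_smul, sub_zero]
        rw [show ((w : V₂) : E) = φ₂ q from rfl, φ₂.left_inv m2]
        exact φ₃.open_source.mem_nhds m3
      filter_upwards [t1, t2] with s hs1 hs2
      refine ⟨φ₃.map_source hs2, ?_⟩
      rw [φ₃.left_inv hs2]
      refine mem_image_of_mem _ ?_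
      rw [hV₂ _ (φ₂.map_target hs1), φ₂.right_inv hs1]
      exact (w - s • w').2
  · rw [← map_add, ← huw]
    simp

end Pool.Agent.MP_c86656_gt.Tr
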