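import Pool.Agent.Lib.MP_c86656_gt.TrFlow

/-! Flows of vector fields depending linearly on a parameter (cut off near zero). -/

open Set Filter Topology Metric
open scoped ContDiff NNReal

namespace Pool.Agent.MP_c86656_gt.Tr

set_option linter.unusedSectionVars false

variable {P E : Type*} [NormedAddCommGroup P] [NormedSpace ℝ P] [FiniteDimensional ℝ P]
  [NormedAddCommGroup E] [NormedSpace ℝ E] [FiniteDimensional ℝ E]

/-- Cut off in the parameter. -/
noncomputable def bump (P : Type*) [NormedAddCommGroup P] [NormedSpace ℝ P] :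
    ContDiffBump (0 : P) := ⟨1, 2, by norm_num, by norm_num⟩

noncomputable def cut (α : P) : P := bump P α • α

theorem cut_contDiff : ContDiff ℝ ∞ (cut : P → P) :=
  (bump P).contDiff.smul contDiff_id

theorem cut_compact : HasCompactSupport (cut : P → P) :=
  (bump P).hasCompactSupport.smul_right

theorem cut_norm_le (α : P) : ‖cut α‖ ≤ ‖α‖ := by
  simp only [cut, norm_smul, Real.norm_eq_abs, abs_of_nonneg (bump P).nonneg]
  exact mul_le_of_le_one_left (norm_nonneg _) (bump P).le_one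

theorem cut_zero : cut (0 : P) = 0 := by simp [cut]

theorem cut_eventually : (cut : P → P) =ᶠ[𝓝 0] id := by
  filter_upwards [(bump P).eventuallyEq_one] with α hα
  simp only [cut, hα, Pi.one_apply, one_smul, id]

theorem hasFDerivAt_cut : HasFDerivAt (cut : P → P) (ContinuousLinearMap.id ℝ P) 0 :=
  (hasFDerivAt_id (𝕜 := ℝ) (0 : P)).congr_of_eventuallyEq cut_eventually

/-- The extended vector field. -/
noncomputable def YY (B : E → P →L[ℝ] E) (p : P × E) : P × E := (0, B p.2 (cut p.1))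

theorem YY_contDiff {B : E → P →L[ℝ] E} (hB : ContDiff ℝ ∞ B) : ContDiff ℝ ∞ (YY B) :=
  contDiff_const.prodMk
    ((hB.comp contDiff_snd).clm_apply (cut_contDiff.comp contDiff_fst))

theorem YY_compact {B : E → P →L[ℝ] E} {K : Set E} (hK : IsCompact K)
    (hBK : ∀ y, y ∉ K → B y = 0) : HasCompactSupport (YY B) := by
  refine HasCompactSupport.intro (cut_compact.prod hK) (fun p hp => ?_)
  rw [mem_prod, not_and_or] at hp
  rcases hp with hp | hp
  · simp [YY, image_eq_zero_of_notMem_tsupport hp]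
  · simp [YY, hBK _ hp]

theorem YY_hasFDerivAt {B : E → P →L[ℝ] E} (hB : ContDiff ℝ ∞ B) (y : E) :
    HasFDerivAt (YY B)
      ((ContinuousLinearMap.inr ℝ P E).comp
        ((B y).comp (ContinuousLinearMap.fst ℝ P E))) (0, y) := by
  have h1 : HasFDerivAt (fun p : P × E => B p.2)
      ((fderiv ℝ B y).comp (ContinuousLinearMap.snd ℝ P E)) (0, y) :=
    HasFDerivAt.comp (g := B) ((0 : P), y)
      ((hB.differentiable (by simp)).differentiableAt.hasFDerivAt) hasFDerivAt_snd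
  have h2 : HasFDerivAt (fun p : P × E => cut p.1)
      ((ContinuousLinearMap.id ℝ P).comp (ContinuousLinearMap.fst ℝ P E))
      (0, y) :=
    HasFDerivAt.comp (g := cut) ((0 : P), y) hasFDerivAt_cut hasFDerivAt_fst
  have h3 := h1.clm_apply h2
  have h4 := (hasFDerivAt_const (0 : P) ((0 : P), y)).prodMk h3
  have h5 : ContinuousLinearMap.prod (0 : P × E →L[ℝ] P)
      ((B ((0 : P), y).2).comp ((ContinuousLinearMap.id ℝ P).comp (ContinuousLinearMap.fst ℝ P E)) +
        ((fderiv ℝ B y).comp (ContinuousLinearMap.snd ℝ P E)).flip (cut ((0 : P), y).1))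
      = (ContinuousLinearMap.inr ℝ P E).comp
        ((B y).comp (ContinuousLinearMap.fst ℝ P E)) := by
    ext v <;> simp [cut_zero]
  rw [h5] at h4
  exact h4

theorem zero_mem : (0 : ℝ) ∈ Ioo (-1 : ℝ) 2 := by constructor <;> norm_num

/-- The flow, with its dependence on the parameter. -/
theorem exists_F {B : E → P →L[ℝ] E} (hB : ContDiff ℝ ∞ B) {K : Set E} (hK : IsCompact K)
    (hBK : ∀ y, y ∉ K → B y = 0) : ∃ F : ℝ → P → E → E,
    (∀ α y, F 0 α y = y) ∧
    (∀ α y, ∀ t ∈ Ioo (-1 : ℝ) 2, HasDerivAt (fun s => F s α y) (B (F t α y) (cut α)) t) ∧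
    (∀ α y, y ∉ K → ∀ t ∈ Ioo (-1 : ℝ) 2, F t α y = y) ∧
    (∀ α y, y ∈ K → ∀ t ∈ Ioo (-1 : ℝ) 2, F t α y ∈ K) ∧
    ContDiff ℝ 1 (fun p : P × E => F 1 p.1 p.2) ∧
    (∀ y, HasFDerivAt (fun α => F 1 α y) (B y) 0) ∧
    (∀ y, ∀ t ∈ Ioo (-1 : ℝ) 2, F t 0 y = y) ∧
    ∃ C : ℝ, 0 ≤ C ∧ ∀ α y, ∀ t ∈ Icc (0 : ℝ) 1, ‖F t α y - y‖ ≤ C * ‖α‖ := by
  have hY2 : ContDiff ℝ 2 (YY B) := (YY_contDiff hB).of_le (WithTop.coe_le_coe.mpr le_top)
  have hY1 : ContDiff ℝ 1 (YY B) := hY2.of_le (by norm_num)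
  have hYc := YY_compact hK hBK
  obtain ⟨L, hL⟩ := lip_of_support hY1 hYc
  obtain ⟨C, hC⟩ := bdd_of_support hY1 hYc
  obtain ⟨Ψ, h0, hΨ⟩ := exists_flow hL hC
  have hfst : ∀ α y, ∀ t ∈ Ioo (-1 : ℝ) 2, (Ψ t (α, y)).1 = α := by
    intro α y t ht
    have hd : ∀ s ∈ Ioo (-1 : ℝ) 2, HasDerivAt (fun s => (Ψ s (α, y)).1) 0 s := fun s hs => by
      have := (ContinuousLinearMap.fst ℝ P E).hasFDerivAt.comp_hasDerivAt s
        (hΨ (α, y) s hs)
      exact this
    have := isOpen_Ioo.is_const_of_deriv_eq_zero isPreconnected_Ioo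
      (fun s hs => (hd s hs).differentiableAt.differentiableWithinAt)
      (fun s hs => (hd s hs).deriv) ht zero_mem
    rw [this, h0]
  have hd : ∀ α y, ∀ t ∈ Ioo (-1 : ℝ) 2,
      HasDerivAt (fun s => (Ψ s (α, y)).2) (B (Ψ t (α, y)).2 (cut α)) t := by
    intro α y t ht
    have h1 := (ContinuousLinearMap.snd ℝ P E).hasFDerivAt.comp_hasDerivAt t
        (hΨ (α, y) t ht)
    have h2 : (YY B (Ψ t (α, y))).2 = B (Ψ t (α, y)).2 (cut α) := by
      simp only [YY, hfst α y t ht]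
    rw [← h2]
    exact h1
  have hout : ∀ α y, y ∉ K → ∀ t ∈ Ioo (-1 : ℝ) 2, (Ψ t (α, y)).2 = y := by
    intro α y hy t ht
    have := sol_const hL (hΨ (α, y)) zero_mem (by rw [h0]; simp [YY, hBK y hy]) t ht
    rw [this, h0]
  have hflow1 : ContDiff ℝ 1 (Ψ 1) := flow_contDiff hY2 hYc h0 hΨ
  refine ⟨fun t α y => (Ψ t (α, y)).2, fun α y => by simp [h0], hd, hout, ?_, ?_, ?_, ?_, ?_⟩
  · intro α y hy t ht
    by_contra hcon
    have h1 := sol_const hL (hΨ (α, y)) ht (by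
      show YY B (Ψ t (α, y)) = 0
      simp [YY, hBK _ hcon]) 0 zero_mem
    rw [h0] at h1
    have h2 : y = (Ψ t (α, y)).2 := congrArg Prod.snd h1
    apply hcon
    show (Ψ t (α, y)).2 ∈ K
    rw [← h2]; exact hy
  · exact contDiff_snd.comp hflow1
  · intro y
    have h1 := flow_hasFDerivAt_of_zero hY2 hYc h0 hΨ (w := (0, y))
      (by simp [YY, cut_zero]) (fun v => by rw [(YY_hasFDerivAt hB y).fderiv]; simp)
    rw [(YY_hasFDerivAt hB y).fderiv] at h1
    have h2 : HasFDerivAt (fun α : P => (α, y)) (ContinuousLinearMap.inl ℝ P E)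
        (0 : P) := hasFDerivAt_prodMk_left (0 : P) y
    have h3 : HasFDerivAt (fun α : P => (Ψ 1 (α, y)).2) _ (0 : P) :=
      (ContinuousLinearMap.snd ℝ P E).hasFDerivAt.comp (0 : P)
        (HasFDerivAt.comp (g := Ψ 1) (0 : P) h1 h2)
    have h4 : (ContinuousLinearMap.snd ℝ P E).comp
        (((ContinuousLinearMap.id ℝ (P × E)) + (ContinuousLinearMap.inr ℝ P E).comp
        ((B y).comp (ContinuousLinearMap.fst ℝ P E))).comp (ContinuousLinearMap.inl ℝ P E))
        = B y := by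
      ext v; simp
    rw [h4] at h3
    exact h3
  · intro y t ht
    have := sol_const hL (hΨ (0, y)) zero_mem (by rw [h0]; simp [YY, cut_zero]) t ht
    show (Ψ t (0, y)).2 = y
    rw [this, h0]
  · obtain ⟨C', hC'⟩ := bdd_of_support (Y := B)
      (hB.of_le (WithTop.coe_le_coe.mpr le_top)) (HasCompactSupport.intro hK hBK)
    refine ⟨C', C'.2, fun α y t ht => ?_⟩
    have h1 : ∀ s ∈ Icc (0 : ℝ) 1, HasDerivWithinAt (fun s => (Ψ s (α, y)).2)
        (B (Ψ s (α, y)).2 (cut α)) (Icc (0 : ℝ) 1) s := fun s hs =>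
      (hd α y s ⟨by linarith [hs.1], by linarith [hs.2]⟩).hasDerivWithinAt
    have h2 := (convex_Icc (0 : ℝ) 1).norm_image_sub_le_of_norm_hasDerivWithin_le h1
      (C := C' * ‖α‖) (fun s _ => ((B _).le_opNorm _).trans
        (mul_le_mul (hC' _) (cut_norm_le α) (norm_nonneg _) C'.2))
      (left_mem_Icc.mpr zero_le_one) ht
    have h3 : ‖t - 0‖ ≤ 1 := by
      rw [sub_zero, Real.norm_eq_abs, abs_le]; constructor <;> linarith [ht.1, ht.2]
    simp only [h0] at h2
    refine h2.trans ?_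
    exact mul_le_of_le_one_right (mul_nonneg C'.2 (norm_nonneg _)) h3

end Pool.Agent.MP_c86656_gt.Tr
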