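import Pool.Agent.Lib.MP_c86656_gt.TrChart

/-! Small Hamiltonian isotopies and their composition. -/

open Set Filter Topology Manifold Bundle
open scoped ContDiff NNReal

namespace Pool.Agent.MP_c86656_gt.Tr

set_option linter.unusedSectionVars false

variable {E : Type*} [NormedAddCommGroup E] [NormedSpace ℝ E] [FiniteDimensional ℝ E]
  {M : Type*} [MetricSpace M] [ChartedSpace E M] [IsManifold 𝓘(ℝ, E) ∞ M]
  [RiemannianBundle (fun x : M => TangentSpace 𝓘(ℝ, E) x)]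

/-- Hamiltonian isotopies, small in a pointwise sense. -/
def SmallH (J : EndField E M) (η : ℝ) (ψ : M → M) : Prop :=
  ∃ (H : ℝ → M → ℝ) (Φ : ℝ → M → M) (C : Set M),
    ContMDiff (𝓘(ℝ, ℝ).prod 𝓘(ℝ, E)) 𝓘(ℝ, ℝ) ∞ (fun p : ℝ × M => H p.1 p.2) ∧
    IsCompact C ∧ (∀ t, ∀ x ∉ C, H t x = 0) ∧
    (∀ x, Φ 0 x = x ∧ Φ 1 x = ψ x ∧ ContinuousOn (fun t => Φ t x) (Icc 0 1)) ∧
    (∀ x, ∀ t ∈ Icc (0 : ℝ) 1, ∀ φ ∈ charts E M, Φ t x ∈ φ.source →
      ∃ X : E, HasDerivWithinAt (fun s => φ (Φ s x)) X (Icc 0 1) t ∧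
        ∀ w, omegaIn J φ (φ (Φ t x)) X w = fderiv ℝ (fun y => H t (φ.symm y)) (φ (Φ t x)) w) ∧
    (∀ x, ∀ t ∈ Icc (0 : ℝ) 1, dist x (Φ t x) ≤ η) ∧
    ∀ t x, |H t x| ≤ η

theorem SmallH.mono {J : EndField E M} {η η' : ℝ} (h : η ≤ η') {ψ : M → M} (hs : SmallH J η ψ) :
    SmallH J η' ψ := by
  obtain ⟨H, Φ, C, h1, h2, h3, h4, h5, h6, h7⟩ := hs
  exact ⟨H, Φ, C, h1, h2, h3, h4, h5, fun x t ht => (h6 x t ht).trans h,
    fun t x => (h7 t x).trans h⟩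

theorem SmallH.isSmall {J : EndField E M} {η : ℝ} (hη : 0 < η) {ψ : M → M} (hs : SmallH J η ψ) :
    IsSmallHamiltonian J (3 * η) ψ := by
  obtain ⟨H, Φ, C, h1, h2, h3, h4, h5, h6, h7⟩ := hs
  refine ⟨H, Φ, C, h1, h2, h3, h4, h5, fun x t ht => (h6 x t ht).trans_lt (by linarith), ?_⟩
  have hb : ∀ t ∈ uIoc (0 : ℝ) 1, ‖(⨆ x, H t x) - ⨅ x, H t x‖ ≤ 2 * η := by
    intro t _
    have ha : (⨆ x, H t x) ≤ η := Real.iSup_le (fun x => (abs_le.mp (h7 t x)).2) hη.le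
    have hb : -η ≤ ⨅ x, H t x := Real.le_iInf (fun x => (abs_le.mp (h7 t x)).1) (by linarith)
    have hc : (⨅ x, H t x) ≤ ⨆ x, H t x := by
      rcases isEmpty_or_nonempty M with hM | hM
      · simp
      · refine (ciInf_le ⟨-η, ?_⟩ (Classical.arbitrary M)).trans (le_ciSup ⟨η, ?_⟩ _)
        · rintro _ ⟨x, rfl⟩; exact (abs_le.mp (h7 t x)).1
        · rintro _ ⟨x, rfl⟩; exact (abs_le.mp (h7 t x)).2
    rw [Real.norm_eq_abs, abs_of_nonneg (by linarith)]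
    linarith
  have := intervalIntegral.norm_integral_le_of_norm_le_const hb
  rw [sub_zero, abs_one, mul_one] at this
  exact (le_abs_self _).trans_lt (by rw [← Real.norm_eq_abs]; linarith)

/-- Two smooth steps with disjoint transition regions. -/
noncomputable def b1 (t : ℝ) : ℝ := Real.smoothTransition (5 / 2 * t)
noncomputable def b2 (t : ℝ) : ℝ := Real.smoothTransition (5 / 2 * t - 3 / 2)

theorem b1_contDiff : ContDiff ℝ ∞ b1 :=
  Real.smoothTransition.contDiff.comp (contDiff_const.mul contDiff_id)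
theorem b2_contDiff : ContDiff ℝ ∞ b2 :=
  Real.smoothTransition.contDiff.comp ((contDiff_const.mul contDiff_id).sub contDiff_const)

theorem b1_mem (t : ℝ) : b1 t ∈ Icc (0 : ℝ) 1 :=
  ⟨Real.smoothTransition.nonneg _, Real.smoothTransition.le_one _⟩
theorem b2_mem (t : ℝ) : b2 t ∈ Icc (0 : ℝ) 1 :=
  ⟨Real.smoothTransition.nonneg _, Real.smoothTransition.le_one _⟩
theorem b1_zero {t : ℝ} (h : t ≤ 0) : b1 t = 0 :=
  Real.smoothTransition.zero_of_nonpos (by linarith)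
theorem b2_zero {t : ℝ} (h : t ≤ 3 / 5) : b2 t = 0 :=
  Real.smoothTransition.zero_of_nonpos (by linarith)
theorem b1_one {t : ℝ} (h : 2 / 5 ≤ t) : b1 t = 1 :=
  Real.smoothTransition.one_of_one_le (by linarith)
theorem b2_one {t : ℝ} (h : 1 ≤ t) : b2 t = 1 :=
  Real.smoothTransition.one_of_one_le (by linarith)

theorem deriv_b1 {t : ℝ} (h : 2 / 5 < t) : deriv b1 t = 0 := by
  have : b1 =ᶠ[𝓝 t] fun _ => 1 := by
    filter_upwards [Ioi_mem_nhds h] with s hs using b1_one (le_of_lt hs)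
  rw [this.deriv_eq]; simp
theorem deriv_b2 {t : ℝ} (h : t < 3 / 5) : deriv b2 t = 0 := by
  have : b2 =ᶠ[𝓝 t] fun _ => 0 := by
    filter_upwards [Iio_mem_nhds h] with s hs using b2_zero (le_of_lt hs)
  rw [this.deriv_eq]; simp
theorem deriv_b1' {t : ℝ} (h : t < 0) : deriv b1 t = 0 := by
  have : b1 =ᶠ[𝓝 t] fun _ => 0 := by
    filter_upwards [Iio_mem_nhds h] with s hs using b1_zero (le_of_lt hs)
  rw [this.deriv_eq]; simp
theorem deriv_b2' {t : ℝ} (h : 1 < t) : deriv b2 t = 0 := by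
  have : b2 =ᶠ[𝓝 t] fun _ => 1 := by
    filter_upwards [Ioi_mem_nhds h] with s hs using b2_one (le_of_lt hs)
  rw [this.deriv_eq]; simp

theorem b_bound : ∃ c : ℝ, 1 ≤ c ∧ (∀ t, |deriv b1 t| ≤ c) ∧ ∀ t, |deriv b2 t| ≤ c := by
  have hc1 : Continuous (deriv b1) := b1_contDiff.continuous_deriv (by simp)
  have hc2 : Continuous (deriv b2) := b2_contDiff.continuous_deriv (by simp)
  obtain ⟨C1, h1⟩ := (isCompact_Icc (a := (0 : ℝ)) (b := 1)).exists_bound_of_continuousOn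
    hc1.continuousOn
  obtain ⟨C2, h2⟩ := (isCompact_Icc (a := (0 : ℝ)) (b := 1)).exists_bound_of_continuousOn
    hc2.continuousOn
  refine ⟨max 1 (max C1 C2), le_max_left _ _, fun t => ?_, fun t => ?_⟩
  · by_cases ht : t ∈ Icc (0 : ℝ) 1
    · exact (h1 t ht).trans ((le_max_left _ _).trans (le_max_right _ _))
    · have : deriv b1 t = 0 := by
        rw [mem_Icc, not_and_or, not_le, not_le] at ht
        rcases ht with ht | ht
        · exact deriv_b1' ht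
        · exact deriv_b1 (by linarith)
      rw [this, abs_zero]; exact le_trans zero_le_one (le_max_left _ _)
  · by_cases ht : t ∈ Icc (0 : ℝ) 1
    · exact (h2 t ht).trans ((le_max_right _ _).trans (le_max_right _ _))
    · have : deriv b2 t = 0 := by
        rw [mem_Icc, not_and_or, not_le, not_le] at ht
        rcases ht with ht | ht
        · exact deriv_b2 (by linarith)
        · exact deriv_b2' ht
      rw [this, abs_zero]; exact le_trans zero_le_one (le_max_left _ _)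

/-- Composition of small isotopies. -/
theorem SmallH.comp : ∃ c : ℝ, 1 ≤ c ∧ ∀ (J : EndField E M) (η : ℝ), 0 ≤ η →
    ∀ ψ₁ ψ₂ : M → M, SmallH J η ψ₁ → SmallH J η ψ₂ →
      SmallH J (2 * c * η) (fun x => ψ₂ (ψ₁ x)) := by
  obtain ⟨c, hc, hc1, hc2⟩ := b_bound
  refine ⟨c, hc, fun J η hη ψ₁ ψ₂ hs₁ hs₂ => ?_⟩
  obtain ⟨H₁, Φ₁, C₁, s1, s2, s3, s4, s5, s6, s7⟩ := hs₁
  obtain ⟨H₂, Φ₂, C₂, r1, r2, r3, r4, r5, r6, r7⟩ := hs₂
  have hA : ∀ x, ∀ t < (3 / 5 : ℝ), Φ₂ (b2 t) (Φ₁ (b1 t) x) = Φ₁ (b1 t) x := fun x t ht => by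
    rw [b2_zero ht.le, (r4 _).1]
  have hB : ∀ x, ∀ t > (2 / 5 : ℝ), Φ₂ (b2 t) (Φ₁ (b1 t) x) = Φ₂ (b2 t) (ψ₁ x) := fun x t ht => by
    rw [b1_one (le_of_lt ht), (s4 _).2.1]
  refine ⟨fun t x => deriv b1 t * H₁ (b1 t) x + deriv b2 t * H₂ (b2 t) x,
    fun t x => Φ₂ (b2 t) (Φ₁ (b1 t) x), C₁ ∪ C₂, ?_, s2.union r2, ?_, ?_, ?_, ?_, ?_⟩
  · have hd1 : ContMDiff (𝓘(ℝ, ℝ).prod 𝓘(ℝ, E)) 𝓘(ℝ, ℝ) ∞ (fun p : ℝ × M => deriv b1 p.1) := by
      have h1 : ContDiff ℝ ∞ (deriv b1) := (contDiff_infty_iff_deriv.mp b1_contDiff).2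
      exact h1.contMDiff.comp contMDiff_fst
    have hd2 : ContMDiff (𝓘(ℝ, ℝ).prod 𝓘(ℝ, E)) 𝓘(ℝ, ℝ) ∞ (fun p : ℝ × M => deriv b2 p.1) := by
      have h1 : ContDiff ℝ ∞ (deriv b2) := (contDiff_infty_iff_deriv.mp b2_contDiff).2
      exact h1.contMDiff.comp contMDiff_fst
    have he1 : ContMDiff (𝓘(ℝ, ℝ).prod 𝓘(ℝ, E)) 𝓘(ℝ, ℝ) ∞ (fun p : ℝ × M => H₁ (b1 p.1) p.2) :=
      s1.comp ((b1_contDiff.contMDiff.comp contMDiff_fst).prodMk contMDiff_snd)
    have he2 : ContMDiff (𝓘(ℝ, ℝ).prod 𝓘(ℝ, E)) 𝓘(ℝ, ℝ) ∞ (fun p : ℝ × M => H₂ (b2 p.1) p.2) :=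
      r1.comp ((b2_contDiff.contMDiff.comp contMDiff_fst).prodMk contMDiff_snd)
    exact (hd1.mul he1).add (hd2.mul he2)
  · intro t x hx
    rw [mem_union, not_or] at hx
    simp only [s3 _ x hx.1, r3 _ x hx.2, mul_zero, add_zero]
  · intro x
    refine ⟨?_, ?_, ?_⟩
    · show Φ₂ (b2 0) (Φ₁ (b1 0) x) = x
      rw [hA x 0 (by norm_num), b1_zero le_rfl, (s4 x).1]
    · show Φ₂ (b2 1) (Φ₁ (b1 1) x) = ψ₂ (ψ₁ x)
      rw [hB x 1 (by norm_num), b2_one le_rfl, (r4 _).2.1]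
    · intro t ht
      rcases lt_or_ge t (3 / 5) with h | h
      · have h1 : ContinuousWithinAt (fun s => Φ₁ (b1 s) x) (Icc 0 1) t :=
          ContinuousWithinAt.comp (t := Icc 0 1) ((s4 x).2.2 (b1 t) (b1_mem t))
            b1_contDiff.continuous.continuousWithinAt (fun s _ => b1_mem s)
        refine h1.congr_of_eventuallyEq ?_ (hA x t h)
        filter_upwards [mem_nhdsWithin_of_mem_nhds (Iio_mem_nhds h)] with s hs using hA x s hs
      · have h' : 2 / 5 < t := by linarith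
        have h1 : ContinuousWithinAt (fun s => Φ₂ (b2 s) (ψ₁ x)) (Icc 0 1) t :=
          ContinuousWithinAt.comp (t := Icc 0 1) ((r4 (ψ₁ x)).2.2 (b2 t) (b2_mem t))
            b2_contDiff.continuous.continuousWithinAt (fun s _ => b2_mem s)
        refine h1.congr_of_eventuallyEq ?_ (hB x t h')
        filter_upwards [mem_nhdsWithin_of_mem_nhds (Ioi_mem_nhds h')] with s hs using hB x s hs
  · intro x t ht φ hφ hsrc
    have hHd1 : ∀ s : ℝ, ∀ p ∈ φ.source, DifferentiableAt ℝ (fun y => H₁ s (φ.symm y)) (φ p) := by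
      intro s p hp
      have h1 : ContMDiffAt 𝓘(ℝ, E) 𝓘(ℝ, ℝ) ∞ (fun y => H₁ s (φ.symm y)) (φ p) :=
        ContMDiffAt.comp (g := fun p : ℝ × M => H₁ p.1 p.2) (φ p) s1.contMDiffAt
          (contMDiffAt_const.prodMk (contMDiffAt_symm hφ (φ.map_source hp)))
      exact (contMDiffAt_iff_contDiffAt.mp h1).differentiableAt (by simp)
    have hHd2 : ∀ s : ℝ, ∀ p ∈ φ.source, DifferentiableAt ℝ (fun y => H₂ s (φ.symm y)) (φ p) := by
      intro s p hp
      have h1 : ContMDiffAt 𝓘(ℝ, E) 𝓘(ℝ, ℝ) ∞ (fun y => H₂ s (φ.symm y)) (φ p) :=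
        ContMDiffAt.comp (g := fun p : ℝ × M => H₂ p.1 p.2) (φ p) r1.contMDiffAt
          (contMDiffAt_const.prodMk (contMDiffAt_symm hφ (φ.map_source hp)))
      exact (contMDiffAt_iff_contDiffAt.mp h1).differentiableAt (by simp)
    have hfd : fderiv ℝ (fun y => deriv b1 t * H₁ (b1 t) (φ.symm y)
        + deriv b2 t * H₂ (b2 t) (φ.symm y)) (φ (Φ₂ (b2 t) (Φ₁ (b1 t) x)))
        = deriv b1 t • fderiv ℝ (fun y => H₁ (b1 t) (φ.symm y)) (φ (Φ₂ (b2 t) (Φ₁ (b1 t) x)))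
        + deriv b2 t • fderiv ℝ (fun y => H₂ (b2 t) (φ.symm y)) (φ (Φ₂ (b2 t) (Φ₁ (b1 t) x))) := by
      exact (((hHd1 _ _ hsrc).hasFDerivAt.const_mul _).add
        ((hHd2 _ _ hsrc).hasFDerivAt.const_mul _)).fderiv
    rcases lt_or_ge t (3 / 5) with h | h
    · have e1 : Φ₂ (b2 t) (Φ₁ (b1 t) x) = Φ₁ (b1 t) x := hA x t h
      have hsrc' : Φ₁ (b1 t) x ∈ φ.source := by rw [← e1]; exact hsrc
      obtain ⟨X, hX, hw⟩ := s5 x (b1 t) (b1_mem t) φ hφ hsrc'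
      refine ⟨deriv b1 t • X, ?_, fun w => ?_⟩
      · have hb : HasDerivWithinAt b1 (deriv b1 t) (Icc 0 1) t :=
          ((b1_contDiff.differentiable (by simp)).differentiableAt.hasDerivAt).hasDerivWithinAt
        have h1 := HasDerivWithinAt.scomp (g₁ := fun s => φ (Φ₁ s x)) t hX hb
          (fun s _ => b1_mem s)
        refine h1.congr_of_eventuallyEq ?_ (by simp only [Function.comp, e1])
        filter_upwards [mem_nhdsWithin_of_mem_nhds (Iio_mem_nhds h)] with s hs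
        simp only [Function.comp, hA x s hs]
      · rw [hfd, deriv_b2 h, zero_smul, add_zero, map_smul]
        simp only [e1, smul_apply, hw w]
    · have h' : 2 / 5 < t := by linarith
      have e1 : Φ₂ (b2 t) (Φ₁ (b1 t) x) = Φ₂ (b2 t) (ψ₁ x) := hB x t h'
      have hsrc' : Φ₂ (b2 t) (ψ₁ x) ∈ φ.source := by rw [← e1]; exact hsrc
      obtain ⟨X, hX, hw⟩ := r5 (ψ₁ x) (b2 t) (b2_mem t) φ hφ hsrc'
      refine ⟨deriv b2 t • X, ?_, fun w => ?_⟩
      · have hb : HasDerivWithinAt b2 (deriv b2 t) (Icc 0 1) t :=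
          ((b2_contDiff.differentiable (by simp)).differentiableAt.hasDerivAt).hasDerivWithinAt
        have h1 := HasDerivWithinAt.scomp (g₁ := fun s => φ (Φ₂ s (ψ₁ x))) t hX hb
          (fun s _ => b2_mem s)
        refine h1.congr_of_eventuallyEq ?_ (by simp only [Function.comp, e1])
        filter_upwards [mem_nhdsWithin_of_mem_nhds (Ioi_mem_nhds h')] with s hs
        simp only [Function.comp, hB x s hs]
      · rw [hfd, deriv_b1 h', zero_smul, zero_add, map_smul]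
        simp only [e1, smul_apply, hw w]
  · intro x t ht
    have hηc : 2 * η ≤ 2 * c * η := by nlinarith
    rcases lt_or_ge t (3 / 5) with h | h
    · show dist x (Φ₂ (b2 t) (Φ₁ (b1 t) x)) ≤ _
      rw [hA x t h]
      linarith [s6 x (b1 t) (b1_mem t)]
    · show dist x (Φ₂ (b2 t) (Φ₁ (b1 t) x)) ≤ _
      rw [hB x t (by linarith)]
      have h1 := s6 x 1 (right_mem_Icc.mpr zero_le_one)
      rw [(s4 x).2.1] at h1
      have h2 := r6 (ψ₁ x) (b2 t) (b2_mem t)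
      linarith [dist_triangle x (ψ₁ x) (Φ₂ (b2 t) (ψ₁ x))]
  · intro t x
    have h1 : |deriv b1 t * H₁ (b1 t) x| ≤ c * η := by
      rw [abs_mul]; exact mul_le_mul (hc1 t) (s7 _ x) (abs_nonneg _) (by linarith)
    have h2 : |deriv b2 t * H₂ (b2 t) x| ≤ c * η := by
      rw [abs_mul]; exact mul_le_mul (hc2 t) (r7 _ x) (abs_nonneg _) (by linarith)
    calc _ ≤ _ := abs_add_le _ _
      _ ≤ 2 * c * η := by linarith

end Pool.Agent.MP_c86656_gt.Tr
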