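import Pool.Agent.Lib.MP_c86656_gt.Cayley

/-! From polygons on the disc to curves on the half plane. -/

open Set Filter Topology Manifold MeasureTheory Bundle
open scoped ContDiff ENNReal

namespace Pool.Agent.MP_c86656_gt

set_option linter.unusedSectionVars false

noncomputable section

lemma uniq_diff_finite {A P : Set ℂ} (hA : Convex ℝ A) (hi : (interior A).Nonempty)
    (hP : P.Finite) : UniqueDiffOn ℝ (A \ P) :=
  (uniqueDiffOn_convex hA hi).inter hP.isClosed.isOpen_compl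

lemma clos_diff_finite {A P : Set ℂ} (hA : Convex ℝ A) (hi : (interior A).Nonempty)
    (hP : P.Finite) : A \ P ⊆ closure (interior (A \ P)) := by
  rintro z ⟨hz, hzP⟩
  have h0 : A \ P = A ∩ Pᶜ := rfl
  rw [h0, interior_inter, hP.isClosed.isOpen_compl.interior_eq, inter_comm]
  refine hP.isClosed.isOpen_compl.inter_closure ⟨hzP, ?_⟩
  rw [hA.closure_interior_eq_closure_of_nonempty_interior hi]
  exact subset_closure hz

lemma convex_Hc : Convex ℝ Hc := by
  have : Hc = Complex.imCLM ⁻¹' Ici 0 := rfl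
  rw [this]
  exact (convex_Ici (0 : ℝ)).is_linear_preimage Complex.imCLM.toLinearMap.isLinear

lemma interior_Hc : (interior Hc).Nonempty := by
  refine ⟨Complex.I, ?_⟩
  exact interior_mono Ho_subset_Hc (by rw [isOpen_Ho.interior_eq]; simp [Ho])

variable {E : Type*} [NormedAddCommGroup E] [NormedSpace ℝ E]
  {M : Type*} [MetricSpace M] [ChartedSpace E M] [IsManifold 𝓘(ℝ, E) ∞ M]

/-- Chain rule for `du`. -/
lemma du_comp_complex {D S : Set ℂ} {u : ℂ → M} {m : ℂ → ℂ} {c z : ℂ}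
    (hu : MDifferentiableWithinAt 𝓘(ℝ, ℂ) 𝓘(ℝ, E) u D (m z)) (hm : HasDerivAt m c z)
    (hmap : S ⊆ m ⁻¹' D) (hS : UniqueDiffWithinAt ℝ S z) (a : ℂ) :
    du (E := E) S (u ∘ m) z a = du (E := E) D u (m z) (c * a) := by
  have h1 : HasFDerivWithinAt m ((ContinuousLinearMap.toSpanSingleton ℂ c).restrictScalars ℝ) S z :=
    (hm.hasFDerivAt.restrictScalars ℝ).hasFDerivWithinAt
  have h2 : UniqueMDiffWithinAt 𝓘(ℝ, ℂ) S z := hS.uniqueMDiffWithinAt
  have h3 := h1.hasMFDerivWithinAt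
  have h4 := mfderivWithin_comp z hu h3.mdifferentiableWithinAt hmap h2
  rw [h3.mfderivWithin h2] at h4
  have h5 := DFunLike.congr_fun h4 a
  refine h5.trans ?_
  have h6 : ContinuousLinearMap.toSpanSingleton ℂ c a = c * a := by
    rw [ContinuousLinearMap.toSpanSingleton_apply, smul_eq_mul, mul_comm]
  exact congrArg (fun b : ℂ => mfderivWithin 𝓘(ℝ, ℂ) 𝓘(ℝ, E) u D (m z) b) h6

variable [FiniteDimensional ℝ E] [RiemannianBundle (fun x : M => TangentSpace 𝓘(ℝ, E) x)]
  [IsContMDiffRiemannianBundle 𝓘(ℝ, E) ∞ E (fun x : M => TangentSpace 𝓘(ℝ, E) x)]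

lemma IsPolygon.curve {J : EndField E M} {N : ℕ} {Q : Fin N → Set M} {θ : Fin (N + 1) → ℝ}
    {u : ℂ → M} (h : IsPolygon J Q θ u) : HolCurve J (puncturedDisc θ) u where
  uniq := uniq_diff_finite (convex_closedBall _ _)
    ⟨0, by rw [interior_closedBall _ one_ne_zero]; simp⟩ (finite_range _)
  clos := clos_diff_finite (convex_closedBall _ _)
    ⟨0, by rw [interior_closedBall _ one_ne_zero]; simp⟩ (finite_range _)
  smooth := h.smooth
  holo := h.holo

/-- Values of `du` in complex directions. -/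
lemma HolCurve.du_mul_I {J : EndField E M} (hJ : IsCompatible J) {D : Set ℂ} {v : ℂ → M}
    (h : HolCurve J D v) {z : ℂ} (hz : z ∈ D) (a : ℂ) :
    du (E := E) D v z (a * Complex.I) = J (v z) (du (E := E) D v z a) := by
  have key : ∀ b : ℂ, du (E := E) D v z b = b.re • du D v z 1 + b.im • J (v z) (du D v z 1) := by
    intro b
    rw [← h.holo z hz]
    have : b = b.re • (1 : ℂ) + b.im • Complex.I := by
      apply Complex.ext <;> simp
    conv_lhs => rw [this]
    simp only [du]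
    exact (map_add _ _ _).trans (congrArg₂ _ (map_smul _ _ _) (map_smul _ _ _))
  rw [key (a * Complex.I), key a, map_add, map_smul, map_smul, hJ.sq]
  simp only [Complex.mul_re, Complex.mul_im, Complex.I_re, Complex.I_im, mul_zero, mul_one,
    zero_sub, add_zero, smul_neg, neg_smul]
  abel

/-- Transfer to the half plane. -/
lemma HolCurve.comp_cay {J : EndField E M} (hJ : IsCompatible J) {D : Set ℂ} {u : ℂ → M}
    (h : HolCurve J D u) {ζ : ℂ} {P : Set ℂ} (hP : P.Finite)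
    (hmap : ∀ z ∈ Hc \ P, cay ζ z ∈ D) :
    HolCurve J (Hc \ P) (u ∘ cay ζ) ∧ ∀ z ∈ Hc \ P, ∀ a,
      du (E := E) (Hc \ P) (u ∘ cay ζ) z a = du (E := E) D u (cay ζ z) (cay' ζ z * a) := by
  have huniq := uniq_diff_finite convex_Hc interior_Hc hP
  have hdu : ∀ z ∈ Hc \ P, ∀ a,
      du (E := E) (Hc \ P) (u ∘ cay ζ) z a = du (E := E) D u (cay ζ z) (cay' ζ z * a) := by
    intro z hz a
    refine du_comp_complex ?_ (hasDerivAt_cay ζ hz.1) hmap (huniq z hz) a
    exact ((h.smooth _ (hmap z hz)).mdifferentiableWithinAt (by simp))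
  refine ⟨⟨huniq, clos_diff_finite convex_Hc interior_Hc hP, ?_, ?_⟩, hdu⟩
  · refine h.smooth.comp ?_ hmap
    exact ((contDiffOn_cay ζ).mono sdiff_subset).contMDiffOn
  · intro z hz
    rw [hdu z hz, hdu z hz, mul_one]
    exact h.du_mul_I hJ (hmap z hz) _

/-- Transformation of the energy density. -/
lemma HolCurve.dens_cay {J : EndField E M} (hJ : IsCompatible J) {D : Set ℂ} {u : ℂ → M}
    (h : HolCurve J D u) {ζ : ℂ} {P : Set ℂ} (hP : P.Finite)
    (hmap : ∀ z ∈ Hc \ P, cay ζ z ∈ D) {z : ℂ} (hz : z ∈ Hc \ P) :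
    dens E (Hc \ P) (u ∘ cay ζ) z = ‖cay' ζ z‖ ^ 2 * dens E D u (cay ζ z) := by
  have h1 := (h.comp_cay hJ hP hmap).2 z hz 1
  rw [mul_one] at h1
  have h2 := h.norm_du hJ (hmap z hz) (cay' ζ z)
  have h3 : ‖du (E := E) (Hc \ P) (u ∘ cay ζ) z 1‖ = ‖cay' ζ z‖ * √(dens E D u (cay ζ z)) := by
    rw [← h2, h1]
  rw [dens, real_inner_self_eq_norm_sq, h3, mul_pow, Real.sq_sqrt (dens_nonneg _ _ _)]

/-- The integrand of the energy. -/
lemma HolCurve.energy_density {J : EndField E M} (hJ : IsCompatible J) {D : Set ℂ} {u : ℂ → M}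
    (h : HolCurve J D u) {z : ℂ} (hz : z ∈ D) :
    inner ℝ (J (u z) (du (E := E) D u z 1)) (du (E := E) D u z Complex.I) = dens E D u z := by
  rw [h.holo z hz, hJ.orth]
  rfl

/-- Change of variables for the Cayley transform. -/
lemma integral_cay {ζ : ℂ} (hζ : ‖ζ‖ = 1) (f : ℂ → ℝ) :
    (IntegrableOn f (Metric.ball 0 1) ↔
      IntegrableOn (fun z => ‖cay' ζ z‖ ^ 2 * f (cay ζ z)) Ho) ∧
    ∫ z in Metric.ball 0 1, f z = ∫ z in Ho, ‖cay' ζ z‖ ^ 2 * f (cay ζ z) := by
  have hζ0 : ζ ≠ 0 := by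
    intro h0; rw [h0] at hζ; simp at hζ
  have h1 : ∀ z ∈ Ho, HasFDerivWithinAt (cay ζ)
      ((ContinuousLinearMap.toSpanSingleton ℂ (cay' ζ z)).restrictScalars ℝ) Ho z := fun z hz =>
    ((hasDerivAt_cay ζ (Ho_subset_Hc hz)).hasFDerivAt.restrictScalars ℝ).hasFDerivWithinAt
  have h2 : InjOn (cay ζ) Ho := (cay_injOn hζ0).mono Ho_subset_Hc
  have h3 := integral_image_eq_integral_abs_det_fderiv_smul volume isOpen_Ho.measurableSet h1 h2 f
  have h4 := integrableOn_image_iff_integrableOn_abs_det_fderiv_smul volume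
    isOpen_Ho.measurableSet h1 h2 f
  simp only [det_mul_complex, abs_pow, abs_norm, smul_eq_mul, cay_image hζ] at h3 h4
  exact ⟨h4, h3⟩

/-- The transfer of a polygon to the half plane, with the puncture `exp (i θ_j)` at infinity. -/
lemma IsPolygon.transfer {J : EndField E M} (hJ : IsCompatible J) {N : ℕ} {Q : Fin N → Set M}
    {θ : Fin (N + 1) → ℝ} {u : ℂ → M} (h : IsPolygon J Q θ u) (j : Fin (N + 1)) {P : Set ℂ}
    (hP : P = {z : ℂ | z.im = 0 ∧ cay (Complex.exp (θ j * Complex.I)) z ∈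
      range (fun j => Complex.exp (θ j * Complex.I))}) :
    P.Finite ∧ (∀ z ∈ Hc \ P, cay (Complex.exp (θ j * Complex.I)) z ∈ puncturedDisc θ) ∧
    HolCurve J (Hc \ P) (u ∘ cay (Complex.exp (θ j * Complex.I))) ∧
    IntegrableOn (dens E (Hc \ P) (u ∘ cay (Complex.exp (θ j * Complex.I)))) Ho ∧
    ∫ z in Ho, dens E (Hc \ P) (u ∘ cay (Complex.exp (θ j * Complex.I))) z = energy J θ u := by
  set ζ := Complex.exp (θ j * Complex.I) with hζdef
  have hζ : ‖ζ‖ = 1 := Complex.norm_exp_ofReal_mul_I _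
  have hζ0 : ζ ≠ 0 := Complex.exp_ne_zero _
  have hfin : P.Finite := by
    have h1 : P ⊆ cay ζ ⁻¹' (range (fun j => Complex.exp (θ j * Complex.I))) ∩ Hc := by
      intro z hz
      rw [hP] at hz
      exact ⟨hz.2, hz.1.ge⟩
    refine Finite.subset ?_ h1
    have h2 : InjOn (cay ζ) (cay ζ ⁻¹' (range fun j => Complex.exp (θ j * Complex.I)) ∩ Hc) :=
      (cay_injOn hζ0).mono inter_subset_right
    refine Finite.of_finite_image (f := cay ζ) ?_ h2
    refine (finite_range (fun j => Complex.exp (θ j * Complex.I))).subset ?_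
    rintro _ ⟨z, hz, rfl⟩
    exact hz.1
  have hmap : ∀ z ∈ Hc \ P, cay ζ z ∈ puncturedDisc θ := by
    rintro z ⟨hz, hzP⟩
    refine ⟨cay_mem_closedBall hζ hz, fun hr => hzP ?_⟩
    rw [hP]
    refine ⟨?_, hr⟩
    obtain ⟨i, hi⟩ := hr
    have h1 : ‖cay ζ z‖ = 1 := by
      rw [← hi]; exact Complex.norm_exp_ofReal_mul_I _
    have h2 := normSq_cay hζ hz
    rw [h1, one_pow, sub_self, eq_comm, div_eq_zero_iff] at h2
    have h3 : 0 < ‖z + Complex.I‖ := norm_pos_iff.2 (add_I_ne hz)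
    rcases h2 with h2 | h2
    · linarith
    · exact absurd h2 (by positivity)
  have hc := h.curve.comp_cay hJ hfin hmap
  have hHoS : Ho ⊆ Hc \ P := by
    intro z hz
    refine ⟨Ho_subset_Hc hz, fun hzP => ?_⟩
    rw [hP] at hzP
    have h5 : 0 < z.im := hz
    rw [hzP.1] at h5
    exact lt_irrefl _ h5
  have hball : Metric.ball (0 : ℂ) 1 ⊆ puncturedDisc θ := by
    intro z hz
    refine ⟨Metric.ball_subset_closedBall hz, ?_⟩
    rintro ⟨i, rfl⟩
    rw [mem_ball_zero_iff] at hz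
    simp only [Complex.norm_exp_ofReal_mul_I, lt_self_iff_false] at hz
  have hen : ∀ z ∈ Metric.ball (0 : ℂ) 1,
      inner ℝ (J (u z) (du (E := E) (puncturedDisc θ) u z 1))
        (du (E := E) (puncturedDisc θ) u z Complex.I) = dens E (puncturedDisc θ) u z :=
    fun z hz => h.curve.energy_density hJ (hball hz)
  have hden : ∀ z ∈ Ho, dens E (Hc \ P) (u ∘ cay ζ) z =
      ‖cay' ζ z‖ ^ 2 * dens E (puncturedDisc θ) u (cay ζ z) := fun z hz =>
    h.curve.dens_cay hJ hfin hmap (hHoS hz)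
  obtain ⟨hi1, hi2⟩ := integral_cay hζ (dens E (puncturedDisc θ) u)
  refine ⟨hfin, hmap, hc.1, ?_, ?_⟩
  · rw [integrableOn_congr_fun hden isOpen_Ho.measurableSet]
    rw [← hi1]
    rw [← integrableOn_congr_fun hen measurableSet_ball]
    exact h.finite
  · rw [setIntegral_congr_fun isOpen_Ho.measurableSet hden, ← hi2,
      ← setIntegral_congr_fun measurableSet_ball hen]
    rfl

end

end Pool.Agent.MP_c86656_gt
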