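import Pool.Agent.Lib.MP_c86656_gt.Length
import Pool.Agent.Lib.MP_c86656_gt.Polar

/-! The conformal trick: a `J`-holomorphic map of the half plane with one boundary arc
`(-∞, b)` on `L` and all other boundary points far from a point `x` of the image of the arc has
energy bounded below. -/

open Set Filter Topology Manifold MeasureTheory Bundle
open scoped ContDiff ENNReal

namespace Pool.Agent.MP_c86656_gt

set_option linter.unusedSectionVars false

noncomputable section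

/-- The scalar gradient bound with constants `ε, C` (proved in `Scalar.lean`). -/
def ScalarBound (K Λ ε C : ℝ) : Prop :=
    ∀ (z₀ : ℂ) (ρ : ℝ) (e : ℂ → ℝ), 0 ≤ z₀.im → 0 < ρ →
      (∀ z ∈ Metric.ball z₀ ρ ∩ {z : ℂ | 0 ≤ z.im}, 0 ≤ e z) →
      ContDiffOn ℝ 2 e (Metric.ball z₀ ρ ∩ {z : ℂ | 0 ≤ z.im}) →
      (∀ z ∈ Metric.ball z₀ ρ ∩ {z : ℂ | 0 < z.im}, ∃ q : ℝ, 0 ≤ q ∧
        fderiv ℝ e z 1 ^ 2 + fderiv ℝ e z Complex.I ^ 2 ≤ 4 * e z * q ∧
        2 * q - 2 * K * e z ^ 2 ≤ fderiv ℝ (fun w => fderiv ℝ e w 1) z 1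
          + fderiv ℝ (fun w => fderiv ℝ e w Complex.I) z Complex.I) →
      (∀ z ∈ Metric.ball z₀ ρ ∩ {z : ℂ | z.im = 0},
        -(2 * Λ * e z * √(e z)) ≤
          fderivWithin ℝ e (Metric.ball z₀ ρ ∩ {z : ℂ | 0 ≤ z.im}) z Complex.I) →
      IntegrableOn e (Metric.ball z₀ ρ ∩ {z : ℂ | 0 < z.im}) →
      ∫ z in Metric.ball z₀ ρ ∩ {z : ℂ | 0 < z.im}, e z ≤ ε →
      e z₀ ≤ C / ρ ^ 2 * ∫ z in Metric.ball z₀ ρ ∩ {z : ℂ | 0 < z.im}, e z

variable {E : Type*} [NormedAddCommGroup E] [NormedSpace ℝ E] [FiniteDimensional ℝ E]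
  {M : Type*} [MetricSpace M] [ChartedSpace E M] [IsManifold 𝓘(ℝ, E) ∞ M]
  [RiemannianBundle (fun x : M => TangentSpace 𝓘(ℝ, E) x)]
  [IsContMDiffRiemannianBundle 𝓘(ℝ, E) ∞ E (fun x : M => TangentSpace 𝓘(ℝ, E) x)]

/-- The open upper half plane. -/
def Ho : Set ℂ := {z : ℂ | 0 < z.im}

lemma isOpen_Ho : IsOpen Ho := isOpen_lt continuous_const Complex.continuous_im

lemma Ho_subset_Hc : Ho ⊆ Hc := fun z hz =>
  show (0 : ℝ) ≤ z.im from (show (0 : ℝ) < z.im from hz).le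

lemma HolCurve.grad {J : EndField E M} (hJ : IsCompatible J) {K : ℝ}
    (hK : SectionalCurvatureLE E M K) {L : Set M}
    (hL : IsClosedLagrangian J L) {Λ : ℝ} (hΛ : SecondFormLE E Λ L) {ε C : ℝ} (hC : 0 < C)
    (hsc : ScalarBound K Λ ε C) {S : Set ℂ} (hS : S ⊆ Hc) {v : ℂ → M} (h : HolCurve J S v)
    (hint : IntegrableOn (dens E S v) Ho) (hE : ∫ z in Ho, dens E S v z ≤ ε)
    {z₀ : ℂ} (hz₀ : 0 ≤ z₀.im) {ρ : ℝ} (hρ : 0 < ρ) (hball : Metric.ball z₀ ρ ∩ Hc ⊆ S)
    (hb : ∀ x ∈ Metric.ball z₀ ρ, x.im = 0 → v x ∈ L) :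
    dens E S v z₀ ≤ C / ρ ^ 2 * ∫ z in Ho, dens E S v z := by
  have hSD : S ∩ Metric.ball z₀ ρ = Metric.ball z₀ ρ ∩ Hc := by
    ext x
    constructor
    · rintro ⟨h1, h2⟩; exact ⟨h2, hS h1⟩
    · rintro ⟨h1, h2⟩; exact ⟨hball ⟨h1, h2⟩, h1⟩
  have h' : HolCurve J (Metric.ball z₀ ρ ∩ Hc) v := by
    have := h.inter (Metric.isOpen_ball (x := z₀) (ε := ρ))
    rwa [hSD] at this
  have hd : ∀ x ∈ Metric.ball z₀ ρ, dens E (Metric.ball z₀ ρ ∩ Hc) v x = dens E S v x := by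
    intro x hx
    rw [← hSD]
    exact dens_inter S v Metric.isOpen_ball hx
  have hz₀b : z₀ ∈ Metric.ball z₀ ρ := Metric.mem_ball_self hρ
  have hmeas : MeasurableSet (Metric.ball z₀ ρ ∩ Ho) :=
    (Metric.isOpen_ball.inter isOpen_Ho).measurableSet
  have hint' : IntegrableOn (dens E (Metric.ball z₀ ρ ∩ Hc) v) (Metric.ball z₀ ρ ∩ Ho) := by
    refine (hint.mono_set inter_subset_right).congr_fun (fun x hx => ?_) hmeas
    exact (hd x hx.1).symm
  have hle : ∫ z in Metric.ball z₀ ρ ∩ Ho, dens E (Metric.ball z₀ ρ ∩ Hc) v z ≤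
      ∫ z in Ho, dens E S v z := by
    rw [setIntegral_congr_fun hmeas (fun x hx => hd x hx.1)]
    exact setIntegral_mono_set hint (Eventually.of_forall fun x => dens_nonneg _ _ _)
      (Eventually.of_forall fun x hx => hx.2)
  have key := hsc z₀ ρ (dens E (Metric.ball z₀ ρ ∩ Hc) v) hz₀ hρ
    (fun z _ => dens_nonneg _ _ _) ((h'.contDiffOn_dens hJ).of_le (by norm_cast))
    (fun z hz => h'.bochner hJ hK (by
      refine mem_interior.2 ⟨Metric.ball z₀ ρ ∩ Ho, ?_, Metric.isOpen_ball.inter isOpen_Ho, hz⟩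
      exact inter_subset_inter_right _ Ho_subset_Hc))
    (fun z hz => h'.boundary hJ hL hΛ hz.1 hz.2 hb) hint' (hle.trans hE)
  rw [hd z₀ hz₀b] at key
  refine key.trans ?_
  gcongr
  exact hle

variable [IsRiemannianManifold 𝓘(ℝ, E) M]

/-- Data of a half plane curve with one arc `(-∞, b)` on `L`. -/
structure HalfPlane (J : EndField E M) (K Λ ε C : ℝ) (L : Set M) (S P : Set ℂ) (v : ℂ → M)
    (b : ℝ) : Prop where
  hJ : IsCompatible J
  hK : SectionalCurvatureLE E M K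
  hL : IsClosedLagrangian J L
  hΛ : SecondFormLE E Λ L
  hC : 0 < C
  hsc : ScalarBound K Λ ε C
  fin : P.Finite
  real : ∀ p ∈ P, p.im = 0
  hS : S = Hc \ P
  curve : HolCurve J S v
  int : IntegrableOn (dens E S v) Ho
  le : ∫ z in Ho, dens E S v z ≤ ε
  arc : ∀ t : ℝ, t < b → (t : ℂ) ∉ P ∧ v t ∈ L

namespace HalfPlane

variable {J : EndField E M} {K Λ ε C : ℝ} {L : Set M} {S P : Set ℂ} {v : ℂ → M} {b : ℝ}

lemma subS (h : HalfPlane J K Λ ε C L S P v b) {t : ℝ} (ht : t < b) :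
    (t : ℂ) ∈ S := by
  rw [h.hS]
  exact ⟨by simp [Hc], (h.arc t ht).1⟩

lemma grad (h : HalfPlane J K Λ ε C L S P v b) {t : ℝ} (ht : t < b) :
    dens E S v t ≤ C / (b - t) ^ 2 * ∫ z in Ho, dens E S v z := by
  have hreal : ∀ x ∈ Metric.ball (t : ℂ) (b - t), x.im = 0 → x = (x.re : ℂ) ∧ x.re < b := by
    intro x hx hx0
    have h1 : x = (x.re : ℂ) := by
      apply Complex.ext <;> simp [hx0]
    refine ⟨h1, ?_⟩
    rw [Metric.mem_ball, Complex.dist_eq, h1, ← Complex.ofReal_sub, Complex.norm_real,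
      Real.norm_eq_abs, abs_lt] at hx
    linarith [hx.2]
  refine h.curve.grad h.hJ h.hK h.hL h.hΛ h.hC h.hsc (by rw [h.hS]; exact sdiff_subset)
    h.int h.le (by simp) (sub_pos.2 ht) ?_ ?_
  · rintro x ⟨hx, hx2⟩
    rw [h.hS]
    refine ⟨hx2, fun hxP => ?_⟩
    obtain ⟨h1, h2⟩ := hreal x hx (h.real x hxP)
    rw [h1] at hxP
    exact (h.arc _ h2).1 hxP
  · intro x hx hx0
    obtain ⟨h1, h2⟩ := hreal x hx hx0
    rw [h1]
    exact (h.arc _ h2).2

lemma energy_nonneg (S : Set ℂ) (v : ℂ → M) : 0 ≤ ∫ z in Ho, dens E S v z :=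
  integral_nonneg fun _ => dens_nonneg _ _ _

lemma dist_arc (h : HalfPlane J K Λ ε C L S P v b) {x₀ t : ℝ} (hx₀ : x₀ ≤ t) (ht : t < b) :
    dist (v x₀) (v t) ≤
      √(C * ∫ z in Ho, dens E S v z) * Real.log ((b - x₀) / (b - t)) := by
  have hcoe : ContDiff ℝ 1 (fun s : ℝ => (s : ℂ)) := Complex.ofRealCLM.contDiff
  have h1 := h.curve.edist_le h.hJ hcoe hx₀ (fun s hs => h.subS (lt_of_le_of_lt hs.2 ht))
  have hnn : 0 ≤ Real.log ((b - x₀) / (b - t)) := by
    apply Real.log_nonneg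
    rw [le_div_iff₀ (by linarith)]
    linarith
  have h2 : edist (v x₀) (v t) ≤ ENNReal.ofReal
      (√(C * ∫ z in Ho, dens E S v z) * Real.log ((b - x₀) / (b - t))) := by
    refine h1.trans ?_
    rw [← lintegral_inv_sub hx₀ ht (Real.sqrt_nonneg _)]
    refine setLIntegral_mono' measurableSet_Icc fun s hs => ENNReal.ofReal_le_ofReal ?_
    have hd : deriv (fun s : ℝ => (s : ℂ)) s = 1 := (Complex.ofRealCLM.hasDerivAt (x := s)).deriv
    rw [hd, norm_one, one_mul]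
    have hsb : s < b := lt_of_le_of_lt hs.2 ht
    have h3 := h.grad hsb
    have h4 : 0 < b - s := sub_pos.2 hsb
    rw [show √(C * ∫ z in Ho, dens E S v z) / (b - s) =
      √((C * ∫ z in Ho, dens E S v z) / (b - s) ^ 2) by
        rw [Real.sqrt_div' _ (by positivity), Real.sqrt_sq h4.le]]
    apply Real.sqrt_le_sqrt
    calc _ ≤ _ := h3
      _ = _ := by ring
  rw [edist_dist] at h2
  exact (ENNReal.ofReal_le_ofReal_iff (mul_nonneg (Real.sqrt_nonneg _) hnn)).1 h2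

/-- Length of half circles around `b`. -/
lemma half_circle (h : HalfPlane J K Λ ε C L S P v b) {R r : ℝ} (hR : 0 < R) (hr : 0 < r)
    (hP : ((b + R : ℝ) : ℂ) ∉ P) (hfar : r / 2 ≤ dist (v ((b - R : ℝ) : ℂ)) (v ((b + R : ℝ) : ℂ))) :
    ENNReal.ofReal (r ^ 2 / (4 * Real.pi) / R) ≤ ∫⁻ θ in Ioo 0 Real.pi, ENNReal.ofReal R *
      ENNReal.ofReal (dens E S v (b + R * (Real.cos θ + Real.sin θ * Complex.I))) := by
  set γ : ℝ → ℂ := fun θ => b + R * (Real.cos θ + Real.sin θ * Complex.I) with hγ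
  have hγc : ContDiff ℝ 1 γ := by
    have h1 : ContDiff ℝ 1 (fun θ : ℝ => ((Real.cos θ : ℝ) : ℂ)) :=
      Complex.ofRealCLM.contDiff.comp Real.contDiff_cos
    have h2 : ContDiff ℝ 1 (fun θ : ℝ => ((Real.sin θ : ℝ) : ℂ)) :=
      Complex.ofRealCLM.contDiff.comp Real.contDiff_sin
    exact contDiff_const.add (contDiff_const.mul (h1.add (h2.mul contDiff_const)))
  have hγd : ∀ θ, ‖deriv γ θ‖ = R := by
    intro θ
    have h1 : HasDerivAt (fun θ : ℝ => ((Real.cos θ : ℝ) : ℂ)) ((-Real.sin θ : ℝ) : ℂ) θ :=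
      (Real.hasDerivAt_cos θ).ofReal_comp
    have h2 : HasDerivAt (fun θ : ℝ => ((Real.sin θ : ℝ) : ℂ)) ((Real.cos θ : ℝ) : ℂ) θ :=
      (Real.hasDerivAt_sin θ).ofReal_comp
    have h3 : HasDerivAt γ ((R : ℂ) * (((-Real.sin θ : ℝ) : ℂ) + ((Real.cos θ : ℝ) : ℂ) *
        Complex.I)) θ := ((h1.add (h2.mul_const Complex.I)).const_mul (R : ℂ)).const_add (b : ℂ)
    rw [h3.deriv, norm_mul, Complex.norm_real, Real.norm_of_nonneg hR.le]
    have h4 : ‖(((-Real.sin θ : ℝ) : ℂ) + ((Real.cos θ : ℝ) : ℂ) * Complex.I)‖ = 1 := by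
      rw [Complex.norm_eq_sqrt_sq_add_sq]
      simp [-Complex.ofReal_neg, -Complex.ofReal_sin, -Complex.ofReal_cos]
    rw [h4, mul_one]
  have hγm : ∀ θ ∈ Icc 0 Real.pi, γ θ ∈ S := by
    intro θ hθ
    have him : (γ θ).im = R * Real.sin θ := by
      simp [hγ, -Complex.ofReal_sin, -Complex.ofReal_cos]
    have hre : (γ θ).re = b + R * Real.cos θ := by
      simp [hγ, -Complex.ofReal_sin, -Complex.ofReal_cos]
    have hsin := Real.sin_nonneg_of_nonneg_of_le_pi hθ.1 hθ.2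
    rw [h.hS]
    refine ⟨?_, fun hPm => ?_⟩
    · show 0 ≤ (γ θ).im
      rw [him]; positivity
    · have h0 := h.real _ hPm
      rw [him] at h0
      have hs0 : Real.sin θ = 0 := by
        rcases mul_eq_zero.1 h0 with h1 | h1
        · exact absurd h1 hR.ne'
        · exact h1
      rcases hθ.1.eq_or_lt with h1 | h1
      · apply hP
        have : γ θ = ((b + R : ℝ) : ℂ) := by
          simp [hγ, ← h1]
        rwa [← this]
      · rcases hθ.2.eq_or_lt with h2 | h2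
        · have : γ θ = ((b - R : ℝ) : ℂ) := by
            simp [hγ, h2]; ring
          rw [this] at hPm
          exact (h.arc (b - R) (by linarith)).1 hPm
        · exact absurd hs0 (Real.sin_pos_of_pos_of_lt_pi h1 h2).ne'
  have h1 := h.curve.edist_le h.hJ hγc Real.pi_pos.le hγm
  have e0 : γ 0 = ((b + R : ℝ) : ℂ) := by simp [hγ]
  have eπ : γ Real.pi = ((b - R : ℝ) : ℂ) := by simp [hγ]; ring
  rw [e0, eπ, edist_comm] at h1
  have h2 : ENNReal.ofReal (r / 2) ≤ ∫⁻ t in Ioo 0 Real.pi,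
      ENNReal.ofReal (‖deriv γ t‖ * √(dens E S v (γ t))) := by
    refine le_trans ?_ (h1.trans_eq ?_)
    · rw [edist_dist]; exact ENNReal.ofReal_le_ofReal hfar
    · rw [restrict_Ioo_eq_restrict_Ioc, ← restrict_Ioc_eq_restrict_Icc]
  have hpi := Real.pi_pos
  -- pointwise AM-GM
  have h3 : ∀ t : ℝ, ENNReal.ofReal (‖deriv γ t‖ * √(dens E S v (γ t))) ≤
      ENNReal.ofReal (r / (4 * Real.pi)) +
        ENNReal.ofReal (Real.pi * R / r) * (ENNReal.ofReal R * ENNReal.ofReal (dens E S v (γ t))) := by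
    intro t
    rw [← ENNReal.ofReal_mul hR.le, ← ENNReal.ofReal_mul (by positivity),
      ← ENNReal.ofReal_add (by positivity)
        (mul_nonneg (by positivity) (mul_nonneg hR.le (dens_nonneg _ _ _)))]
    apply ENNReal.ofReal_le_ofReal
    rw [hγd t]
    set s := √(dens E S v (γ t)) with hs
    have hs2 : dens E S v (γ t) = s ^ 2 := (Real.sq_sqrt (dens_nonneg _ _ _)).symm
    rw [hs2]
    have : r / (4 * Real.pi) + Real.pi * R / r * (R * s ^ 2) - R * s =
      (r - 2 * Real.pi * R * s) ^ 2 / (4 * Real.pi * r) := by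
      field_simp
      ring
    have h5 : 0 ≤ (r - 2 * Real.pi * R * s) ^ 2 / (4 * Real.pi * r) := by positivity
    linarith
  set X := ∫⁻ θ in Ioo 0 Real.pi, ENNReal.ofReal R * ENNReal.ofReal (dens E S v (γ θ)) with hX
  have h4 : ENNReal.ofReal (r / 2) ≤ ENNReal.ofReal (r / 4) + ENNReal.ofReal (Real.pi * R / r) * X := by
    refine h2.trans ((lintegral_mono h3).trans ?_)
    rw [lintegral_add_left measurable_const, lintegral_const_mul' _ _ ENNReal.ofReal_ne_top]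
    simp only [lintegral_const, MeasurableSet.univ, Measure.restrict_apply, univ_inter,
      Real.volume_Ioo, sub_zero]
    rw [← ENNReal.ofReal_mul (by positivity)]
    apply le_of_eq
    congr 2
    field_simp
  have h5 : ENNReal.ofReal (r / 4) ≤ ENNReal.ofReal (Real.pi * R / r) * X := by
    have : ENNReal.ofReal (r / 2) = ENNReal.ofReal (r / 4) + ENNReal.ofReal (r / 4) := by
      rw [← ENNReal.ofReal_add (by positivity) (by positivity)]
      congr 1; ring
    rw [this] at h4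
    exact (ENNReal.add_le_add_iff_left ENNReal.ofReal_ne_top).1 h4
  have h6 : ENNReal.ofReal (r / (Real.pi * R)) * ENNReal.ofReal (r / 4) ≤
      ENNReal.ofReal (r / (Real.pi * R)) * (ENNReal.ofReal (Real.pi * R / r) * X) := by
    gcongr
  rw [← mul_assoc, ← ENNReal.ofReal_mul (by positivity), ← ENNReal.ofReal_mul (by positivity)] at h6
  have h7 : r / (Real.pi * R) * (Real.pi * R / r) = 1 := by field_simp
  have h8 : r / (Real.pi * R) * (r / 4) = r ^ 2 / (4 * Real.pi) / R := by field_simp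
  rw [h7, h8, ENNReal.ofReal_one, one_mul] at h6
  exact h6

/-- The time at which the arc leaves the ball of radius `r / 2`. -/
lemma exists_exit (h : HalfPlane J K Λ ε C L S P v b) {x₀ r : ℝ} (hx₀ : x₀ < b) (hr : 0 < r)
    {q : M} (hq : Tendsto v (𝓝[S] (b : ℂ)) (𝓝 q)) (hqr : r ≤ dist (v x₀) q) :
    ∃ t₁ : ℝ, x₀ < t₁ ∧ t₁ < b ∧ r / 2 ≤ dist (v x₀) (v t₁) ∧
      ∀ t : ℝ, x₀ ≤ t → t < t₁ → dist (v x₀) (v t) < r / 2 := by
  -- a point beyond `r / 2`
  have hcoe : Tendsto (fun t : ℝ => (t : ℂ)) (𝓝[<] b) (𝓝[S] (b : ℂ)) := by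
    refine tendsto_nhdsWithin_iff.2 ⟨?_, ?_⟩
    · exact (Complex.continuous_ofReal.tendsto b).mono_left nhdsWithin_le_nhds
    · filter_upwards [self_mem_nhdsWithin] with t ht using h.subS ht
  have h1 : Tendsto (fun t : ℝ => dist (v x₀) (v t)) (𝓝[<] b) (𝓝 (dist (v x₀) q)) :=
    tendsto_const_nhds.dist (hq.comp hcoe)
  have h2 : ∀ᶠ t : ℝ in 𝓝[<] b, r / 2 < dist (v x₀) (v t) :=
    h1.eventually (lt_mem_nhds (by linarith))
  have h3 : ∀ᶠ t : ℝ in 𝓝[<] b, x₀ < t := by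
    filter_upwards [Ioo_mem_nhdsLT hx₀] with t ht using ht.1
  obtain ⟨t₂, ⟨h4, h5⟩, h6⟩ := ((h2.and h3).and self_mem_nhdsWithin).exists
  have h6' : t₂ < b := h6
  have hcont : ContinuousOn (fun t : ℝ => dist (v x₀) (v t)) (Icc x₀ t₂) := by
    exact continuous_dist.comp_continuousOn (continuousOn_const.prodMk
      (h.curve.smooth.continuousOn.comp
      Complex.continuous_ofReal.continuousOn fun t ht => h.subS (lt_of_le_of_lt ht.2 h6')))
  have hcl : IsClosed {t ∈ Icc x₀ t₂ | r / 2 ≤ dist (v x₀) (v t)} :=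
    isClosed_Icc.isClosed_le continuousOn_const hcont
  have hcomp : IsCompact {t ∈ Icc x₀ t₂ | r / 2 ≤ dist (v x₀) (v t)} :=
    isCompact_Icc.of_isClosed_subset hcl (fun t ht => ht.1)
  obtain ⟨t₁, ht₁, hmin⟩ := hcomp.exists_isLeast ⟨t₂, ⟨h5.le, le_rfl⟩, h4.le⟩
  refine ⟨t₁, ?_, lt_of_le_of_lt ht₁.1.2 h6', ht₁.2, ?_⟩
  · rcases ht₁.1.1.eq_or_lt with h7 | h7
    · have := ht₁.2
      rw [← h7, dist_self] at this
      linarith
    · exact h7
  · intro t ht1 ht2
    by_contra hcon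
    push Not at hcon
    have : t₁ ≤ t := hmin ⟨⟨ht1, ht2.le.trans ht₁.1.2⟩, hcon⟩
    linarith

/-- The energy bound. -/
theorem energy_bound (h : HalfPlane J K Λ ε C L S P v b) {x₀ r : ℝ} (hx₀ : x₀ < b) (hr : 0 < r)
    (hfar : ∀ t : ℝ, b < t → (t : ℂ) ∉ P → r ≤ dist (v x₀) (v t))
    {q : M} (hq : Tendsto v (𝓝[S] (b : ℂ)) (𝓝 q)) (hqr : r ≤ dist (v x₀) q) :
    r ^ 6 ≤ 64 * Real.pi ^ 2 * C * (∫ z in Ho, dens E S v z) ^ 3 := by
  obtain ⟨t₁, h1, h2, h3, h4⟩ := h.exists_exit hx₀ hr hq hqr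
  set En := ∫ z in Ho, dens E S v z with hEn
  have hEn0 : 0 ≤ En := energy_nonneg S v
  set Lg := Real.log ((b - x₀) / (b - t₁)) with hLg
  have hLg0 : 0 ≤ Lg := by
    apply Real.log_nonneg
    rw [le_div_iff₀ (by linarith)]
    linarith
  have hpi := Real.pi_pos
  -- first inequality
  have i1 : r / 2 ≤ √(C * En) * Lg := h3.trans (h.dist_arc h1.le h2)
  -- second inequality
  have i2 : r ^ 2 / (4 * Real.pi) * Lg ≤ En := by
    classical
    set f : ℂ → ℝ≥0∞ := Ho.piecewise (fun z => ENNReal.ofReal (dens E S v z)) 0 with hf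
    have hHoS : Ho ⊆ S := by
      intro z hz
      rw [h.hS]
      exact ⟨Ho_subset_Hc hz, fun hzP => by
        have h5 : 0 < z.im := hz
        rw [h.real z hzP] at h5
        exact lt_irrefl _ h5⟩
    have hfm : Measurable f := by
      refine ContinuousOn.measurable_piecewise ?_ continuousOn_const isOpen_Ho.measurableSet
      exact ENNReal.continuous_ofReal.comp_continuousOn
        ((h.curve.contDiffOn_dens h.hJ).continuousOn.mono hHoS)
    have hfi : ∫⁻ z, f z = ENNReal.ofReal En := by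
      rw [hEn, ofReal_integral_eq_lintegral_ofReal h.int
        (Eventually.of_forall fun _ => dens_nonneg _ _ _), hf,
        lintegral_piecewise isOpen_Ho.measurableSet]
      simp
    have hpol := polar_lower f hfm b (a := b - t₁) (c := b - x₀) (by linarith)
    have hlow : ∫⁻ R in Ioo (b - t₁) (b - x₀), ENNReal.ofReal (r ^ 2 / (4 * Real.pi) / R) ≤
        ∫⁻ R in Ioo (b - t₁) (b - x₀), ∫⁻ θ in Ioo 0 Real.pi, ENNReal.ofReal R *
          f (b + R * (Real.cos θ + Real.sin θ * Complex.I)) := by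
      -- exceptional radii
      have hfinite : {R : ℝ | ((b + R : ℝ) : ℂ) ∈ P}.Finite := by
        refine Set.Finite.preimage (fun x _ y _ hxy => ?_) h.fin
        have := Complex.ofReal_injective hxy
        linarith
      have hae : ∀ᵐ R ∂(volume.restrict (Ioo (b - t₁) (b - x₀))), ((b + R : ℝ) : ℂ) ∉ P := by
        refine ae_restrict_of_ae ?_
        exact (measure_eq_zero_iff_ae_notMem.1 (hfinite.measure_zero volume))
      refine lintegral_mono_ae ?_
      filter_upwards [hae, ae_restrict_mem measurableSet_Ioo] with R hRP hR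
      have hR0 : 0 < R := lt_trans (by linarith) hR.1
      have hd : r / 2 ≤ dist (v ((b - R : ℝ) : ℂ)) (v ((b + R : ℝ) : ℂ)) := by
        have a1 := hfar (b + R) (by linarith) hRP
        have a2 := h4 (b - R) (by linarith [hR.2]) (by linarith [hR.1])
        have a3 := dist_triangle (v x₀) (v ((b - R : ℝ) : ℂ)) (v ((b + R : ℝ) : ℂ))
        linarith
      refine (h.half_circle hR0 hr hRP hd).trans ?_
      refine setLIntegral_mono' measurableSet_Ioo fun θ hθ => ?_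
      have hmem : (b : ℂ) + R * (Real.cos θ + Real.sin θ * Complex.I) ∈ Ho := by
        show 0 < ((b : ℂ) + R * (Real.cos θ + Real.sin θ * Complex.I)).im
        have : ((b : ℂ) + R * (Real.cos θ + Real.sin θ * Complex.I)).im = R * Real.sin θ := by
          simp [-Complex.ofReal_sin, -Complex.ofReal_cos]
        rw [this]
        exact mul_pos hR0 (Real.sin_pos_of_pos_of_lt_pi hθ.1 hθ.2)
      rw [hf, piecewise_eq_of_mem _ _ _ hmem]
    rw [lintegral_inv (by linarith) (by linarith) (by positivity)] at hlow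
    have := hlow.trans hpol
    rw [hfi] at this
    exact (ENNReal.ofReal_le_ofReal_iff hEn0).1 this
  have i3 : r ^ 3 / (8 * Real.pi) ≤ √(C * En) * En := by
    calc r ^ 3 / (8 * Real.pi) = r ^ 2 / (4 * Real.pi) * (r / 2) := by ring
      _ ≤ r ^ 2 / (4 * Real.pi) * (√(C * En) * Lg) := by gcongr
      _ = √(C * En) * (r ^ 2 / (4 * Real.pi) * Lg) := by ring
      _ ≤ √(C * En) * En := by gcongr
  have i4 : (r ^ 3 / (8 * Real.pi)) ^ 2 ≤ (√(C * En) * En) ^ 2 := by gcongr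
  rw [mul_pow, Real.sq_sqrt (mul_nonneg h.hC.le hEn0)] at i4
  have i5 : (r ^ 3 / (8 * Real.pi)) ^ 2 = r ^ 6 / (64 * Real.pi ^ 2) := by ring
  rw [i5, div_le_iff₀ (by positivity)] at i4
  linarith

end HalfPlane

end

end Pool.Agent.MP_c86656_gt
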